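import Pool.Agent.U283.LL.Spec

/-!
# Project LL, package A: irreducibility of the Steinberg representation
-/

set_option autoImplicit false

open scoped WithZero Matrix
open Matrix

namespace Pool.Agent.U283.LL

noncomputable section

namespace PkgA

variable {F : Type} [Field F] {v : Valuation F ℤᵐ⁰}

theorem act_inv_eq (A : G2 F) (f : (Fin 2 → F) → ℂ) :
    act A⁻¹ f = fun x => f ((A : M2 F) *ᵥ x) := by
  unfold act
  rw [inv_inv]

theorem upper_mulVec (a : Fˣ) (b : F) (x : Fin 2 → F) :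
    ((upper a b 1 : G2 F) : M2 F) *ᵥ x = ![(a : F) * x 0 + b * x 1, x 1] := by
  have h1 : ((upper a b 1 : G2 F) : M2 F) = !![(a : F), b; 0, ((1 : Fˣ) : F)] := rfl
  rw [h1]
  funext i
  fin_cases i <;> simp [Matrix.mulVec, dotProduct, Fin.sum_univ_two]

/-- `PFm` is monotone in the level. -/
theorem PFm.mono {m m' : ℕ} (h : m ≤ m') {f : (Fin 2 → F) → ℂ} (hf : PFm v m f) : PFm v m' f := by
  refine ⟨hf.1, hf.2.1, fun x y hx hxy => hf.2.2 x y hx (hxy.trans ?_)⟩
  refine mul_le_mul' ?_ le_rfl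
  rw [WithZero.exp_le_exp]
  omega

theorem nrm_one_right (z : F) : 1 ≤ nrm v ![z, 1] := by
  simp [nrm]

theorem exists_level {f : (Fin 2 → F) → ℂ} (hf : PF v f) : ∃ m : ℕ, 1 ≤ m ∧ PFm v m f := by
  obtain ⟨m, hm⟩ := hf
  exact ⟨m + 1, by omega, PFm.mono (by omega) hm⟩

/-- points with second coordinate one -/
theorem f_of_ne {m : ℕ} {f : (Fin 2 → F) → ℂ} (hf : PFm v m f) {x : Fin 2 → F} (hx : x 1 ≠ 0) :
    f x = f ![x 0 / x 1, 1] := by
  rw [← hf.2.1 (x 1) ![x 0 / x 1, 1] hx]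
  congr 1
  funext i
  fin_cases i
  · simp only [Fin.zero_eta, Fin.isValue, Pi.smul_apply, cons_val_zero, smul_eq_mul]
    field_simp
  · simp

theorem f_of_eq {m : ℕ} {f : (Fin 2 → F) → ℂ} (hf : PFm v m f) {x : Fin 2 → F} (hx : x 1 = 0)
    (h0 : x ≠ 0) : f x = f ![1, 0] := by
  have h1 : x 0 ≠ 0 := by
    intro h
    apply h0
    funext i
    fin_cases i
    · exact h
    · exact hx
  rw [← hf.2.1 (x 0) ![1, 0] h1]
  congr 1
  funext i
  fin_cases i
  · simp
  · simp [hx]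

/-- translation invariance -/
theorem h_add {m : ℕ} {f : (Fin 2 → F) → ℂ} (hf : PFm v m f) (z w : F)
    (hw : v w ≤ WithZero.exp (-(m : ℤ))) : f ![z + w, 1] = f ![z, 1] := by
  refine hf.2.2 _ _ ?_ ?_
  · intro h
    have := congrFun h 1
    simp at this
  · have h1 : nrm v (![z + w, 1] - ![z, 1]) = v w := by
      simp [nrm]
    rw [h1]
    exact hw.trans (le_mul_of_one_le_right' (nrm_one_right z))

/-- the value near infinity -/
theorem h_far {m : ℕ} {f : (Fin 2 → F) → ℂ} (hf : PFm v m f) (z : F)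
    (hz : WithZero.exp (m : ℤ) ≤ v z) : f ![z, 1] = f ![1, 0] := by
  have hv : v z ≠ 0 := by
    intro h
    rw [h] at hz
    exact absurd hz (not_le.2 WithZero.exp_pos)
  have hz0 : z ≠ 0 := fun h => hv (by rw [h, map_zero])
  have h1 : f ![z, 1] = f ![1, z⁻¹] := by
    rw [← hf.2.1 z ![1, z⁻¹] hz0]
    congr 1
    funext i
    fin_cases i
    · simp
    · simp [hz0]
  rw [h1]
  refine hf.2.2 _ _ ?_ ?_
  · intro h
    have := congrFun h 0
    simp at this
  · have h2 : nrm v (![1, z⁻¹] - ![1, 0]) = v z⁻¹ := by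
      simp [nrm]
    have h3 : nrm v ![(1 : F), 0] = 1 := by
      simp [nrm]
    rw [h2, h3, mul_one, map_inv₀, WithZero.exp_neg]
    exact inv_anti₀ WithZero.exp_pos hz

open scoped Classical in
/-- the indicator function of the ball of radius `exp r` around `z0` -/
def ball (v : Valuation F ℤᵐ⁰) (z0 : F) (r : ℤ) : (Fin 2 → F) → ℂ := fun x =>
  if x 1 ≠ 0 ∧ v (x 0 / x 1 - z0) ≤ WithZero.exp r then 1 else 0


theorem val_unif_ne {ϖ : F} (hϖ : v ϖ = WithZero.exp (-1 : ℤ)) : ϖ ≠ 0 := by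
  intro h
  rw [h, map_zero] at hϖ
  exact absurd hϖ.symm (WithZero.exp_pos (a := (-1 : ℤ))).ne'

theorem val_zpow {ϖ : F} (hϖ : v ϖ = WithZero.exp (-1 : ℤ)) (r : ℤ) :
    v (ϖ ^ r) = WithZero.exp (-r) := by
  rw [map_zpow₀, hϖ, ← WithZero.exp_zsmul]
  congr 1
  simp

/-- representatives of `B_m / B_{-m}` -/
theorem exists_reps (hL : LocalHyp v) (m : ℕ) : ∃ E : Finset F,
    (∀ e ∈ E, v e ≤ WithZero.exp (m : ℤ)) ∧ ∀ z, v z ≤ WithZero.exp (m : ℤ) →
      ∃! e, e ∈ E ∧ v (z - e) ≤ WithZero.exp (-(m : ℤ)) := by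
  classical
  obtain ⟨ϖ, hϖ⟩ := hL.unif
  obtain ⟨E0, hE0, hE0'⟩ := hL.reps (2 * m)
  have h0 : ϖ ≠ 0 := val_unif_ne hϖ
  have h1 : v (ϖ ^ (m : ℤ)) = WithZero.exp (-(m : ℤ)) := val_zpow hϖ m
  have h2 : v (ϖ ^ (-(m : ℤ))) = WithZero.exp (m : ℤ) := by
    rw [val_zpow hϖ, neg_neg]
  have h3 : ϖ ^ (m : ℤ) * ϖ ^ (-(m : ℤ)) = 1 := by
    rw [← zpow_add₀ h0, add_neg_cancel, zpow_zero]
  have h4 : (WithZero.exp (-(m : ℤ)) : ℤᵐ⁰) * WithZero.exp (m : ℤ) = 1 := by
    rw [← WithZero.exp_add, neg_add_cancel, WithZero.exp_zero]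
  -- the scaled congruence
  have key : ∀ z e : F, v (ϖ ^ (m : ℤ) * z - e) ≤ WithZero.exp (-((2 * m : ℕ) : ℤ)) ↔
      v (z - e * ϖ ^ (-(m : ℤ))) ≤ WithZero.exp (-(m : ℤ)) := by
    intro z e
    have e1 : ϖ ^ (m : ℤ) * z - e = ϖ ^ (m : ℤ) * (z - e * ϖ ^ (-(m : ℤ))) := by
      linear_combination e * h3
    have e2 : (WithZero.exp (-((2 * m : ℕ) : ℤ)) : ℤᵐ⁰) =
        WithZero.exp (-(m : ℤ)) * WithZero.exp (-(m : ℤ)) := by
      rw [← WithZero.exp_add]
      congr 1
      push_cast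
      ring
    rw [e1, map_mul, h1, e2]
    exact mul_le_mul_iff_right₀ WithZero.exp_pos
  refine ⟨E0.image fun e => e * ϖ ^ (-(m : ℤ)), ?_, ?_⟩
  · intro e he
    obtain ⟨e', he', rfl⟩ := Finset.mem_image.1 he
    rw [map_mul, h2]
    exact mul_le_of_le_one_left' (hE0 _ he')
  · intro z hz
    have h5 : v (ϖ ^ (m : ℤ) * z) ≤ 1 := by
      rw [map_mul, h1, ← h4]
      exact mul_le_mul' le_rfl hz
    obtain ⟨e, ⟨he, he'⟩, huniq⟩ := hE0' _ h5
    refine ⟨e * ϖ ^ (-(m : ℤ)), ⟨Finset.mem_image_of_mem _ he, (key _ _).1 he'⟩, ?_⟩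
    rintro y ⟨hy, hy'⟩
    obtain ⟨e'', he'', rfl⟩ := Finset.mem_image.1 hy
    rw [huniq e'' ⟨he'', (key _ _).2 hy'⟩]

/-- a full sum over the representatives does not change by translation -/
theorem sum_translate {m : ℕ} {E : Finset F} (hE : ∀ e ∈ E, v e ≤ WithZero.exp (m : ℤ))
    (hE' : ∀ z, v z ≤ WithZero.exp (m : ℤ) →
      ∃! e, e ∈ E ∧ v (z - e) ≤ WithZero.exp (-(m : ℤ))) (H : F → ℂ)
    (hH : ∀ z w, v w ≤ WithZero.exp (-(m : ℤ)) → H (z + w) = H z) (z : F)
    (hz : v z ≤ WithZero.exp (m : ℤ)) : ∑ b ∈ E, H (z + b) = ∑ b ∈ E, H b := by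
  classical
  have hzb : ∀ b ∈ E, v (z + b) ≤ WithZero.exp (m : ℤ) := fun b hb => v.map_add_le hz (hE b hb)
  choose! ρ hρ using fun z hz => (hE' z hz).exists
  have hinj : Set.InjOn (fun b => ρ (z + b)) (E : Set F) := by
    intro b hb b' hb' h
    simp only at h
    have h1 := (hρ (z + b) (hzb b hb)).2
    have h2 := (hρ (z + b') (hzb b' hb')).2
    rw [h] at h1
    have h3 : v (b - b') ≤ WithZero.exp (-(m : ℤ)) := by
      have e1 : b - b' = (z + b - ρ (z + b')) - (z + b' - ρ (z + b')) := by ring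
      rw [e1]
      exact v.map_sub_le h1 h2
    have h4 : v (b - b) ≤ WithZero.exp (-(m : ℤ)) := by
      rw [sub_self, map_zero]
      exact zero_le
    exact (hE' b (hE b hb)).unique ⟨hb, h4⟩ ⟨hb', h3⟩
  have hmaps : Set.MapsTo (fun b => ρ (z + b)) (E : Set F) (E : Set F) :=
    fun b hb => (hρ (z + b) (hzb b hb)).1
  have hsurj : Set.SurjOn (fun b => ρ (z + b)) (E : Set F) (E : Set F) :=
    Finset.surjOn_of_injOn_of_card_le _ hmaps hinj le_rfl
  refine Finset.sum_nbij (fun b => ρ (z + b)) (fun b hb => hmaps hb) hinj hsurj ?_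
  intro b hb
  have h1 := (hρ (z + b) (hzb b hb)).2
  have h2 := hH (ρ (z + b)) (z + b - ρ (z + b)) h1
  rw [add_sub_cancel] at h2
  exact h2

/-- every nonzero vector has the same value as one of finitely many -/
theorem exists_points (hL : LocalHyp v) {m : ℕ} {f : (Fin 2 → F) → ℂ} (hf : PFm v m f) :
    ∃ S : Finset (Fin 2 → F), S.Nonempty ∧ (∀ p ∈ S, p ≠ 0) ∧
      ∀ x, x ≠ 0 → ∃ p ∈ S, f x = f p := by
  classical
  obtain ⟨E, hE, hE'⟩ := exists_reps hL m
  refine ⟨insert ![1, 0] (E.image fun e => ![e, 1]), Finset.insert_nonempty _ _, ?_, ?_⟩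
  · intro p hp
    rcases Finset.mem_insert.1 hp with rfl | hp
    · intro h
      have := congrFun h 0
      simp at this
    · obtain ⟨e, -, rfl⟩ := Finset.mem_image.1 hp
      intro h
      have := congrFun h 1
      simp at this
  · intro x hx
    by_cases h1 : x 1 = 0
    · exact ⟨_, Finset.mem_insert_self _ _, f_of_eq hf h1 hx⟩
    · rw [f_of_ne hf h1]
      by_cases h2 : v (x 0 / x 1) ≤ WithZero.exp (m : ℤ)
      · obtain ⟨e, ⟨he, he'⟩, -⟩ := hE' _ h2
        refine ⟨![e, 1], Finset.mem_insert_of_mem (Finset.mem_image_of_mem _ he), ?_⟩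
        have h3 := h_add hf e (x 0 / x 1 - e) he'
        rw [add_sub_cancel] at h3
        exact h3
      · exact ⟨_, Finset.mem_insert_self _ _, h_far hf _ (not_le.1 h2).le⟩

/-- a matrix which maps `(1, 0)` to a given nonzero vector -/
theorem exists_mat (p : Fin 2 → F) (hp : p ≠ 0) : ∃ A : G2 F, (A : M2 F) *ᵥ ![1, 0] = p := by
  by_cases h : p 0 = 0
  · have h1 : p 1 ≠ 0 := by
      intro h1
      apply hp
      funext i
      fin_cases i
      · exact h
      · exact h1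
    refine ⟨Matrix.GeneralLinearGroup.mkOfDetNeZero !![p 0, 1; p 1, 0] ?_, ?_⟩
    · rw [Matrix.det_fin_two_of]
      simpa using h1
    · show !![p 0, 1; p 1, 0] *ᵥ ![1, 0] = p
      funext i
      fin_cases i <;> simp [Matrix.mulVec, dotProduct, Fin.sum_univ_two]
  · refine ⟨Matrix.GeneralLinearGroup.mkOfDetNeZero !![p 0, 0; p 1, 1] ?_, ?_⟩
    · rw [Matrix.det_fin_two_of]
      simpa using h
    · show !![p 0, 0; p 1, 1] *ᵥ ![1, 0] = p
      funext i
      fin_cases i <;> simp [Matrix.mulVec, dotProduct, Fin.sum_univ_two]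

theorem mulVec_ne_zero (A : G2 F) {x : Fin 2 → F} (hx : x ≠ 0) : (A : M2 F) *ᵥ x ≠ 0 := by
  intro h
  apply hx
  have h1 : ((A⁻¹ : G2 F) : M2 F) *ᵥ ((A : M2 F) *ᵥ x) = x := by
    rw [Matrix.mulVec_mulVec, ← Units.val_mul, inv_mul_cancel, Units.val_one, Matrix.one_mulVec]
  rw [← h1, h, Matrix.mulVec_zero]

theorem mulVec_inv (A : G2 F) (x : Fin 2 → F) :
    (A : M2 F) *ᵥ (((A⁻¹ : G2 F) : M2 F) *ᵥ x) = x := by
  rw [Matrix.mulVec_mulVec, ← Units.val_mul, mul_inv_cancel, Units.val_one, Matrix.one_mulVec]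


section main

variable {W : Submodule ℂ ((Fin 2 → F) → ℂ)}

theorem comp_mem (hact : ∀ g, ∀ f ∈ W, act g f ∈ W) (A : G2 F) {f : (Fin 2 → F) → ℂ}
    (hf : f ∈ W) : (fun x => f ((A : M2 F) *ᵥ x)) ∈ W := by
  rw [← act_inv_eq]
  exact hact _ _ hf

/-- a nonconstant element with a nonconstant real part -/
theorem exists_re (hPF : ∀ f ∈ W, PF v f) {f : (Fin 2 → F) → ℂ} (hf : f ∈ W)
    (hnc : ¬ ∃ c : ℂ, f = c • one1 F) : ∃ f ∈ W, ∃ x y, x ≠ 0 ∧ y ≠ 0 ∧ (f x).re ≠ (f y).re := by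
  classical
  obtain ⟨m, -, hm⟩ := exists_level (hPF f hf)
  have h1 : ∃ x, x ≠ 0 ∧ f x ≠ f ![1, 0] := by
    by_contra hcon
    push Not at hcon
    refine hnc ⟨f ![1, 0], ?_⟩
    funext x
    rw [Pi.smul_apply, one1]
    by_cases hx : x = 0
    · rw [if_pos hx, hx, hm.1, smul_zero]
    · rw [if_neg hx, hcon x hx, smul_eq_mul, mul_one]
  obtain ⟨x, hx, hxe⟩ := h1
  have he : (![1, 0] : Fin 2 → F) ≠ 0 := by
    intro h
    have := congrFun h 0
    simp at this
  by_cases hre : (f x).re = (f ![1, 0]).re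
  · refine ⟨(-Complex.I) • f, W.smul_mem _ hf, x, _, hx, he, ?_⟩
    intro h
    apply hxe
    apply Complex.ext hre
    simpa using h
  · exact ⟨f, hf, x, _, hx, he, hre⟩

/-- an element whose real part is maximal at `(1, 0)` and not constant -/
theorem exists_max (hL : LocalHyp v) (hPF : ∀ f ∈ W, PF v f) (hact : ∀ g, ∀ f ∈ W, act g f ∈ W)
    {f : (Fin 2 → F) → ℂ} (hf : f ∈ W) (hnc : ¬ ∃ c : ℂ, f = c • one1 F) :
    ∃ f ∈ W, (∀ x, x ≠ 0 → (f x).re ≤ (f ![1, 0]).re) ∧
      ∃ x, x ≠ 0 ∧ (f x).re < (f ![1, 0]).re := by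
  obtain ⟨f, hf, x, y, hx, hy, hxy⟩ := exists_re hPF hf hnc
  obtain ⟨m, -, hm⟩ := exists_level (hPF f hf)
  obtain ⟨S, hS, hS0, hSx⟩ := exists_points hL hm
  obtain ⟨p, hp, hpmax⟩ := S.exists_max_image (fun p => (f p).re) hS
  obtain ⟨A, hA⟩ := exists_mat p (hS0 p hp)
  have hmax : ∀ x, x ≠ 0 → (f x).re ≤ (f p).re := by
    intro x hx
    obtain ⟨q, hq, h⟩ := hSx x hx
    rw [h]
    exact hpmax q hq
  have hlt : ∃ x, x ≠ 0 ∧ (f x).re < (f p).re := by
    by_cases h : (f x).re = (f p).re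
    · refine ⟨y, hy, lt_of_le_of_ne (hmax y hy) ?_⟩
      rw [← h]
      exact hxy.symm
    · exact ⟨x, hx, lt_of_le_of_ne (hmax x hx) h⟩
  refine ⟨_, comp_mem hact A hf, fun x hx => ?_, ?_⟩
  · simp only [hA]
    exact hmax _ (mulVec_ne_zero A hx)
  · obtain ⟨x, hx, hlt⟩ := hlt
    refine ⟨((A⁻¹ : G2 F) : M2 F) *ᵥ x, mulVec_ne_zero A⁻¹ hx, ?_⟩
    simp only [hA, mulVec_inv]
    exact hlt

open scoped Classical in
theorem one1_apply (x : Fin 2 → F) (hx : x ≠ 0) : one1 F x = 1 := by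
  rw [one1, if_neg hx]

/-- the indicator function of a ball around `0` -/
theorem ball_zero_mem (hL : LocalHyp v) (hPF : ∀ f ∈ W, PF v f)
    (hact : ∀ g, ∀ f ∈ W, act g f ∈ W) (h1 : one1 F ∈ W)
    {f : (Fin 2 → F) → ℂ} (hf : f ∈ W) (hnc : ¬ ∃ c : ℂ, f = c • one1 F) :
    ∃ m : ℕ, ball v 0 (m : ℤ) ∈ W := by
  classical
  obtain ⟨f, hf, hmax, x₀, hx₀, hlt⟩ := exists_max hL hPF hact hf hnc
  obtain ⟨m, hm1, hm⟩ := exists_level (hPF f hf)
  obtain ⟨E, hE, hE'⟩ := exists_reps hL m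
  refine ⟨m, ?_⟩
  set h : F → ℂ := fun z => f ![z, 1] - f ![1, 0] with hh
  have hadd : ∀ z w, v w ≤ WithZero.exp (-(m : ℤ)) → h (z + w) = h z := by
    intro z w hw
    simp only [hh, h_add hm z w hw]
  have hfar : ∀ z, WithZero.exp (m : ℤ) ≤ v z → h z = 0 := by
    intro z hz
    simp only [hh, h_far hm z hz, sub_self]
  have hre : ∀ z, (h z).re ≤ 0 := by
    intro z
    have h2 : (![z, 1] : Fin 2 → F) ≠ 0 := by
      intro h
      have := congrFun h 1
      simp at this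
    have h3 := hmax _ h2
    simp only [hh, Complex.sub_re]
    linarith
  -- the strict point
  have hx1 : x₀ 1 ≠ 0 := by
    intro hx1
    rw [f_of_eq hm hx1 hx₀] at hlt
    exact lt_irrefl _ hlt
  have hz : (h (x₀ 0 / x₀ 1)).re < 0 := by
    rw [f_of_ne hm hx1] at hlt
    simp only [hh, Complex.sub_re]
    linarith
  have hzm : v (x₀ 0 / x₀ 1) ≤ WithZero.exp (m : ℤ) := by
    by_contra hcon
    rw [hfar _ (not_le.1 hcon).le] at hz
    simp at hz
  obtain ⟨e, ⟨he, he'⟩, -⟩ := hE' _ hzm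
  have hhe : h (x₀ 0 / x₀ 1) = h e := by
    have h3 := hadd e (x₀ 0 / x₀ 1 - e) he'
    rw [add_sub_cancel] at h3
    exact h3
  set I : ℂ := ∑ b ∈ E, h b with hI
  have hI0 : I ≠ 0 := by
    intro h0
    have h3 : I.re < 0 := by
      rw [hI, Complex.re_sum]
      refine Finset.sum_neg' (fun b _ => hre b) ⟨e, he, ?_⟩
      rw [← hhe]
      exact hz
    rw [h0] at h3
    simp at h3
  -- the sum of the translates
  have hS : (∑ b ∈ E, fun x => f (((upper 1 b 1 : G2 F) : M2 F) *ᵥ x)) ∈ W :=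
    W.sum_mem fun b _ => comp_mem hact _ hf
  have hSeq : (∑ b ∈ E, fun x => f (((upper 1 b 1 : G2 F) : M2 F) *ᵥ x)) =
      (((E.card : ℂ) * f ![1, 0]) • one1 F + I • ball v 0 (m : ℤ)) := by
    funext x
    rw [Finset.sum_apply, Pi.add_apply, Pi.smul_apply, Pi.smul_apply]
    simp only [upper_mulVec, Units.val_one, one_mul, smul_eq_mul]
    by_cases hx : x = 0
    · subst hx
      have e1 : ∀ b : F, (![(0 : Fin 2 → F) 0 + b * (0 : Fin 2 → F) 1, (0 : Fin 2 → F) 1]) =
          (0 : Fin 2 → F) := by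
        intro b
        funext i
        fin_cases i <;> simp
      simp only [e1, hm.1, one1, ball]
      simp
    · rw [one1_apply x hx, mul_one]
      by_cases hx1 : x 1 = 0
      · have hb : ball v 0 (m : ℤ) x = 0 := by
          rw [ball, if_neg]
          simp [hx1]
        rw [hb, mul_zero, add_zero]
        have e1 : ∀ b : F, f ![x 0 + b * x 1, x 1] = f ![1, 0] := by
          intro b
          refine f_of_eq hm (by simpa using hx1) ?_
          intro h3
          apply hx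
          have h4 := congrFun h3 0
          simp only [Matrix.cons_val_zero, Pi.zero_apply, hx1, mul_zero, add_zero] at h4
          funext i
          fin_cases i
          · exact h4
          · exact hx1
        simp only [e1, Finset.sum_const, nsmul_eq_mul]
      · have e1 : ∀ b : F, f ![x 0 + b * x 1, x 1] = h (x 0 / x 1 + b) + f ![1, 0] := by
          intro b
          rw [f_of_ne hm (x := ![x 0 + b * x 1, x 1]) (by simpa using hx1)]
          simp only [hh, Matrix.cons_val_zero, Matrix.cons_val_one, sub_add_cancel]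
          congr 2
          field_simp
        simp only [e1, Finset.sum_add_distrib, Finset.sum_const, nsmul_eq_mul]
        rw [add_comm]
        congr 1
        by_cases hzm : v (x 0 / x 1) ≤ WithZero.exp (m : ℤ)
        · have hb : ball v 0 (m : ℤ) x = 1 := by
            rw [ball, if_pos]
            exact ⟨hx1, by rw [sub_zero]; exact hzm⟩
          rw [hb, mul_one, sum_translate hE hE' h hadd _ hzm]
        · have hb : ball v 0 (m : ℤ) x = 0 := by
            rw [ball, if_neg]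
            rw [sub_zero]
            exact fun h => hzm h.2
          rw [hb, mul_zero]
          refine Finset.sum_eq_zero fun b hb => hfar _ ?_
          have h3 : v b < v (x 0 / x 1) := (hE b hb).trans_lt (not_le.1 hzm)
          rw [v.map_add_eq_of_lt_left h3]
          exact (not_le.1 hzm).le
  rw [hSeq] at hS
  have h3 : I • ball v 0 (m : ℤ) ∈ W := by
    have h4 := W.sub_mem hS (W.smul_mem ((E.card : ℂ) * f ![1, 0]) h1)
    rwa [add_sub_cancel_left] at h4
  have h4 := W.smul_mem I⁻¹ h3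
  rwa [smul_smul, inv_mul_cancel₀ hI0, one_smul] at h4

/-- the indicator functions of all balls -/
theorem ball_mem (hL : LocalHyp v) (hact : ∀ g, ∀ f ∈ W, act g f ∈ W) {m : ℕ}
    (h : ball v 0 (m : ℤ) ∈ W) (z₀ : F) (r : ℤ) : ball v z₀ r ∈ W := by
  classical
  obtain ⟨ϖ, hϖ⟩ := hL.unif
  have h0 : ϖ ≠ 0 := val_unif_ne hϖ
  set a : Fˣ := Units.mk0 (ϖ ^ (r - m)) (zpow_ne_zero _ h0) with ha
  have hva : v (a : F) = WithZero.exp ((m : ℤ) - r) := by
    rw [ha, Units.val_mk0, val_zpow hϖ]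
    congr 1
    ring
  have h1 := comp_mem hact (upper a (-(a : F) * z₀) 1) h
  have h2 : (fun x => ball v 0 (m : ℤ) (((upper a (-(a : F) * z₀) 1 : G2 F) : M2 F) *ᵥ x)) =
      ball v z₀ r := by
    funext x
    rw [upper_mulVec]
    simp only [ball, Matrix.cons_val_zero, Matrix.cons_val_one, sub_zero]
    congr 1
    rw [eq_iff_iff]
    refine and_congr_right fun hx => ?_
    have e1 : ((a : F) * x 0 + -(a : F) * z₀ * x 1) / x 1 = (a : F) * (x 0 / x 1 - z₀) := by
      field_simp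
      ring
    have e2 : (WithZero.exp (m : ℤ) : ℤᵐ⁰) = WithZero.exp ((m : ℤ) - r) * WithZero.exp r := by
      rw [← WithZero.exp_add]
      congr 1
      ring
    rw [e1, map_mul, hva, e2]
    exact mul_le_mul_iff_right₀ WithZero.exp_pos
  rw [h2] at h1
  exact h1

/-- all functions are combinations of the constant function and indicator functions of balls -/
theorem mem_of_balls (hL : LocalHyp v) (h1 : one1 F ∈ W) (hb : ∀ z₀ r, ball v z₀ r ∈ W)
    {f : (Fin 2 → F) → ℂ} (hf : PF v f) : f ∈ W := by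
  classical
  obtain ⟨m, hm1, hm⟩ := exists_level hf
  obtain ⟨E, hE, hE'⟩ := exists_reps hL m
  have key : f = f ![1, 0] • one1 F +
      ∑ b ∈ E, (f ![b, 1] - f ![1, 0]) • ball v b (-(m : ℤ)) := by
    funext x
    rw [Pi.add_apply, Pi.smul_apply, Finset.sum_apply]
    simp only [Pi.smul_apply, smul_eq_mul]
    by_cases hx : x = 0
    · subst hx
      simp [hm.1, one1, ball]
    · rw [one1_apply x hx, mul_one]
      by_cases hx1 : x 1 = 0
      · have h2 : ∀ b ∈ E, (f ![b, 1] - f ![1, 0]) * ball v b (-(m : ℤ)) x = 0 := by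
          intro b _
          rw [ball, if_neg, mul_zero]
          simp [hx1]
        rw [Finset.sum_eq_zero h2, add_zero]
        exact f_of_eq hm hx1 hx
      · rw [f_of_ne hm hx1]
        by_cases hzm : v (x 0 / x 1) ≤ WithZero.exp (m : ℤ)
        · obtain ⟨e, ⟨he, he'⟩, huniq⟩ := hE' _ hzm
          rw [Finset.sum_eq_single e]
          · rw [ball, if_pos ⟨hx1, he'⟩, mul_one, add_sub_cancel]
            have h3 := h_add hm e (x 0 / x 1 - e) he'
            rw [add_sub_cancel] at h3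
            exact h3
          · intro b hb hbe
            rw [ball, if_neg, mul_zero]
            exact fun h => hbe (huniq b ⟨hb, h.2⟩)
          · exact fun h => absurd he h
        · have h2 : ∀ b ∈ E, (f ![b, 1] - f ![1, 0]) * ball v b (-(m : ℤ)) x = 0 := by
            intro b hb
            rw [ball, if_neg, mul_zero]
            rintro ⟨-, h⟩
            apply hzm
            have e1 : x 0 / x 1 = (x 0 / x 1 - b) + b := by ring
            rw [e1]
            refine v.map_add_le (h.trans ?_) (hE b hb)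
            rw [WithZero.exp_le_exp]
            omega
          rw [Finset.sum_eq_zero h2, add_zero]
          exact h_far hm _ (not_le.1 hzm).le
  rw [key]
  exact W.add_mem (W.smul_mem _ h1) (W.sum_mem fun b _ => W.smul_mem _ (hb _ _))

end main

end PkgA

open PkgA in
/-- **Package A.** Irreducibility of the Steinberg representation. -/
theorem pkg_A : S_Irr := by
  intro F _ v hL W hPF hact h1
  by_cases h : ∀ f ∈ W, ∃ c : ℂ, f = c • one1 F
  · exact Or.inl h
  · right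
    push Not at h
    obtain ⟨f, hf, hnc⟩ := h
    obtain ⟨m, hm⟩ := ball_zero_mem hL hPF hact h1 hf (by push Not; exact hnc)
    intro f' hf'
    exact mem_of_balls hL h1 (fun z₀ r => ball_mem hL hact hm z₀ r) hf'

end

end Pool.Agent.U283.LL
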