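import Pool.Agent.U283.LL.PkgI

/-!
# Project LL, package B: averaging over representatives of `GL₂(O) / Cong m`
-/

set_option autoImplicit false

open scoped WithZero Matrix
open Matrix

namespace Pool.Agent.U283.LL

noncomputable section

variable {F : Type} [Field F] (v : Valuation F ℤᵐ⁰)

/-- the classes of `GL₂(O)` modulo `Cong m` -/
abbrev QB (m : ℕ) : Type := (Cong v 0) ⧸ ((Cong v m).subgroupOf (Cong v 0))

/-- `g⁻¹ h - 1` is small if `g` and `h` are close and integral -/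
lemma inv_mul_close {m : ℕ} {g h : G2 F} (hg : g ∈ Cong v 0)
    (hgh : ∀ i j, v ((h : M2 F) i j - (g : M2 F) i j) ≤ WithZero.exp (-(m : ℤ))) (i j : Fin 2) :
    v ((((g⁻¹ * h : G2 F)) : M2 F) i j - (1 : M2 F) i j) ≤ WithZero.exp (-(m : ℤ)) := by
  have h1 : ((g⁻¹ * h : G2 F) : M2 F) - 1 = ((g⁻¹ : G2 F) : M2 F) * ((h : M2 F) - (g : M2 F)) := by
    rw [Matrix.GeneralLinearGroup.coe_mul, Matrix.mul_sub, coe_inv_mul]
  have h2 := congrFun (congrFun h1 i) j
  rw [Matrix.sub_apply] at h2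
  rw [h2]
  have h3 := mul_bound v (A := ((g⁻¹ : G2 F) : M2 F)) (B := (h : M2 F) - (g : M2 F)) (a := 1)
    (b := WithZero.exp (-(m : ℤ))) (Cong_le_one v (inv_mem hg))
    (fun i j => by rw [Matrix.sub_apply]; exact hgh i j) i j
  rwa [one_mul] at h3

lemma inv_mul_mem {m : ℕ} {g h : G2 F} (hg : g ∈ Cong v 0) (hh : h ∈ Cong v 0)
    (hgh : ∀ i j, v ((h : M2 F) i j - (g : M2 F) i j) ≤ WithZero.exp (-(m : ℤ))) :
    g⁻¹ * h ∈ Cong v m := by
  intro i j
  refine ⟨inv_mul_close v hg hgh i j, ?_⟩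
  have h1 : (g⁻¹ * h : G2 F)⁻¹ = h⁻¹ * g := by group
  rw [h1]
  apply inv_mul_close v hh
  intro i j
  rw [Valuation.map_sub_swap]
  exact hgh i j

lemma finite_QB (hv : LocalHyp v) (m : ℕ) : Finite (QB v m) := by
  classical
  obtain ⟨E, hE1, hE2⟩ := hv.reps m
  choose r hr1 hr2 using fun x : {x : F // v x ≤ 1} => hE2 x.1 x.2
  have hr : ∀ x : {x : F // v x ≤ 1}, r x ∈ E ∧ v (x.1 - r x) ≤ WithZero.exp (-(m : ℤ)) := hr1
  -- the map to the tuples of representatives
  let ψ : Cong v 0 → (Fin 2 → Fin 2 → E) := fun g i j =>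
    ⟨r ⟨((g : G2 F) : M2 F) i j, Cong_le_one v g.2 i j⟩, (hr _).1⟩
  have hψ : ∀ g h : Cong v 0, ψ g = ψ h → (g : G2 F)⁻¹ * (h : G2 F) ∈ Cong v m := by
    intro g h hgh
    apply inv_mul_mem v g.2 h.2
    intro i j
    have h1 : r ⟨((g : G2 F) : M2 F) i j, Cong_le_one v g.2 i j⟩ =
        r ⟨((h : G2 F) : M2 F) i j, Cong_le_one v h.2 i j⟩ :=
      congrArg Subtype.val (congrFun (congrFun hgh i) j)
    have h2 := (hr ⟨((g : G2 F) : M2 F) i j, Cong_le_one v g.2 i j⟩).2
    have h3 := (hr ⟨((h : G2 F) : M2 F) i j, Cong_le_one v h.2 i j⟩).2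
    rw [h1] at h2
    have h4 : ((h : G2 F) : M2 F) i j - ((g : G2 F) : M2 F) i j =
        (((h : G2 F) : M2 F) i j - r ⟨((h : G2 F) : M2 F) i j, Cong_le_one v h.2 i j⟩) -
        (((g : G2 F) : M2 F) i j - r ⟨((h : G2 F) : M2 F) i j, Cong_le_one v h.2 i j⟩) := by ring
    rw [h4]
    exact v.map_sub_le h3 h2
  apply Finite.of_injective (β := Fin 2 → Fin 2 → E) (fun q : QB v m => ψ q.out)
  intro a b hab
  have h1 := hψ a.out b.out hab
  rw [← QuotientGroup.out_eq' a, ← QuotientGroup.out_eq' b]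
  exact QuotientGroup.eq.mpr (Subgroup.mem_subgroupOf.mpr h1)

/-- the matrix `(1 0; a 1)` -/
def lowM (a : F) : G2 F := Matrix.GeneralLinearGroup.mkOfDetNeZero !![1, 0; a, 1] (by simp)

/-- the matrix `(a 1; 1 0)` -/
def swapM (a : F) : G2 F := Matrix.GeneralLinearGroup.mkOfDetNeZero !![a, 1; 1, 0] (by simp)

lemma lowM_inv (a : F) : (lowM a)⁻¹ = lowM (-a) := by
  rw [inv_eq_iff_mul_eq_one]
  ext i j
  fin_cases i <;> fin_cases j <;> simp [lowM, Matrix.mul_apply, Fin.sum_univ_two]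

lemma swapM_inv (a : F) : (((swapM a)⁻¹ : G2 F) : M2 F) = !![0, 1; 1, -a] := by
  have h1 : ((swapM a : G2 F) : M2 F) * !![0, 1; 1, -a] = 1 := by
    ext i j
    fin_cases i <;> fin_cases j <;> simp [swapM, Matrix.mul_apply, Fin.sum_univ_two]
  calc (((swapM a)⁻¹ : G2 F) : M2 F) = (((swapM a)⁻¹ : G2 F) : M2 F) * (((swapM a : G2 F) : M2 F) * !![0, 1; 1, -a]) := by
        rw [h1, Matrix.mul_one]
    _ = _ := by rw [← Matrix.mul_assoc, coe_inv_mul, Matrix.one_mul]

lemma lowM_mem {a : F} (ha : v a ≤ 1) : lowM a ∈ Cong v 0 := by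
  intro i j
  rw [lowM_inv]
  have h0 : (WithZero.exp (-((0 : ℕ) : ℤ)) : ℤᵐ⁰) = 1 := by simp
  rw [h0]
  fin_cases i <;> fin_cases j <;> simp [lowM, ha]

lemma swapM_mem {a : F} (ha : v a ≤ 1) : swapM a ∈ Cong v 0 := by
  intro i j
  rw [swapM_inv]
  have h0 : (WithZero.exp (-((0 : ℕ) : ℤ)) : ℤᵐ⁰) = 1 := by simp
  rw [h0]
  have h1 : v (a - 1) ≤ 1 := v.map_sub_le ha (by simp)
  have h2 : v (-a - 1) ≤ 1 := v.map_sub_le (by rwa [Valuation.map_neg]) (by simp)
  fin_cases i <;> fin_cases j <;> simp [swapM, h1, h2]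

/-- `GL₂(O)` is transitive on the lines -/
lemma line_trans {x : Fin 2 → F} (hx : x ≠ 0) :
    ∃ (c : F) (k : G2 F), c ≠ 0 ∧ k ∈ Cong v 0 ∧ x = c • ((k : M2 F) *ᵥ vec 1 0) := by
  by_cases h : v (x 1) ≤ v (x 0)
  · have h0 : x 0 ≠ 0 := by
      intro h0
      rw [h0, map_zero] at h
      have h1 : x 1 = 0 := by
        have := le_antisymm h zero_le
        exact (Valuation.zero_iff v).mp this
      apply hx
      ext i
      fin_cases i
      · simpa using h0
      · simpa using h1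
    refine ⟨x 0, lowM (x 1 / x 0), h0, lowM_mem v ?_, ?_⟩
    · rw [map_div₀]
      exact div_le_one_of_le₀ h zero_le
    · ext i
      fin_cases i
      · simp [lowM, vec]
      · simp [lowM, vec]
        field_simp
  · push Not at h
    have h1 : x 1 ≠ 0 := by
      intro h1
      rw [h1, map_zero] at h
      exact absurd h (not_lt.mpr zero_le)
    refine ⟨x 1, swapM (x 0 / x 1), h1, swapM_mem v ?_, ?_⟩
    · rw [map_div₀]
      exact div_le_one_of_le₀ h.le zero_le
    · ext i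
      fin_cases i
      · simp [swapM, vec]
        field_simp
      · simp [swapM, vec]

lemma mulVec_inv_ne_zero (g : G2 F) {x : Fin 2 → F} (hx : x ≠ 0) : ((g⁻¹ : G2 F) : M2 F) *ᵥ x ≠ 0 := by
  intro h0
  apply hx
  have : (g : M2 F) *ᵥ (((g⁻¹ : G2 F) : M2 F) *ᵥ x) = (g : M2 F) *ᵥ 0 := by rw [h0]
  rwa [Matrix.mulVec_mulVec, coe_mul_inv, Matrix.one_mulVec, Matrix.mulVec_zero] at this

/-- Package B. -/
theorem pkg_B : S_Avg := by
  intro F _ v hv m
  classical
  have hfin := finite_QB v hv m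
  let _ : Fintype (QB v m) := Fintype.ofFinite _
  set T : Finset (G2 F) := (Finset.univ : Finset (QB v m)).image (fun q => ((Quotient.out q : Cong v 0) : G2 F))
    with hT
  refine ⟨T, ⟨_, Finset.mem_image_of_mem _ (Finset.mem_univ (QuotientGroup.mk 1 : QB v m))⟩, ?_, ?_⟩
  · intro k hk
    rw [hT, Finset.mem_image] at hk
    obtain ⟨q, _, rfl⟩ := hk
    exact (Quotient.out q).2
  · intro f hf
    set S : (Fin 2 → F) → ℂ := fun x => ∑ q : QB v m, f ((((Quotient.out q : Cong v 0) : G2 F)⁻¹ : G2 F) *ᵥ x)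
      with hS
    have hTS : ∑ k ∈ T, act k f = S := by
      rw [hT, Finset.sum_image]
      · funext x
        rw [Finset.sum_apply]
        rfl
      · intro a _ b _ hab
        have h1 : Quotient.out a = Quotient.out b := Subtype.ext hab
        exact Quotient.out_injective h1
    -- invariance
    have hinv : ∀ (k0 : Cong v 0) (x : Fin 2 → F), x ≠ 0 → S ((((k0 : G2 F)⁻¹ : G2 F) : M2 F) *ᵥ x) = S x := by
      intro k0 x hx
      let σ : Equiv.Perm (QB v m) := MulAction.toPerm k0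
      have h1 : ∀ q : QB v m, f ((((Quotient.out q : Cong v 0) : G2 F)⁻¹ : G2 F) *ᵥ
          ((((k0 : G2 F)⁻¹ : G2 F) : M2 F) *ᵥ x)) =
          f ((((Quotient.out (σ q) : Cong v 0) : G2 F)⁻¹ : G2 F) *ᵥ x) := by
        intro q
        set a : Cong v 0 := Quotient.out q with ha
        set b : Cong v 0 := Quotient.out (σ q) with hb
        have hq : QuotientGroup.mk (s := (Cong v m).subgroupOf (Cong v 0)) (k0 * a) = QuotientGroup.mk b := by
          rw [hb, ha]
          rw [QuotientGroup.out_eq' (σ q)]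
          conv_rhs => rw [← QuotientGroup.out_eq' q]
          rfl
        have hu : (((k0 : G2 F) * (a : G2 F))⁻¹ * (b : G2 F) : G2 F) ∈ Cong v m := by
          have := QuotientGroup.eq.mp hq
          rw [Subgroup.mem_subgroupOf] at this
          simpa using this
        have h2 : ((((a : G2 F)⁻¹ : G2 F)) : M2 F) *ᵥ ((((k0 : G2 F)⁻¹ : G2 F) : M2 F) *ᵥ x) =
            ((((k0 : G2 F) * (a : G2 F))⁻¹ * (b : G2 F) : G2 F) : M2 F) *ᵥ
              ((((b : G2 F)⁻¹ : G2 F) : M2 F) *ᵥ x) := by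
          rw [Matrix.mulVec_mulVec, Matrix.mulVec_mulVec, ← Matrix.GeneralLinearGroup.coe_mul,
            ← Matrix.GeneralLinearGroup.coe_mul]
          congr 2
          group
        rw [h2]
        exact PFm_cong v hf hu (mulVec_inv_ne_zero _ hx)
      rw [hS]
      simp only
      rw [Finset.sum_congr rfl (fun q _ => h1 q)]
      exact Equiv.sum_comp σ (fun q : QB v m => f ((((Quotient.out q : Cong v 0) : G2 F)⁻¹ : G2 F) *ᵥ x))
    have hhom : ∀ (c : F) (x : Fin 2 → F), c ≠ 0 → S (c • x) = S x := by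
      intro c x hc
      rw [hS]
      simp only
      refine Finset.sum_congr rfl (fun q _ => ?_)
      rw [Matrix.mulVec_smul]
      exact hf.2.1 c _ hc
    refine ⟨S (vec 1 0), ?_⟩
    rw [hTS]
    funext x
    rw [Pi.smul_apply, smul_eq_mul]
    unfold one1
    by_cases hx : x = 0
    · rw [if_pos hx, mul_zero, hx, hS]
      simp only [Matrix.mulVec_zero, hf.1, Finset.sum_const_zero]
    · rw [if_neg hx, mul_one]
      obtain ⟨c, k, hc, hk, hxk⟩ := line_trans v hx
      rw [hxk, hhom c _ hc]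
      have he : vec (1:F) 0 ≠ 0 := by
        intro h0
        have := congrFun h0 0
        simp [vec] at this
      have := hinv ⟨k⁻¹, inv_mem hk⟩ (vec 1 0) he
      simpa using this

end

end Pool.Agent.U283.LL
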