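import Pool.Agent.U283.LL.Spec

/-!
# Project LL, package C: local finiteness of the series
-/

set_option autoImplicit false

open scoped WithZero Matrix
open Matrix

namespace Pool.Agent.U283.LL

noncomputable section

section local1

variable {F : Type} [Field F] (v : Valuation F ℤᵐ⁰)

/-- A homogeneous function takes at a nonzero column of a singular matrix `Y - β` the same value as
at `ev β Y`. -/
theorem ev_colC {f : (Fin 2 → F) → ℂ} (hf : ∀ (c : F) (x), c ≠ 0 → f (c • x) = f x)
    (β : F) (Y : M2 F) (hdet : (Y - Matrix.scalar (Fin 2) β).det = 0) (j : Fin 2)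
    (hj : ∃ i, (Y - Matrix.scalar (Fin 2) β) i j ≠ 0) :
    f (ev β Y) = f (fun i => (Y - Matrix.scalar (Fin 2) β) i j) := by
  classical
  generalize hA : Y - Matrix.scalar (Fin 2) β = A at hdet hj ⊢
  unfold ev
  rw [hA]
  fin_cases j
  · simp only [Fin.zero_eta] at hj ⊢
    rw [if_pos hj]
  · simp only [Fin.mk_one] at hj ⊢
    by_cases h0 : ∃ i, A i 0 ≠ 0
    · rw [if_pos h0]
      rw [Matrix.det_fin_two] at hdet
      -- columns are proportional
      have hprop : ∃ c : F, c ≠ 0 ∧ (fun i => A i 0) = c • (fun i => A i 1) := by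
        obtain ⟨i, hi⟩ := hj
        have hall : ∀ k, A k 0 * A i 1 = A i 0 * A k 1 := by
          intro k
          fin_cases i <;> fin_cases k <;> simp <;> first
            | linear_combination hdet
            | linear_combination -hdet
        refine ⟨A i 0 / A i 1, ?_, ?_⟩
        · intro h
          rw [div_eq_zero_iff] at h
          obtain ⟨k, hk⟩ := h0
          rcases h with h | h
          · have := hall k
            rw [h, zero_mul] at this
            rcases mul_eq_zero.mp this with h2 | h2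
            · exact hk h2
            · exact hi h2
          · exact hi h
        · funext k
          simp only [Pi.smul_apply, smul_eq_mul]
          have := hall k
          field_simp
          exact this
      obtain ⟨c, hc, he⟩ := hprop
      rw [he, hf c _ hc]
    · rw [if_neg h0]

/-- `Y - β` is singular when `β` is a root of the characteristic polynomial. -/
theorem det_sub_scalar (α β : F) (Y : M2 F) (ht : Y.trace = α + β) (hd : Y.det = α * β) :
    (Y - Matrix.scalar (Fin 2) β).det = 0 := by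
  rw [Matrix.det_fin_two] at hd ⊢
  rw [Matrix.trace_fin_two] at ht
  simp [Matrix.sub_apply, Matrix.scalar_apply]
  linear_combination hd - β * ht

/-- If the function `f` of level `m` distinguishes the two eigenlines of `Y`, the entries of `Y`
are bounded. -/
theorem entries_bounded {m : ℕ} {f : (Fin 2 → F) → ℂ} (hf : PFm v m f) (α β : F)
    (B : ℤᵐ⁰) (hα : v α ≤ B) (hβ : v β ≤ B) (hαβ : v (β - α) ≤ WithZero.exp (-(m : ℤ)) * B)
    (Y : M2 F) (ht : Y.trace = α + β) (hd : Y.det = α * β)
    (hne : f (ev β Y) ≠ f (ev α Y)) (i j : Fin 2) : v (Y i j) ≤ B := by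
  classical
  by_contra hcon
  rw [not_le] at hcon
  -- choose a maximal entry
  obtain ⟨⟨i₀, j₀⟩, -, hmax⟩ := Finset.exists_max_image (Finset.univ : Finset (Fin 2 × Fin 2))
    (fun q => v (Y q.1 q.2)) ⟨(i, j), Finset.mem_univ _⟩
  have hM : B < v (Y i₀ j₀) := lt_of_lt_of_le hcon (hmax (i, j) (Finset.mem_univ _))
  have hle : ∀ k, v (Y k j₀) ≤ v (Y i₀ j₀) := fun k => hmax (k, j₀) (Finset.mem_univ _)
  have hscal : ∀ (γ : F) (k l : Fin 2), (Y - Matrix.scalar (Fin 2) γ) k l
      = Y k l - (if k = l then γ else 0) := by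
    intro γ k l
    simp [Matrix.sub_apply, Matrix.scalar_apply, Matrix.diagonal_apply]
  have hsm : ∀ (γ : F), v γ ≤ B → ∀ k l : Fin 2, v (if k = l then γ else 0) ≤ B := by
    intro γ hγ k l
    split_ifs
    · exact hγ
    · simp
  -- entries of the column
  have hcol : ∀ (γ : F), v γ ≤ B → v ((Y - Matrix.scalar (Fin 2) γ) i₀ j₀) = v (Y i₀ j₀) := by
    intro γ hγ
    rw [hscal]
    exact Valuation.map_sub_eq_of_lt_left v (lt_of_le_of_lt (hsm γ hγ _ _) hM)
  have hcolne : ∀ (γ : F), v γ ≤ B → (Y - Matrix.scalar (Fin 2) γ) i₀ j₀ ≠ 0 := by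
    intro γ hγ h
    have := hcol γ hγ
    rw [h, map_zero] at this
    rw [← this] at hM
    exact absurd hM (not_lt.mpr (zero_le))
  have h1 := ev_colC hf.2.1 β Y (det_sub_scalar α β Y ht hd) j₀ ⟨i₀, hcolne β hβ⟩
  have h2 := ev_colC hf.2.1 α Y (det_sub_scalar β α Y (by rw [ht, add_comm])
    (by rw [hd, mul_comm])) j₀ ⟨i₀, hcolne α hα⟩
  rw [h1, h2] at hne
  apply hne
  symm
  apply hf.2.2
  · intro h
    exact hcolne β hβ (by simpa using congrFun h i₀)
  · -- nrm of the difference
    have hnrm : v (Y i₀ j₀) ≤ nrm v (fun i => (Y - Matrix.scalar (Fin 2) β) i j₀) := by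
      rw [← hcol β hβ]
      unfold nrm
      fin_cases i₀
      · exact le_max_left _ _
      · exact le_max_right _ _
    have hdiff : ∀ k, v (((fun i => (Y - Matrix.scalar (Fin 2) α) i j₀) -
        (fun i => (Y - Matrix.scalar (Fin 2) β) i j₀)) k) ≤ v (β - α) := by
      intro k
      simp only [Pi.sub_apply]
      rw [hscal, hscal]
      split_ifs
      · rw [show Y k j₀ - α - (Y k j₀ - β) = β - α by ring]
      · simp
    have hn : nrm v ((fun i => (Y - Matrix.scalar (Fin 2) α) i j₀) -
        (fun i => (Y - Matrix.scalar (Fin 2) β) i j₀)) ≤ v (β - α) :=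
      max_le (hdiff 0) (hdiff 1)
    calc nrm v ((fun i => (Y - Matrix.scalar (Fin 2) α) i j₀) -
        (fun i => (Y - Matrix.scalar (Fin 2) β) i j₀)) ≤ v (β - α) := hn
      _ ≤ WithZero.exp (-(m : ℤ)) * B := hαβ
      _ ≤ WithZero.exp (-(m : ℤ)) * nrm v (fun i => (Y - Matrix.scalar (Fin 2) β) i j₀) :=
        mul_le_mul_right (hM.le.trans hnrm) _

end local1

/-- Every element of `ℤᵐ⁰` is bounded by some `exp N`. -/
theorem exists_exp_ge (x : ℤᵐ⁰) : ∃ N : ℕ, x ≤ WithZero.exp (N : ℤ) := by
  by_cases hx : x = 0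
  · exact ⟨0, by rw [hx]; exact zero_le⟩
  · refine ⟨(WithZero.log x).toNat, ?_⟩
    rw [← WithZero.exp_log hx, WithZero.exp_le_exp]
    simp only [WithZero.log_exp]
    exact Int.self_le_toNat _

/-- Package C: local finiteness. -/
theorem pkg_C : S_Fin := by
  classical
  intro K _ P L _ val emb inf hG τ ν α β hαβ hs hp f hf Φ hΦ
  obtain ⟨m, hfm⟩ := hf
  obtain ⟨-, ⟨n, hn⟩, -⟩ := hΦ
  obtain ⟨N₁, hN₁⟩ := exists_exp_ge (val inf α)
  obtain ⟨N₂, hN₂⟩ := exists_exp_ge (val inf β)
  obtain ⟨N₃, hN₃⟩ := exists_exp_ge (WithZero.exp (m : ℤ) * val inf (β - α))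
  set N := max N₁ (max N₂ N₃) with hN
  have hmono : ∀ {a b : ℕ}, a ≤ b → (WithZero.exp (a : ℤ) : ℤᵐ⁰) ≤ WithZero.exp (b : ℤ) := by
    intro a b hab
    rw [WithZero.exp_le_exp]; exact_mod_cast hab
  have hα : val inf α ≤ WithZero.exp (N : ℤ) := hN₁.trans (hmono (by omega))
  have hβ : val inf β ≤ WithZero.exp (N : ℤ) := hN₂.trans (hmono (by omega))
  have h3 : val inf (β - α) ≤ WithZero.exp (-(m : ℤ)) * WithZero.exp (N : ℤ) := by
    have h4 : WithZero.exp (m : ℤ) * val inf (β - α) ≤ WithZero.exp (N : ℤ) :=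
      hN₃.trans (hmono (by omega))
    calc val inf (β - α)
        = WithZero.exp (-(m : ℤ)) * (WithZero.exp (m : ℤ) * val inf (β - α)) := by
          rw [← mul_assoc, ← WithZero.exp_add]; simp
      _ ≤ _ := mul_le_mul_right h4 _
  -- the finite set of entries
  have hS := hG.disc (n ⊔ Finsupp.single inf N)
  set S := {x : K | ∀ p, val p (emb p x) ≤ WithZero.exp (((n ⊔ Finsupp.single inf N) p : ℕ) : ℤ)}
    with hSdef
  have hT : {M : M2 K | ∀ i j, M i j ∈ S}.Finite := by
    have : {M : M2 K | ∀ i j, M i j ∈ S} = Set.pi Set.univ (fun _ : Fin 2 =>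
        Set.pi Set.univ (fun _ : Fin 2 => S)) := by
      ext M
      constructor
      · intro h i _ j _
        exact h i j
      · intro h i j
        exact h i (Set.mem_univ _) j (Set.mem_univ _)
    rw [this]
    exact Set.Finite.pi (fun _ => Set.Finite.pi (fun _ => hS))
  have hpre : {X : SX K τ ν | X.1 ∈ {M : M2 K | ∀ i j, M i j ∈ S}}.Finite :=
    Set.Finite.preimage (Set.injOn_of_injective (fun X Y h => Subtype.ext h)) hT
  refine hpre.subset ?_
  intro X hX i j p
  have hX1 : f (ev β (atp emb inf X.1)) ≠ f (ev α (atp emb inf X.1)) := by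
    intro h
    exact hX (by rw [h, sub_self, zero_mul])
  have hX2 : Φ (fun p => atp emb p X.1) ≠ 0 := by
    intro h
    exact hX (by rw [h, mul_zero])
  by_cases hpi : p = inf
  · subst hpi
    have htr : (atp emb p X.1).trace = α + β := by
      have h : X.1.trace = τ := X.2.1
      rw [hs]
      refine Eq.trans ?_ (congrArg (emb p) h)
      simp [atp, Matrix.trace_fin_two]
    have hdt : (atp emb p X.1).det = α * β := by
      have h : X.1.det = ν := X.2.2
      rw [hp]
      refine Eq.trans ?_ (congrArg (emb p) h)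
      simp [atp, Matrix.det_fin_two]
    have := entries_bounded (val p) hfm α β (WithZero.exp (N : ℤ)) hα hβ h3
      (atp emb p X.1) htr hdt hX1 i j
    refine this.trans (hmono ?_)
    simp [Finsupp.sup_apply]
  · have := hn _ hX2 p hpi i j
    refine this.trans (hmono ?_)
    simp [Finsupp.sup_apply]

end

end Pool.Agent.U283.LL
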