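import Pool.Agent.U901.LLD.Glob

/-!
# Project LL, package D: the constant term vanishes
-/

set_option autoImplicit false

open scoped WithZero Matrix
open Matrix hiding vec

namespace Pool.Agent.U283.LL

open Pool.Agent.U901.LLD

/-- The two points of the projective line at `inf` which belong to `X`. -/
noncomputable def xpt {K : Type} [Field K] {P : Type} {L : P → Type} [∀ p, Field (L p)]
    (emb : ∀ p, K →+* L p) (inf : P) (β : L inf) {τ ν : K} (X : SX K τ ν) : L inf :=
  (emb inf (X.1 0 0) - β) / emb inf (X.1 1 0)

theorem term_adInf {K : Type} [Field K] {P : Type} {L : P → Type} [∀ p, Field (L p)]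
    {val : ∀ p, Valuation (L p) ℤᵐ⁰} {emb : ∀ p, K →+* L p} {inf : P} {τ ν : K} {α β : L inf}
    {f : (Fin 2 → L inf) → ℂ} (hf : PF (val inf) f) {Φ : (∀ p, M2 (L p)) → ℂ}
    (h3 : ∀ Y Y', (∀ p, p ≠ inf → Y p = Y' p) → Φ Y = Φ Y') (y : L inf) (X : SX K τ ν)
    (hX : X.1 1 0 ≠ 0) :
    term val emb inf α β f Φ (uni val (adInf val inf y)) X =
      (hh f (xpt emb inf β X - y) - hh f (xpt emb inf α X - y)) * Φ (fun p => atp emb p X.1) := by
  obtain ⟨m, hm⟩ := hf
  have hc : (atp emb inf X.1) 1 0 ≠ 0 := by
    show emb inf (X.1 1 0) ≠ 0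
    exact (map_ne_zero (emb inf)).2 hX
  have hu : ((uni val (adInf val inf y) : GA val) : ∀ p, G2 (L p)) inf = uL y := by
    show uL ((adInf val inf y : ∀ p, L p) inf) = uL y
    rw [adInf_inf]
  unfold term
  rw [hu, ev_eq hc, ev_eq hc, act_uL_vec hm.2.1 _ _ _ hc, act_uL_vec hm.2.1 _ _ _ hc]
  have h4 : Φ (cj val (uni val (adInf val inf y)) fun p => atp emb p X.1) =
      Φ (fun p => atp emb p X.1) := by
    apply h3
    intro p hp
    have hu' : ((uni val (adInf val inf y) : GA val) : ∀ p, G2 (L p)) p = 1 := by
      show uL ((adInf val inf y : ∀ p, L p) p) = 1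
      rw [adInf_ne val inf hp, uL_zero]
    unfold cj
    rw [hu']
    simp
  rw [h4]
  unfold hh xpt
  have e1 : (atp emb inf X.1 0 0 - β) / atp emb inf X.1 1 0 =
    (emb inf (X.1 0 0) - β) / emb inf (X.1 1 0) := rfl
  have e2 : (atp emb inf X.1 0 0 - α) / atp emb inf X.1 1 0 =
    (emb inf (X.1 0 0) - α) / emb inf (X.1 1 0) := rfl
  rw [e1, e2]
  ring

theorem pkg_D : S_Fin → S_Cusp := by
  intro hF K _ P L _ val emb inf hG τ ν α β hαβ hs hp hX f hf Φ hΦ
  classical
  have hfin : ∀ f, PF (val inf) f → {X : SX K τ ν | (f (ev β (atp emb inf X.1)) -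
      f (ev α (atp emb inf X.1))) * Φ (fun p => atp emb p X.1) ≠ 0}.Finite :=
    fun f hf => hF K P L val emb inf hG τ ν α β hαβ hs hp f hf Φ hΦ
  obtain ⟨m, hm⟩ := id hf
  obtain ⟨⟨n₁, hn₁⟩, -, h3⟩ := id hΦ
  obtain ⟨n, hn, hnm⟩ : ∃ n : P →₀ ℕ, (∀ p, n₁ p ≤ n p) ∧ m ≤ n inf :=
    ⟨n₁ + Finsupp.single inf m, fun p => by simp, by simp⟩
  have hΦn : ∀ u ∈ U val n, ∀ Y, Φ (cj val u Y) = Φ Y := fun u hu => hn₁ u (U_mono hn hu)
  have hmn : PFm (val inf) (n inf) f := PFm_mono hnm hm
  have hinv : ∀ z w, val inf w ≤ WithZero.exp (-(n inf : ℤ)) → hh f (z + w) = hh f z :=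
    fun z w hw => hh_add hmn hw
  have := finite_quot hG n
  have : Fintype (L inf ⧸ Hn val emb inf n) := Fintype.ofFinite _
  -- the representatives
  have hinj : Function.Injective fun q : L inf ⧸ Hn val emb inf n => adInf val inf q.out := by
    intro q q' h
    have h' : (adInf val inf q.out : ∀ p, L p) inf = (adInf val inf q'.out : ∀ p, L p) inf := by
      rw [show adInf val inf q.out = adInf val inf q'.out from h]
    rw [adInf_inf, adInf_inf] at h'
    rw [← QuotientAddGroup.out_eq' q, ← QuotientAddGroup.out_eq' q', h']
  refine ⟨n, Finset.univ.image fun q : L inf ⧸ Hn val emb inf n => adInf val inf q.out, ?_, ?_, ?_⟩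
  · -- invariance
    intro x w hw
    unfold theta
    refine finsum_congr fun X => ?_
    have hxw : uni val (x + w) = uni val x * uni val w := uni_add x w
    unfold term
    rw [hxw, cj_mul, hΦn _ (uni_mem_U hw)]
    have h5 : ((uni val x * uni val w : GA val) : ∀ p, G2 (L p)) inf =
      ((uni val x : GA val) : ∀ p, G2 (L p)) inf * uL ((w : ∀ p, L p) inf) := rfl
    rw [h5, act_mul, act_uL_small hmn (hw inf)]
  · -- representatives
    intro x
    obtain ⟨c, hc⟩ := hG.sa n
    obtain ⟨k, hk1, -⟩ := hc x
    let q : L inf ⧸ Hn val emb inf n := QuotientAddGroup.mk ((x : ∀ p, L p) inf - emb inf k)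
    have hq : -q.out + ((x : ∀ p, L p) inf - emb inf k) ∈ Hn val emb inf n := by
      rw [← QuotientAddGroup.eq, QuotientAddGroup.out_eq']
    obtain ⟨r, hr, hv⟩ := hq
    refine ⟨adInf val inf q.out, ⟨Finset.mem_image_of_mem _ (Finset.mem_univ q), k + r, ?_⟩, ?_⟩
    · intro p
      by_cases hp : p = inf
      · subst hp
        rw [adInf_inf]
        have : (x : ∀ p, L p) p - q.out - emb p (k + r) =
            -q.out + ((x : ∀ p, L p) p - emb p k) - emb p r := by
          rw [map_add]; ring
        rw [this]
        exact hv
      · rw [adInf_ne val inf hp]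
        have : (x : ∀ p, L p) p - 0 - emb p (k + r) =
            ((x : ∀ p, L p) p - emb p k) + -emb p r := by
          rw [map_add]; ring
        rw [this]
        refine (val p).map_add_le (hk1 p hp) ?_
        rw [Valuation.map_neg]
        exact hr p hp
    · rintro e ⟨he, k', hk'⟩
      obtain ⟨q', -, rfl⟩ := Finset.mem_image.1 he
      have hqq : q' = q := by
        rw [← QuotientAddGroup.out_eq' q', QuotientAddGroup.eq]
        refine ⟨k' - k, fun p hp => ?_, ?_⟩
        · have h6 := hk' p
          rw [adInf_ne val inf hp] at h6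
          have : emb p (k' - k) = ((x : ∀ p, L p) p - emb p k) +
              -((x : ∀ p, L p) p - 0 - emb p k') := by
            rw [map_sub]; ring
          rw [this]
          refine (val p).map_add_le (hk1 p hp) ?_
          rw [Valuation.map_neg]
          exact h6
        · have h6 := hk' inf
          rw [adInf_inf] at h6
          have : -q'.out + ((x : ∀ p, L p) inf - emb inf k) - emb inf (k' - k) =
              (x : ∀ p, L p) inf - q'.out - emb inf k' := by
            rw [map_sub]; ring
          rw [this]
          exact h6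
      rw [hqq]
  · -- the sum is zero
    rw [Finset.sum_image fun _ _ _ _ h => hinj h]
    unfold theta
    have hterm : ∀ q : L inf ⧸ Hn val emb inf n, ∀ X : SX K τ ν,
        term val emb inf α β f Φ (uni val (adInf val inf q.out)) X =
          (hh f (xpt emb inf β X - q.out) - hh f (xpt emb inf α X - q.out)) *
            Φ (fun p => atp emb p X.1) := fun q X => term_adInf hf h3 _ X (hX X)
    have hsupp : ∀ q : L inf ⧸ Hn val emb inf n, (Function.support fun X : SX K τ ν =>
        term val emb inf α β f Φ (uni val (adInf val inf q.out)) X).Finite := by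
      intro q
      refine (hfin (act (uL q.out) f) (PF_act _ hf)).subset ?_
      intro X hX'
      rw [Function.mem_support] at hX'
      intro h0
      apply hX'
      rw [← h0]
      have h4 : Φ (cj val (uni val (adInf val inf q.out)) fun p => atp emb p X.1) =
          Φ (fun p => atp emb p X.1) := by
        apply h3
        intro p hp
        have hu' : ((uni val (adInf val inf q.out) : GA val) : ∀ p, G2 (L p)) p = 1 := by
          show uL ((adInf val inf q.out : ∀ p, L p) p) = 1
          rw [adInf_ne val inf hp, uL_zero]
        unfold cj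
        rw [hu']
        simp
      have hu : ((uni val (adInf val inf q.out) : GA val) : ∀ p, G2 (L p)) inf = uL q.out := by
        show uL ((adInf val inf q.out : ∀ p, L p) inf) = uL q.out
        rw [adInf_inf]
      unfold term
      rw [h4, hu]
    rw [← finsum_sum_comm]
    swap
    · exact fun q _ => hsupp q
    have hsum : (Function.support fun X : SX K τ ν => ∑ q : L inf ⧸ Hn val emb inf n,
        term val emb inf α β f Φ (uni val (adInf val inf q.out)) X).Finite := by
      refine (Set.finite_iUnion fun q => hsupp q).subset ?_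
      intro X hX'
      rw [Function.mem_support] at hX'
      obtain ⟨q, -, hq⟩ := Finset.exists_ne_zero_of_sum_ne_zero hX'
      exact Set.mem_iUnion.2 ⟨q, hq⟩
    refine finsum_zero_of_orbits (Γ := Qn val emb inf n) (fun r X => cjr τ ν (r : K) X) ?_ ?_ ?_ _
      hsum ?_
    · intro γ δ s
      exact cjr_add τ ν _ _ s
    · intro s
      exact cjr_zero τ ν s
    · intro γ s h
      have h7 := congrArg (fun X : SX K τ ν => X.1 0 0) h
      simp only [cjr_00] at h7
      have h8 : (γ : K) * s.1 1 0 = 0 := by linear_combination h7
      have h9 := (mul_eq_zero.1 h8).resolve_right (hX s)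
      exact Subtype.ext h9
    · intro X
      set x₁ := xpt emb inf β X with hx₁
      set x₂ := xpt emb inf α X with hx₂
      have hpt : ∀ (γ : L inf) (r : Qn val emb inf n),
          xpt emb inf γ (cjr τ ν (r : K) X) = xpt emb inf γ X + emb inf (r : K) := by
        intro γ r
        unfold xpt
        rw [cjr_00, cjr_10, map_add, map_mul]
        have h10 : emb inf (X.1 1 0) ≠ 0 := (map_ne_zero (emb inf)).2 (hX X)
        field_simp
        ring
      have hsw : ∀ z : L inf, (Function.support fun r : Qn val emb inf n =>
          hh f (z + emb inf (r : K))).Finite := by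
        intro z
        obtain ⟨M, hM⟩ := exists_le_exp (max (val inf z) (WithZero.exp (m : ℤ)))
        refine (finite_bounded hG n M).subset ?_
        intro r hr
        rw [Function.mem_support] at hr
        have h11 : val inf (z + emb inf (r : K)) ≤ WithZero.exp (m : ℤ) := by
          by_contra hcon
          exact hr (hh_zero hm (not_le.1 hcon).le)
        show val inf (emb inf (r : K)) ≤ WithZero.exp (M : ℤ)
        have h12 : emb inf (r : K) = (z + emb inf (r : K)) + -z := by ring
        rw [h12]
        refine (val inf).map_add_le (h11.trans ((le_max_right _ _).trans hM)) ?_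
        rw [Valuation.map_neg]
        exact (le_max_left _ _).trans hM
      have hS : ∀ z : L inf, ∑ᶠ r : Qn val emb inf n, ∑ q : L inf ⧸ Hn val emb inf n,
          hh f (z + emb inf (r : K) - q.out) =
          ∑ q : L inf ⧸ Hn val emb inf n, GG val emb inf n (hh f) q.out := by
        intro z
        rw [finsum_sum_comm]
        · rw [← sum_GG n hinv z]
          refine Finset.sum_congr rfl fun q _ => ?_
          unfold GG
          refine finsum_congr fun r => ?_
          congr 1
          ring
        · intro q _
          have hfe : (fun r : Qn val emb inf n => hh f (z + emb inf (r : K) - q.out)) =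
              fun r : Qn val emb inf n => hh f (z - q.out + emb inf (r : K)) := by
            funext r
            congr 1
            ring
          show (Function.support fun r : Qn val emb inf n =>
            hh f (z + emb inf (r : K) - q.out)).Finite
          rw [hfe]
          exact hsw (z - q.out)
      have hSfin : ∀ z : L inf, (Function.support fun r : Qn val emb inf n =>
          ∑ q : L inf ⧸ Hn val emb inf n, hh f (z + emb inf (r : K) - q.out)).Finite := by
        intro z
        refine (Set.finite_iUnion fun q : L inf ⧸ Hn val emb inf n => hsw (z - q.out)).subset ?_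
        intro r hr
        rw [Function.mem_support] at hr
        obtain ⟨q, -, hq⟩ := Finset.exists_ne_zero_of_sum_ne_zero hr
        refine Set.mem_iUnion.2 ⟨q, ?_⟩
        rw [Function.mem_support]
        convert hq using 2
        ring
      have hall : ∀ r : Qn val emb inf n, ∑ q : L inf ⧸ Hn val emb inf n,
          term val emb inf α β f Φ (uni val (adInf val inf q.out)) (cjr τ ν (r : K) X) =
          (∑ q : L inf ⧸ Hn val emb inf n, hh f (x₁ + emb inf (r : K) - q.out) -
            ∑ q : L inf ⧸ Hn val emb inf n, hh f (x₂ + emb inf (r : K) - q.out)) *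
            Φ (fun p => atp emb p X.1) := by
        intro r
        rw [← Finset.sum_sub_distrib, Finset.sum_mul]
        refine Finset.sum_congr rfl fun q _ => ?_
        rw [hterm, Phi_cjr hΦn h3 r.2, hpt, hpt]
      simp only [hall]
      rw [← finsum_mul, finsum_sub_distrib (hSfin x₁) (hSfin x₂), hS, hS, sub_self, zero_mul]

end Pool.Agent.U283.LL
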