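import Pool.Agent.U283.LL.Rep
import Pool.Agent.U901.LLD.Glob

/-!
# Project LL, package D2: the constant term of finite sums of series vanishes
-/

set_option autoImplicit false

open scoped WithZero Matrix
open Matrix

namespace Pool.Agent.U283.LL

noncomputable section

/-! ### Sums over representatives in an abelian group -/

section reps

variable {A : Type} [AddCommGroup A]

/-- If the sum over a system of representatives modulo `H` vanishes, then so does the sum over a
system of representatives modulo a subgroup `H'` of `H`. -/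
theorem D2_sum {H H' : AddSubgroup A} (hle : H' ≤ H) {E E' : Finset A}
    (hE : ∀ x : A, ∃! e, e ∈ E ∧ x - e ∈ H) (hE' : ∀ x : A, ∃! e, e ∈ E' ∧ x - e ∈ H')
    {h : A → ℂ} (hh : ∀ x w, w ∈ H → h (x + w) = h x) (hs : ∑ e ∈ E, h e = 0) :
    ∑ e ∈ E', h e = 0 := by
  classical
  -- the fibres
  have hfib : ∀ e₁ ∈ E, ∀ e₂ ∈ E,
      (E'.filter fun e' => e' - e₁ ∈ H).card ≤ (E'.filter fun e' => e' - e₂ ∈ H).card := by
    intro e₁ _ e₂ _
    choose r hr hr' using fun x => (hE' x)
    have hr1 : ∀ x, r x ∈ E' := fun x => (hr x).1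
    have hr2 : ∀ x, x - r x ∈ H' := fun x => (hr x).2
    refine Finset.card_le_card_of_injOn (fun e' => r (e' - e₁ + e₂)) ?_ ?_
    · intro e' he'
      have he := (Finset.mem_filter.1 (Finset.mem_coe.1 he')).2
      refine Finset.mem_coe.2 (Finset.mem_filter.2 ⟨hr1 _, ?_⟩)
      have h1 := hle (hr2 (e' - e₁ + e₂))
      have h2 : r (e' - e₁ + e₂) - e₂ = (e' - e₁) - (e' - e₁ + e₂ - r (e' - e₁ + e₂)) := by abel
      show r (e' - e₁ + e₂) - e₂ ∈ H
      rw [h2]
      exact H.sub_mem he h1
    · intro a ha b hb hab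
      have hab' : r (a - e₁ + e₂) = r (b - e₁ + e₂) := hab
      have ha1 := (Finset.mem_filter.1 (Finset.mem_coe.1 ha)).1
      have hb1 := (Finset.mem_filter.1 (Finset.mem_coe.1 hb)).1
      have h1 := hr2 (a - e₁ + e₂)
      have h2 := hr2 (b - e₁ + e₂)
      rw [hab'] at h1
      have h3 : a - b ∈ H' := by
        have : a - b = (a - e₁ + e₂ - r (b - e₁ + e₂)) - (b - e₁ + e₂ - r (b - e₁ + e₂)) := by
          abel
        rw [this]
        exact H'.sub_mem h1 h2
      obtain ⟨e, -, heu⟩ := hE' a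
      have e1 := heu a ⟨ha1, by simpa using H'.zero_mem⟩
      have e2 := heu b ⟨hb1, h3⟩
      exact e1.trans e2.symm
  choose q hq hq' using fun x => (hE x)
  have hsum : ∑ e' ∈ E', h e' = ∑ e ∈ E, ∑ e' ∈ E'.filter (fun e' => q e' = e), h e' :=
    (Finset.sum_fiberwise_of_maps_to (fun e' _ => (hq e').1) h).symm
  have hfe : ∀ e ∈ E, E'.filter (fun e' => q e' = e) = E'.filter fun e' => e' - e ∈ H := by
    intro e he
    refine Finset.filter_congr fun e' _ => ⟨fun h1 => ?_, fun h1 => ?_⟩
    · rw [← h1]; exact (hq e').2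
    · exact (hq' e' e ⟨he, h1⟩).symm
  have hval : ∀ e ∈ E, ∑ e' ∈ E'.filter (fun e' => q e' = e), h e' =
      ((E'.filter fun e' => e' - e ∈ H).card : ℂ) * h e := by
    intro e he
    rw [hfe e he, Finset.sum_congr rfl (g := fun _ => h e), Finset.sum_const, nsmul_eq_mul]
    intro e' he'
    have h1 := hh e (e' - e) (Finset.mem_filter.1 he').2
    rw [← h1]
    congr 1
    abel
  rw [hsum, Finset.sum_congr rfl hval]
  rcases E.eq_empty_or_nonempty with rfl | ⟨e₀, he₀⟩
  · simp
  · have hc : ∀ e ∈ E, ((E'.filter fun e' => e' - e ∈ H).card : ℂ) * h e =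
        ((E'.filter fun e' => e' - e₀ ∈ H).card : ℂ) * h e := by
      intro e he
      rw [le_antisymm (hfib e he e₀ he₀) (hfib e₀ he₀ e he)]
    rw [Finset.sum_congr rfl hc, ← Finset.mul_sum, hs, mul_zero]

end reps

section glob

variable {K : Type} [Field K] {P : Type} {L : P → Type} [∀ p, Field (L p)]
  (val : ∀ p, Valuation (L p) ℤᵐ⁰) (emb : ∀ p, K →+* L p) (inf : P)

/-- The subgroup `K + W_n` of the adeles. -/
def HA (n : P →₀ ℕ) : AddSubgroup (Adele val) where
  carrier := {x | ∃ k : K, ∀ p, val p ((x : ∀ p, L p) p - emb p k) ≤ WithZero.exp (-(n p : ℤ))}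
  zero_mem' := ⟨0, fun p => by simp⟩
  add_mem' := by
    rintro a b ⟨r, hr⟩ ⟨s, hs⟩
    refine ⟨r + s, fun p => ?_⟩
    have : ((a + b : Adele val) : ∀ p, L p) p - emb p (r + s) =
        ((a : ∀ p, L p) p - emb p r) + ((b : ∀ p, L p) p - emb p s) := by
      rw [map_add]
      show (a : ∀ p, L p) p + (b : ∀ p, L p) p - (emb p r + emb p s) = _
      ring
    rw [this]
    exact (val p).map_add_le (hr p) (hs p)
  neg_mem' := by
    rintro a ⟨r, hr⟩
    refine ⟨-r, fun p => ?_⟩
    have : ((-a : Adele val) : ∀ p, L p) p - emb p (-r) = -((a : ∀ p, L p) p - emb p r) := by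
      rw [map_neg]
      show -(a : ∀ p, L p) p - -emb p r = _
      ring
    rw [this, Valuation.map_neg]
    exact hr p

theorem HA_mono {n n' : P →₀ ℕ} (h : n ≤ n') : HA val emb n' ≤ HA val emb n := by
  rintro a ⟨r, hr⟩
  refine ⟨r, fun p => (hr p).trans ?_⟩
  rw [WithZero.exp_le_exp]
  have := h p
  omega

variable {val emb inf}

open Pool.Agent.U901.LLD in
/-- Representatives of the adeles modulo `K + W_n`. -/
theorem exists_repsA (hG : Good val emb inf) (n : P →₀ ℕ) : ∃ E : Finset (Adele val),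
    ∀ x : Adele val, ∃! e, e ∈ E ∧ ∃ k : K, ∀ p,
      val p ((x : ∀ p, L p) p - (e : ∀ p, L p) p - emb p k) ≤ WithZero.exp (-(n p : ℤ)) := by
  classical
  have := finite_quot hG n
  have : Fintype (L inf ⧸ Hn val emb inf n) := Fintype.ofFinite _
  refine ⟨Finset.univ.image fun q : L inf ⧸ Hn val emb inf n => adInf val inf q.out, ?_⟩
  intro x
  obtain ⟨c, hc⟩ := hG.sa n
  obtain ⟨k, hk1, -⟩ := hc x
  let q : L inf ⧸ Hn val emb inf n := QuotientAddGroup.mk ((x : ∀ p, L p) inf - emb inf k)
  have hq : -q.out + ((x : ∀ p, L p) inf - emb inf k) ∈ Hn val emb inf n := by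
    rw [← QuotientAddGroup.eq, QuotientAddGroup.out_eq']
  obtain ⟨r, hr, hv⟩ := hq
  refine ⟨adInf val inf q.out, ⟨Finset.mem_image_of_mem _ (Finset.mem_univ q), k + r, ?_⟩, ?_⟩
  · intro p
    by_cases hp : p = inf
    · subst hp
      rw [adInf_inf]
      have : (x : ∀ p, L p) p - q.out - emb p (k + r) =
          -q.out + ((x : ∀ p, L p) p - emb p k) - emb p r := by
        rw [map_add]; ring
      rw [this]
      exact hv
    · rw [adInf_ne val inf hp]
      have : (x : ∀ p, L p) p - 0 - emb p (k + r) =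
          ((x : ∀ p, L p) p - emb p k) + -emb p r := by
        rw [map_add]; ring
      rw [this]
      refine (val p).map_add_le (hk1 p hp) ?_
      rw [Valuation.map_neg]
      exact hr p hp
  · rintro e ⟨he, k', hk'⟩
    obtain ⟨q', -, rfl⟩ := Finset.mem_image.1 he
    have hqq : q' = q := by
      rw [← QuotientAddGroup.out_eq' q', QuotientAddGroup.eq]
      refine ⟨k' - k, fun p hp => ?_, ?_⟩
      · have h6 := hk' p
        rw [adInf_ne val inf hp] at h6
        have : emb p (k' - k) = ((x : ∀ p, L p) p - emb p k) +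
            -((x : ∀ p, L p) p - 0 - emb p k') := by
          rw [map_sub]; ring
        rw [this]
        refine (val p).map_add_le (hk1 p hp) ?_
        rw [Valuation.map_neg]
        exact h6
      · have h6 := hk' inf
        rw [adInf_inf] at h6
        have : -q'.out + ((x : ∀ p, L p) inf - emb inf k) - emb inf (k' - k) =
            (x : ∀ p, L p) inf - q'.out - emb inf k' := by
          rw [map_sub]; ring
        rw [this]
        exact h6
    rw [hqq]

/-- The element `k` of the global field as an adele. -/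
def adK (hG : Good val emb inf) (k : K) : Adele val := ⟨fun p => emb p k, hG.fin k⟩

/-- The series is invariant under translations by `K + W_n` when it is under those by `W_n`. -/
theorem HA_inv (hG : Good val emb inf) {φ : GA val → ℂ} (hL : LeftInv val emb φ) {n : P →₀ ℕ}
    (hw : ∀ x w : Adele val, (∀ p, val p ((w : ∀ p, L p) p) ≤ WithZero.exp (-(n p : ℤ))) →
      φ (uni val (x + w)) = φ (uni val x)) (x w : Adele val) (h : w ∈ HA val emb n) :
    φ (uni val (x + w)) = φ (uni val x) := by
  obtain ⟨k, hk⟩ := h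
  have h1 : x + w = (x + adK hG k) + (w - adK hG k) := by abel
  rw [h1, hw _ _ (fun p => hk p)]
  refine hL (uL k) _ _ fun p => ?_
  show uL ((x : ∀ p, L p) p + emb p k) = Matrix.GeneralLinearGroup.map (emb p) (uL k) *
    uL ((x : ∀ p, L p) p)
  ext i j
  fin_cases i <;> fin_cases j <;>
    simp [uL, Matrix.mul_apply, Fin.sum_univ_two, add_comm]

end glob

/-- **Package D2.** -/
theorem pkg_D2 : S_Cusp → S_Left → S_Conj → S_Cusp2 := by
  intro hC hLft hM K _ P L _ val emb inf hG τ ν α β hne h1 h2 hX ι s f Φ hf hΦ g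
  classical
  -- the translates
  have hT : ∀ i x, theta val emb inf τ ν α β (f i) (Φ i) (x * g) =
      theta val emb inf τ ν α β (act ((g : ∀ p, G2 (L p)) inf) (f i))
        (fun Y => Φ i (cj val g Y)) x := by
    intro i x
    rw [← RT_theta]
    rfl
  have hex : ∀ i ∈ s, ∃ (n : P →₀ ℕ) (E : Finset (Adele val)),
      (∀ x w : Adele val, (∀ p, val p ((w : ∀ p, L p) p) ≤ WithZero.exp (-(n p : ℤ))) →
        theta val emb inf τ ν α β (f i) (Φ i) (uni val (x + w) * g) =
          theta val emb inf τ ν α β (f i) (Φ i) (uni val x * g)) ∧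
      (∀ x : Adele val, ∃! e, e ∈ E ∧ x - e ∈ HA val emb n) ∧
      (∀ x w : Adele val, w ∈ HA val emb n →
        theta val emb inf τ ν α β (f i) (Φ i) (uni val (x + w) * g) =
          theta val emb inf τ ν α β (f i) (Φ i) (uni val x * g)) ∧
      ∑ e ∈ E, theta val emb inf τ ν α β (f i) (Φ i) (uni val e * g) = 0 := by
    intro i hi
    obtain ⟨n, E, a1, a2, a3⟩ := hC K P L val emb inf hG τ ν α β hne h1 h2 hX
      (act ((g : ∀ p, G2 (L p)) inf) (f i)) (PF_act _ _ (hf i hi))
      (fun Y => Φ i (cj val g Y)) (hM P L val inf (Φ i) (hΦ i hi) g)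
    refine ⟨n, E, fun x w hw => ?_, a2, fun x w hw => ?_, ?_⟩
    · rw [hT, hT]; exact a1 x w hw
    · rw [hT, hT]
      exact HA_inv hG (hLft K P L val emb inf τ ν α β hne h1 h2 _ (PF_act _ _ (hf i hi)) _) a1 x w hw
    · simp only [hT]; exact a3
  choose! n E b1 b2 b3 b4 using hex
  obtain ⟨E', hE'⟩ := exists_repsA hG (s.sup n)
  refine ⟨s.sup n, E', fun x w hw => ?_, hE', ?_⟩
  · rw [Finset.sum_apply, Finset.sum_apply]
    refine Finset.sum_congr rfl fun i hi => b1 i hi x w fun p => (hw p).trans ?_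
    rw [WithZero.exp_le_exp]
    have := (Finset.le_sup (f := n) hi) p
    omega
  · simp only [Finset.sum_apply]
    rw [Finset.sum_comm]
    refine Finset.sum_eq_zero fun i hi => ?_
    exact D2_sum (HA_mono val emb (Finset.le_sup (f := n) hi)) (b2 i hi) hE' (b3 i hi) (b4 i hi)

end

end Pool.Agent.U283.LL
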