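import Pool.Agent.U283.LL.Spec

/-!
# Project LL, package E: the series for idempotents near the cusp
-/

set_option autoImplicit false

open scoped WithZero Matrix
open Matrix Function

namespace Pool.Agent.U283.LL.E

noncomputable section

/-! ### finite sums -/

theorem orbit_zero {A : Type} [AddCommGroup A] (Q : AddSubgroup A) (F : A → ℂ)
    (hfin : (support F).Finite) (h0 : ∀ x, ∑ᶠ r : Q, F (x + r) = 0) : ∑ᶠ x, F x = 0 := by
  let e : (A ⧸ Q) × Q → A := fun z => z.1.out + z.2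
  have hmk : ∀ z : (A ⧸ Q) × Q, (QuotientAddGroup.mk (e z) : A ⧸ Q) = z.1 := by
    intro z
    have h1 : (QuotientAddGroup.mk (z.1.out + (z.2 : A)) : A ⧸ Q) = QuotientAddGroup.mk z.1.out :=
      QuotientAddGroup.mk_add_of_mem _ z.2.2
    exact h1.trans (QuotientAddGroup.out_eq' z.1)
  have he : Bijective e := by
    constructor
    · intro z z' h
      have h1 : z.1 = z'.1 := by rw [← hmk z, ← hmk z', h]
      have h2 : z.1.out + (z.2 : A) = z'.1.out + (z'.2 : A) := h
      rw [h1] at h2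
      exact Prod.ext h1 (Subtype.ext (add_left_cancel h2))
    · intro x
      have h1 : -((QuotientAddGroup.mk x : A ⧸ Q).out) + x ∈ Q := by
        rw [← QuotientAddGroup.eq]
        exact QuotientAddGroup.out_eq' _
      exact ⟨(QuotientAddGroup.mk x, ⟨_, h1⟩), by simp [e]⟩
  rw [← finsum_eq_of_bijective e he (f := fun z => F (e z)) (fun z => rfl)]
  rw [finsum_curry _ (hfin.preimage he.1.injOn)]
  simp only [e, h0, finsum_zero]

theorem prod_zero {A B : Type} (F : A × B → ℂ) (hfin : (support F).Finite)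
    (h0 : ∀ a, ∑ᶠ b, F (a, b) = 0) : ∑ᶠ x, F x = 0 := by
  rw [finsum_curry _ hfin]
  simp only [h0, finsum_zero]

/-! ### local facts -/

section loc

variable {F : Type} [Field F] {v : Valuation F ℤᵐ⁰}

theorem uL_coe (x : F) : ((uL x : G2 F) : M2 F) = !![1, x; 0, 1] := rfl

theorem uL_inv (x : F) : ((uL x)⁻¹ : G2 F) = uL (-x) := by
  rw [inv_eq_iff_mul_eq_one]
  ext i j
  fin_cases i <;> fin_cases j <;> simp [uL, Matrix.mul_apply, Fin.sum_univ_two]

theorem uL_mem {n : ℕ} {x : F} (hx : v x ≤ WithZero.exp (-(n : ℤ))) : uL x ∈ Cong v n := by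
  have hx' : v x ≤ (WithZero.exp (n : ℤ))⁻¹ := by rwa [WithZero.exp_neg] at hx
  intro i j
  rw [uL_inv, uL_coe, uL_coe]
  fin_cases i <;> fin_cases j <;> simp [hx']

theorem upper_coe (a : Fˣ) (b : F) (d : Fˣ) : ((upper a b d : G2 F) : M2 F) = !![(a : F), b; 0, d] :=
  rfl

theorem upper_inv (a : Fˣ) : ((upper a 0 1)⁻¹ : G2 F) = upper a⁻¹ 0 1 := by
  rw [inv_eq_iff_mul_eq_one]
  ext i j
  fin_cases i <;> fin_cases j <;> simp [upper, Matrix.mul_apply, Fin.sum_univ_two]

theorem act_upper (a : Fˣ) (f : (Fin 2 → F) → ℂ) (x : Fin 2 → F) :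
    act (upper a 0 1) f x = f (vec ((a : F)⁻¹ * x 0) (x 1)) := by
  unfold act
  rw [upper_inv, upper_coe]
  congr 1
  ext i
  fin_cases i <;> simp [vec, Matrix.mulVec, dotProduct, Fin.sum_univ_two]

theorem vec_ne {x y : F} (h : y ≠ 0) : vec x y ≠ 0 := by
  intro h0
  exact h (congrFun h0 1)

theorem nrm_vec (x y : F) : nrm v (vec x y) = max (v x) (v y) := rfl

/-- the function on the affine line -/
def hh (f : (Fin 2 → F) → ℂ) (z : F) : ℂ := f (vec z 1) - f (vec 1 0)

theorem hh_add {m : ℕ} {f : (Fin 2 → F) → ℂ} (hf : PFm v m f) (z w : F)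
    (hw : v w ≤ WithZero.exp (-(m : ℤ))) : hh f (z + w) = hh f z := by
  unfold hh
  congr 1
  apply hf.2.2 _ _ (vec_ne one_ne_zero)
  have h1 : vec (z + w) 1 - vec z 1 = vec w (0 : F) := by
    ext i
    fin_cases i <;> simp [vec]
  rw [h1, nrm_vec, nrm_vec, map_zero, max_eq_left zero_le', map_one]
  calc v w ≤ WithZero.exp (-(m : ℤ)) * 1 := by rw [mul_one]; exact hw
    _ ≤ WithZero.exp (-(m : ℤ)) * max (v z) 1 := mul_le_mul_right (le_max_right _ _) _

theorem f_hom {m : ℕ} {f : (Fin 2 → F) → ℂ} (hf : PFm v m f) {a c : F} (hc : c ≠ 0) :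
    f (vec a c) = f (vec (a / c) 1) := by
  have h1 : vec a c = c • vec (a / c) 1 := by
    ext i
    fin_cases i
    · simp [vec, mul_div_cancel₀ _ hc]
    · simp [vec]
  rw [h1, hf.2.1 c _ hc]

theorem f_hom0 {m : ℕ} {f : (Fin 2 → F) → ℂ} (hf : PFm v m f) {a : F} (ha : a ≠ 0) :
    f (vec a 0) = f (vec 1 0) := by
  have h1 : vec a 0 = a • vec (1 : F) 0 := by
    ext i
    fin_cases i <;> simp [vec]
  rw [h1, hf.2.1 a _ ha]

theorem hh_zero {m : ℕ} {f : (Fin 2 → F) → ℂ} (hf : PFm v m f) (z : F)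
    (hz : WithZero.exp (m : ℤ) ≤ v z) : hh f z = 0 := by
  have hz0 : z ≠ 0 := by
    rintro rfl
    rw [map_zero] at hz
    exact absurd (le_antisymm hz zero_le') WithZero.exp_ne_zero
  unfold hh
  rw [sub_eq_zero]
  have h1 : vec z 1 = z • vec 1 z⁻¹ := by
    ext i
    fin_cases i
    · simp [vec]
    · simp [vec, hz0]
  rw [h1, hf.2.1 z _ hz0]
  apply hf.2.2
  · intro h0
    exact one_ne_zero (congrFun h0 0)
  · have h2 : vec 1 z⁻¹ - vec (1 : F) 0 = vec 0 z⁻¹ := by
      ext i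
      fin_cases i <;> simp [vec]
    rw [h2, nrm_vec, nrm_vec, map_zero, max_eq_right zero_le', map_one,
      max_eq_left zero_le', mul_one, map_inv₀, WithZero.exp_neg]
    exact inv_anti₀ (WithZero.exp_pos) hz

/-- the action of a diagonal matrix preserves local constancy -/
theorem act_PF {f : (Fin 2 → F) → ℂ} (hf : PF v f) (a : Fˣ) (n : ℕ)
    (ha : v (a : F) = WithZero.exp (n : ℤ)) : PF v (act (upper a 0 1) f) := by
  obtain ⟨m, hf0, hfh, hfl⟩ := hf
  have hai : v ((a : F)⁻¹) = WithZero.exp (-(n : ℤ)) := by rw [map_inv₀, ha, WithZero.exp_neg]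
  have hle : (WithZero.exp (-(n : ℤ)) : ℤᵐ⁰) ≤ 1 := by
    rw [← WithZero.exp_zero, WithZero.exp_le_exp]; omega
  refine ⟨m + n, ?_, ?_, ?_⟩
  · rw [act_upper]
    convert hf0 using 2
    ext i
    fin_cases i <;> simp [vec]
  · intro c x hc
    rw [act_upper, act_upper]
    have : vec ((a : F)⁻¹ * (c • x) 0) ((c • x) 1) = c • vec ((a : F)⁻¹ * x 0) (x 1) := by
      ext i
      fin_cases i
      · simp [vec]; ring
      · simp [vec]
    rw [this, hfh c _ hc]
  · intro x y hx hxy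
    rw [act_upper, act_upper]
    apply hfl
    · intro h0
      apply hx
      ext i
      have e0 := congrFun h0 0
      have e1 := congrFun h0 1
      fin_cases i
      · simpa [vec] using e0
      · simpa [vec] using e1
    · have h1 : vec ((a : F)⁻¹ * y 0) (y 1) - vec ((a : F)⁻¹ * x 0) (x 1) =
          vec ((a : F)⁻¹ * (y - x) 0) ((y - x) 1) := by
        ext i
        fin_cases i
        · simp [vec]; ring
        · simp [vec]
      rw [h1, nrm_vec, nrm_vec, map_mul, map_mul, hai]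
      have h2 : max (WithZero.exp (-(n : ℤ)) * v ((y - x) 0)) (v ((y - x) 1)) ≤ nrm v (y - x) := by
        apply max_le
        · refine le_trans ?_ (le_max_left _ _)
          calc WithZero.exp (-(n : ℤ)) * v ((y - x) 0) ≤ 1 * v ((y - x) 0) :=
                mul_le_mul_left hle _
            _ = _ := one_mul _
        · exact le_max_right _ _
      have h3 : WithZero.exp (-(n : ℤ)) * nrm v x ≤
          max (WithZero.exp (-(n : ℤ)) * v (x 0)) (v (x 1)) := by
        unfold nrm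
        rcases max_choice (v (x 0)) (v (x 1)) with h | h
        · rw [h]; exact le_max_left _ _
        · rw [h]
          refine le_trans ?_ (le_max_right _ _)
          calc WithZero.exp (-(n : ℤ)) * v (x 1) ≤ 1 * v (x 1) := mul_le_mul_left hle _
            _ = _ := one_mul _
      refine h2.trans (hxy.trans ?_)
      have h4 : (WithZero.exp (-((m + n : ℕ) : ℤ)) : ℤᵐ⁰) =
          WithZero.exp (-(m : ℤ)) * WithZero.exp (-(n : ℤ)) := by
        rw [← WithZero.exp_add]
        congr 1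
        push_cast
        ring
      rw [h4, mul_assoc]
      exact mul_le_mul_right h3 _

theorem exists_exp (v : Valuation F ℤᵐ⁰) (z : F) : ∃ M : ℕ, v z ≤ WithZero.exp (M : ℤ) := by
  by_cases h : v z = 0
  · exact ⟨0, by rw [h]; exact zero_le'⟩
  · refine ⟨(WithZero.log (v z)).toNat, ?_⟩
    conv_lhs => rw [← WithZero.exp_log h]
    rw [WithZero.exp_le_exp]
    exact Int.self_le_toNat _

end loc

/-! ### the global part -/

section glob

variable {K : Type} [Field K] {P : Type} {L : P → Type} [∀ p, Field (L p)]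
  (val : ∀ p, Valuation (L p) ℤᵐ⁰) (emb : ∀ p, K →+* L p) (inf : P)

/-- The elements of `K` which are small at the finite places. -/
def Qg (n : P →₀ ℕ) : AddSubgroup K where
  carrier := {r | ∀ p, p ≠ inf → val p (emb p r) ≤ WithZero.exp (-(n p : ℤ))}
  zero_mem' := by
    intro p _
    rw [map_zero, map_zero]
    exact zero_le'
  add_mem' := by
    intro a b ha hb p hp
    rw [map_add]
    exact (val p).map_add_le (ha p hp) (hb p hp)
  neg_mem' := by
    intro a ha p hp
    rw [map_neg, Valuation.map_neg]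
    exact ha p hp

variable {val emb inf}

theorem mem_Qg {n : P →₀ ℕ} {r : K} : r ∈ Qg val emb inf n ↔
    ∀ p, p ≠ inf → val p (emb p r) ≤ WithZero.exp (-(n p : ℤ)) := Iff.rfl

/-- the unipotent element attached to `r` -/
def uu (n : P →₀ ℕ) (r : K) (hr : r ∈ Qg val emb inf n) : GA val := by
  classical
  exact ⟨fun p => if p = inf then 1 else uL (emb p r), by
    have : {p | (if p = inf then (1 : G2 (L p)) else uL (emb p r)) ∉ Cong (val p) 0} = ∅ := by
      ext p
      simp only [Set.mem_ofPred_eq, Set.mem_empty_iff_false, iff_false, not_not]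
      split_ifs with h
      · exact one_mem _
      · apply uL_mem
        refine (hr p h).trans ?_
        rw [WithZero.exp_le_exp]
        omega
    show Set.Finite _
    rw [this]
    exact Set.finite_empty⟩

theorem uu_mem (n : P →₀ ℕ) (r : K) (hr : r ∈ Qg val emb inf n) : uu n r hr ∈ U val n := by
  classical
  intro p
  show (if p = inf then (1 : G2 (L p)) else uL (emb p r)) ∈ _
  split_ifs with h
  · exact one_mem _
  · exact uL_mem (hr p h)

theorem uu_ne (n : P →₀ ℕ) (r : K) (hr : r ∈ Qg val emb inf n) (p : P) (hp : p ≠ inf) :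
    ((uu n r hr : GA val) : ∀ p, G2 (L p)) p = uL (emb p r) := by
  classical
  show (if p = inf then (1 : G2 (L p)) else uL (emb p r)) = _
  rw [if_neg hp]

theorem loc_inf (g : G2 (L inf)) : ((loc val inf g : GA val) : ∀ p, G2 (L p)) inf = g := by
  classical
  show Pi.mulSingle (M := fun q => G2 (L q)) inf g inf = g
  exact Pi.mulSingle_eq_same (M := fun q => G2 (L q)) inf g

theorem loc_ne (g : G2 (L inf)) (p : P) (hp : p ≠ inf) :
    ((loc val inf g : GA val) : ∀ p, G2 (L p)) p = 1 := by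
  classical
  show Pi.mulSingle (M := fun q => G2 (L q)) inf g p = 1
  exact Pi.mulSingle_eq_of_ne (M := fun q => G2 (L q)) hp g

theorem cj_loc {Φ : (∀ p, M2 (L p)) → ℂ} (hΦ : SB val inf Φ) (g : G2 (L inf))
    (Y : ∀ p, M2 (L p)) : Φ (cj val (loc val inf g) Y) = Φ Y := by
  apply hΦ.2.2
  intro p hp
  unfold cj
  rw [loc_ne g p hp]
  simp

/-! ### the idempotents -/

/-- the idempotent with lower left entry `c ≠ 0` and image `(x, 1)` -/
def X3 (c : Kˣ) (x : K) : M2 K := !![x * c, x * (1 - x * c); (c : K), 1 - x * c]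
/-- the idempotent with image `(1, 0)` and kernel `(y, 1)` -/
def X1 (y : K) : M2 K := !![1, -y; 0, 0]
/-- the idempotent with image `(y, 1)` and kernel `(1, 0)` -/
def X2 (y : K) : M2 K := !![0, y; 0, 1]

def e3 (z : Kˣ × K) : SX K (1 : K) 0 := ⟨X3 z.1 z.2, by
  constructor
  · rw [X3, Matrix.trace_fin_two_of]; ring
  · rw [X3, Matrix.det_fin_two_of]; ring⟩

def e1 (y : K) : SX K (1 : K) 0 := ⟨X1 y, by
  constructor
  · rw [X1, Matrix.trace_fin_two_of]; ring
  · rw [X1, Matrix.det_fin_two_of]; ring⟩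

def e2 (y : K) : SX K (1 : K) 0 := ⟨X2 y, by
  constructor
  · rw [X2, Matrix.trace_fin_two_of]; ring
  · rw [X2, Matrix.det_fin_two_of]; ring⟩

theorem e1_inj : Injective (e1 (K := K)) := by
  intro y y' h
  have h1 := congrArg (fun X : SX K (1 : K) 0 => X.1 0 1) h
  simpa [e1, X1] using h1

theorem e2_inj : Injective (e2 (K := K)) := by
  intro y y' h
  have h1 := congrArg (fun X : SX K (1 : K) 0 => X.1 0 1) h
  simpa [e2, X2] using h1

theorem e3_inj : Injective (e3 (K := K)) := by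
  rintro ⟨c, x⟩ ⟨c', x'⟩ h
  have h1 := congrArg (fun X : SX K (1 : K) 0 => X.1 1 0) h
  have h2 := congrArg (fun X : SX K (1 : K) 0 => X.1 0 0) h
  simp only [e3, X3, Matrix.of_apply, Matrix.cons_val', Matrix.cons_val_zero,
    Matrix.cons_val_one, Matrix.cons_val_fin_one] at h1 h2
  have h3 : c = c' := Units.ext h1
  subst h3
  have h4 : x = x' := mul_right_cancel₀ c.ne_zero h2
  rw [h4]

theorem cover (X : SX K (1 : K) 0) : X ∈ Set.range (e1 (K := K)) ∪
    (Set.range (e2 (K := K)) ∪ Set.range (e3 (K := K))) := by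
  obtain ⟨X, ht, hd⟩ := X
  rw [Matrix.trace_fin_two] at ht
  rw [Matrix.det_fin_two] at hd
  by_cases hc : X 1 0 = 0
  · rw [hc, mul_zero, sub_zero, mul_eq_zero] at hd
    rcases hd with h | h
    · right; left
      refine ⟨X 0 1, Subtype.ext ?_⟩
      rw [h, zero_add] at ht
      ext i j
      fin_cases i <;> fin_cases j <;> simp [e2, X2, h, hc, ht]
    · left
      refine ⟨-X 0 1, Subtype.ext ?_⟩
      rw [h, add_zero] at ht
      ext i j
      fin_cases i <;> fin_cases j <;> simp [e1, X1, h, hc, ht]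
  · right; right
    refine ⟨(Units.mk0 (X 1 0) hc, X 0 0 / X 1 0), Subtype.ext ?_⟩
    have h1 : X 0 0 / X 1 0 * X 1 0 = X 0 0 := div_mul_cancel₀ _ hc
    have h2 : 1 - X 0 0 = X 1 1 := by rw [← ht]; ring
    have h3 : X 0 0 / X 1 0 * X 1 1 = X 0 1 := by
      rw [div_mul_eq_mul_div, div_eq_iff hc]
      linear_combination hd
    ext i j
    fin_cases i <;> fin_cases j <;> simp [e3, X3, h1, h2, h3]

theorem disj1 : Disjoint (Set.range (e1 (K := K))) (Set.range (e2 (K := K)) ∪ Set.range (e3 (K := K))) := by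
  rw [Set.disjoint_left]
  rintro _ ⟨y, rfl⟩ (⟨y', h⟩ | ⟨⟨c, x⟩, h⟩)
  · have h1 := congrArg (fun X : SX K (1 : K) 0 => X.1 0 0) h
    simp [e1, X1, e2, X2] at h1
  · have h1 := congrArg (fun X : SX K (1 : K) 0 => X.1 1 0) h
    simp [e1, X1, e3, X3] at h1

theorem disj2 : Disjoint (Set.range (e2 (K := K))) (Set.range (e3 (K := K))) := by
  rw [Set.disjoint_left]
  rintro _ ⟨y, rfl⟩ ⟨⟨c, x⟩, h⟩
  have h1 := congrArg (fun X : SX K (1 : K) 0 => X.1 1 0) h
  simp [e2, X2, e3, X3] at h1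

theorem split_sum (F : SX K (1 : K) 0 → ℂ) (hF : (support F).Finite) :
    ∑ᶠ X, F X = ∑ᶠ y, F (e1 y) + (∑ᶠ y, F (e2 y) + ∑ᶠ z, F (e3 z)) := by
  have hA : Set.range (e1 (K := K)) ∪ (Set.range (e2 (K := K)) ∪ Set.range (e3 (K := K))) =
      Set.univ := Set.eq_univ_of_forall cover
  rw [← finsum_mem_range (f := F) e1_inj, ← finsum_mem_range (f := F) e2_inj,
    ← finsum_mem_range (f := F) e3_inj,
    ← finsum_mem_union' disj2 (hF.inter_of_right _) (hF.inter_of_right _),
    ← finsum_mem_union' disj1 (hF.inter_of_right _) (hF.inter_of_right _), hA, finsum_mem_univ]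

theorem ev_ne (β : L inf) (Y : M2 (L inf)) (h : Y 1 0 ≠ 0) : ev β Y = vec (Y 0 0 - β) (Y 1 0) := by
  unfold ev
  have h0 : ∃ i, (Y - Matrix.scalar (Fin 2) β) i 0 ≠ 0 := ⟨1, by simpa using h⟩
  rw [if_pos h0]
  ext i
  fin_cases i <;> simp [vec]

theorem ev_e1 (y : K) : ev (0 : L inf) (atp emb inf (e1 y).1) = vec 1 0 ∧
    ev (1 : L inf) (atp emb inf (e1 y).1) = vec (-(emb inf y)) (-1) := by
  unfold ev
  constructor
  · rw [if_pos ⟨0, by simp [e1, X1, atp]⟩]
    ext i
    fin_cases i <;> simp [vec, e1, X1, atp]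
  · rw [if_neg]
    · ext i
      fin_cases i <;> simp [vec, e1, X1, atp]
    · rintro ⟨i, hi⟩
      apply hi
      fin_cases i <;> simp [e1, X1, atp]

theorem ev_e2 (y : K) : ev (0 : L inf) (atp emb inf (e2 y).1) = vec (emb inf y) 1 ∧
    ev (1 : L inf) (atp emb inf (e2 y).1) = vec (-1) 0 := by
  unfold ev
  constructor
  · rw [if_neg]
    · ext i
      fin_cases i <;> simp [vec, e2, X2, atp]
    · rintro ⟨i, hi⟩
      apply hi
      fin_cases i <;> simp [e2, X2, atp]
  · rw [if_pos ⟨0, by simp [e2, X2, atp]⟩]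
    ext i
    fin_cases i <;> simp [vec, e2, X2, atp]

theorem ev_e3 (c : Kˣ) (x : K) : ev (0 : L inf) (atp emb inf (e3 (c, x)).1) =
      vec (emb inf x * emb inf c) (emb inf c) ∧
    ev (1 : L inf) (atp emb inf (e3 (c, x)).1) =
      vec (emb inf x * emb inf c - 1) (emb inf c) := by
  have h : (atp emb inf (e3 (c, x)).1) 1 0 ≠ 0 := by
    simp [e3, X3, atp]
  rw [ev_ne _ _ h, ev_ne _ _ h]
  constructor <;> simp [e3, X3, atp]

/-! ### the terms -/

variable (T : (L inf)ˣ) (n : ℕ)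

/-- the function on the affine line at the level `n` -/
def HH (f : (Fin 2 → L inf) → ℂ) (z : L inf) : ℂ := hh f (((T : L inf) ^ n)⁻¹ * z)

variable {T n}

theorem term_eq {f : (Fin 2 → L inf) → ℂ} (Φ : (∀ p, M2 (L p)) → ℂ)
    (hΦ : SB val inf Φ) (X : SX K (1 : K) 0) :
    term val emb inf 1 0 f Φ (aN val inf T n) X =
      (f (vec (((T : L inf) ^ n)⁻¹ * ev (0 : L inf) (atp emb inf X.1) 0)
          (ev (0 : L inf) (atp emb inf X.1) 1)) -
        f (vec (((T : L inf) ^ n)⁻¹ * ev (1 : L inf) (atp emb inf X.1) 0)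
          (ev (1 : L inf) (atp emb inf X.1) 1))) * Φ (fun p => atp emb p X.1) := by
  unfold term aN
  rw [loc_inf, cj_loc hΦ, act_upper, act_upper, Units.val_pow_eq_pow_val]

theorem term_e1 {m : ℕ} {f : (Fin 2 → L inf) → ℂ} (hf : PFm (val inf) m f)
    (Φ : (∀ p, M2 (L p)) → ℂ) (hΦ : SB val inf Φ) (y : K) :
    term val emb inf 1 0 f Φ (aN val inf T n) (e1 y) =
      (f (vec 1 0) - f (vec (((T : L inf) ^ n)⁻¹ * emb inf y) 1)) *
        Φ (fun p => !![1, -emb p y; 0, 0]) := by
  have hT : ((T : L inf) ^ n)⁻¹ ≠ 0 := inv_ne_zero (pow_ne_zero _ T.ne_zero)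
  rw [term_eq Φ hΦ, (ev_e1 (emb := emb) (inf := inf) y).1,
    (ev_e1 (emb := emb) (inf := inf) y).2]
  congr 1
  · congr 1
    · simp only [vec, Matrix.cons_val_zero, Matrix.cons_val_one, mul_one]
      exact f_hom0 hf hT
    · simp only [vec, Matrix.cons_val_zero, Matrix.cons_val_one]
      have := f_hom hf (a := ((T : L inf) ^ n)⁻¹ * -(emb inf y)) (c := -1) (by simp)
      unfold vec at this
      rw [this]
      congr 2
      field_simp
  · congr 1
    funext p
    ext i j
    fin_cases i <;> fin_cases j <;> simp [e1, X1, atp]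

theorem term_e2 {m : ℕ} {f : (Fin 2 → L inf) → ℂ} (hf : PFm (val inf) m f)
    (Φ : (∀ p, M2 (L p)) → ℂ) (hΦ : SB val inf Φ) (y : K) :
    term val emb inf 1 0 f Φ (aN val inf T n) (e2 y) =
      -((f (vec 1 0) - f (vec (((T : L inf) ^ n)⁻¹ * emb inf y) 1)) *
        Φ (fun p => !![0, emb p y; 0, 1])) := by
  have hT : ((T : L inf) ^ n)⁻¹ * -1 ≠ 0 := mul_ne_zero (inv_ne_zero (pow_ne_zero _ T.ne_zero))
    (by simp)
  rw [term_eq Φ hΦ, (ev_e2 (emb := emb) (inf := inf) y).1,
    (ev_e2 (emb := emb) (inf := inf) y).2]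
  have h1 : (fun p => atp emb p (e2 y).1) = fun p => (!![0, emb p y; 0, 1] : M2 (L p)) := by
    funext p
    ext i j
    fin_cases i <;> fin_cases j <;> simp [e2, X2, atp]
  rw [h1]
  have h2 := f_hom0 hf hT
  simp only [vec, Matrix.cons_val_zero, Matrix.cons_val_one] at h2 ⊢
  rw [h2]
  ring

theorem term_e3 {m : ℕ} {f : (Fin 2 → L inf) → ℂ} (hf : PFm (val inf) m f)
    (Φ : (∀ p, M2 (L p)) → ℂ) (hΦ : SB val inf Φ) (c : Kˣ) (x : K) :
    term val emb inf 1 0 f Φ (aN val inf T n) (e3 (c, x)) =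
      (HH T n f (emb inf x) - HH T n f (emb inf (x - (c : K)⁻¹))) *
        Φ (fun p => atp emb p (X3 c x)) := by
  have hc : emb inf (c : K) ≠ 0 := by simp
  rw [term_eq Φ hΦ, (ev_e3 (emb := emb) (inf := inf) c x).1,
    (ev_e3 (emb := emb) (inf := inf) c x).2]
  congr 1
  have h1 := f_hom hf (a := ((T : L inf) ^ n)⁻¹ * (emb inf x * emb inf c)) hc
  have h2 := f_hom hf (a := ((T : L inf) ^ n)⁻¹ * (emb inf x * emb inf c - 1)) hc
  have h3 : ((T : L inf) ^ n)⁻¹ * (emb inf x * emb inf c) / emb inf c =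
      ((T : L inf) ^ n)⁻¹ * emb inf x := by field_simp
  have h4 : ((T : L inf) ^ n)⁻¹ * (emb inf x * emb inf c - 1) / emb inf c =
      ((T : L inf) ^ n)⁻¹ * emb inf (x - (c : K)⁻¹) := by
    rw [map_sub, map_inv₀]
    field_simp
  rw [h3] at h1
  rw [h4] at h2
  unfold HH hh
  simp only [vec, Matrix.cons_val_zero, Matrix.cons_val_one] at h1 h2 ⊢
  rw [h1, h2]
  ring

theorem atp_X3 (p : P) (c : Kˣ) (x : K) : atp emb p (X3 c x) =
    !![emb p x * emb p c, emb p x * (1 - emb p x * emb p c); emb p c, 1 - emb p x * emb p c] := by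
  ext i j
  fin_cases i <;> fin_cases j <;> simp [X3, atp]

/-- conjugation by unipotent elements -/
theorem phi_shift {Φ : (∀ p, M2 (L p)) → ℂ} {nΦ : P →₀ ℕ}
    (h1 : ∀ u ∈ U val nΦ, ∀ Y, Φ (cj val u Y) = Φ Y)
    (h3 : ∀ Y Y', (∀ p, p ≠ inf → Y p = Y' p) → Φ Y = Φ Y') (c : Kˣ) (x r : K)
    (hr : r ∈ Qg val emb inf nΦ) :
    Φ (fun p => atp emb p (X3 c (x + r))) = Φ (fun p => atp emb p (X3 c x)) := by
  have hr' : -r ∈ Qg val emb inf nΦ := neg_mem hr
  rw [← h1 (uu nΦ (-r) hr') (uu_mem _ _ _) (fun p => atp emb p (X3 c x))]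
  apply h3
  intro p hp
  unfold cj
  beta_reduce
  rw [uu_ne _ _ _ p hp, uL_inv, uL_coe, uL_coe, atp_X3, atp_X3, Matrix.mul_fin_two,
    Matrix.mul_fin_two]
  ext i j
  fin_cases i <;> fin_cases j <;> simp <;> ring

/-- finite supports -/
theorem fin_sup (hG : Good val emb inf) (hT : val inf (T : L inf) = WithZero.exp (1 : ℤ)) {m : ℕ}
    {f : (Fin 2 → L inf) → ℂ} (hf : PFm (val inf) m f) (nΦ : P →₀ ℕ) (z : L inf) :
    (support fun r : Qg val emb inf nΦ => HH T n f (z + emb inf r)).Finite := by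
  obtain ⟨M0, hM0⟩ := exists_exp (val inf) z
  have hM : ∀ r : Qg val emb inf nΦ, HH T n f (z + emb inf r) ≠ 0 →
      (r : K) ∈ {x : K | ∀ p, val p (emb p x) ≤
        WithZero.exp ((Finsupp.single inf (M0 + m + n) p : ℕ) : ℤ)} := by
    intro r hr p
    by_cases hp : p = inf
    · subst hp
      rw [Finsupp.single_eq_same]
      have h1 : ¬ WithZero.exp (m : ℤ) ≤ val p (((T : L p) ^ n)⁻¹ * (z + emb p r)) :=
        fun h => hr (hh_zero hf _ h)
      rw [not_le, map_mul, map_inv₀, map_pow, hT] at h1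
      have h2 : val p (z + emb p r) ≤ WithZero.exp ((m + n : ℕ) : ℤ) := by
        have h3 : (WithZero.exp (1 : ℤ) : ℤᵐ⁰) ^ n = WithZero.exp (n : ℤ) := by
          rw [← WithZero.exp_nsmul]; simp
        rw [h3] at h1
        have h4 : val p (z + emb p r) = WithZero.exp (n : ℤ) *
            ((WithZero.exp (n : ℤ))⁻¹ * val p (z + emb p r)) := by
          rw [← mul_assoc, mul_inv_cancel₀ WithZero.exp_ne_zero, one_mul]
        rw [h4]
        have h5 : (WithZero.exp ((m + n : ℕ) : ℤ) : ℤᵐ⁰) =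
            WithZero.exp (n : ℤ) * WithZero.exp (m : ℤ) := by
          rw [← WithZero.exp_add]; congr 1; push_cast; ring
        rw [h5]
        exact mul_le_mul_right h1.le _
      have h6 : emb p (r : K) = (z + emb p r) + -z := by ring
      rw [h6]
      refine (val p).map_add_le (h2.trans ?_) ?_
      · rw [WithZero.exp_le_exp]; push_cast; omega
      · rw [Valuation.map_neg]
        refine hM0.trans ?_
        rw [WithZero.exp_le_exp]; push_cast; omega
    · rw [Finsupp.single_eq_of_ne (by tauto)]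
      refine (r.2 p hp).trans ?_
      rw [WithZero.exp_le_exp]
      simp
  exact ((hG.disc _).preimage Subtype.val_injective.injOn).subset fun r hr => hM r hr

theorem indep {m c0 : ℕ} {f : (Fin 2 → L inf) → ℂ} (hf : PFm (val inf) m f)
    (hT : val inf (T : L inf) = WithZero.exp (1 : ℤ)) (nΦ : P →₀ ℕ)
    (hc0 : ∀ x : Adele val, ∃ k : K,
      (∀ p, p ≠ inf → val p ((x : ∀ p, L p) p - emb p k) ≤ WithZero.exp (-(nΦ p : ℤ))) ∧
      val inf ((x : ∀ p, L p) inf - emb inf k) ≤ WithZero.exp (c0 : ℤ)) (hn : c0 + m ≤ n)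
    (z : L inf) :
    ∑ᶠ r : Qg val emb inf nΦ, HH T n f (z + emb inf r) =
      ∑ᶠ r : Qg val emb inf nΦ, HH T n f (emb inf r) := by
  classical
  have hx : {p | ¬ val p ((Pi.single inf z : ∀ p, L p) p) ≤ 1}.Finite := by
    refine (Set.finite_singleton inf).subset fun p hp => ?_
    by_contra hne
    apply hp
    rw [Pi.single_eq_of_ne (by simpa using hne), map_zero]
    exact zero_le'
  obtain ⟨k, hk1, hk2⟩ := hc0 ⟨Pi.single inf z, hx⟩
  have hk : k ∈ Qg val emb inf nΦ := by
    intro p hp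
    have h1 := hk1 p hp
    simp only [Pi.single_eq_of_ne hp, zero_sub, Valuation.map_neg] at h1
    exact h1
  simp only [Pi.single_eq_same] at hk2
  rw [← finsum_comp_equiv (Equiv.addLeft (-(⟨k, hk⟩ : Qg val emb inf nΦ)))]
  apply finsum_congr
  intro r
  have h1 : ((Equiv.addLeft (-(⟨k, hk⟩ : Qg val emb inf nΦ))) r : K) = -k + r := rfl
  rw [h1]
  unfold HH
  have h2 : ((T : L inf) ^ n)⁻¹ * (z + emb inf (-k + r)) =
      ((T : L inf) ^ n)⁻¹ * emb inf r + ((T : L inf) ^ n)⁻¹ * (z - emb inf k) := by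
    rw [map_add, map_neg]; ring
  rw [h2]
  apply hh_add hf
  rw [map_mul, map_inv₀, map_pow, hT]
  have h3 : (WithZero.exp (1 : ℤ) : ℤᵐ⁰) ^ n = WithZero.exp (n : ℤ) := by
    rw [← WithZero.exp_nsmul]; simp
  rw [h3, ← WithZero.exp_neg]
  calc WithZero.exp (-(n : ℤ)) * val inf (z - emb inf k) ≤
      WithZero.exp (-(n : ℤ)) * WithZero.exp (c0 : ℤ) := mul_le_mul_right hk2 _
    _ = WithZero.exp (-(n : ℤ) + c0) := by rw [← WithZero.exp_add]
    _ ≤ _ := by rw [WithZero.exp_le_exp]; omega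

end glob

end

end Pool.Agent.U283.LL.E

namespace Pool.Agent.U283.LL

open E

theorem pkg_E : S_Fin → S_Asym := by
  intro hFin K _ P L _ val emb inf hG T hT f hf Φ hΦ
  obtain ⟨m, hfm⟩ := id hf
  obtain ⟨⟨nΦ, h1⟩, h2, h3⟩ := id hΦ
  obtain ⟨c0, hc0⟩ := hG.sa nΦ
  refine ⟨c0 + m, fun n hn => ?_⟩
  have hsupp : (support (term (τ := (1 : K)) (ν := 0) val emb inf 1 0 f Φ
      (aN val inf T n))).Finite := by
    have hTn : val inf ((T ^ n : (L inf)ˣ) : L inf) = WithZero.exp (n : ℤ) := by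
      rw [Units.val_pow_eq_pow_val, map_pow, hT, ← WithZero.exp_nsmul]; simp
    refine (hFin K P L val emb inf hG 1 0 1 0 one_ne_zero (by simp) (by simp)
      (act (upper (T ^ n) 0 1) f) (act_PF hf (T ^ n) n hTn) Φ hΦ).subset ?_
    intro X hX
    rw [mem_support] at hX
    unfold term aN at hX
    rw [loc_inf, cj_loc hΦ] at hX
    exact hX
  unfold theta
  rw [split_sum _ hsupp]
  have hz3 : ∑ᶠ z, term (τ := (1 : K)) (ν := 0) val emb inf 1 0 f Φ (aN val inf T n) (e3 z) = 0 := by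
    apply prod_zero _ (hsupp.preimage e3_inj.injOn)
    intro c
    have hs : (support fun x : K => term (τ := (1 : K)) (ν := 0) val emb inf 1 0 f Φ
        (aN val inf T n) (e3 (c, x))).Finite := by
      refine hsupp.preimage (f := fun x : K => e3 (c, x)) ?_
      intro x _ x' _ h
      exact (Prod.ext_iff.1 (e3_inj h)).2
    apply orbit_zero (Qg val emb inf nΦ) _ hs
    intro x
    have h4 : ∀ r : Qg val emb inf nΦ, term (τ := (1 : K)) (ν := 0) val emb inf 1 0 f Φ
        (aN val inf T n) (e3 (c, x + r)) =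
        (HH T n f (emb inf x + emb inf r) - HH T n f (emb inf (x - (c : K)⁻¹) + emb inf r)) *
          Φ (fun p => atp emb p (X3 c x)) := by
      intro r
      rw [term_e3 hfm Φ hΦ, phi_shift h1 h3 c x r r.2, map_add]
      congr 3
      rw [← map_add]
      congr 1
      ring
    rw [finsum_congr h4]
    have hs1 := fin_sup (T := T) (n := n) hG hT hfm nΦ (emb inf x)
    have hs2 := fin_sup (T := T) (n := n) hG hT hfm nΦ (emb inf (x - (c : K)⁻¹))
    rw [← finsum_mul' _ _ ((hs1.union hs2).subset (support_sub _ _)),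
      finsum_sub_distrib hs1 hs2, indep hfm hT nΦ hc0 hn, indep hfm hT nΦ hc0 hn, sub_self,
      zero_mul]
  rw [hz3, add_zero]
  have hs1 : (support fun y : K => term (τ := (1 : K)) (ν := 0) val emb inf 1 0 f Φ
      (aN val inf T n) (e1 y)).Finite := hsupp.preimage e1_inj.injOn
  have hs2 : (support fun y : K => term (τ := (1 : K)) (ν := 0) val emb inf 1 0 f Φ
      (aN val inf T n) (e2 y)).Finite := hsupp.preimage e2_inj.injOn
  rw [← finsum_add_distrib hs1 hs2]
  apply finsum_congr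
  intro y
  rw [term_e1 hfm Φ hΦ, term_e2 hfm Φ hΦ]
  ring

end Pool.Agent.U283.LL
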