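import Pool.Agent.U283.LL.PkgFLoc

/-!
# Project LL, package F: the Hecke relation for the counts
-/

set_option autoImplicit false

open scoped WithZero Matrix
open Matrix

namespace Pool.Agent.U283.LL

noncomputable section

section globF

variable {K : Type} [Field K] {P : Type} {L : P → Type} [∀ p, Field (L p)]
  (val : ∀ p, Valuation (L p) ℤᵐ⁰) (emb : ∀ p, K →+* L p) (inf : P)

/-- The weight. -/
def HH (pp : P) (T : (L inf)ˣ) (f₁ : (Fin 2 → L inf) → ℂ) (f₂ : (Fin 2 → L pp) → ℂ)
    (n : ℕ) (y : K) : ℂ :=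
  (f₁ (vec 1 0) - f₁ (vec (((T : L inf) ^ n)⁻¹ * emb inf y) 1)) *
    (f₂ (vec 1 0) - f₂ (vec (emb pp y) 1))

lemma loc_apply_same (p : P) (h : G2 (L p)) :
    ((loc val p h : GA val) : ∀ q, G2 (L q)) p = h := by
  classical
  show Pi.mulSingle (M := fun q => G2 (L q)) p h p = h
  exact Pi.mulSingle_eq_same (M := fun q => G2 (L q)) p h

lemma loc_apply_ne (p : P) (h : G2 (L p)) {q : P} (hq : q ≠ p) :
    ((loc val p h : GA val) : ∀ q, G2 (L q)) q = 1 := by
  classical
  show Pi.mulSingle (M := fun q => G2 (L q)) p h q = 1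
  exact Pi.mulSingle_eq_of_ne (M := fun q => G2 (L q)) hq h

/-- The conditions away from `p`. -/
def Away (pp p : P) (g : GA val) (y : K) : Prop :=
  ∀ q, q ≠ inf → q ≠ pp → q ≠ p → IN (val q) ((g : ∀ q, G2 (L q)) q) (emb q y)

open scoped Classical in
lemma cnt_eq (pp p : P) (hp : p ≠ inf) (hpp : p ≠ pp) (T : (L inf)ˣ)
    (f₁ : (Fin 2 → L inf) → ℂ) (f₂ : (Fin 2 → L pp) → ℂ) (g : GA val) (h : G2 (L p)) (n : ℕ) :
    cnt val emb inf pp T f₁ f₂ (g * loc val p h) n =
      ∑ᶠ y : K, HH emb inf pp T f₁ f₂ n y * (if Away val emb inf pp p g y then 1 else 0) *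
        (if IN (val p) ((g : ∀ q, G2 (L q)) p * h) (emb p y) then 1 else 0) := by
  unfold cnt
  refine finsum_congr fun y => ?_
  have hiff : (∀ q, q ≠ inf → q ≠ pp → ∀ i j,
      val q ((((((g * loc val p h : GA val) : ∀ q, G2 (L q)) q)⁻¹ : G2 (L q)) *
        !![1, -emb q y; 0, 0] *
        (((g * loc val p h : GA val) : ∀ q, G2 (L q)) q : M2 (L q)) : M2 (L q)) i j) ≤ 1) ↔
      (Away val emb inf pp p g y ∧ IN (val p) ((g : ∀ q, G2 (L q)) p * h) (emb p y)) := by
    constructor
    · intro H
      constructor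
      · intro q h1 h2 h3
        have := H q h1 h2
        have e : ((g * loc val p h : GA val) : ∀ q, G2 (L q)) q = (g : ∀ q, G2 (L q)) q := by
          show (g : ∀ q, G2 (L q)) q * ((loc val p h : GA val) : ∀ q, G2 (L q)) q = _
          rw [loc_apply_ne val p h h3, mul_one]
        rw [e] at this
        exact this
      · have := H p hp hpp
        have e : ((g * loc val p h : GA val) : ∀ q, G2 (L q)) p = (g : ∀ q, G2 (L q)) p * h := by
          show (g : ∀ q, G2 (L q)) p * ((loc val p h : GA val) : ∀ q, G2 (L q)) p = _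
          rw [loc_apply_same val p h]
        rw [e] at this
        exact this
    · rintro ⟨hA, hB⟩ q h1 h2
      by_cases h3 : q = p
      · subst h3
        have e : ((g * loc val q h : GA val) : ∀ q, G2 (L q)) q = (g : ∀ q, G2 (L q)) q * h := by
          show (g : ∀ q, G2 (L q)) q * ((loc val q h : GA val) : ∀ q, G2 (L q)) q = _
          rw [loc_apply_same val q h]
        rw [e]
        exact hB
      · have e : ((g * loc val p h : GA val) : ∀ q, G2 (L q)) q = (g : ∀ q, G2 (L q)) q := by
          show (g : ∀ q, G2 (L q)) q * ((loc val p h : GA val) : ∀ q, G2 (L q)) q = _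
          rw [loc_apply_ne val p h h3, mul_one]
        rw [e]
        exact hA q h1 h2 h3
  rw [if_congr hiff rfl rfl]
  unfold HH
  by_cases h1 : Away val emb inf pp p g y <;>
    by_cases h2 : IN (val p) ((g : ∀ q, G2 (L q)) p * h) (emb p y) <;> simp [h1, h2]

/-- `f (x, 1) = f (1, 0)` for large `x`. -/
lemma PFm_large {F : Type} [Field F] {v : Valuation F ℤᵐ⁰} {m : ℕ} {f : (Fin 2 → F) → ℂ}
    (hf : PFm v m f) {x : F} (hx : WithZero.exp (m : ℤ) ≤ v x) : f (vec x 1) = f (vec 1 0) := by
  have hx0 : x ≠ 0 := by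
    intro h; rw [h, map_zero] at hx
    exact absurd hx (not_le.2 WithZero.exp_pos)
  have e : vec x 1 = x • vec 1 x⁻¹ := by
    ext i; fin_cases i <;> simp [vec, hx0]
  rw [e, hf.2.1 x _ hx0]
  refine hf.2.2 (vec 1 0) (vec 1 x⁻¹) ?_ ?_
  · intro h
    have := congrFun h 0
    simp [vec] at this
  · have h1 : nrm v (vec 1 0) = 1 := by simp [nrm, vec]
    have h2 : nrm v (vec 1 x⁻¹ - vec 1 0) = v x⁻¹ := by simp [nrm, vec]
    rw [h1, h2, mul_one, map_inv₀]
    have hpos : 0 < v x := lt_of_lt_of_le WithZero.exp_pos hx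
    rw [WithZero.exp_neg]
    exact inv_anti₀ WithZero.exp_pos hx

lemma PFm_add {F : Type} [Field F] {v : Valuation F ℤᵐ⁰} {m : ℕ} {f : (Fin 2 → F) → ℂ}
    (hf : PFm v m f) {x r : F} (hr : v r ≤ WithZero.exp (-(m : ℤ))) :
    f (vec (x + r) 1) = f (vec x 1) := by
  refine hf.2.2 (vec x 1) (vec (x + r) 1) ?_ ?_
  · intro h
    have := congrFun h 1
    simp [vec] at this
  · have h2 : nrm v (vec (x + r) 1 - vec x 1) = v r := by simp [nrm, vec]
    have h1 : 1 ≤ nrm v (vec x 1) := by simp [nrm, vec]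
    rw [h2]
    calc v r ≤ WithZero.exp (-(m : ℤ)) * 1 := by rw [mul_one]; exact hr
      _ ≤ _ := by gcongr

/-- Every nonzero element of the value group. -/
lemma exists_exp_le {x : ℤᵐ⁰} (hx : x ≠ 0) : ∃ n : ℕ, WithZero.exp (-(n : ℤ)) ≤ x := by
  refine ⟨(-(WithZero.log x)).toNat, ?_⟩
  conv_rhs => rw [← WithZero.exp_log hx]
  rw [WithZero.exp_le_exp]
  omega

lemma exists_le_exp (x : ℤᵐ⁰) : ∃ n : ℕ, x ≤ WithZero.exp (n : ℤ) := by
  by_cases hx : x = 0
  · exact ⟨0, by rw [hx]; exact zero_le⟩
  · refine ⟨(WithZero.log x).toNat, ?_⟩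
    conv_lhs => rw [← WithZero.exp_log hx]
    rw [WithZero.exp_le_exp]
    omega

/-- The affine description at every place. -/
lemma IN_affine {F : Type} [Field F] (v : Valuation F ℤᵐ⁰) (x : G2 F) :
    ∃ s t : F, s ≠ 0 ∧ ∀ y, IN v x y ↔ v (s * y - t) ≤ 1 := by
  obtain ⟨a, b, d, k, hk, rfl⟩ := iwasawa v x
  refine ⟨d * (a : F)⁻¹, b * (a : F)⁻¹, mul_ne_zero d.ne_zero (inv_ne_zero a.ne_zero), ?_⟩
  intro y
  rw [IN_mul_cong v _ hk, IN_upper]
  have e0 : ((d : F) * y - b) * (a : F)⁻¹ = (d * (a : F)⁻¹) * y - b * (a : F)⁻¹ := by ring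
  rw [e0]

lemma IN_of_cong {F : Type} [Field F] (v : Valuation F ℤᵐ⁰) {x : G2 F} (hx : x ∈ Cong v 0) (y : F) :
    IN v x y ↔ v y ≤ 1 := by
  rw [← IN_one, ← IN_mul_cong v 1 hx, one_mul]

/-- Translation by small elements does not change the condition `IN`, and `IN` bounds `y`:
uniform form with exponents which vanish outside a finite set. -/
lemma exists_levels (g : GA val) : ∃ N M : P →₀ ℕ,
    (∀ q, ∀ y r : L q, val q r ≤ WithZero.exp (-(N q : ℤ)) →
      (IN (val q) ((g : ∀ q, G2 (L q)) q) (y + r) ↔ IN (val q) ((g : ∀ q, G2 (L q)) q) y)) ∧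
    ∀ q, ∀ y : L q, IN (val q) ((g : ∀ q, G2 (L q)) q) y → val q y ≤ WithZero.exp (M q : ℤ) := by
  classical
  have hloc : ∀ q, ∃ N M : ℕ,
      (∀ y r : L q, val q r ≤ WithZero.exp (-(N : ℤ)) →
        (IN (val q) ((g : ∀ q, G2 (L q)) q) (y + r) ↔ IN (val q) ((g : ∀ q, G2 (L q)) q) y)) ∧
      ∀ y : L q, IN (val q) ((g : ∀ q, G2 (L q)) q) y → val q y ≤ WithZero.exp (M : ℤ) := by
    intro q
    obtain ⟨s, t, hs, hst⟩ := IN_affine (val q) ((g : ∀ q, G2 (L q)) q)
    have hs' : val q s ≠ 0 := by rwa [ne_eq, map_eq_zero]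
    obtain ⟨N, hN⟩ := exists_exp_le (inv_ne_zero hs')
    obtain ⟨M, hM⟩ := exists_le_exp ((val q s)⁻¹ * max 1 (val q t))
    refine ⟨N, M, ?_, ?_⟩
    · intro y r hr
      have hsr : val q (s * r) ≤ 1 := by
        rw [map_mul]
        calc val q s * val q r ≤ val q s * (val q s)⁻¹ := by gcongr; exact hr.trans hN
          _ = 1 := mul_inv_cancel₀ hs'
      rw [hst, hst]
      have e1 : s * (y + r) - t = (s * y - t) + s * r := by ring
      have e2 : s * y - t = (s * (y + r) - t) - s * r := by ring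
      constructor
      · intro h
        rw [e2]
        exact (val q).map_sub_le h hsr
      · intro h
        rw [e1]
        exact (val q).map_add_le h hsr
    · intro y hy
      rw [hst] at hy
      refine le_trans ?_ hM
      have e : y = s⁻¹ * ((s * y - t) + t) := by field_simp; ring
      rw [e, map_mul, map_inv₀]
      gcongr
      exact (val q).map_add_le (hy.trans (le_max_left _ _)) (le_max_right _ _)
  choose N M hNM using hloc
  have hfin : {p | (g : ∀ q, G2 (L q)) p ∉ Cong (val p) 0}.Finite := g.2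
  refine ⟨Finsupp.onFinset hfin.toFinset
      (fun q => if (g : ∀ q, G2 (L q)) q ∈ Cong (val q) 0 then 0 else N q) ?_,
    Finsupp.onFinset hfin.toFinset
      (fun q => if (g : ∀ q, G2 (L q)) q ∈ Cong (val q) 0 then 0 else M q) ?_, ?_, ?_⟩
  · intro q hq
    rw [Set.Finite.mem_toFinset]
    intro h
    exact hq (if_pos h)
  · intro q hq
    rw [Set.Finite.mem_toFinset]
    intro h
    exact hq (if_pos h)
  · intro q y r hr
    rw [Finsupp.onFinset_apply] at hr
    by_cases hc : (g : ∀ q, G2 (L q)) q ∈ Cong (val q) 0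
    · rw [if_pos hc] at hr
      rw [IN_of_cong (val q) hc, IN_of_cong (val q) hc]
      rw [exp_neg_zero_eq] at hr
      constructor
      · intro h
        have e : y = (y + r) - r := by ring
        rw [e]
        exact (val q).map_sub_le h hr
      · intro h
        exact (val q).map_add_le h hr
    · rw [if_neg hc] at hr
      exact (hNM q).1 y r hr
  · intro q y hy
    rw [Finsupp.onFinset_apply]
    by_cases hc : (g : ∀ q, G2 (L q)) q ∈ Cong (val q) 0
    · rw [if_pos hc]
      rw [IN_of_cong (val q) hc] at hy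
      simpa using hy
    · rw [if_neg hc]
      exact (hNM q).2 y hy

theorem pkg_F : S_Hecke := by
  classical
  intro K _ P L _ val emb inf hgood pp hppi T hT f₁ hf₁ f₂ hf₂ g p hpi hppp ϖ hϖ E hE
  obtain ⟨m₁, hm₁⟩ := hf₁
  obtain ⟨m₂, hm₂⟩ := hf₂
  obtain ⟨s, t, hs, hst, hid⟩ := local_identity hϖ hE ((g : ∀ q, G2 (L q)) p)
  obtain ⟨N, M, hN, hM⟩ := exists_levels val g
  have hsv : val p s ≠ 0 := by rwa [ne_eq, map_eq_zero]
  have hϖv : val p (ϖ : L p) ≠ 0 := by rw [hϖ]; exact WithZero.exp_ne_zero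
  obtain ⟨N₁, hN₁⟩ := exists_exp_le (inv_ne_zero hsv)
  -- strong approximation
  obtain ⟨c₀, hc₀⟩ := hgood.sa (N + Finsupp.single pp m₂ + Finsupp.single p N₁)
  have hr : ∀ c : L p, ∃ r : K, (∀ q, q ≠ inf → q ≠ p → val q (emb q r) ≤
        WithZero.exp (-(N q : ℤ))) ∧ val pp (emb pp r) ≤ WithZero.exp (-(m₂ : ℤ)) ∧
      val p (s * emb p r - c * (ϖ : L p)⁻¹) ≤ 1 ∧
      val inf (emb inf r) ≤ WithZero.exp (c₀ : ℤ) := by
    intro c
    set xc : Adele val := ⟨Pi.single p (s⁻¹ * (c * (ϖ : L p)⁻¹)), by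
      refine (Set.finite_singleton p).subset ?_
      intro q hq
      by_contra hne
      apply hq
      rw [Pi.single_eq_of_ne (by simpa using hne)]
      simp⟩ with hxc
    obtain ⟨k, hk1, hk2⟩ := hc₀ xc
    have hx0 : ∀ q, q ≠ p → (xc : ∀ q, L q) q = 0 := by
      intro q hq
      show Pi.single p (s⁻¹ * (c * (ϖ : L p)⁻¹)) q = 0
      exact Pi.single_eq_of_ne hq _
    have hxp : (xc : ∀ q, L q) p = s⁻¹ * (c * (ϖ : L p)⁻¹) := by
      show Pi.single p (s⁻¹ * (c * (ϖ : L p)⁻¹)) p = _
      exact Pi.single_eq_same _ _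
    refine ⟨k, ?_, ?_, ?_, ?_⟩
    · intro q h1 h2
      have := hk1 q h1
      rw [hx0 q h2, zero_sub, Valuation.map_neg] at this
      refine this.trans ?_
      rw [WithZero.exp_le_exp]
      simp only [Finsupp.add_apply]
      push_cast
      omega
    · have := hk1 pp hppi
      rw [hx0 pp (Ne.symm hppp), zero_sub, Valuation.map_neg] at this
      refine this.trans ?_
      rw [WithZero.exp_le_exp]
      simp only [Finsupp.add_apply, Finsupp.single_eq_same]
      push_cast
      omega
    · have := hk1 p hpi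
      rw [hxp] at this
      have h1 : val p (s⁻¹ * (c * (ϖ : L p)⁻¹) - emb p k) ≤ (val p s)⁻¹ := by
        refine this.trans (le_trans ?_ hN₁)
        rw [WithZero.exp_le_exp]
        simp only [Finsupp.add_apply, Finsupp.single_eq_same]
        push_cast
        omega
      have e : s * emb p k - c * (ϖ : L p)⁻¹ =
          -(s * (s⁻¹ * (c * (ϖ : L p)⁻¹) - emb p k)) := by
        field_simp
        ring
      rw [e, Valuation.map_neg, map_mul]
      calc val p s * val p (s⁻¹ * (c * (ϖ : L p)⁻¹) - emb p k) ≤ val p s * (val p s)⁻¹ := by gcongr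
        _ = 1 := mul_inv_cancel₀ hsv
    · rw [hx0 inf (Ne.symm hpi), zero_sub, Valuation.map_neg] at hk2
      exact hk2
  choose r hr1 hr2 hr3 hr4 using hr
  refine ⟨c₀ + m₁, fun n hn => ?_⟩
  set H : K → ℂ := fun y => HH emb inf pp T f₁ f₂ n y *
    (if Away val emb inf pp p g y then 1 else 0) with hH
  set B : K → Prop := fun y => val p (s * emb p y - t) ≤ 1 with hB
  set B' : K → Prop := fun y => val p ((ϖ : L p) * (s * emb p y - t)) ≤ 1 with hB'
  -- translation invariance
  have hHr : ∀ c y, H (y + r c) = H y := by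
    intro c y
    simp only [hH]
    congr 1
    · unfold HH
      rw [map_add, map_add, mul_add, PFm_add hm₂ (hr2 c), PFm_add hm₁]
      rw [map_mul, map_inv₀, map_pow, hT]
      calc ((WithZero.exp (1 : ℤ) : ℤᵐ⁰) ^ n)⁻¹ * val inf (emb inf (r c))
          ≤ ((WithZero.exp (1 : ℤ) : ℤᵐ⁰) ^ n)⁻¹ * WithZero.exp (c₀ : ℤ) := by
            gcongr; exact hr4 c
        _ = WithZero.exp (-(n : ℤ) + c₀) := by
            rw [← WithZero.exp_nsmul, ← WithZero.exp_neg, ← WithZero.exp_add]
            simp
        _ ≤ _ := by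
            rw [WithZero.exp_le_exp]
            omega
    · refine if_congr ?_ rfl rfl
      unfold Away
      refine forall_congr' fun q => ?_
      constructor
      · intro h h1 h2 h3
        have := h h1 h2 h3
        rw [map_add, hN q _ _ (hr1 c q h1 h3)] at this
        exact this
      · intro h h1 h2 h3
        rw [map_add, hN q _ _ (hr1 c q h1 h3)]
        exact h h1 h2 h3
  -- finiteness
  have hfinS : {y : K | H y ≠ 0 ∧ B' y}.Finite := by
    obtain ⟨Mp, hMp⟩ := exists_le_exp ((val p s)⁻¹ * max ((val p (ϖ : L p))⁻¹) (val p t))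
    refine (hgood.disc (M + Finsupp.single pp m₂ + Finsupp.single inf (n + m₁) +
      Finsupp.single p Mp)).subset ?_
    rintro y ⟨hy1, hy2⟩ q
    have hmono : ∀ a b c d : ℕ, ∀ x : ℤᵐ⁰, (x ≤ WithZero.exp (a : ℤ) ∨ x ≤ WithZero.exp (b : ℤ) ∨
        x ≤ WithZero.exp (c : ℤ) ∨ x ≤ WithZero.exp (d : ℤ)) →
        x ≤ WithZero.exp ((a + b + c + d : ℕ) : ℤ) := by
      rintro a b c d x (h | h | h | h) <;> refine h.trans ?_ <;> rw [WithZero.exp_le_exp] <;>
        push_cast <;> omega
    have hyA : Away val emb inf pp p g y := by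
      by_contra hc
      apply hy1
      simp only [hH, if_neg hc, mul_zero]
    have hyH : HH emb inf pp T f₁ f₂ n y ≠ 0 := by
      intro hc
      apply hy1
      simp only [hH, hc, zero_mul]
    simp only [Finsupp.add_apply]
    apply hmono
    by_cases h1 : q = inf
    · subst h1
      right; right; left
      rw [Finsupp.single_eq_same]
      by_contra hc
      rw [not_le] at hc
      apply hyH
      unfold HH
      rw [PFm_large hm₁, sub_self, zero_mul]
      rw [map_mul, map_inv₀, map_pow, hT]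
      calc WithZero.exp (m₁ : ℤ) = ((WithZero.exp (1 : ℤ) : ℤᵐ⁰) ^ n)⁻¹ *
          WithZero.exp (((n + m₁ : ℕ)) : ℤ) := by
            rw [← WithZero.exp_nsmul, ← WithZero.exp_neg, ← WithZero.exp_add]
            simp
        _ ≤ _ := by gcongr
    by_cases h2 : q = pp
    · subst h2
      right; left
      rw [Finsupp.single_eq_same]
      by_contra hc
      rw [not_le] at hc
      apply hyH
      unfold HH
      rw [PFm_large hm₂ hc.le, sub_self, mul_zero]
    by_cases h3 : q = p
    · subst h3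
      right; right; right
      rw [Finsupp.single_eq_same]
      refine le_trans ?_ hMp
      have e : emb q y = s⁻¹ * ((ϖ : L q)⁻¹ * ((ϖ : L q) * (s * emb q y - t)) + t) := by
        have := ϖ.ne_zero
        field_simp
        ring
      rw [e, map_mul, map_inv₀]
      gcongr
      refine (val q).map_add_le ?_ (le_max_right _ _)
      rw [map_mul, map_inv₀]
      calc (val q (ϖ : L q))⁻¹ * val q ((ϖ : L q) * (s * emb q y - t)) ≤
          (val q (ϖ : L q))⁻¹ * 1 := by gcongr
        _ ≤ _ := by rw [mul_one]; exact le_max_left _ _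
    · left
      exact hM q _ (hyA q h1 h2 h3)
  have hϖ1 : val p (ϖ : L p) ≤ 1 := by
    rw [hϖ, ← WithZero.exp_zero, WithZero.exp_le_exp]; omega
  have hBB' : ∀ y, B y → B' y := by
    intro y hy
    simp only [hB'] 
    rw [map_mul]
    exact mul_le_one' hϖ1 hy
  -- decomposition of the large ball
  have hdec : ∀ y : K, (if B' y then (1 : ℂ) else 0) = ∑ c ∈ E, if B (y - r c) then (1 : ℂ) else 0 := by
    intro y
    have hkey : ∀ c, B (y - r c) ↔ val p ((ϖ : L p) * (s * emb p y - t) - c) ≤ WithZero.exp (-1 : ℤ) := by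
      intro c
      have h3 := hr3 c
      have e0 : (ϖ : L p) * (s * emb p y - t) - c =
          (ϖ : L p) * ((s * emb p y - t) - c * (ϖ : L p)⁻¹) := by
        have := ϖ.ne_zero
        field_simp
      have e1 : val p ((ϖ : L p) * (s * emb p y - t) - c) ≤ WithZero.exp (-1 : ℤ) ↔
          val p ((s * emb p y - t) - c * (ϖ : L p)⁻¹) ≤ 1 := by
        rw [e0, mul_comm, map_mul, hϖ]
        constructor
        · intro h
          have : val p ((s * emb p y - t) - c * (ϖ : L p)⁻¹) * WithZero.exp (-1 : ℤ) ≤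
            1 * WithZero.exp (-1 : ℤ) := by rw [one_mul]; exact h
          exact le_of_mul_le_mul_right this WithZero.exp_pos
        · intro h
          calc val p ((s * emb p y - t) - c * (ϖ : L p)⁻¹) * WithZero.exp (-1 : ℤ) ≤
            1 * WithZero.exp (-1 : ℤ) := by gcongr
            _ = _ := one_mul _
      rw [e1]
      simp only [hB, map_sub]
      have e2 : s * (emb p y - emb p (r c)) - t =
          ((s * emb p y - t) - c * (ϖ : L p)⁻¹) - (s * emb p (r c) - c * (ϖ : L p)⁻¹) := by ring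
      have e3 : (s * emb p y - t) - c * (ϖ : L p)⁻¹ =
          (s * (emb p y - emb p (r c)) - t) + (s * emb p (r c) - c * (ϖ : L p)⁻¹) := by ring
      constructor
      · intro h
        rw [e3]
        exact (val p).map_add_le h h3
      · intro h
        rw [e2]
        exact (val p).map_sub_le h h3
    simp only [hkey]
    by_cases hy : B' y
    · rw [if_pos hy]
      obtain ⟨c, ⟨hc, hcv⟩, hu⟩ := hE.2 _ hy
      rw [Finset.sum_eq_single c, if_pos (by simpa using hcv)]
      · intro c' hc' hne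
        rw [if_neg]
        intro h
        exact hne (hu c' ⟨hc', by simpa using h⟩)
      · intro h; exact absurd hc h
    · rw [if_neg hy]
      symm
      refine Finset.sum_eq_zero fun c hc => ?_
      rw [if_neg]
      intro h
      apply hy
      simp only [hB']
      have : (ϖ : L p) * (s * emb p y - t) = ((ϖ : L p) * (s * emb p y - t) - c) + c := by ring
      rw [this]
      refine (val p).map_add_le (h.trans ?_) (hE.1 c hc)
      rw [← WithZero.exp_zero, WithZero.exp_le_exp]; omega
  -- finite supports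
  have fs : ∀ w : K → ℂ, (∀ y, ¬ B' y → w y = 0) → (Function.support fun y => H y * w y).Finite := by
    intro w hw
    refine hfinS.subset ?_
    intro y hy
    rw [Function.mem_support] at hy
    refine ⟨left_ne_zero_of_mul hy, ?_⟩
    by_contra hc
    exact hy (by rw [hw y hc, mul_zero])
  set A : ℂ := ∑ᶠ y : K, H y * (if B y then 1 else 0) with hA
  have hA' : ∑ᶠ y : K, H y * (if B' y then 1 else 0) = (E.card : ℂ) * A := by
    simp only [hdec]
    have e1 : ∀ y, H y * (∑ c ∈ E, if B (y - r c) then (1 : ℂ) else 0) =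
        ∑ c ∈ E, H y * (if B (y - r c) then (1 : ℂ) else 0) := fun y => Finset.mul_sum _ _ _
    simp only [e1]
    rw [finsum_sum_comm]
    · rw [Finset.sum_congr rfl (g := fun _ => A), Finset.sum_const, nsmul_eq_mul]
      intro c hc
      rw [hA, ← finsum_comp_equiv (Equiv.addRight (r c))]
      refine finsum_congr fun y => ?_
      simp only [Equiv.coe_addRight, hHr, add_sub_cancel_right]
    · intro c hc
      refine fs _ fun y hy => ?_
      have h0 := hdec y
      rw [if_neg hy] at h0
      by_contra hne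
      have hpos : ∀ c' ∈ E, (0 : ℝ) ≤ (if B (y - r c') then (1 : ℝ) else 0) := by
        intro c' _; split_ifs <;> norm_num
      have h1 : (0 : ℝ) = ∑ c ∈ E, if B (y - r c) then (1 : ℝ) else 0 := by
        have := congrArg Complex.re h0
        rw [Complex.zero_re, Complex.re_sum] at this
        refine this.trans (Finset.sum_congr rfl fun c' _ => ?_)
        split_ifs <;> simp
      have h2 := (Finset.sum_eq_zero_iff_of_nonneg hpos).1 h1.symm c hc
      apply hne
      by_cases hb : B (y - r c)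
      · rw [if_pos hb] at h2; norm_num at h2
      · rw [if_neg hb]
  -- conclusion
  have hL1 : ∑ c ∈ E, cnt val emb inf pp T f₁ f₂ (g * loc val p (upper ϖ c 1)) n +
        cnt val emb inf pp T f₁ f₂ (g * loc val p (upper 1 0 ϖ)) n =
      ∑ᶠ y : K, (H y * (if B y then 1 else 0) + H y * (if B' y then 1 else 0)) := by
    have hsum : ∀ y, ¬ B' y → (∀ c ∈ E, ¬ IN (val p) ((g : ∀ q, G2 (L q)) p * upper ϖ c 1) (emb p y)) ∧
        ¬ IN (val p) ((g : ∀ q, G2 (L q)) p * upper 1 0 ϖ) (emb p y) := by
      intro y hy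
      have h0 := hid (emb p y)
      rw [if_neg (fun h => hy (hBB' y h)), if_neg hy, add_zero] at h0
      have hpos : ∀ c' ∈ E, (0 : ℝ) ≤
          (if IN (val p) ((g : ∀ q, G2 (L q)) p * upper ϖ c' 1) (emb p y) then (1 : ℝ) else 0) := by
        intro c' _; split_ifs <;> norm_num
      have h1 : (∑ c ∈ E, if IN (val p) ((g : ∀ q, G2 (L q)) p * upper ϖ c 1) (emb p y)
            then (1 : ℝ) else 0) +
          (if IN (val p) ((g : ∀ q, G2 (L q)) p * upper 1 0 ϖ) (emb p y) then (1 : ℝ) else 0) = 0 := by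
        have := congrArg Complex.re h0
        rw [Complex.zero_re, Complex.add_re, Complex.re_sum] at this
        refine Eq.trans ?_ this
        congr 1
        · refine Finset.sum_congr rfl fun c' _ => ?_
          split_ifs <;> simp
        · split_ifs <;> simp
      have hp2 : (0 : ℝ) ≤
          (if IN (val p) ((g : ∀ q, G2 (L q)) p * upper 1 0 ϖ) (emb p y) then (1 : ℝ) else 0) := by
        split_ifs <;> norm_num
      have hp1 := Finset.sum_nonneg hpos
      have hz1 : ∑ c ∈ E, (if IN (val p) ((g : ∀ q, G2 (L q)) p * upper ϖ c 1) (emb p y)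
            then (1 : ℝ) else 0) = 0 := by linarith
      have hz2 : (if IN (val p) ((g : ∀ q, G2 (L q)) p * upper 1 0 ϖ) (emb p y)
        then (1 : ℝ) else 0) = 0 := by linarith
      constructor
      · intro c hc hin
        have := (Finset.sum_eq_zero_iff_of_nonneg hpos).1 hz1 c hc
        rw [if_pos hin] at this
        norm_num at this
      · intro hin
        rw [if_pos hin] at hz2
        norm_num at hz2
    rw [cnt_eq val emb inf pp p hpi hppp]
    simp only [cnt_eq val emb inf pp p hpi hppp]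
    have hsc : ∑ c ∈ E, ∑ᶠ y : K, H y *
          (if IN (val p) ((g : ∀ q, G2 (L q)) p * upper ϖ c 1) (emb p y) then 1 else 0) =
        ∑ᶠ y : K, ∑ c ∈ E, H y *
          (if IN (val p) ((g : ∀ q, G2 (L q)) p * upper ϖ c 1) (emb p y) then 1 else 0) := by
      rw [← finsum_sum_comm]
      intro c hc
      refine fs _ fun y hy => ?_
      rw [if_neg ((hsum y hy).1 c hc)]
    have hsc' : ∑ c ∈ E, ∑ᶠ y : K, HH emb inf pp T f₁ f₂ n y *
        (if Away val emb inf pp p g y then 1 else 0) *
          (if IN (val p) ((g : ∀ q, G2 (L q)) p * upper ϖ c 1) (emb p y) then 1 else 0) =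
        ∑ᶠ y : K, ∑ c ∈ E, H y *
          (if IN (val p) ((g : ∀ q, G2 (L q)) p * upper ϖ c 1) (emb p y) then 1 else 0) := hsc
    rw [hsc']
    rw [← finsum_add_distrib]
    · refine finsum_congr fun y => ?_
      have := hid (emb p y)
      rw [← mul_add, ← this, mul_add, Finset.mul_sum]
    · refine hfinS.subset ?_
      intro y hy
      rw [Function.mem_support, ← Finset.mul_sum] at hy
      refine ⟨left_ne_zero_of_mul hy, ?_⟩
      by_contra hc
      apply hy
      rw [Finset.sum_eq_zero, mul_zero]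
      intro c hc'
      rw [if_neg ((hsum y hc).1 c hc')]
    · refine fs _ fun y hy => ?_
      rw [if_neg (hsum y hy).2]
  rw [hL1, finsum_add_distrib (fs _ fun y hy => if_neg fun h => hy (hBB' y h))
    (fs _ fun y hy => if_neg hy), hA', ← hA]
  have hg : cnt val emb inf pp T f₁ f₂ g n = A := by
    have := cnt_eq val emb inf pp p hpi hppp T f₁ f₂ g 1 n
    rw [map_one, mul_one] at this
    rw [this, hA]
    refine finsum_congr fun y => ?_
    rw [mul_one]
    simp only [hH, hB, hst]
  rw [hg]
  ring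

end globF

end

end Pool.Agent.U283.LL
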