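import Pool.Agent.U283.LL.Spec

/-!
# Project LL, package G2: the finite places of `𝔽₂(t)` are local fields
-/

set_option autoImplicit false

open scoped WithZero Matrix
open Matrix IsDedekindDomain Polynomial

namespace Pool.Agent.U283.LL

noncomputable section

/-- representatives: it is enough to have finitely many elements which meet all classes -/
lemma reps_of_finite {F : Type} [Field F] (v : Valuation F ℤᵐ⁰) (n : ℕ) (S : Set F) (hS : S.Finite)
    (h : ∀ x, v x ≤ 1 → ∃ s ∈ S, v (x - s) ≤ WithZero.exp (-(n : ℤ))) : ∃ E : Finset F, IsReps v n E := by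
  classical
  have hle : (WithZero.exp (-(n : ℤ)) : ℤᵐ⁰) ≤ 1 := by
    rw [← WithZero.exp_zero, WithZero.exp_le_exp]
    omega
  -- the relation
  let R : Setoid F :=
    { r := fun x y => v (x - y) ≤ WithZero.exp (-(n : ℤ))
      iseqv := ⟨fun x => by simp, fun {x y} hxy => by rw [← neg_sub, Valuation.map_neg]; exact hxy,
        fun {x y z} hxy hyz => by
          have : x - z = (x - y) + (y - z) := by ring
          rw [this]
          exact v.map_add_le hxy hyz⟩ }
  let c : F → F := fun x => (Quotient.out (Quotient.mk R x))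
  have hc : ∀ x, v (c x - x) ≤ WithZero.exp (-(n : ℤ)) := fun x => Quotient.mk_out (s := R) x
  have hcc : ∀ x y, v (x - y) ≤ WithZero.exp (-(n : ℤ)) → c x = c y := fun x y hxy => by
    show Quotient.out (Quotient.mk R x) = Quotient.out (Quotient.mk R y)
    rw [Quotient.sound (s := R) hxy]
  refine ⟨(hS.toFinset.filter (fun s => v s ≤ 1)).image c, ?_, ?_⟩
  · intro e he
    obtain ⟨s, hs, rfl⟩ := Finset.mem_image.1 he
    have h1 := (Finset.mem_filter.1 hs).2
    have : c s = (c s - s) + s := by ring
    rw [this]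
    exact v.map_add_le ((hc s).trans hle) h1
  · intro x hx
    obtain ⟨s, hs, hxs⟩ := h x hx
    have hs1 : v s ≤ 1 := by
      have : s = x - (x - s) := by ring
      rw [this]
      exact v.map_sub_le hx (hxs.trans hle)
    refine ⟨c s, ⟨Finset.mem_image.2 ⟨s, Finset.mem_filter.2 ⟨hS.mem_toFinset.2 hs, hs1⟩, rfl⟩, ?_⟩, ?_⟩
    · have : x - c s = (x - s) - (c s - s) := by ring
      rw [this]
      exact v.map_sub_le hxs (hc s)
    · rintro e ⟨he, hxe⟩
      obtain ⟨s', hs', rfl⟩ := Finset.mem_image.1 he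
      apply hcc
      have : s' - s = (x - s) - (x - c s') - (c s' - s') := by ring
      rw [this]
      exact v.map_sub_le (v.map_sub_le hxs hxe) (hc s')

/-- the residues modulo `v ^ n` -/
lemma finite_residues (v : HeightOneSpectrum (Polynomial (ZMod 2))) (n : ℕ) :
    ∃ S : Set (Polynomial (ZMod 2)), S.Finite ∧ ∀ r, ∃ s ∈ S, r - s ∈ v.asIdeal ^ n := by
  have hne : v.asIdeal ^ n ≠ ⊥ := pow_ne_zero n v.ne_bot
  obtain ⟨g, hg, hg0⟩ := (Submodule.ne_bot_iff _).1 hne
  refine ⟨{p | p.degree < g.degree}, ?_, fun r => ⟨r % g, ?_, ?_⟩⟩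
  · have h1 : g.degree = (g.natDegree : WithBot ℕ) := Polynomial.degree_eq_natDegree hg0
    rw [h1]
    have h2 : Finite (Polynomial.degreeLT (ZMod 2) g.natDegree) :=
      Finite.of_equiv _ (Polynomial.degreeLTEquiv (ZMod 2) g.natDegree).symm.toEquiv
    have h3 : {p : Polynomial (ZMod 2) | p.degree < (g.natDegree : WithBot ℕ)} =
        (Polynomial.degreeLT (ZMod 2) g.natDegree : Set (Polynomial (ZMod 2))) := by
      ext p
      exact Polynomial.mem_degreeLT.symm
    rw [h3]
    exact Set.toFinite _
  · exact Polynomial.degree_mod_lt r hg0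
  · have h1 : r - r % g = g * (r / g) := by
      have h2 := EuclideanDomain.div_add_mod r g
      rw [sub_eq_iff_eq_add, h2]
    rw [h1]
    exact Ideal.mul_mem_right _ _ hg

/-- elements of the completion are close to elements of the field -/
lemma exists_close {R K : Type} [CommRing R] [IsDedekindDomain R] [Field K] [Algebra R K] [IsFractionRing R K]
    (v : HeightOneSpectrum R) (x : v.adicCompletion K) (n : ℕ) :
    ∃ k : K, Valued.v (x - algebraMap K (v.adicCompletion K) k) ≤ WithZero.exp (-(n : ℤ)) := by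
  obtain ⟨π, hπ⟩ := v.valuation_exists_uniformizer K
  have ha : Valued.v ((algebraMap K (v.adicCompletion K) π) ^ n) = WithZero.exp (-(n : ℤ)) := by
    rw [map_pow]
    have h1 : Valued.v (algebraMap K (v.adicCompletion K) π) = v.valuation K π :=
      HeightOneSpectrum.valuedAdicCompletion_eq_valuation' v π
    rw [h1, hπ, ← WithZero.exp_nsmul]
    congr 1
    simp
  have hne : (Valued.v.restrict ((algebraMap K (v.adicCompletion K) π) ^ n)) ≠ 0 := by
    intro h
    rw [Valuation.restrict_eq_zero_iff, ha] at h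
    exact WithZero.exp_ne_zero h
  have hU : {y : v.adicCompletion K | Valued.v (y - x) < Valued.v ((algebraMap K (v.adicCompletion K) π) ^ n)} ∈ nhds x := by
    rw [Valued.mem_nhds]
    refine ⟨Units.mk0 _ hne, fun y hy => ?_⟩
    exact (Valuation.restrict_lt_iff _).1 hy
  obtain ⟨k, hk⟩ := (HeightOneSpectrum.denseRange_algebraMap K v).mem_nhds hU
  refine ⟨k, ?_⟩
  rw [← neg_sub, Valuation.map_neg]
  exact (le_of_lt hk).trans ha.le

/-- representatives in the completion -/
lemma reps_adic {R K : Type} [CommRing R] [IsDedekindDomain R] [Field K] [Algebra R K] [IsFractionRing R K]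
    (v : HeightOneSpectrum R) (n : ℕ) (S : Set R) (hS : S.Finite) (hS2 : ∀ r, ∃ s ∈ S, r - s ∈ v.asIdeal ^ n) :
    ∃ E : Finset (v.adicCompletion K), IsReps (Valued.v : Valuation (v.adicCompletion K) ℤᵐ⁰) n E := by
  refine reps_of_finite _ n ((fun p => algebraMap K (v.adicCompletion K) (algebraMap R K p)) '' S) (hS.image _)
    (fun x hx => ?_)
  have hle : (WithZero.exp (-(n : ℤ)) : ℤᵐ⁰) ≤ 1 := by
    rw [← WithZero.exp_zero, WithZero.exp_le_exp]
    omega
  have hval : ∀ k : K, Valued.v (algebraMap K (v.adicCompletion K) k) = v.valuation K k := fun k =>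
    HeightOneSpectrum.valuedAdicCompletion_eq_valuation' v k
  obtain ⟨k, hk⟩ := exists_close v x n
  have hvk : v.valuation K k ≤ 1 := by
    rw [← hval]
    have : algebraMap K (v.adicCompletion K) k = x - (x - algebraMap K (v.adicCompletion K) k) := by ring
    rw [this]
    exact Valuation.map_sub_le _ hx (hk.trans hle)
  obtain ⟨r, hr⟩ := HeightOneSpectrum.exists_valuation_sub_lt_of_integer v hvk
    (Units.mk0 (WithZero.exp (-(n : ℤ))) WithZero.exp_ne_zero)
  obtain ⟨s, hs, hrs⟩ := hS2 r
  refine ⟨_, ⟨s, hs, rfl⟩, ?_⟩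
  have e1 : Valued.v (algebraMap K (v.adicCompletion K) (algebraMap R K r - k)) ≤ WithZero.exp (-(n : ℤ)) := by
    rw [hval]
    exact hr.le
  have e2 : Valued.v (algebraMap K (v.adicCompletion K) (algebraMap R K (r - s))) ≤ WithZero.exp (-(n : ℤ)) := by
    rw [hval, HeightOneSpectrum.valuation_of_algebraMap, HeightOneSpectrum.intValuation_le_pow_iff_mem]
    exact hrs
  have e3 : x - algebraMap K (v.adicCompletion K) (algebraMap R K s) =
      (x - algebraMap K (v.adicCompletion K) k) - algebraMap K (v.adicCompletion K) (algebraMap R K r - k) +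
        algebraMap K (v.adicCompletion K) (algebraMap R K (r - s)) := by
    simp only [map_sub]
    ring
  show Valued.v (x - algebraMap K (v.adicCompletion K) (algebraMap R K s)) ≤ _
  rw [e3]
  exact Valuation.map_add_le _ (Valuation.map_sub_le _ hk e1) e2

theorem g_loc_some (v : HeightOneSpectrum (Polynomial (ZMod 2))) : LocalHyp (val0 (some v)) := by
  refine ⟨?_, fun n => ?_⟩
  · obtain ⟨π, hπ⟩ := v.valuation_exists_uniformizer (RatFunc (ZMod 2))
    refine ⟨(algebraMap (RatFunc (ZMod 2)) (v.adicCompletion (RatFunc (ZMod 2))) π), ?_⟩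
    have h1 : Valued.v (algebraMap (RatFunc (ZMod 2)) (v.adicCompletion (RatFunc (ZMod 2))) π) =
        v.valuation (RatFunc (ZMod 2)) π := HeightOneSpectrum.valuedAdicCompletion_eq_valuation' v π
    exact h1.trans hπ
  · obtain ⟨S, hS, hS2⟩ := finite_residues v n
    exact reps_adic (K := RatFunc (ZMod 2)) v n S hS hS2

end

end Pool.Agent.U283.LL
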