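import Pool.Agent.U283.LL.PkgG3

/-!
# Project LL, package G4: strong approximation for `𝔽₂(t)` (helper723)
-/

set_option autoImplicit false

open scoped WithZero Polynomial
open UniformSpace IsDedekindDomain

namespace Pool.Agent.U283.LL

noncomputable section

namespace GD

/-- a generator of the prime ideal -/
lemma exists_gen (v : HeightOneSpectrum (ZMod 2)[X]) :
    ∃ g : (ZMod 2)[X], g ≠ 0 ∧ v.valuation K0 (algebraMap _ K0 g) = WithZero.exp (-1 : ℤ) ∧
      ∀ w : HeightOneSpectrum (ZMod 2)[X], w ≠ v → w.valuation K0 (algebraMap _ K0 g) = 1 := by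
  obtain ⟨g, hg⟩ := (IsPrincipalIdealRing.principal v.asIdeal).principal
  have hg' : v.asIdeal = Ideal.span {g} := hg
  have hg0 : g ≠ 0 := by
    rintro rfl
    apply v.ne_bot
    rw [hg', Ideal.span_singleton_eq_bot.2 rfl]
  refine ⟨g, hg0, ?_, fun w hw => ?_⟩
  · rw [HeightOneSpectrum.valuation_of_algebraMap]
    exact v.intValuation_singleton hg0 hg'
  · rw [HeightOneSpectrum.valuation_eq_one_iff_notMem]
    intro hmem
    apply hw
    have hle : v.asIdeal ≤ w.asIdeal := by
      rw [hg', Ideal.span_singleton_le_iff_mem]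
      exact hmem
    have hmax : v.asIdeal.IsMaximal := v.isMaximal
    exact HeightOneSpectrum.ext (hmax.eq_of_le w.isPrime.ne_top hle).symm

/-- the generators -/
def gn (p : P0) : (ZMod 2)[X] :=
  match p with
  | none => 1
  | some v => (exists_gen v).choose

lemma gn_ne (p : P0) : gn p ≠ 0 := by
  cases p with
  | none => exact one_ne_zero
  | some v => exact (exists_gen v).choose_spec.1

lemma gn_self (v : HeightOneSpectrum (ZMod 2)[X]) :
    v.valuation K0 (algebraMap _ K0 (gn (some v))) = WithZero.exp (-1 : ℤ) :=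
  (exists_gen v).choose_spec.2.1

lemma gn_of_ne (v : HeightOneSpectrum (ZMod 2)[X]) (p : P0) (h : p ≠ some v) :
    v.valuation K0 (algebraMap _ K0 (gn p)) = 1 := by
  cases p with
  | none => simp [gn]
  | some w => exact (exists_gen w).choose_spec.2.2 v fun h' => h (by rw [h'])

/-- the product of the generators to the powers `n p` -/
def NN (n : P0 →₀ ℕ) (S : Finset P0) : (ZMod 2)[X] := ∏ p ∈ S, gn p ^ n p

lemma NN_ne (n : P0 →₀ ℕ) (S : Finset P0) : NN n S ≠ 0 :=
  Finset.prod_ne_zero_iff.2 fun p _ => pow_ne_zero _ (gn_ne p)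

lemma NN_val (n : P0 →₀ ℕ) (S : Finset P0) (v : HeightOneSpectrum (ZMod 2)[X]) (h : some v ∈ S) :
    v.valuation K0 (algebraMap _ K0 (NN n S)) = WithZero.exp (-(n (some v) : ℤ)) := by
  classical
  rw [NN, map_prod, map_prod, Finset.prod_eq_single_of_mem _ h]
  · rw [map_pow, map_pow, gn_self, ← WithZero.exp_nsmul]; simp
  · intro p _ hp
    rw [map_pow, map_pow, gn_of_ne v p hp, one_pow]

lemma NN_val' (n : P0 →₀ ℕ) (S : Finset P0) (v : HeightOneSpectrum (ZMod 2)[X]) (h : some v ∉ S) :
    v.valuation K0 (algebraMap _ K0 (NN n S)) = 1 := by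
  rw [NN, map_prod, map_prod]
  refine Finset.prod_eq_one fun p hp => ?_
  rw [map_pow, map_pow, gn_of_ne v p fun h' => h (h' ▸ hp), one_pow]

lemma NN_le (n : P0 →₀ ℕ) (v : HeightOneSpectrum (ZMod 2)[X]) :
    v.valuation K0 (algebraMap _ K0 (NN n n.support)) ≤ WithZero.exp (-(n (some v) : ℤ)) := by
  by_cases h : some v ∈ n.support
  · exact (NN_val n _ v h).le
  · rw [NN_val' n _ v h, Finsupp.notMem_support_iff.1 h]; simp

/-- an element close to `y` at `v` and small elsewhere -/
lemma one_place (n : P0 →₀ ℕ) (v : HeightOneSpectrum (ZMod 2)[X]) (y : K0) :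
    ∃ k : K0, v.valuation K0 (y - k) ≤ WithZero.exp (-(n (some v) : ℤ)) ∧
      ∀ w : HeightOneSpectrum (ZMod 2)[X], w ≠ v →
        w.valuation K0 k ≤ WithZero.exp (-(n (some w) : ℤ)) := by
  classical
  set M := NN n (n.support.erase (some v)) with hM
  have hM1 : v.valuation K0 (algebraMap _ K0 M) = 1 := NN_val' n _ v (by simp)
  have hM2 : ∀ w : HeightOneSpectrum (ZMod 2)[X], w ≠ v →
      w.valuation K0 (algebraMap _ K0 M) ≤ WithZero.exp (-(n (some w) : ℤ)) := by
    intro w hw
    by_cases h : some w ∈ n.support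
    · refine (NN_val n _ w ?_).le
      rw [Finset.mem_erase]
      exact ⟨fun h' => hw (Option.some.inj h'), h⟩
    · rw [NN_val' n _ w (fun h' => h (Finset.mem_of_mem_erase h')),
        Finsupp.notMem_support_iff.1 h]; simp
  have hM0 : algebraMap _ K0 M ≠ 0 := RatFunc.algebraMap_ne_zero (NN_ne _ _)
  set g := algebraMap _ K0 (gn (some v)) with hg
  have hg0 : g ≠ 0 := RatFunc.algebraMap_ne_zero (gn_ne _)
  have hgv : ∀ m : ℕ, v.valuation K0 (g ^ m) = WithZero.exp (-(m : ℤ)) := by
    intro m
    rw [map_pow, gn_self, ← WithZero.exp_nsmul]; simp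
  -- clear the denominator at v
  obtain ⟨m, hm⟩ : ∃ m : ℕ, v.valuation K0 (y * g ^ m) ≤ 1 := by
    by_cases hy : y = 0
    · exact ⟨0, by rw [hy]; simp⟩
    · have hvy : v.valuation K0 y ≠ 0 := (Valuation.ne_zero_iff _).2 hy
      refine ⟨(WithZero.log (v.valuation K0 y)).toNat, ?_⟩
      rw [map_mul, hgv, ← WithZero.exp_log hvy, ← WithZero.exp_add, ← WithZero.exp_zero,
        WithZero.exp_le_exp, WithZero.log_exp]
      omega
  have hint : v.valuation K0 (y * g ^ m / algebraMap _ K0 M) ≤ 1 := by
    rw [map_div₀, hM1, div_one]; exact hm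
  have hu : (WithZero.exp (-((m + n (some v) : ℕ) : ℤ)) : ℤᵐ⁰) ≠ 0 := WithZero.exp_ne_zero
  obtain ⟨r, hr⟩ := v.exists_valuation_sub_lt_of_integer hint (Units.mk0 _ hu)
  refine ⟨algebraMap _ K0 M * algebraMap _ K0 r / g ^ m, ?_, fun w hw => ?_⟩
  · have e : y - algebraMap _ K0 M * algebraMap _ K0 r / g ^ m =
        - (algebraMap _ K0 M * (algebraMap _ K0 r - y * g ^ m / algebraMap _ K0 M) / g ^ m) := by
      field_simp
      ring
    rw [e, Valuation.map_neg, map_div₀, map_mul, hM1, one_mul, hgv,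
      div_le_iff₀ (by simp), ← WithZero.exp_add]
    refine hr.le.trans ?_
    rw [Units.val_mk0, WithZero.exp_le_exp]
    push_cast; omega
  · rw [map_div₀, map_mul, map_pow, gn_of_ne w (some v) (fun h => hw (Option.some.inj h).symm),
      one_pow, div_one]
    calc _ ≤ WithZero.exp (-(n (some w) : ℤ)) * 1 :=
          mul_le_mul' (hM2 w hw) (HeightOneSpectrum.valuation_le_one w r)
      _ = _ := mul_one _

end GD

open GD in
theorem g_sa : ∀ n : P0 →₀ ℕ, ∃ c : ℕ, ∀ x : Adele val0, ∃ k : K0,
    (∀ p, p ≠ none → val0 p ((x : ∀ p, L0 p) p - emb0 p k) ≤ WithZero.exp (-(n p : ℤ))) ∧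
    val0 none ((x : ∀ p, L0 p) none - emb0 none k) ≤ WithZero.exp (c : ℤ) := by
  classical
  intro n
  refine ⟨(NN n n.support).natDegree, fun x => ?_⟩
  -- the bad places
  have hbad : {p | ¬ val0 p ((x : ∀ p, L0 p) p) ≤ 1}.Finite := x.2
  set S : Finset P0 := hbad.toFinset ∪ n.support with hS
  -- local approximations
  have hloc : ∀ v : HeightOneSpectrum (ZMod 2)[X], ∃ k : K0,
      val0 (some v) ((x : ∀ p, L0 p) (some v) - emb0 (some v) k) ≤
        WithZero.exp (-(n (some v) : ℤ)) ∧
      ∀ w : HeightOneSpectrum (ZMod 2)[X], w ≠ v →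
        w.valuation K0 k ≤ WithZero.exp (-(n (some w) : ℤ)) := by
    intro v
    obtain ⟨y, hy⟩ := dens_some v ((x : ∀ p, L0 p) (some v)) (n (some v))
    obtain ⟨k, hk, hk'⟩ := one_place n v y
    refine ⟨k, ?_, hk'⟩
    have e : (x : ∀ p, L0 p) (some v) - emb0 (some v) k =
        ((x : ∀ p, L0 p) (some v) - emb0 (some v) y) + emb0 (some v) (y - k) := by
      rw [map_sub]; ring
    rw [e]
    refine (val0 (some v)).map_add_le hy ?_
    rw [val_some]; exact hk
  choose kk hk1 hk2 using hloc
  let kf : P0 → K0 := fun p => match p with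
    | none => 0
    | some v => kk v
  set k1 : K0 := ∑ p ∈ S, kf p with hk1def
  have hfin : ∀ v : HeightOneSpectrum (ZMod 2)[X],
      val0 (some v) ((x : ∀ p, L0 p) (some v) - emb0 (some v) k1) ≤
        WithZero.exp (-(n (some v) : ℤ)) := by
    intro v
    have hoth : ∀ p ∈ S.erase (some v), v.valuation K0 (kf p) ≤
        WithZero.exp (-(n (some v) : ℤ)) := by
      intro p hp
      cases p with
      | none => simp [kf]
      | some w =>
        exact hk2 w v fun h => (Finset.ne_of_mem_erase hp) (by rw [h])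
    by_cases hv : some v ∈ S
    · have e : (x : ∀ p, L0 p) (some v) - emb0 (some v) k1 =
          ((x : ∀ p, L0 p) (some v) - emb0 (some v) (kk v)) -
            emb0 (some v) (∑ p ∈ S.erase (some v), kf p) := by
        rw [hk1def, ← Finset.add_sum_erase S kf hv, map_add]
        ring
      rw [e]
      refine (val0 (some v)).map_sub_le (hk1 v) ?_
      rw [val_some]
      exact Valuation.map_sum_le _ hoth
    · have hx1 : val0 (some v) ((x : ∀ p, L0 p) (some v)) ≤ 1 := by
        by_contra h
        exact hv (Finset.mem_union_left _ (by simpa using h))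
      have hn0 : n (some v) = 0 := by
        by_contra h
        exact hv (Finset.mem_union_right _ (by simpa using h))
      refine (val0 (some v)).map_sub_le ?_ ?_
      · rw [hn0]; simpa using hx1
      · rw [val_some, hk1def]
        rw [Finset.erase_eq_of_notMem hv] at hoth
        exact Valuation.map_sum_le _ hoth
  -- the place at infinity
  obtain ⟨z, hz⟩ := dens_none ((x : ∀ p, L0 p) none - emb0 none k1) 0
  set N := algebraMap _ K0 (NN n n.support) with hN
  have hN0 : N ≠ 0 := RatFunc.algebraMap_ne_zero (NN_ne _ _)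
  have hNv : RatFunc.inftyValuation (ZMod 2) N =
      WithZero.exp ((NN n n.support).natDegree : ℤ) :=
    RatFunc.inftyValuation.polynomial (ZMod 2) (NN_ne _ _)
  obtain ⟨s, hs⟩ := poly_part (z / N)
  refine ⟨k1 + algebraMap _ K0 s * N, ?_, ?_⟩
  · intro p hp
    cases p with
    | none => exact absurd rfl hp
    | some v =>
      rw [map_add, ← sub_sub]
      refine (val0 (some v)).map_sub_le (hfin v) ?_
      rw [val_some, map_mul]
      calc _ ≤ 1 * WithZero.exp (-(n (some v) : ℤ)) :=
            mul_le_mul' (HeightOneSpectrum.valuation_le_one v s) (NN_le n v)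
        _ = _ := one_mul _
  · have e : (x : ∀ p, L0 p) none - emb0 none (k1 + algebraMap _ K0 s * N) =
        ((x : ∀ p, L0 p) none - emb0 none k1 - emb0 none z) +
          emb0 none (z - algebraMap _ K0 s * N) := by
      rw [map_add, map_sub]; ring
    rw [e]
    refine (val0 none).map_add_le (hz.trans ?_) ?_
    · rw [WithZero.exp_le_exp]; simp
    · rw [val_none]
      have e2 : z - algebraMap _ K0 s * N = (z / N - algebraMap _ K0 s) * N := by
        rw [sub_mul, div_mul_cancel₀ _ hN0]
      rw [e2, map_mul, hNv]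
      calc _ ≤ 1 * WithZero.exp ((NN n n.support).natDegree : ℤ) := by
            refine mul_le_mul' (hs.trans ?_) le_rfl
            rw [← WithZero.exp_zero, WithZero.exp_le_exp]; omega
        _ = _ := one_mul _

end

end Pool.Agent.U283.LL
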