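import Pool.Agent.U283.LL.PkgG1
import Pool.Agent.U283.LL.PkgG2
import Pool.Agent.U283.LL.PkgG4

/-!
# Project LL, package G: the properties of the global field `𝔽₂(t)`
-/

set_option autoImplicit false

namespace Pool.Agent.U283.LL

theorem pkg_G : S_Good where
  loc p := by
    cases p with
    | none => exact g_loc_none
    | some v => exact g_loc_some v
  fin := g_fin
  disc := g_disc
  sa := g_sa

end Pool.Agent.U283.LL
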