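import Pool.Agent.U283.LL.PkgHc

/-!
# Project LL, package H: data for a nonzero cusp form over `𝔽₂(t)`
-/

set_option autoImplicit false
set_option maxHeartbeats 400000

open scoped WithZero Matrix Topology
open Matrix Polynomial IsDedekindDomain Filter

namespace Pool.Agent.U283.LL.PkgH

noncomputable section

/-- the base point `(0 u; u 1)` -/
def X0 : M2 K0 := !![0, u0; u0, 1]

/-- `A` is close to `X0` at the place `p` -/
def Near (p : P0) (A : M2 (L0 p)) : Prop :=
  NB (val0 p) (val0 p (emb0 p RatFunc.X)) (A - X0.map (emb0 p))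

open scoped Classical in
/-- the test function at the finite places -/
def Phi0 (Y : ∀ p, M2 (L0 p)) : ℂ := if ∀ p, p ≠ none → Near p (Y p) then 1 else 0

open scoped Classical in
/-- the level -/
def lv (k : ℕ) : P0 →₀ ℕ := Finsupp.single pt k

theorem lv_pt (k : ℕ) : lv k pt = k := by
  classical
  unfold lv
  exact Finsupp.single_eq_same

theorem lv_ne (k : ℕ) {p : P0} (h : p ≠ pt) : lv k p = 0 := by
  classical
  unfold lv
  exact Finsupp.single_eq_of_ne h

theorem val_cases (p : P0) (hp : p ≠ none) :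
    (p = pt ∧ val0 p (emb0 p RatFunc.X) = WithZero.exp (-1 : ℤ) ∧
      val0 p (emb0 p u0) = WithZero.exp (1 : ℤ)) ∨
    (p ≠ pt ∧ val0 p (emb0 p RatFunc.X) = 1 ∧ val0 p (emb0 p u0) = 1) := by
  have hu : emb0 p u0 = (emb0 p RatFunc.X)⁻¹ := map_inv₀ _ _
  rcases p with _ | v
  · exact absurd rfl hp
  · by_cases h : v = Polynomial.idealX (ZMod 2)
    · subst h
      left
      have h1 : val0 pt (emb0 pt RatFunc.X) = WithZero.exp (-1 : ℤ) := by
        rw [val0_some]; exact val_t
      refine ⟨rfl, h1, ?_⟩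
      rw [hu, map_inv₀, h1, ← WithZero.exp_neg, neg_neg]
    · right
      have h1 : val0 (some v) (emb0 (some v) RatFunc.X) = 1 := by
        rw [val0_some]; exact val_t_other v h
      refine ⟨fun h' => h (Option.some_injective _ h'), h1, ?_⟩
      rw [hu, map_inv₀, h1, inv_one]

theorem X0_bound (p : P0) (hp : p ≠ none) : NB (val0 p) (val0 p (emb0 p u0)) (X0.map (emb0 p)) := by
  have h1 : (1 : ℤᵐ⁰) ≤ val0 p (emb0 p u0) := by
    rcases val_cases p hp with ⟨-, -, h⟩ | ⟨-, -, h⟩
    · rw [h, ← WithZero.exp_zero, WithZero.exp_le_exp]; norm_num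
    · rw [h]
  intro i j
  rw [Matrix.map_apply]
  fin_cases i <;> fin_cases j
  · show val0 p (emb0 p 0) ≤ _
    rw [map_zero, map_zero]; exact zero_le'
  · exact le_rfl
  · exact le_rfl
  · show val0 p (emb0 p 1) ≤ _
    rw [map_one, map_one]; exact h1

theorem near_conj (p : P0) (hp : p ≠ none) (g : G2 (L0 p)) (hg : g ∈ Cong (val0 p) (lv 2 p))
    (A : M2 (L0 p)) (hA : Near p A) : Near p (((g⁻¹ : G2 (L0 p)) : M2 (L0 p)) * A * (g : M2 (L0 p))) := by
  refine conj_close (val0 p) hg hA (X0_bound p hp) ?_ ?_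
  · rcases val_cases p hp with ⟨-, h1, h2⟩ | ⟨-, h1, h2⟩
    · rw [h1, h2, WithZero.exp_le_exp]; norm_num
    · rw [h1, h2]
  · rcases val_cases p hp with ⟨h0, h1, h2⟩ | ⟨h0, h1, h2⟩
    · rw [h1, h2, h0, lv_pt, ← WithZero.exp_add, WithZero.exp_le_exp]; norm_num
    · rw [h1, h2, lv_ne 2 h0]; simp

theorem SB_Phi : SB val0 none Phi0 := by
  refine ⟨⟨lv 2, fun u hu Y => ?_⟩, ⟨lv 1, fun Y hY p hp i j => ?_⟩, fun Y Y' h => ?_⟩
  · have h : (∀ p, p ≠ none → Near p (cj val0 u Y p)) ↔ ∀ p, p ≠ none → Near p (Y p) := by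
      refine forall_congr' fun p => imp_congr_right fun hp => ?_
      constructor
      · intro h
        have h1 := near_conj p hp ((u : ∀ p, G2 (L0 p)) p)⁻¹ (inv_mem (hu p)) _ h
        have e : ((((u : ∀ p, G2 (L0 p)) p)⁻¹⁻¹ : G2 (L0 p)) : M2 (L0 p)) * cj val0 u Y p *
            ((((u : ∀ p, G2 (L0 p)) p)⁻¹ : G2 (L0 p)) : M2 (L0 p)) = Y p := by
          unfold cj
          rw [inv_inv]
          have h2 : (((u : ∀ p, G2 (L0 p)) p : G2 (L0 p)) : M2 (L0 p)) *
              ((((u : ∀ p, G2 (L0 p)) p)⁻¹ : G2 (L0 p)) : M2 (L0 p)) = 1 := by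
            rw [← Units.val_mul, mul_inv_cancel, Units.val_one]
          calc _ = ((((u : ∀ p, G2 (L0 p)) p : G2 (L0 p)) : M2 (L0 p)) *
              ((((u : ∀ p, G2 (L0 p)) p)⁻¹ : G2 (L0 p)) : M2 (L0 p))) * Y p *
              ((((u : ∀ p, G2 (L0 p)) p : G2 (L0 p)) : M2 (L0 p)) *
              ((((u : ∀ p, G2 (L0 p)) p)⁻¹ : G2 (L0 p)) : M2 (L0 p))) := by
                simp only [Matrix.mul_assoc]
            _ = Y p := by rw [h2, Matrix.one_mul, Matrix.mul_one]
        rwa [e] at h1
      · intro h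
        exact near_conj p hp _ (hu p) _ h
    unfold Phi0
    by_cases hc : ∀ p, p ≠ none → Near p (Y p)
    · rw [if_pos hc, if_pos (h.2 hc)]
    · rw [if_neg hc, if_neg fun h' => hc (h.1 h')]
  · have h : ∀ p, p ≠ none → Near p (Y p) := by
      by_contra h
      apply hY
      unfold Phi0
      rw [if_neg h]
    have e : Y p i j = (Y p - X0.map (emb0 p)) i j + (X0.map (emb0 p)) i j := by
      rw [Matrix.sub_apply]; ring
    rw [e]
    refine (val0 p).map_add_le ((h p hp i j).trans ?_) ((X0_bound p hp i j).trans ?_)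
    · rcases val_cases p hp with ⟨h0, h1, h2⟩ | ⟨h0, h1, h2⟩
      · rw [h1, h0, lv_pt, WithZero.exp_le_exp]; norm_num
      · rw [h1, lv_ne 1 h0]; simp
    · rcases val_cases p hp with ⟨h0, h1, h2⟩ | ⟨h0, h1, h2⟩
      · rw [h2, h0, lv_pt]; simp
      · rw [h2, lv_ne 1 h0]; simp
  · have h' : (∀ p, p ≠ none → Near p (Y p)) ↔ ∀ p, p ≠ none → Near p (Y' p) :=
      forall_congr' fun p => imp_congr_right fun hp => by rw [h p hp]
    unfold Phi0
    by_cases hc : ∀ p, p ≠ none → Near p (Y p)
    · rw [if_pos hc, if_pos (h'.1 hc)]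
    · rw [if_neg hc, if_neg fun h'' => hc (h'.2 h'')]

/-- if `X` is near to `X0` at all finite places and integral at infinity then `X = X0` -/
theorem eq_X0 (A : M2 K0) (h : ∀ p, p ≠ none → Near p (A.map (emb0 p)))
    (hi : NB (val0 none) 1 (A.map (emb0 none))) : A = X0 := by
  have h0 : NB (val0 none) 1 (X0.map (emb0 none)) := by
    have hu : val0 none (emb0 none u0) ≤ 1 := by
      have : u0 = 1 / RatFunc.X := (one_div _).symm
      rw [this, val0_none, RatFunc.inftyValuation.X_inv, ← WithZero.exp_zero, WithZero.exp_le_exp]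
      norm_num
    intro i j
    rw [Matrix.map_apply]
    fin_cases i <;> fin_cases j
    · show val0 none (emb0 none 0) ≤ _
      rw [map_zero, map_zero]; exact zero_le'
    · exact hu
    · exact hu
    · show val0 none (emb0 none 1) ≤ _
      rw [map_one, map_one]
  ext i j
  rw [← sub_eq_zero]
  refine small _ (fun v => ?_) ?_
  · have h1 := h (some v) (by simp) i j
    rw [Matrix.sub_apply, Matrix.map_apply, Matrix.map_apply, ← map_sub, val0_some, val0_some] at h1
    exact h1
  · rw [← val0_none, map_sub]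
    exact (val0 none).map_sub_le (hi i j) (h0 i j)

theorem act_one (F : Type) [Field F] (f : (Fin 2 → F) → ℂ) : act (1 : G2 F) f = f := by
  funext x
  simp [act]

theorem pkg_H' : S_Data := by
  have hu1 : val0 none (emb0 none u0) = WithZero.exp (-1 : ℤ) := by
    have : u0 = 1 / RatFunc.X := (one_div _).symm
    rw [this, val0_none, RatFunc.inftyValuation.X_inv]
  have hu2 : val0 none (emb0 none (u0 ^ 2)) = WithZero.exp (-2 : ℤ) := by
    rw [map_pow, map_pow, hu1, ← WithZero.exp_nsmul]
    rfl
  have hlt : val0 none (emb0 none (u0 ^ 2)) < 1 := by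
    rw [hu2, ← WithZero.exp_zero, WithZero.exp_lt_exp]; norm_num
  obtain ⟨a, ha, ha1⟩ := exists_alpha (emb0 none (u0 ^ 2)) hlt
  have h2 : (2 : L0 none) = 0 := two0 none
  have hb1 : val0 none (a + 1) = 1 := by
    rw [Valuation.map_add_eq_of_lt_right _ (by rw [map_one]; exact ha1), map_one]
  have hva : val0 none a = WithZero.exp (-2 : ℤ) := by
    have h1 : a * (a + 1) = emb0 none (u0 ^ 2) := by rw [← ha]; ring
    rw [← hu2, ← h1, map_mul, hb1, mul_one]
  have hne : a ≠ a + 1 := fun h => one_ne_zero (add_eq_left.1 h.symm)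
  have hsum : a + (a + 1) = emb0 none (1 : K0) := by
    rw [map_one]; linear_combination a * h2
  have hprod : a * (a + 1) = emb0 none (u0 ^ 2) := by rw [← ha]; ring
  have hX0 : X0.trace = 1 ∧ X0.det = u0 ^ 2 := by
    constructor
    · simp [X0, Matrix.trace_fin_two]
    · have := neg_eq (u0 * u0)
      rw [Matrix.det_fin_two]
      simp only [X0, Matrix.of_apply, Matrix.cons_val', Matrix.cons_val_zero, Matrix.cons_val_one,
        Matrix.cons_val_fin_one]
      linear_combination this
  refine ⟨1, u0 ^ 2, a, a + 1, f0 (val0 none), Phi0, hne, hsum, hprod, ?_, ⟨1, f0_PFm _⟩, SB_Phi, ?_⟩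
  · rintro ⟨X, h1, h3⟩ h0
    rw [Matrix.trace_fin_two] at h1
    rw [Matrix.det_fin_two] at h3
    have h0' : X 1 0 = 0 := h0
    rw [h0', mul_zero, sub_zero] at h3
    apply noroot (X 0 0)
    have e : X 1 1 = 1 - X 0 0 := by linear_combination h1
    rw [e] at h3
    have := neg_eq (X 0 0 ^ 2)
    rw [← h3]
    linear_combination -this
  · let x0 : SX K0 1 (u0 ^ 2) := ⟨X0, hX0⟩
    unfold theta
    have hterm : ∀ X : SX K0 1 (u0 ^ 2), term val0 emb0 none a (a + 1) (f0 (val0 none)) Phi0 1 X =
        (f0 (val0 none) (ev (a + 1) (X.1.map (emb0 none))) -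
          f0 (val0 none) (ev a (X.1.map (emb0 none)))) * Phi0 (fun p => X.1.map (emb0 p)) := by
      intro X
      unfold term
      have h1 : ((1 : GA val0) : ∀ p, G2 (L0 p)) none = 1 := rfl
      rw [h1, act_one]
      have h3 : (cj val0 1 fun p => atp emb0 p X.1) = fun p => X.1.map (emb0 p) := by
        funext p
        show (((1 : G2 (L0 p))⁻¹ : G2 (L0 p)) : M2 (L0 p)) * atp emb0 p X.1 * ((1 : G2 (L0 p)) : M2 (L0 p)) = _
        rw [inv_one, Units.val_one, Matrix.one_mul, Matrix.mul_one]
        rfl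
      rw [h3]
      rfl
    rw [finsum_eq_single _ x0]
    · rw [hterm]
      have hc : ∀ γ : L0 none, ev γ (X0.map (emb0 none)) = cl γ (X0.map (emb0 none)) 0 := by
        intro γ
        unfold ev
        rw [if_pos]
        · rfl
        · refine ⟨1, ?_⟩
          have h1 := cl_apply γ (X0.map (emb0 none)) 0 1
          have h3 : (X0.map (emb0 none) - Matrix.scalar (Fin 2) γ) 1 0 = emb0 none u0 := by
            have h4 : (X0.map (emb0 none)) 1 0 = emb0 none u0 := rfl
            rw [h4, if_neg (by decide), sub_zero] at h1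
            exact h1
          rw [h3]
          exact (_root_.map_ne_zero _).2 u0_ne
      have hx1 : ∀ γ : L0 none, cl γ (X0.map (emb0 none)) 0 1 = emb0 none u0 := by
        intro γ
        rw [cl_apply]
        have h4 : (X0.map (emb0 none)) 1 0 = emb0 none u0 := rfl
        rw [h4, if_neg (by decide), sub_zero]
      have hx0 : ∀ γ : L0 none, cl γ (X0.map (emb0 none)) 0 0 = -γ := by
        intro γ
        rw [cl_apply]
        have h4 : (X0.map (emb0 none)) 0 0 = 0 := map_zero (emb0 none)
        rw [h4, if_pos rfl, zero_sub]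
      have hfa : f0 (val0 none) (ev a (X0.map (emb0 none))) = 1 := by
        rw [hc]
        unfold f0
        rw [if_pos]
        rw [hx0, hx1, Valuation.map_neg, hva, hu1]
        refine ⟨(_root_.map_ne_zero _).2 u0_ne, ?_⟩
        rw [WithZero.exp_le_exp]; norm_num
      have hfb : f0 (val0 none) (ev (a + 1) (X0.map (emb0 none))) = 0 := by
        rw [hc]
        unfold f0
        rw [if_neg]
        rw [hx0, hx1, Valuation.map_neg, hb1, hu1]
        rintro ⟨-, h⟩
        rw [← WithZero.exp_zero, WithZero.exp_le_exp] at h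
        norm_num at h
      have hphi : Phi0 (fun p => X0.map (emb0 p)) = 1 := by
        unfold Phi0
        rw [if_pos]
        intro p _ i j
        rw [sub_self, Matrix.zero_apply, map_zero]
        exact zero_le'
      show (f0 (val0 none) (ev (a + 1) (X0.map (emb0 none))) -
          f0 (val0 none) (ev a (X0.map (emb0 none)))) * Phi0 (fun p => X0.map (emb0 p)) ≠ 0
      rw [hfa, hfb, hphi]
      norm_num
    · intro X hX
      rw [hterm]
      by_contra hne0
      have hphi : Phi0 (fun p => X.1.map (emb0 p)) ≠ 0 := right_ne_zero_of_mul hne0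
      have hdiff := left_ne_zero_of_mul hne0
      have hnear : ∀ p, p ≠ none → Near p (X.1.map (emb0 p)) := by
        by_contra h
        apply hphi
        unfold Phi0
        rw [if_neg h]
      apply hX
      apply Subtype.ext
      refine eq_X0 X.1 hnear ?_
      intro i j
      by_contra hij
      rw [not_le] at hij
      apply hdiff
      rw [sub_eq_zero]
      have ht := X.2.1
      have hd := X.2.2
      rw [Matrix.trace_fin_two] at ht
      rw [Matrix.det_fin_two] at hd
      refine ev_eq (val0 none) _ (f0_PFm _) a (a + 1) _ ?_ ?_ ha1.le hb1.le i j hij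
      · simp only [Matrix.map_apply]
        rw [← map_add, ht, hsum]
      · simp only [Matrix.map_apply]
        rw [← map_mul, ← map_mul, ← map_sub, hd, hprod]

end

end Pool.Agent.U283.LL.PkgH

namespace Pool.Agent.U283.LL

/-- Package H. -/
theorem pkg_H : S_Data := PkgH.pkg_H'

end Pool.Agent.U283.LL
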