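import Pool.Agent.U283.LL.PkgJ

/-!
# Project LL, package I: `PhiE f₂` is a Schwartz function
-/

set_option autoImplicit false

open scoped WithZero Matrix
open Matrix

namespace Pool.Agent.U283.LL

noncomputable section

section basics

variable {F : Type} [Field F] (v : Valuation F ℤᵐ⁰)

lemma Cong_mono {n m : ℕ} (h : n ≤ m) {k : G2 F} (hk : k ∈ Cong v m) : k ∈ Cong v n := by
  intro i j
  have hle : (WithZero.exp (-(m : ℤ)) : ℤᵐ⁰) ≤ WithZero.exp (-(n : ℤ)) := by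
    rw [WithZero.exp_le_exp]; omega
  exact ⟨(hk i j).1.trans hle, (hk i j).2.trans hle⟩

lemma v_one_apply (i j : Fin 2) : v ((1 : M2 F) i j) ≤ 1 := by
  rw [Matrix.one_apply]
  split_ifs
  · simp
  · simp

lemma exp_neg_le_one (n : ℕ) : (WithZero.exp (-(n : ℤ)) : ℤᵐ⁰) ≤ 1 := by
  rw [← WithZero.exp_zero, WithZero.exp_le_exp]; omega

lemma Cong_le_one {n : ℕ} {k : G2 F} (hk : k ∈ Cong v n) (i j : Fin 2) : v ((k : M2 F) i j) ≤ 1 := by
  have h1 : (k : M2 F) i j = ((k : M2 F) i j - (1 : M2 F) i j) + (1 : M2 F) i j := by ring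
  rw [h1]
  exact v.map_add_le ((hk i j).1.trans (exp_neg_le_one n)) (v_one_apply v i j)

lemma mul_bound {A B : M2 F} {a b : ℤᵐ⁰} (hA : ∀ i j, v (A i j) ≤ a) (hB : ∀ i j, v (B i j) ≤ b)
    (i j : Fin 2) : v ((A * B) i j) ≤ a * b := by
  rw [Matrix.mul_apply]
  refine v.map_sum_le fun k _ => ?_
  rw [map_mul]
  exact mul_le_mul' (hA i k) (hB k j)

lemma nrm_apply_le (x : Fin 2 → F) (i : Fin 2) : v (x i) ≤ nrm v x := by
  unfold nrm
  fin_cases i
  · exact le_max_left _ _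
  · exact le_max_right _ _

lemma nrm_le {x : Fin 2 → F} {a : ℤᵐ⁰} (h : ∀ i, v (x i) ≤ a) : nrm v x ≤ a := max_le (h 0) (h 1)

lemma mulVec_bound {A : M2 F} {a : ℤᵐ⁰} (hA : ∀ i j, v (A i j) ≤ a) (x : Fin 2 → F) :
    nrm v (A *ᵥ x) ≤ a * nrm v x := by
  apply nrm_le
  intro i
  simp only [Matrix.mulVec, dotProduct]
  refine v.map_sum_le fun k _ => ?_
  rw [map_mul]
  exact mul_le_mul' (hA i k) (nrm_apply_le v x k)

lemma PFm_cong {m : ℕ} {f : (Fin 2 → F) → ℂ} (hf : PFm v m f) {u : G2 F} (hu : u ∈ Cong v m)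
    {x : Fin 2 → F} (hx : x ≠ 0) : f ((u : M2 F) *ᵥ x) = f x := by
  apply hf.2.2 x _ hx
  have h1 : (u : M2 F) *ᵥ x - x = ((u : M2 F) - 1) *ᵥ x := by
    rw [Matrix.sub_mulVec, Matrix.one_mulVec]
  rw [h1]
  apply mulVec_bound
  intro i j
  rw [Matrix.sub_apply]
  exact (hu i j).1

lemma coe_inv_mul (γ : G2 F) : ((γ⁻¹ : G2 F) : M2 F) * (γ : M2 F) = 1 := by
  rw [← Matrix.GeneralLinearGroup.coe_mul, inv_mul_cancel]; rfl

lemma coe_mul_inv (γ : G2 F) : (γ : M2 F) * ((γ⁻¹ : G2 F) : M2 F) = 1 := by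
  rw [← Matrix.GeneralLinearGroup.coe_mul, mul_inv_cancel]; rfl

lemma trace_conj (γ : G2 F) (Y : M2 F) : (((γ⁻¹ : G2 F) : M2 F) * Y * (γ : M2 F)).trace = Y.trace := by
  rw [Matrix.trace_mul_comm, ← Matrix.mul_assoc, coe_mul_inv, Matrix.one_mul]

lemma det_conj (γ : G2 F) (Y : M2 F) : (((γ⁻¹ : G2 F) : M2 F) * Y * (γ : M2 F)).det = Y.det := by
  rw [Matrix.det_mul, Matrix.det_mul, mul_comm, ← mul_assoc, ← Matrix.det_mul, coe_mul_inv,
    Matrix.det_one, one_mul]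

/-- conjugation by an integral matrix preserves integrality -/
lemma int_conj {γ : G2 F} (hγ : γ ∈ Cong v 0) {Y : M2 F} (hY : ∀ i j, v (Y i j) ≤ 1) (i j : Fin 2) :
    v ((((γ⁻¹ : G2 F) : M2 F) * Y * (γ : M2 F)) i j) ≤ 1 := by
  have h1 := mul_bound v (A := ((γ⁻¹ : G2 F) : M2 F)) (B := Y) (Cong_le_one v (inv_mem hγ)) hY
  have h2 := mul_bound v h1 (Cong_le_one v hγ) i j
  simpa using h2

/-- the function on the eigenlines of an idempotent is locally constant -/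
lemma f_ev_conj {m : ℕ} {f : (Fin 2 → F) → ℂ} (hf : PFm v m f) {u : G2 F} (hu : u ∈ Cong v m)
    {Y : M2 F} {α β : F} (hab : α ≠ β) (ht : Y.trace = α + β) (hd : Y.det = α * β) :
    f (ev β (((u⁻¹ : G2 F) : M2 F) * Y * (u : M2 F))) = f (ev β Y) := by
  obtain ⟨c, hc, h⟩ := ev_conj hab ht hd u
  have h1 : f (c • ev β (((u⁻¹ : G2 F) : M2 F) * Y * (u : M2 F))) =
      f (ev β (((u⁻¹ : G2 F) : M2 F) * Y * (u : M2 F))) := hf.2.1 c _ hc
  rw [← h1, ← h]
  exact PFm_cong v hf (inv_mem hu) (ev_col (sub_ne_zero' hab ht).1).1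

/-- idempotents of rank one with large entries have nearby eigenlines -/
lemma ev_large {m : ℕ} {f : (Fin 2 → F) → ℂ} (hf : PFm v m f) {Y : M2 F} (ht : Y.trace = 1)
    (hd : Y.det = 0) (h : f (ev 0 Y) - f (ev 1 Y) ≠ 0) (i j : Fin 2) :
    v (Y i j) ≤ WithZero.exp (m : ℤ) := by
  by_contra hc
  push Not at hc
  apply h
  obtain ⟨⟨i0, j0⟩, _, hmax⟩ := Finset.exists_max_image Finset.univ
    (fun ij : Fin 2 × Fin 2 => v (Y ij.1 ij.2)) ⟨(0, 0), Finset.mem_univ _⟩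
  have hmax' : ∀ a b, v (Y a b) ≤ v (Y i0 j0) := fun a b => hmax (a, b) (Finset.mem_univ _)
  have hbig : WithZero.exp (m : ℤ) < v (Y i0 j0) := lt_of_lt_of_le hc (hmax' i j)
  have hbig1 : 1 < v (Y i0 j0) := by
    refine lt_of_le_of_lt ?_ hbig
    rw [← WithZero.exp_zero, WithZero.exp_le_exp]; omega
  have h01 : (0 : F) ≠ 1 := zero_ne_one
  have ht1 : Y.trace = 1 + 0 := by rw [ht, add_zero]
  have hd1 : Y.det = 1 * 0 := by rw [hd, mul_zero]
  have ht2 : Y.trace = 0 + 1 := by rw [ht, zero_add]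
  have hd2 : Y.det = 0 * 1 := by rw [hd, zero_mul]
  set c : Fin 2 → F := fun a => (Y - Matrix.scalar (Fin 2) (0 : F)) a j0 with hcdef
  set c' : Fin 2 → F := fun a => (Y - Matrix.scalar (Fin 2) (1 : F)) a j0 with hcdef'
  have hcY : ∀ a, c a = Y a j0 := by
    intro a
    simp only [hcdef]
    rw [sub_scalar_apply]; simp
  have hcY' : ∀ a, c' a = Y a j0 - if a = j0 then 1 else 0 := by
    intro a
    simp only [hcdef']
    rw [sub_scalar_apply]
  have hc0 : c ≠ 0 := by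
    intro hz
    have := congrFun hz i0
    rw [hcY, Pi.zero_apply] at this
    rw [this, map_zero] at hbig1
    exact absurd hbig1 (not_lt.mpr zero_le_one)
  have hc0' : c' ≠ 0 := by
    intro hz
    have := congrFun hz i0
    rw [hcY', Pi.zero_apply, sub_eq_zero] at this
    rw [this] at hbig1
    apply absurd hbig1 (not_lt.mpr _)
    split_ifs <;> simp
  obtain ⟨k, hk, hck⟩ := ev_line (α := 1) (β := 0) h01.symm ht1 hd1 hc0 (by
    rw [hcdef, mulVec_col, ch ht1 hd1]; rfl)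
  obtain ⟨k', hk', hck'⟩ := ev_line (α := 0) (β := 1) h01 ht2 hd2 hc0' (by
    rw [hcdef', mulVec_col, ch ht2 hd2]; rfl)
  have e1 : f (ev 0 Y) = f c := by rw [hck, hf.2.1 k _ hk]
  have e2 : f (ev 1 Y) = f c' := by rw [hck', hf.2.1 k' _ hk']
  rw [e1, e2, sub_eq_zero]
  symm
  apply hf.2.2 c c' hc0
  have h3 : nrm v (c' - c) ≤ 1 := by
    apply nrm_le
    intro a
    rw [Pi.sub_apply, hcY, hcY']
    have : Y a j0 - (if a = j0 then (1 : F) else 0) - Y a j0 = -(if a = j0 then 1 else 0) := by ring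
    rw [this, Valuation.map_neg]
    split_ifs <;> simp
  have h4 : v (Y i0 j0) ≤ nrm v c := by
    have := nrm_apply_le v c i0
    rwa [hcY] at this
  have h5 : (1 : ℤᵐ⁰) = WithZero.exp (-(m : ℤ)) * WithZero.exp (m : ℤ) := by
    rw [← WithZero.exp_add]; simp
  refine h3.trans ?_
  rw [h5]
  exact mul_le_mul' le_rfl (hbig.le.trans h4)

end basics

section glob

variable {P : Type} {L : P → Type} [∀ p, Field (L p)] (val : ∀ p, Valuation (L p) ℤᵐ⁰)

lemma cj_cj (g h : GA val) (Y : ∀ p, M2 (L p)) : cj val g (cj val h Y) = cj val (h * g) Y := by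
  funext p
  unfold cj
  have h1 : ((h * g : GA val) : ∀ p, G2 (L p)) p = (h : ∀ p, G2 (L p)) p * (g : ∀ p, G2 (L p)) p := rfl
  rw [h1, _root_.mul_inv_rev, Matrix.GeneralLinearGroup.coe_mul, Matrix.GeneralLinearGroup.coe_mul]
  simp only [Matrix.mul_assoc]

lemma cj_one (Y : ∀ p, M2 (L p)) : cj val 1 Y = Y := by
  funext p
  unfold cj
  have h1 : ((1 : GA val) : ∀ p, G2 (L p)) p = 1 := rfl
  rw [h1, inv_one]
  simp

end glob

/-- Package I. -/
theorem pkg_I : S_Phi := by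
  intro P L _ val inf pp hpp f₂ hf
  classical
  obtain ⟨m, hf⟩ := hf
  refine ⟨⟨Finsupp.single pp m, ?_⟩, ⟨Finsupp.single pp m, ?_⟩, ?_⟩
  · -- smooth
    have hcong : ∀ u ∈ U val (Finsupp.single pp m), ∀ p, (u : ∀ p, G2 (L p)) p ∈ Cong (val p) 0 := by
      intro u hu p
      exact Cong_mono (val p) (Nat.zero_le _) (hu p)
    have hfwd : ∀ u ∈ U val (Finsupp.single pp m), ∀ Y : ∀ p, M2 (L p),
        ((Y pp).trace = 1 ∧ (Y pp).det = 0 ∧ ∀ p, p ≠ inf → p ≠ pp → ∀ i j, val p (Y p i j) ≤ 1) →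
        ((cj val u Y pp).trace = 1 ∧ (cj val u Y pp).det = 0 ∧
          ∀ p, p ≠ inf → p ≠ pp → ∀ i j, val p (cj val u Y p i j) ≤ 1) := by
      intro u hu Y ⟨h1, h2, h3⟩
      refine ⟨?_, ?_, ?_⟩
      · unfold cj; rw [trace_conj, h1]
      · unfold cj; rw [det_conj, h2]
      · intro p hp hp' i j
        exact int_conj (val p) (hcong u hu p) (h3 p hp hp') i j
    intro u hu Y
    unfold PhiE
    by_cases hc : (Y pp).trace = 1 ∧ (Y pp).det = 0 ∧ ∀ p, p ≠ inf → p ≠ pp → ∀ i j, val p (Y p i j) ≤ 1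
    · rw [if_pos hc, if_pos (hfwd u hu Y hc)]
      have hupp : (u : ∀ p, G2 (L p)) pp ∈ Cong (val pp) m := by
        have := hu pp
        rwa [Finsupp.single_eq_same] at this
      have e1 := f_ev_conj (val pp) hf hupp (Y := Y pp) (α := 1) (β := 0) one_ne_zero
        (by rw [hc.1, add_zero]) (by rw [hc.2.1, mul_zero])
      have e2 := f_ev_conj (val pp) hf hupp (Y := Y pp) (α := 0) (β := 1) zero_ne_one
        (by rw [hc.1, zero_add]) (by rw [hc.2.1, zero_mul])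
      unfold cj
      rw [e1, e2]
    · rw [if_neg hc, if_neg]
      intro hc'
      apply hc
      have := hfwd u⁻¹ (inv_mem hu) _ hc'
      rwa [cj_cj, mul_inv_cancel, cj_one] at this
  · -- bounded support
    intro Y hY p hp i j
    unfold PhiE at hY
    split_ifs at hY with hc
    · by_cases hpp' : p = pp
      · subst hpp'
        rw [Finsupp.single_eq_same]
        exact ev_large (val p) hf hc.1 hc.2.1 hY i j
      · rw [Finsupp.single_eq_of_ne (by simpa using hpp')]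
        simpa using hc.2.2 p hp hpp' i j
    · exact absurd rfl hY
  · -- independence of the component at `inf`
    intro Y Y' h
    unfold PhiE
    have h1 : Y pp = Y' pp := h pp hpp
    have h2 : (∀ p, p ≠ inf → p ≠ pp → ∀ i j, val p (Y p i j) ≤ 1) ↔
        (∀ p, p ≠ inf → p ≠ pp → ∀ i j, val p (Y' p i j) ≤ 1) := by
      constructor
      · intro h3 p hp hp' i j
        rw [← h p hp]; exact h3 p hp hp' i j
      · intro h3 p hp hp' i j
        rw [h p hp]; exact h3 p hp hp' i j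
    rw [h1, h2]

end

end Pool.Agent.U283.LL
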