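import Pool.Agent.U283.LL.Spec

/-!
# Project LL, package J: left invariance
-/

set_option autoImplicit false

open scoped WithZero Matrix
open Matrix

namespace Pool.Agent.U283.LL

noncomputable section

/-! ### Lines in the plane -/

lemma line_of_ker {F : Type} [Field F] {Z : M2 F} (hZ : Z ≠ 0) {v w : Fin 2 → F} (hv : v ≠ 0)
    (hw : w ≠ 0) (h1 : Z *ᵥ v = 0) (h2 : Z *ᵥ w = 0) : ∃ c : F, c ≠ 0 ∧ v = c • w := by
  have h3 : v 0 * w 1 - v 1 * w 0 = 0 := by
    by_contra hne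
    apply hZ
    ext i j
    have e1 := congrFun h1 i
    have e2 := congrFun h2 i
    simp only [Matrix.mulVec, dotProduct, Fin.sum_univ_two, Pi.zero_apply] at e1 e2
    have a0 : Z i 0 * (v 0 * w 1 - v 1 * w 0) = 0 := by linear_combination w 1 * e1 - v 1 * e2
    have a1 : Z i 1 * (v 0 * w 1 - v 1 * w 0) = 0 := by linear_combination v 0 * e2 - w 0 * e1
    have b0 := (mul_eq_zero.mp a0).resolve_right hne
    have b1 := (mul_eq_zero.mp a1).resolve_right hne
    fin_cases j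
    · simpa using b0
    · simpa using b1
  by_cases hw0 : w 0 = 0
  · have hw1 : w 1 ≠ 0 := by
      intro hw1
      apply hw
      ext i
      fin_cases i
      · simpa using hw0
      · simpa using hw1
    have hv0 : v 0 = 0 := by
      rw [hw0, mul_zero, sub_zero] at h3
      exact (mul_eq_zero.mp h3).resolve_right hw1
    have hv1 : v 1 ≠ 0 := by
      intro hv1
      apply hv
      ext i
      fin_cases i
      · simpa using hv0
      · simpa using hv1
    refine ⟨v 1 / w 1, div_ne_zero hv1 hw1, ?_⟩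
    ext i
    fin_cases i
    · simp [hv0, hw0]
    · simp [hw1]
  · have hv0 : v 0 ≠ 0 := by
      intro hv0
      rw [hv0, zero_mul, zero_sub, neg_eq_zero] at h3
      have hv1 := (mul_eq_zero.mp h3).resolve_right hw0
      apply hv
      ext i
      fin_cases i
      · simpa using hv0
      · simpa using hv1
    refine ⟨v 0 / w 0, div_ne_zero hv0 hw0, ?_⟩
    ext i
    fin_cases i
    · simp [hw0]
    · simp only [Fin.mk_one, Pi.smul_apply, smul_eq_mul]
      field_simp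
      linear_combination -h3

lemma sub_scalar_apply {F : Type} [Field F] (Y : M2 F) (b : F) (i j : Fin 2) :
    (Y - Matrix.scalar (Fin 2) b) i j = Y i j - if i = j then b else 0 := by
  rw [Matrix.sub_apply, Matrix.scalar_apply, Matrix.diagonal_apply]

lemma ch {F : Type} [Field F] {Y : M2 F} {α β : F} (ht : Y.trace = α + β) (hd : Y.det = α * β) :
    (Y - Matrix.scalar (Fin 2) α) * (Y - Matrix.scalar (Fin 2) β) = 0 := by
  rw [Matrix.trace_fin_two] at ht
  rw [Matrix.det_fin_two] at hd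
  have h1 : Y 1 1 = α + β - Y 0 0 := by linear_combination ht
  rw [h1] at hd
  ext i j
  rw [Matrix.mul_apply, Fin.sum_univ_two]
  simp only [sub_scalar_apply, Matrix.zero_apply]
  fin_cases i <;> fin_cases j <;> simp [h1] <;> first | ring1 | linear_combination -hd

lemma sub_ne_zero' {F : Type} [Field F] {Y : M2 F} {α β : F} (hab : α ≠ β) (ht : Y.trace = α + β) :
    Y - Matrix.scalar (Fin 2) β ≠ 0 ∧ Y - Matrix.scalar (Fin 2) α ≠ 0 := by
  rw [Matrix.trace_fin_two] at ht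
  constructor
  · intro h
    have h0 := congrFun (congrFun h 0) 0
    have h1 := congrFun (congrFun h 1) 1
    rw [sub_scalar_apply] at h0 h1
    simp at h0 h1
    apply hab
    linear_combination -ht + h0 + h1
  · intro h
    have h0 := congrFun (congrFun h 0) 0
    have h1 := congrFun (congrFun h 1) 1
    rw [sub_scalar_apply] at h0 h1
    simp at h0 h1
    apply hab
    linear_combination ht - h0 - h1

/-- `ev β Y` is a nonzero column of `Y - β` -/
lemma ev_col {F : Type} [Field F] {Y : M2 F} {β : F} (h : Y - Matrix.scalar (Fin 2) β ≠ 0) :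
    ev β Y ≠ 0 ∧ ∃ j : Fin 2, ev β Y = fun i => (Y - Matrix.scalar (Fin 2) β) i j := by
  unfold ev
  split_ifs with h0
  · refine ⟨?_, 0, rfl⟩
    obtain ⟨i, hi⟩ := h0
    intro hz
    exact hi (congrFun hz i)
  · refine ⟨?_, 1, rfl⟩
    intro hz
    apply h
    ext i j
    push Not at h0
    fin_cases j
    · simpa using h0 i
    · simpa using congrFun hz i

lemma mulVec_col {F : Type} [Field F] (Z Y : M2 F) (j : Fin 2) :
    Z *ᵥ (fun i => Y i j) = fun i => (Z * Y) i j := by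
  ext i
  simp [Matrix.mulVec, dotProduct, Matrix.mul_apply]

lemma ev_ker {F : Type} [Field F] {Y : M2 F} {α β : F} (hab : α ≠ β) (ht : Y.trace = α + β)
    (hd : Y.det = α * β) : (Y - Matrix.scalar (Fin 2) α) *ᵥ ev β Y = 0 := by
  obtain ⟨_, j, hj⟩ := ev_col (sub_ne_zero' hab ht).1
  rw [hj, mulVec_col, ch ht hd]
  rfl

/-- every nonzero vector killed by `Y - α` is on the line of `ev β Y` -/
lemma ev_line {F : Type} [Field F] {Y : M2 F} {α β : F} (hab : α ≠ β) (ht : Y.trace = α + β)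
    (hd : Y.det = α * β) {v : Fin 2 → F} (hv : v ≠ 0)
    (h : (Y - Matrix.scalar (Fin 2) α) *ᵥ v = 0) : ∃ c : F, c ≠ 0 ∧ v = c • ev β Y :=
  line_of_ker (sub_ne_zero' hab ht).2 hv (ev_col (sub_ne_zero' hab ht).1).1 h (ev_ker hab ht hd)

lemma scalar_comm' {F : Type} [Field F] (a : F) (M : M2 F) :
    Matrix.scalar (Fin 2) a * M = M * Matrix.scalar (Fin 2) a := by
  ext i j
  simp [Matrix.scalar_apply, Matrix.diagonal_mul, Matrix.mul_diagonal, mul_comm]

/-- the eigenlines of a conjugate -/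
lemma ev_conj {F : Type} [Field F] {Y : M2 F} {α β : F} (hab : α ≠ β) (ht : Y.trace = α + β)
    (hd : Y.det = α * β) (γ : G2 F) :
    ∃ c : F, c ≠ 0 ∧ ((γ⁻¹ : G2 F) : M2 F) *ᵥ ev β Y =
      c • ev β (((γ⁻¹ : G2 F) : M2 F) * Y * (γ : M2 F)) := by
  have hi : (γ : M2 F) * ((γ⁻¹ : G2 F) : M2 F) = 1 := by
    rw [← Matrix.GeneralLinearGroup.coe_mul, mul_inv_cancel]; rfl
  have hi' : ((γ⁻¹ : G2 F) : M2 F) * (γ : M2 F) = 1 := by
    rw [← Matrix.GeneralLinearGroup.coe_mul, inv_mul_cancel]; rfl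
  apply ev_line hab
  · rw [Matrix.trace_mul_comm, ← Matrix.mul_assoc, hi, Matrix.one_mul, ht]
  · rw [Matrix.det_mul, Matrix.det_mul, mul_comm, ← mul_assoc, ← Matrix.det_mul, hi, Matrix.det_one, one_mul, hd]
  · intro h0
    apply (ev_col (sub_ne_zero' hab ht).1).1
    have : (γ : M2 F) *ᵥ (((γ⁻¹ : G2 F) : M2 F) *ᵥ ev β Y) = (γ : M2 F) *ᵥ 0 := by rw [h0]
    rwa [Matrix.mulVec_mulVec, hi, Matrix.one_mulVec, Matrix.mulVec_zero] at this
  · have h1 : ((γ⁻¹ : G2 F) : M2 F) * Y * (γ : M2 F) - Matrix.scalar (Fin 2) α =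
        ((γ⁻¹ : G2 F) : M2 F) * (Y - Matrix.scalar (Fin 2) α) * (γ : M2 F) := by
      rw [Matrix.mul_sub, Matrix.sub_mul, Matrix.mul_assoc _ (Matrix.scalar (Fin 2) α), scalar_comm',
        ← Matrix.mul_assoc, hi', Matrix.one_mul]
    rw [h1, Matrix.mulVec_mulVec, Matrix.mul_assoc, hi, Matrix.mul_one, ← Matrix.mulVec_mulVec,
      ev_ker hab ht hd, Matrix.mulVec_zero]

/-- conjugation on the set of matrices with given trace and determinant -/
def cjS {K : Type} [Field K] (τ ν : K) (γ : G2 K) (X : SX K τ ν) : SX K τ ν :=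
  ⟨((γ⁻¹ : G2 K) : M2 K) * X.1 * (γ : M2 K), by
    have hi : (γ : M2 K) * ((γ⁻¹ : G2 K) : M2 K) = 1 := by
      rw [← Matrix.GeneralLinearGroup.coe_mul, mul_inv_cancel]; rfl
    constructor
    · rw [Matrix.trace_mul_comm, ← Matrix.mul_assoc, hi, Matrix.one_mul, X.2.1]
    · rw [Matrix.det_mul, Matrix.det_mul, mul_comm, ← mul_assoc, ← Matrix.det_mul, hi, Matrix.det_one,
        one_mul, X.2.2]⟩

/-- the bijection `X ↦ γ⁻¹ X γ` -/
def cjE {K : Type} [Field K] (τ ν : K) (γ : G2 K) : SX K τ ν ≃ SX K τ ν where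
  toFun := cjS τ ν γ
  invFun := cjS τ ν γ⁻¹
  left_inv X := by
    have hi : (γ : M2 K) * ((γ⁻¹ : G2 K) : M2 K) = 1 := by
      rw [← Matrix.GeneralLinearGroup.coe_mul, mul_inv_cancel]; rfl
    apply Subtype.ext
    show ((γ⁻¹⁻¹ : G2 K) : M2 K) * (((γ⁻¹ : G2 K) : M2 K) * X.1 * (γ : M2 K)) * ((γ⁻¹ : G2 K) : M2 K) = X.1
    rw [inv_inv]
    calc (γ : M2 K) * (((γ⁻¹ : G2 K) : M2 K) * X.1 * (γ : M2 K)) * ((γ⁻¹ : G2 K) : M2 K)
        = ((γ : M2 K) * ((γ⁻¹ : G2 K) : M2 K)) * X.1 * ((γ : M2 K) * ((γ⁻¹ : G2 K) : M2 K)) := by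
          simp only [Matrix.mul_assoc]
      _ = X.1 := by rw [hi, Matrix.one_mul, Matrix.mul_one]
  right_inv X := by
    have hi : ((γ⁻¹ : G2 K) : M2 K) * (γ : M2 K) = 1 := by
      rw [← Matrix.GeneralLinearGroup.coe_mul, inv_mul_cancel]; rfl
    apply Subtype.ext
    show ((γ⁻¹ : G2 K) : M2 K) * (((γ⁻¹⁻¹ : G2 K) : M2 K) * X.1 * ((γ⁻¹ : G2 K) : M2 K)) * (γ : M2 K) = X.1
    rw [inv_inv]
    calc ((γ⁻¹ : G2 K) : M2 K) * ((γ : M2 K) * X.1 * ((γ⁻¹ : G2 K) : M2 K)) * (γ : M2 K)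
        = (((γ⁻¹ : G2 K) : M2 K) * (γ : M2 K)) * X.1 * (((γ⁻¹ : G2 K) : M2 K) * (γ : M2 K)) := by
          simp only [Matrix.mul_assoc]
      _ = X.1 := by rw [hi, Matrix.one_mul, Matrix.mul_one]

lemma trace_map' {K F : Type} [Field K] [Field F] (e : K →+* F) (X : M2 K) :
    (X.map e).trace = e X.trace := by
  rw [Matrix.trace_fin_two, Matrix.trace_fin_two, map_add]; rfl

lemma det_map' {K F : Type} [Field K] [Field F] (e : K →+* F) (X : M2 K) :
    (X.map e).det = e X.det := by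
  rw [Matrix.det_fin_two, Matrix.det_fin_two, map_sub, map_mul, map_mul]; rfl

lemma coe_map' {K F : Type} [Field K] [Field F] (e : K →+* F) (γ : G2 K) :
    ((Matrix.GeneralLinearGroup.map e γ : G2 F) : M2 F) = (γ : M2 K).map e := rfl

lemma coe_map_inv' {K F : Type} [Field K] [Field F] (e : K →+* F) (γ : G2 K) :
    (((Matrix.GeneralLinearGroup.map e γ : G2 F)⁻¹ : G2 F) : M2 F) = ((γ⁻¹ : G2 K) : M2 K).map e := by
  rw [← map_inv]; rfl

/-- Package J. -/
theorem pkg_J : S_Left := by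
  intro K _ P L _ val emb inf τ ν α β hab ht hd f hf Φ γ g g' hgg
  unfold theta
  refine Eq.trans ?_ (finsum_comp_equiv (cjE τ ν γ))
  apply finsum_congr
  intro X
  unfold term
  have hX : ∀ p, atp emb p ((cjE τ ν γ) X).1 =
      ((((Matrix.GeneralLinearGroup.map (emb p) γ : G2 (L p))⁻¹ : G2 (L p)) : M2 (L p)) * atp emb p X.1 *
      ((Matrix.GeneralLinearGroup.map (emb p) γ : G2 (L p)) : M2 (L p))) := by
    intro p
    show (((γ⁻¹ : G2 K) : M2 K) * X.1 * (γ : M2 K)).map (emb p) = _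
    rw [Matrix.map_mul, Matrix.map_mul, coe_map', coe_map_inv']
    rfl
  obtain ⟨m, hf0, hfc, _⟩ := hf
  have htr : (atp emb inf X.1).trace = α + β := by
    unfold atp; rw [trace_map', X.2.1, ht]
  have hde : (atp emb inf X.1).det = α * β := by
    unfold atp; rw [det_map', X.2.2, hd]
  -- the first factor
  have key : ∀ β' : L inf, (∃ c : L inf, c ≠ 0 ∧
      (((Matrix.GeneralLinearGroup.map (emb inf) γ : G2 (L inf))⁻¹ : G2 (L inf)) : M2 (L inf)) *ᵥ
        ev β' (atp emb inf X.1) = c • ev β' (atp emb inf ((cjE τ ν γ) X).1)) →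
      act ((g' : ∀ p, G2 (L p)) inf) f (ev β' (atp emb inf X.1)) =
      act ((g : ∀ p, G2 (L p)) inf) f (ev β' (atp emb inf ((cjE τ ν γ) X).1)) := by
    rintro β' ⟨c, hc, hcc⟩
    unfold act
    rw [hgg inf, _root_.mul_inv_rev, Matrix.GeneralLinearGroup.coe_mul, ← Matrix.mulVec_mulVec, hcc,
      Matrix.mulVec_smul]
    exact hfc c _ hc
  rw [key β (by rw [hX]; exact ev_conj hab htr hde _),
    key α (by rw [hX]; exact ev_conj (Ne.symm hab) (by rw [htr, add_comm]) (by rw [hde, mul_comm]) _)]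
  congr 2
  -- the second factor
  funext p
  unfold cj
  simp only
  rw [hX p, hgg p, _root_.mul_inv_rev, Matrix.GeneralLinearGroup.coe_mul, Matrix.GeneralLinearGroup.coe_mul]
  simp only [Matrix.mul_assoc]

end

end Pool.Agent.U283.LL
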