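import Pool.Agent.U283.LL.Spec

/-!
# Project LL, package K (helper523)

A `GL₂(O)`-fixed vector with the Hecke eigenvalues of the trivial representation is fixed.
-/

set_option autoImplicit false

open scoped WithZero Matrix
open Matrix

namespace Pool.Agent.U283.LL.PkgK

noncomputable section

section cong

variable {F : Type} [Field F] (v : Valuation F ℤᵐ⁰)

/-- all entries are at most `c` -/
def Bd (A : M2 F) (c : ℤᵐ⁰) : Prop := ∀ i j, v (A i j) ≤ c

theorem Bd.mul {A B : M2 F} {a b : ℤᵐ⁰} (hA : Bd v A a) (hB : Bd v B b) :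
    Bd v (A * B) (a * b) := by
  intro i j
  rw [Matrix.mul_apply]
  refine v.map_sum_le fun k _ => ?_
  rw [map_mul]
  exact mul_le_mul' (hA i k) (hB k j)

theorem mem_cong {n : ℕ} {g : G2 F} : g ∈ Cong v n ↔
    Bd v ((g : M2 F) - 1) (WithZero.exp (-(n : ℤ))) ∧
    Bd v (((g⁻¹ : G2 F) : M2 F) - 1) (WithZero.exp (-(n : ℤ))) := by
  constructor
  · intro h
    exact ⟨fun i j => by rw [Matrix.sub_apply]; exact (h i j).1,
      fun i j => by rw [Matrix.sub_apply]; exact (h i j).2⟩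
  · rintro ⟨h1, h2⟩ i j
    exact ⟨by rw [← Matrix.sub_apply]; exact h1 i j, by rw [← Matrix.sub_apply]; exact h2 i j⟩

theorem bd_one : Bd v (1 : M2 F) 1 := by
  intro i j
  rw [Matrix.one_apply]
  split_ifs <;> simp

theorem mem_cong_zero {g : G2 F} : g ∈ Cong v 0 ↔
    Bd v (g : M2 F) 1 ∧ Bd v ((g⁻¹ : G2 F) : M2 F) 1 := by
  rw [mem_cong]
  have key : ∀ A : M2 F, Bd v (A - 1) (WithZero.exp (-((0 : ℕ) : ℤ))) ↔ Bd v A 1 := by
    intro A
    have e : (WithZero.exp (-((0 : ℕ) : ℤ)) : ℤᵐ⁰) = 1 := by simp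
    rw [e]
    constructor
    · intro h i j
      have : A i j = (A - 1) i j + (1 : M2 F) i j := by simp
      rw [this]
      exact v.map_add_le (h i j) (bd_one v i j)
    · intro h i j
      rw [Matrix.sub_apply]
      exact v.map_sub_le (h i j) (bd_one v i j)
  rw [key, key]

theorem cong_mono {m n : ℕ} (h : m ≤ n) : Cong v n ≤ Cong v m := by
  intro g hg i j
  have hle : (WithZero.exp (-(n : ℤ)) : ℤᵐ⁰) ≤ WithZero.exp (-(m : ℤ)) := by
    rw [WithZero.exp_le_exp]; omega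
  exact ⟨(hg i j).1.trans hle, (hg i j).2.trans hle⟩

theorem conj_mem {n : ℕ} {k g : G2 F} (hk : k ∈ Cong v 0) (hg : g ∈ Cong v n) :
    k * g * k⁻¹ ∈ Cong v n := by
  obtain ⟨k1, k2⟩ := (mem_cong_zero v).1 hk
  obtain ⟨g1, g2⟩ := (mem_cong v).1 hg
  rw [mem_cong]
  have key : ∀ A : M2 F, Bd v (A - 1) (WithZero.exp (-(n : ℤ))) →
      Bd v ((k : M2 F) * A * ((k⁻¹ : G2 F) : M2 F) - 1) (WithZero.exp (-(n : ℤ))) := by
    intro A hA
    have e : (k : M2 F) * A * ((k⁻¹ : G2 F) : M2 F) - 1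
        = (k : M2 F) * (A - 1) * ((k⁻¹ : G2 F) : M2 F) := by
      have hkk : (k : M2 F) * ((k⁻¹ : G2 F) : M2 F) = 1 := by
        rw [← Units.val_mul, mul_inv_cancel, Units.val_one]
      rw [mul_sub, sub_mul, mul_one, hkk]
    rw [e]
    have := (k1.mul v hA).mul v k2
    rwa [one_mul, mul_one] at this
  refine ⟨?_, ?_⟩
  · have := key _ g1
    rwa [← Units.val_mul, ← Units.val_mul] at this
  · have := key _ g2
    have e2 : (k * g * k⁻¹)⁻¹ = k * g⁻¹ * k⁻¹ := by group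
    rw [e2]
    rwa [← Units.val_mul, ← Units.val_mul] at this

/-- `Cong m` as a subgroup of `GL₂(O)`. -/
abbrev N (m : ℕ) : Subgroup (Cong v 0) := (Cong v m).subgroupOf (Cong v 0)

instance (m : ℕ) : (N v m).Normal where
  conj_mem n hn g := by
    rw [Subgroup.mem_subgroupOf] at hn ⊢
    simpa using conj_mem v g.2 hn

/-- The quotient. -/
abbrev Q (m : ℕ) : Type := Cong v 0 ⧸ N v m

theorem finite_quot (hv : LocalHyp v) (m : ℕ) : Finite (Q v m) := by
  classical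
  obtain ⟨E, hE1, hE2⟩ := hv.reps m
  have hk : ∀ k : Cong v 0, ∀ i j, v (((k : G2 F) : M2 F) i j) ≤ 1 :=
    fun k => ((mem_cong_zero v).1 k.2).1
  choose r hr using fun (x : {x : F // v x ≤ 1}) => (hE2 x.1 x.2).exists
  let f : Cong v 0 → (Fin 2 → Fin 2 → E) :=
    fun k i j => ⟨r ⟨_, hk k i j⟩, (hr ⟨_, hk k i j⟩).1⟩
  have hf0 : ∀ k l : Cong v 0, f k = f l →
      Bd v (((l : G2 F) : M2 F) - ((k : G2 F) : M2 F)) (WithZero.exp (-(m : ℤ))) := by
    intro k l hkl i j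
    have h1 := (hr ⟨_, hk k i j⟩).2
    have h2 := (hr ⟨_, hk l i j⟩).2
    have h3 : r ⟨_, hk k i j⟩ = r ⟨_, hk l i j⟩ := by
      have := congrArg (Subtype.val) (congrFun (congrFun hkl i) j)
      exact this
    rw [h3] at h1
    rw [Matrix.sub_apply]
    have e : ((l : G2 F) : M2 F) i j - ((k : G2 F) : M2 F) i j =
      (((l : G2 F) : M2 F) i j - r ⟨_, hk l i j⟩) -
        (((k : G2 F) : M2 F) i j - r ⟨_, hk l i j⟩) := by ring
    rw [e]
    exact v.map_sub_le h2 h1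
  have key : ∀ k l : G2 F, k ∈ Cong v 0 →
      Bd v ((l : M2 F) - (k : M2 F)) (WithZero.exp (-(m : ℤ))) →
      Bd v (((k⁻¹ * l : G2 F) : M2 F) - 1) (WithZero.exp (-(m : ℤ))) := by
    intro k l hk0 h
    have e : ((k⁻¹ * l : G2 F) : M2 F) - 1
        = ((k⁻¹ : G2 F) : M2 F) * ((l : M2 F) - (k : M2 F)) := by
      rw [Units.val_mul, mul_sub, ← Units.val_mul k⁻¹ k, inv_mul_cancel, Units.val_one]
    rw [e]
    have := (((mem_cong_zero v).1 hk0).2).mul v h
    rwa [one_mul] at this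
  have hf : ∀ k l : Cong v 0, f k = f l →
      (QuotientGroup.mk k : Q v m) = QuotientGroup.mk l := by
    intro k l hkl
    rw [QuotientGroup.eq, Subgroup.mem_subgroupOf, mem_cong]
    refine ⟨?_, ?_⟩
    · exact key k l k.2 (hf0 k l hkl)
    · have h := key l k l.2 (hf0 l k hkl.symm)
      have e : ((k⁻¹ * l : Cong v 0) : G2 F)⁻¹ = (l : G2 F)⁻¹ * (k : G2 F) := by
        push_cast
        group
      rw [e]
      exact h
  refine Finite.of_injective (fun q : Q v m => f q.out) ?_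
  intro q q' h
  have := hf _ _ h
  rwa [QuotientGroup.out_eq', QuotientGroup.out_eq'] at this

end cong

section avg

variable {F : Type} [Field F] (v : Valuation F ℤᵐ⁰)
  {V : Type} [AddCommGroup V] [Module ℂ V] (τ : G2 F →* (V →ₗ[ℂ] V))

/-- fixed by `Cong m` -/
def Fx (m : ℕ) (x : V) : Prop := ∀ k ∈ Cong v m, τ k x = x

variable {v τ}

theorem Fx.mono {m n : ℕ} (h : m ≤ n) {x : V} (hx : Fx v τ m x) : Fx v τ n x :=
  fun k hk => hx k (cong_mono v h hk)

theorem Fx.act {m : ℕ} {x : V} (hx : Fx v τ m x) {k : G2 F} (hk : k ∈ Cong v 0) :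
    Fx v τ m (τ k x) := by
  intro l hl
  have h1 : k⁻¹ * l * k ∈ Cong v m := by
    have := conj_mem v (inv_mem hk) hl
    simpa using this
  have h2 := hx _ h1
  calc τ l (τ k x) = τ (l * k) x := by rw [map_mul]; rfl
    _ = τ (k * (k⁻¹ * l * k)) x := by congr 2; group
    _ = τ k (τ (k⁻¹ * l * k) x) := by rw [map_mul]; rfl
    _ = τ k x := by rw [h2]

theorem Fx.out {m : ℕ} {x : V} (hx : Fx v τ m x) (l : Cong v 0) :
    τ (((QuotientGroup.mk l : Q v m).out : Cong v 0) : G2 F) x = τ (l : G2 F) x := by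
  obtain ⟨h, hh⟩ := QuotientGroup.mk_out_eq_mul (N v m) l
  rw [hh]
  have h1 : ((h : Cong v 0) : G2 F) ∈ Cong v m := Subgroup.mem_subgroupOf.1 h.2
  have h2 := hx _ h1
  rw [Subgroup.coe_mul, map_mul, Module.End.mul_apply, h2]

variable (v τ)

/-- average over `GL₂(O)/Cong m` -/
def A (m : ℕ) : V →ₗ[ℂ] V :=
  ((Nat.card (Q v m) : ℂ)⁻¹) • ∑ᶠ q : Q v m, τ ((q.out : Cong v 0) : G2 F)

variable {v τ}

theorem A_apply (_hv : LocalHyp v) (m : ℕ) (x : V) [Fintype (Q v m)] :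
    A v τ m x = ((Nat.card (Q v m) : ℂ)⁻¹) • ∑ q : Q v m, τ ((q.out : Cong v 0) : G2 F) x := by
  unfold A
  rw [finsum_eq_sum_of_fintype, LinearMap.smul_apply, LinearMap.sum_apply]

theorem act_A (hv : LocalHyp v) {m : ℕ} {x : V} (hx : Fx v τ m x) {k : G2 F}
    (hk : k ∈ Cong v 0) : τ k (A v τ m x) = A v τ m x := by
  have := finite_quot v hv m
  let := Fintype.ofFinite (Q v m)
  rw [A_apply hv, map_smul, map_sum]
  congr 1
  refine Fintype.sum_equiv (Equiv.mulLeft (QuotientGroup.mk ⟨k, hk⟩ : Q v m)) _ _ ?_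
  intro q
  have h1 : (QuotientGroup.mk (⟨k, hk⟩ : Cong v 0) : Q v m) * q
      = QuotientGroup.mk ((⟨k, hk⟩ : Cong v 0) * q.out) := by
    rw [QuotientGroup.mk_mul, QuotientGroup.out_eq']
  change _ = τ ((((QuotientGroup.mk (⟨k, hk⟩ : Cong v 0) : Q v m) * q).out : Cong v 0) : G2 F) x
  rw [h1, hx.out, Subgroup.coe_mul, map_mul, Module.End.mul_apply]

theorem A_act (hv : LocalHyp v) {m : ℕ} {x : V} (hx : Fx v τ m x) {k : G2 F}
    (hk : k ∈ Cong v 0) : A v τ m (τ k x) = A v τ m x := by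
  have := finite_quot v hv m
  let := Fintype.ofFinite (Q v m)
  rw [A_apply hv, A_apply hv]
  congr 1
  refine Fintype.sum_equiv (Equiv.mulRight (QuotientGroup.mk ⟨k, hk⟩ : Q v m)) _ _ ?_
  intro q
  have h1 : q * (QuotientGroup.mk (⟨k, hk⟩ : Cong v 0) : Q v m)
      = QuotientGroup.mk (q.out * (⟨k, hk⟩ : Cong v 0)) := by
    rw [QuotientGroup.mk_mul, QuotientGroup.out_eq']
  change _ = τ (((q * (QuotientGroup.mk (⟨k, hk⟩ : Cong v 0) : Q v m)).out : Cong v 0) : G2 F) x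
  rw [h1, hx.out, Subgroup.coe_mul, map_mul, Module.End.mul_apply]

theorem A_fix (hv : LocalHyp v) (m : ℕ) {y : V} (hy : Fx v τ 0 y) : A v τ m y = y := by
  have := finite_quot v hv m
  let := Fintype.ofFinite (Q v m)
  rw [A_apply hv]
  have h1 : ∀ q : Q v m, τ ((q.out : Cong v 0) : G2 F) y = y := fun q => hy _ q.out.2
  simp only [h1, Finset.sum_const, Finset.card_univ]
  rw [← Nat.card_eq_fintype_card, ← Nat.cast_smul_eq_nsmul ℂ, smul_smul, inv_mul_cancel₀, one_smul]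
  exact Nat.cast_ne_zero.2 Nat.card_pos.ne'

theorem A_stab (hv : LocalHyp v) {m m' : ℕ} {x : V} (hx : Fx v τ m x) (hx' : Fx v τ m' x) :
    A v τ m x = A v τ m' x := by
  have h1 : A v τ m (A v τ m' x) = A v τ m' x := A_fix hv m fun k hk => act_A hv hx' hk
  have h2 : A v τ m (A v τ m' x) = A v τ m x := by
    have := finite_quot v hv m'
    let := Fintype.ofFinite (Q v m')
    rw [A_apply hv m' x, map_smul, map_sum]
    have h3 : ∀ q : Q v m', A v τ m (τ ((q.out : Cong v 0) : G2 F) x) = A v τ m x :=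
      fun q => A_act hv hx q.out.2
    simp only [h3, Finset.sum_const, Finset.card_univ]
    rw [← Nat.card_eq_fintype_card, ← Nat.cast_smul_eq_nsmul ℂ, smul_smul, inv_mul_cancel₀,
      one_smul]
    exact Nat.cast_ne_zero.2 Nat.card_pos.ne'
  rw [← h2, h1]

theorem pr_lin (hv : LocalHyp v) (sm : ∀ x : V, ∃ n : ℕ, Fx v τ n x) :
    IsLinearMap ℂ (fun x : V => A v τ (sm x).choose x) where
  map_add x y := by
    set m := max (sm x).choose (max (sm y).choose (sm (x + y)).choose) with hm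
    have hx : Fx v τ m x := (sm x).choose_spec.mono (le_max_left _ _)
    have hy : Fx v τ m y := (sm y).choose_spec.mono ((le_max_left _ _).trans (le_max_right _ _))
    have hxy : Fx v τ m (x + y) :=
      (sm (x + y)).choose_spec.mono ((le_max_right _ _).trans (le_max_right _ _))
    rw [A_stab hv (sm x).choose_spec hx, A_stab hv (sm y).choose_spec hy,
      A_stab hv (sm (x + y)).choose_spec hxy, map_add]
  map_smul c x := by
    set m := max (sm x).choose (sm (c • x)).choose with hm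
    have hx : Fx v τ m x := (sm x).choose_spec.mono (le_max_left _ _)
    have hcx : Fx v τ m (c • x) := (sm (c • x)).choose_spec.mono (le_max_right _ _)
    rw [A_stab hv (sm x).choose_spec hx, A_stab hv (sm (c • x)).choose_spec hcx, map_smul]

/-- the projection onto the vectors fixed by `GL₂(O)` -/
def pr (hv : LocalHyp v) (sm : ∀ x : V, ∃ n : ℕ, Fx v τ n x) : V →ₗ[ℂ] V :=
  IsLinearMap.mk' _ (pr_lin hv sm)

theorem pr_eq (hv : LocalHyp v) (sm : ∀ x : V, ∃ n : ℕ, Fx v τ n x) {m : ℕ} {x : V}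
    (hx : Fx v τ m x) : pr hv sm x = A v τ m x := by
  unfold pr
  rw [IsLinearMap.mk'_apply]
  exact A_stab hv (sm x).choose_spec hx

theorem pr_act (hv : LocalHyp v) (sm : ∀ x : V, ∃ n : ℕ, Fx v τ n x) (x : V) {k : G2 F}
    (hk : k ∈ Cong v 0) : pr hv sm (τ k x) = pr hv sm x := by
  obtain ⟨m, hm⟩ := sm x
  rw [pr_eq hv sm hm, pr_eq hv sm (hm.act hk), A_act hv hm hk]

theorem pr_fix (hv : LocalHyp v) (sm : ∀ x : V, ∃ n : ℕ, Fx v τ n x) {x : V}
    (hx : Fx v τ 0 x) : pr hv sm x = x := by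
  rw [pr_eq hv sm hx, A_fix hv 0 hx]

theorem pr_comm (hv : LocalHyp v) (sm : ∀ x : V, ∃ n : ℕ, Fx v τ n x) (c : V →ₗ[ℂ] V)
    (hc : ∀ h y, c (τ h y) = τ h (c y)) (x : V) : pr hv sm (c x) = c (pr hv sm x) := by
  obtain ⟨m, hm⟩ := sm x
  have h1 : Fx v τ m (c x) := by
    intro k hk
    rw [← hc, hm k hk]
  have := finite_quot v hv m
  let := Fintype.ofFinite (Q v m)
  rw [pr_eq hv sm hm, pr_eq hv sm h1, A_apply hv, A_apply hv, map_smul, map_sum]
  simp only [hc]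

end avg

section mats

variable {F : Type} [Field F] (v : Valuation F ℤᵐ⁰)

theorem upper_coe (a : Fˣ) (b : F) (d : Fˣ) : ((upper a b d : G2 F) : M2 F) = !![(a : F), b; 0, (d : F)] :=
  rfl

theorem upper_mul (a a' : Fˣ) (b b' : F) (d d' : Fˣ) :
    upper a b d * upper a' b' d' = upper (a * a') (a * b' + b * d') (d * d') := by
  ext i j
  rw [Units.val_mul, upper_coe, upper_coe, upper_coe]
  fin_cases i <;> fin_cases j <;> simp [Matrix.mul_apply, Fin.sum_univ_two]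

theorem upper_one : upper (1 : Fˣ) 0 1 = 1 := by
  ext i j
  rw [upper_coe]
  fin_cases i <;> fin_cases j <;> simp

theorem upper_inv (a : Fˣ) (b : F) (d : Fˣ) :
    (upper a b d)⁻¹ = upper a⁻¹ (-(a⁻¹ : Fˣ) * b * (d⁻¹ : Fˣ)) d⁻¹ := by
  rw [inv_eq_iff_mul_eq_one, upper_mul, mul_inv_cancel, mul_inv_cancel, ← upper_one]
  congr 1
  simp only [mul_neg, neg_mul, ← mul_assoc, Units.mul_inv, one_mul]
  ring

theorem upper_mem {a : Fˣ} {b : F} {d : Fˣ} (ha : v a = 1) (hb : v b ≤ 1) (hd : v d = 1) :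
    upper a b d ∈ Cong v 0 := by
  have key : ∀ (a : Fˣ) (b : F) (d : Fˣ), v a = 1 → v b ≤ 1 → v d = 1 →
      Bd v ((upper a b d : G2 F) : M2 F) 1 := by
    intro a b d ha hb hd i j
    rw [upper_coe]
    fin_cases i <;> fin_cases j <;> simp [ha, hb, hd]
  rw [mem_cong_zero, upper_inv]
  have ha' : v ((a⁻¹ : Fˣ) : F) = 1 := by rw [Units.val_inv_eq_inv_val, map_inv₀, ha, inv_one]
  have hd' : v ((d⁻¹ : Fˣ) : F) = 1 := by rw [Units.val_inv_eq_inv_val, map_inv₀, hd, inv_one]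
  refine ⟨key _ _ _ ha hb hd, key _ _ _ ha' ?_ hd'⟩
  rw [map_mul, map_mul, Valuation.map_neg, ha', hd', one_mul, mul_one]
  exact hb

/-- the Weyl element -/
def sw (F : Type) [Field F] : G2 F :=
  Matrix.GeneralLinearGroup.mkOfDetNeZero !![0, 1; 1, 0] (by simp)

theorem sw_coe : ((sw F : G2 F) : M2 F) = !![0, 1; 1, 0] := rfl

theorem sw_mul_self : sw F * sw F = 1 := by
  ext i j
  rw [Units.val_mul, sw_coe]
  fin_cases i <;> fin_cases j <;> simp [Matrix.mul_apply, Fin.sum_univ_two]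

theorem sw_inv : (sw F)⁻¹ = sw F := by
  rw [inv_eq_iff_mul_eq_one, sw_mul_self]

theorem sw_mem : sw F ∈ Cong v 0 := by
  have key : Bd v ((sw F : G2 F) : M2 F) 1 := by
    intro i j
    rw [sw_coe]
    fin_cases i <;> fin_cases j <;> simp
  rw [mem_cong_zero, sw_inv]
  exact ⟨key, key⟩

theorem sw_upper (a d : Fˣ) : sw F * upper a 0 d * sw F = upper d 0 a := by
  ext i j
  rw [Units.val_mul, Units.val_mul, upper_coe, upper_coe, sw_coe]
  fin_cases i <;> fin_cases j <;> simp [Matrix.mul_apply, Fin.sum_univ_two]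

/-- the set of the elements with a Cartan decomposition -/
def HasC (ϖ : Fˣ) (h : G2 F) : Prop :=
  ∃ k₁ ∈ Cong v 0, ∃ k₂ ∈ Cong v 0, ∃ (j : ℤ) (n : ℕ),
    h = k₁ * upper ϖ 0 ϖ ^ j * upper (ϖ ^ n) 0 1 * k₂

variable {v}

theorem HasC.left {ϖ : Fˣ} {h k : G2 F} (hk : k ∈ Cong v 0) (hh : HasC v ϖ (k * h)) :
    HasC v ϖ h := by
  obtain ⟨k₁, h1, k₂, h2, j, n, e⟩ := hh
  refine ⟨k⁻¹ * k₁, mul_mem (inv_mem hk) h1, k₂, h2, j, n, ?_⟩
  have : h = k⁻¹ * (k * h) := by group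
  rw [this, e]
  group

theorem HasC.right {ϖ : Fˣ} {h k : G2 F} (hk : k ∈ Cong v 0) (hh : HasC v ϖ (h * k)) :
    HasC v ϖ h := by
  obtain ⟨k₁, h1, k₂, h2, j, n, e⟩ := hh
  refine ⟨k₁, h1, k₂ * k⁻¹, mul_mem h2 (inv_mem hk), j, n, ?_⟩
  have : h = (h * k) * k⁻¹ := by group
  rw [this, e]
  group

theorem upper_zpow (ϖ : Fˣ) (j : ℤ) : upper ϖ 0 ϖ ^ j = upper (ϖ ^ j) 0 (ϖ ^ j) := by
  have h1 : ∀ n : ℕ, upper ϖ 0 ϖ ^ n = upper (ϖ ^ n) 0 (ϖ ^ n) := by
    intro n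
    induction n with
    | zero => rw [pow_zero, pow_zero, upper_one]
    | succ n ih => rw [pow_succ, ih, upper_mul, pow_succ]; congr 1; simp
  cases j with
  | ofNat n => simpa using h1 n
  | negSucc n =>
    rw [zpow_negSucc, zpow_negSucc, h1, upper_inv]
    congr 1
    simp

theorem cartan_diag {ϖ : Fˣ} (hϖ : v (ϖ : F) = WithZero.exp (-1 : ℤ)) (a d : Fˣ)
    (had : v (a : F) ≤ v (d : F)) : HasC v ϖ (upper a 0 d) := by
  have hpow : ∀ j : ℤ, v ((ϖ ^ j : Fˣ) : F) = WithZero.exp (-j) := by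
    intro j
    rw [Units.val_zpow_eq_zpow_val, map_zpow₀, hϖ, ← WithZero.exp_zsmul]
    congr 1
    simp
  have hex : ∀ x : Fˣ, ∃ j : ℤ, v (x : F) = WithZero.exp (-j) := by
    intro x
    have hx : v (x : F) ≠ 0 := (Valuation.ne_zero_iff v).2 x.ne_zero
    refine ⟨-WithZero.log (v (x : F)), ?_⟩
    rw [neg_neg, WithZero.exp_log hx]
  obtain ⟨i, hi⟩ := hex a
  obtain ⟨j, hj⟩ := hex d
  have hij : j ≤ i := by
    rw [hi, hj, WithZero.exp_le_exp] at had
    omega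
  obtain ⟨n, hn⟩ := Int.eq_ofNat_of_zero_le (sub_nonneg.2 hij)
  have hu1 : v ((a * (ϖ ^ i)⁻¹ : Fˣ) : F) = 1 := by
    rw [Units.val_mul, map_mul, Units.val_inv_eq_inv_val, map_inv₀, hi, hpow,
      mul_inv_cancel₀ WithZero.exp_ne_zero]
  have hu2 : v ((d * (ϖ ^ j)⁻¹ : Fˣ) : F) = 1 := by
    rw [Units.val_mul, map_mul, Units.val_inv_eq_inv_val, map_inv₀, hj, hpow,
      mul_inv_cancel₀ WithZero.exp_ne_zero]
  refine ⟨1, one_mem _, upper (a * (ϖ ^ i)⁻¹) 0 (d * (ϖ ^ j)⁻¹),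
    upper_mem v hu1 (by simp) hu2, j, n, ?_⟩
  rw [upper_zpow, one_mul, upper_mul, upper_mul]
  have e1 : ϖ ^ j * ϖ ^ n * (a * (ϖ ^ i)⁻¹) = a := by
    have : ϖ ^ i = ϖ ^ j * ϖ ^ n := by
      rw [← zpow_natCast, ← _root_.zpow_add]
      congr 1
      omega
    rw [this]
    group
    rw [mul_comm]
    group
  have e2 : ϖ ^ j * 1 * (d * (ϖ ^ j)⁻¹) = d := by
    rw [mul_one, mul_comm d, mul_inv_cancel_left]
  rw [e1, e2]
  congr 1
  simp

theorem cartan1 {ϖ : Fˣ} (hϖ : v (ϖ : F) = WithZero.exp (-1 : ℤ)) (h : G2 F)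
    (hm : ∀ i j, v ((h : M2 F) i j) ≤ v ((h : M2 F) 1 1)) : HasC v ϖ h := by
  have hdet : (h : M2 F).det ≠ 0 := by
    have := (Matrix.GeneralLinearGroup.det h).ne_zero
    simpa using this
  have hd0 : (h : M2 F) 1 1 ≠ 0 := by
    intro h0
    have hz : ∀ i j, (h : M2 F) i j = 0 := by
      intro i j
      have := hm i j
      rw [h0, map_zero] at this
      exact (Valuation.zero_iff v).1 (le_antisymm this zero_le)
    apply hdet
    rw [Matrix.det_fin_two, hz, hz, hz]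
    ring
  set a := (h : M2 F) 0 0 with ha
  set b := (h : M2 F) 0 1 with hb
  set c := (h : M2 F) 1 0 with hc
  set d := (h : M2 F) 1 1 with hd
  have hdet' : a * d - b * c ≠ 0 := by
    rw [Matrix.det_fin_two] at hdet
    exact hdet
  have ha0 : a - b * c / d ≠ 0 := by
    intro h0
    apply hdet'
    have : a * d - b * c = (a - b * c / d) * d := by field_simp
    rw [this, h0, zero_mul]
  have hv0 : v d ≠ 0 := (Valuation.ne_zero_iff v).2 hd0
  have hbd : v (b / d) ≤ 1 := by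
    rw [map_div₀]
    exact div_le_one_of_le₀ (hm 0 1) zero_le
  have hcd : v (c / d) ≤ 1 := by
    rw [map_div₀]
    exact div_le_one_of_le₀ (hm 1 0) zero_le
  have hla : v (a - b * c / d) ≤ v d := by
    refine v.map_sub_le (hm 0 0) ?_
    rw [mul_div_assoc, map_mul]
    calc v b * v (c / d) ≤ v d * 1 := mul_le_mul' (hm 0 1) hcd
      _ = v d := mul_one _
  have e : h = upper 1 (b / d) 1 * upper (Units.mk0 _ ha0) 0 (Units.mk0 d hd0) *
      (sw F * upper 1 (c / d) 1 * sw F) := by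
    ext i j
    rw [Units.val_mul, Units.val_mul, Units.val_mul, Units.val_mul, upper_coe, upper_coe,
      upper_coe, sw_coe]
    fin_cases i <;> fin_cases j
    · change a = _
      simp [Matrix.mul_apply, Fin.sum_univ_two]
      field_simp
      ring
    · change b = _
      simp [Matrix.mul_apply, Fin.sum_univ_two]
      field_simp
    · change c = _
      simp [Matrix.mul_apply, Fin.sum_univ_two]
      field_simp
    · change d = _
      simp [Matrix.mul_apply, Fin.sum_univ_two]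
  have h1 : upper (1 : Fˣ) (b / d) 1 ∈ Cong v 0 := upper_mem v (by simp) hbd (by simp)
  have h2 : sw F * upper (1 : Fˣ) (c / d) 1 * sw F ∈ Cong v 0 :=
    mul_mem (mul_mem (sw_mem v) (upper_mem v (by simp) hcd (by simp))) (sw_mem v)
  obtain ⟨k₁, hk1, k₂, hk2, j, n, e3⟩ := cartan_diag hϖ (Units.mk0 _ ha0) (Units.mk0 d hd0) hla
  refine ⟨upper 1 (b / d) 1 * k₁, mul_mem h1 hk1, k₂ * (sw F * upper 1 (c / d) 1 * sw F),
    mul_mem hk2 h2, j, n, ?_⟩
  rw [e, e3]
  group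

theorem sw_mul_apply (h : G2 F) (i j : Fin 2) :
    ((sw F * h : G2 F) : M2 F) i j = (h : M2 F) (1 - i) j := by
  rw [Units.val_mul, sw_coe]
  fin_cases i <;> simp [Matrix.mul_apply, Fin.sum_univ_two]

theorem mul_sw_apply (h : G2 F) (i j : Fin 2) :
    ((h * sw F : G2 F) : M2 F) i j = (h : M2 F) i (1 - j) := by
  rw [Units.val_mul, sw_coe]
  fin_cases j <;> simp [Matrix.mul_apply, Fin.sum_univ_two]

theorem cartan {ϖ : Fˣ} (hϖ : v (ϖ : F) = WithZero.exp (-1 : ℤ)) (h : G2 F) : HasC v ϖ h := by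
  obtain ⟨⟨i, j⟩, -, hij⟩ := Finset.exists_max_image (Finset.univ : Finset (Fin 2 × Fin 2))
    (fun p => v ((h : M2 F) p.1 p.2)) Finset.univ_nonempty
  have hm : ∀ i' j', v ((h : M2 F) i' j') ≤ v ((h : M2 F) i j) :=
    fun i' j' => hij (i', j') (Finset.mem_univ _)
  have hcol : ∀ g : G2 F, (∀ i' j', v ((g : M2 F) i' j') ≤ v ((g : M2 F) 1 j)) → HasC v ϖ g := by
    intro g hg
    fin_cases j
    · refine HasC.right (sw_mem v) (cartan1 hϖ _ ?_)
      intro i' j'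
      rw [mul_sw_apply, mul_sw_apply]
      exact hg _ _
    · exact cartan1 hϖ g hg
  fin_cases i
  · refine HasC.left (sw_mem v) (hcol _ ?_)
    intro i' j'
    rw [sw_mul_apply, sw_mul_apply]
    exact hm _ _
  · exact hcol h hm

end mats

section main

variable {F : Type} [Field F] {v : Valuation F ℤᵐ⁰}
  {V : Type} [AddCommGroup V] [Module ℂ V] {τ : G2 F →* (V →ₗ[ℂ] V)}

theorem v_pow_le {ϖ : Fˣ} (hϖ : v (ϖ : F) = WithZero.exp (-1 : ℤ)) (n : ℕ) {c : F}
    (hc : v c ≤ 1) : v ((ϖ ^ n : Fˣ) * c) ≤ 1 := by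
  have h1 : v (ϖ : F) ≤ 1 := by
    rw [hϖ, ← WithZero.exp_zero, WithZero.exp_le_exp]
    norm_num
  rw [map_mul, Units.val_pow_eq_pow_val, map_pow]
  exact mul_le_one' (pow_le_one' h1 n) hc

/-- the averages of the translates by `diag(ϖⁿ, 1)` -/
theorem omega_eq (hv : LocalHyp v) (sm : ∀ x : V, ∃ n : ℕ, Fx v τ n x) {ϖ : Fˣ}
    (hϖ : v (ϖ : F) = WithZero.exp (-1 : ℤ)) {E : Finset F} (hE : IsReps v 1 E) {w : V}
    (hw : Fx v τ 0 w)
    (hecke : ∑ c ∈ E, τ (upper ϖ c 1) w + τ (upper 1 0 ϖ) w = ((E.card : ℂ) + 1) • w)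
    (hz : τ (upper ϖ 0 ϖ) w = w) (n : ℕ) : pr hv sm (τ (upper (ϖ ^ n) 0 1) w) = w := by
  have hEc : (E.card : ℂ) ≠ 0 := by
    obtain ⟨e, ⟨he, -⟩, -⟩ := hE.2 0 (by simp)
    exact Nat.cast_ne_zero.2 (Finset.card_pos.2 ⟨e, he⟩).ne'
  have hEc1 : (E.card : ℂ) + 1 ≠ 0 := by
    have : ((E.card + 1 : ℕ) : ℂ) ≠ 0 := Nat.cast_ne_zero.2 (Nat.succ_ne_zero _)
    push_cast at this
    exact this
  have H : ∀ n : ℕ, ∑ c ∈ E, pr hv sm (τ (upper (ϖ ^ n) 0 1 * upper ϖ c 1) w) +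
      pr hv sm (τ (upper (ϖ ^ n) 0 1 * upper 1 0 ϖ) w) =
      ((E.card : ℂ) + 1) • pr hv sm (τ (upper (ϖ ^ n) 0 1) w) := by
    intro n
    have := congrArg (fun x => pr hv sm (τ (upper (ϖ ^ n) 0 1) x)) hecke
    simp only [map_add, map_sum, map_smul] at this
    rw [← this]
    congr 1
    · refine Finset.sum_congr rfl fun c _ => ?_
      rw [map_mul, Module.End.mul_apply]
    · rw [map_mul, Module.End.mul_apply]
  have s1 : ∀ n : ℕ, ∀ c ∈ E, pr hv sm (τ (upper (ϖ ^ n) 0 1 * upper ϖ c 1) w) =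
      pr hv sm (τ (upper (ϖ ^ (n + 1)) 0 1) w) := by
    intro n c hc
    have e : upper (ϖ ^ n) 0 1 * upper ϖ c 1 =
        upper 1 ((ϖ ^ n : Fˣ) * c) 1 * upper (ϖ ^ (n + 1)) 0 1 := by
      rw [upper_mul, upper_mul, pow_succ]
      congr 1
      · rw [one_mul]
      · simp
    rw [e, map_mul, Module.End.mul_apply]
    exact pr_act hv sm _ (upper_mem v (by simp) (v_pow_le hϖ n (hE.1 c hc)) (by simp))
  have s2 : ∀ n : ℕ, pr hv sm (τ (upper (ϖ ^ (n + 1)) 0 1 * upper 1 0 ϖ) w) =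
      pr hv sm (τ (upper (ϖ ^ n) 0 1) w) := by
    intro n
    have e : upper (ϖ ^ (n + 1)) 0 1 * upper 1 0 ϖ = upper (ϖ ^ n) 0 1 * upper ϖ 0 ϖ := by
      rw [upper_mul, upper_mul, pow_succ]
      congr 1
      · rw [mul_one]
      · simp
    rw [e, map_mul, Module.End.mul_apply, hz]
  have s3 : pr hv sm (τ (upper (ϖ ^ 0) 0 1 * upper 1 0 ϖ) w) =
      pr hv sm (τ (upper (ϖ ^ 1) 0 1) w) := by
    have e : upper (ϖ ^ 0) 0 1 * upper 1 0 ϖ = sw F * upper (ϖ ^ 1) 0 1 * sw F := by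
      rw [sw_upper, pow_zero, upper_one, one_mul, pow_one]
    rw [e, mul_assoc, map_mul, Module.End.mul_apply, pr_act hv sm _ (sw_mem v), map_mul,
      Module.End.mul_apply, hw _ (sw_mem v)]
  have h0 : pr hv sm (τ (upper (ϖ ^ 0) 0 1) w) = w := by
    rw [pow_zero, upper_one, map_one, Module.End.one_apply, pr_fix hv sm hw]
  have h1 : pr hv sm (τ (upper (ϖ ^ 1) 0 1) w) = w := by
    have := H 0
    rw [Finset.sum_congr rfl (s1 0), Finset.sum_const, s3, h0, ← Nat.cast_smul_eq_nsmul ℂ,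
      zero_add] at this
    have h5 : ((E.card : ℂ) + 1) • pr hv sm (τ (upper (ϖ ^ 1) 0 1) w) =
        ((E.card : ℂ) + 1) • w := by
      rw [add_smul ((E.card : ℂ)) 1 (pr hv sm (τ (upper (ϖ ^ 1) 0 1) w)), one_smul]
      exact this
    exact smul_right_injective V hEc1 h5
  have key : ∀ n : ℕ, pr hv sm (τ (upper (ϖ ^ n) 0 1) w) = w ∧
      pr hv sm (τ (upper (ϖ ^ (n + 1)) 0 1) w) = w := by
    intro n
    induction n with
    | zero => exact ⟨h0, h1⟩
    | succ n ih =>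
      refine ⟨ih.2, ?_⟩
      have := H (n + 1)
      rw [Finset.sum_congr rfl (s1 (n + 1)), Finset.sum_const, s2, ih.1, ih.2,
        ← Nat.cast_smul_eq_nsmul ℂ, add_smul, one_smul, add_left_inj] at this
      exact smul_right_injective V hEc this
  exact (key n).1

theorem avg_eq (hv : LocalHyp v) (sm : ∀ x : V, ∃ n : ℕ, Fx v τ n x) {ϖ : Fˣ}
    (hϖ : v (ϖ : F) = WithZero.exp (-1 : ℤ)) {E : Finset F} (hE : IsReps v 1 E) {w : V}
    (hw : Fx v τ 0 w)
    (hecke : ∑ c ∈ E, τ (upper ϖ c 1) w + τ (upper 1 0 ϖ) w = ((E.card : ℂ) + 1) • w)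
    (hz : τ (upper ϖ 0 ϖ) w = w) (h : G2 F) : pr hv sm (τ h w) = w := by
  obtain ⟨k₁, hk1, k₂, hk2, j, n, e⟩ := cartan hϖ h
  let St : Subgroup (G2 F) :=
    { carrier := {g | τ g w = w}
      one_mem' := by
        show τ 1 w = w
        rw [map_one, Module.End.one_apply]
      mul_mem' := by
        intro a b ha hb
        show τ (a * b) w = w
        have ha' : τ a w = w := ha
        have hb' : τ b w = w := hb
        rw [map_mul, Module.End.mul_apply, hb', ha']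
      inv_mem' := by
        intro a ha
        show τ a⁻¹ w = w
        have ha' : τ a w = w := ha
        conv_lhs => rw [← ha']
        rw [← Module.End.mul_apply, ← map_mul, inv_mul_cancel, map_one, Module.End.one_apply] }
  have hzj : τ (upper ϖ 0 ϖ ^ j) w = w := by
    have h1 : upper ϖ 0 ϖ ∈ St := hz
    exact zpow_mem h1 j
  have hcomm : upper ϖ 0 ϖ ^ j * upper (ϖ ^ n) 0 1 = upper (ϖ ^ n) 0 1 * upper ϖ 0 ϖ ^ j := by
    rw [upper_zpow, upper_mul, upper_mul, mul_comm (ϖ ^ j), mul_comm (ϖ ^ j) 1]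
    congr 1
    simp
  have e2 : h = k₁ * (upper (ϖ ^ n) 0 1 * (upper ϖ 0 ϖ ^ j * k₂)) := by
    rw [e, mul_assoc k₁, hcomm]
    group
  rw [e2, map_mul, Module.End.mul_apply, pr_act hv sm _ hk1, map_mul, Module.End.mul_apply,
    map_mul, Module.End.mul_apply, hw _ hk2, hzj]
  exact omega_eq hv sm hϖ hE hw hecke hz n

end main

end

end Pool.Agent.U283.LL.PkgK

namespace Pool.Agent.U283.LL

open PkgK

/-- **Package K.** -/
theorem pkg_K : S_Triv := by
  intro F _ v hv G _ π hirr ι hgen sm ϖ hϖ E hE w hw hecke hz h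
  let τ : G2 F →* (π.V →ₗ[ℂ] π.V) := π.ρ.comp ι
  have sm' : ∀ x : π.V, ∃ n : ℕ, Fx v τ n x := sm
  have key : ∀ h, pr hv sm' (τ h w) = w := avg_eq hv sm' hϖ hE hw hecke hz
  let W : Submodule ℂ π.V := Submodule.span ℂ (Set.range fun g : G => π.ρ g (π.ρ (ι h) w - w))
  have hinv : ∀ g, ∀ x ∈ W, π.ρ g x ∈ W := by
    intro g x hx
    have h1 : W ≤ W.comap (π.ρ g) := by
      refine Submodule.span_le.2 ?_
      rintro _ ⟨g', rfl⟩
      refine Submodule.subset_span ⟨g * g', ?_⟩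
      show π.ρ (g * g') _ = π.ρ g (π.ρ g' _)
      rw [map_mul, Module.End.mul_apply]
    exact h1 hx
  have hker : ∀ x ∈ W, pr hv sm' x = 0 := by
    intro x hx
    have h1 : W ≤ LinearMap.ker (pr hv sm') := by
      refine Submodule.span_le.2 ?_
      rintro _ ⟨g, rfl⟩
      obtain ⟨h', c, rfl, hc⟩ := hgen g
      show pr hv sm' (π.ρ (ι h' * c) (π.ρ (ι h) w - w)) = 0
      have e1 : π.ρ (ι h' * c) (π.ρ (ι h) w - w) = π.ρ c (τ (h' * h) w - τ h' w) := by
        have e2 : τ (h' * h) w = π.ρ (ι h') (π.ρ (ι h) w) := by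
          show π.ρ (ι (h' * h)) w = _
          rw [map_mul, map_mul, Module.End.mul_apply]
        have e3 : τ h' w = π.ρ (ι h') w := rfl
        rw [e2, e3, ← map_sub, ← hc h', map_mul, Module.End.mul_apply]
      rw [e1, pr_comm hv sm' (π.ρ c), map_sub, key, key, sub_self, map_zero]
      intro g y
      show π.ρ c (π.ρ (ι g) y) = π.ρ (ι g) (π.ρ c y)
      rw [← Module.End.mul_apply, ← map_mul, hc g, map_mul, Module.End.mul_apply]
    exact h1 hx
  rcases hirr.2 W hinv with hW | hW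
  · have h1 : π.ρ (ι h) w - w ∈ W := Submodule.subset_span ⟨1, by
      show π.ρ 1 _ = _
      rw [map_one, Module.End.one_apply]⟩
    rw [hW, Submodule.mem_bot] at h1
    exact sub_eq_zero.1 h1
  · have h1 : w ∈ W := by rw [hW]; exact Submodule.mem_top
    have h2 : w = 0 := by
      rw [← pr_fix hv sm' hw]
      exact hker w h1
    rw [h2, map_zero]

end Pool.Agent.U283.LL
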