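import Pool.Agent.U283.LL.PkgI

/-!
# Project LL, package M: conjugates of Schwartz functions are Schwartz functions
-/

set_option autoImplicit false

open scoped WithZero Matrix
open Matrix

namespace Pool.Agent.U283.LL

noncomputable section

lemma exists_exp_bound (x : ℤᵐ⁰) : ∃ k : ℕ, x ≤ WithZero.exp (k : ℤ) := by
  by_cases hx : x = 0
  · exact ⟨0, by rw [hx]; exact zero_le⟩
  · refine ⟨(WithZero.log x).toNat, ?_⟩
    rw [← WithZero.log_le_iff_le_exp hx]
    exact Int.self_le_toNat _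

lemma exists_mat_bound {F : Type} [Field F] (v : Valuation F ℤᵐ⁰) (A : M2 F) :
    ∃ k : ℕ, ∀ i j, v (A i j) ≤ WithZero.exp (k : ℤ) := by
  choose k hk using fun ij : Fin 2 × Fin 2 => exists_exp_bound (v (A ij.1 ij.2))
  refine ⟨∑ ij, k ij, fun i j => (hk (i, j)).trans ?_⟩
  rw [WithZero.exp_le_exp]
  exact_mod_cast Finset.single_le_sum (f := k) (fun _ _ => Nat.zero_le _) (Finset.mem_univ (i, j))

/-- the entries of an element of `GL₂(𝔸)` and of its inverse are bounded -/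
lemma GA_bound {P : Type} {L : P → Type} [∀ p, Field (L p)] (val : ∀ p, Valuation (L p) ℤᵐ⁰)
    (h : GA val) : ∃ e : P →₀ ℕ, ∀ p i j,
      val p (((h : ∀ p, G2 (L p)) p : M2 (L p)) i j) ≤ WithZero.exp (e p : ℤ) ∧
      val p (((((h : ∀ p, G2 (L p)) p)⁻¹ : G2 (L p)) : M2 (L p)) i j) ≤ WithZero.exp (e p : ℤ) := by
  classical
  choose a ha using fun p => exists_mat_bound (val p) ((h : ∀ p, G2 (L p)) p : M2 (L p))
  choose b hb using fun p => exists_mat_bound (val p) ((((h : ∀ p, G2 (L p)) p)⁻¹ : G2 (L p)) : M2 (L p))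
  have hfin : (Function.support fun p => if (h : ∀ p, G2 (L p)) p ∈ Cong (val p) 0 then 0 else a p + b p).Finite := by
    refine Set.Finite.subset h.2 ?_
    intro p hp hc
    apply hp
    simp only
    rw [if_pos hc]
  refine ⟨Finsupp.ofSupportFinite _ hfin, fun p i j => ?_⟩
  rw [Finsupp.ofSupportFinite_coe]
  by_cases hc : (h : ∀ p, G2 (L p)) p ∈ Cong (val p) 0
  · rw [if_pos hc]
    have h0 : (WithZero.exp ((0 : ℕ) : ℤ) : ℤᵐ⁰) = 1 := by simp
    rw [h0]
    exact ⟨Cong_le_one (val p) hc i j, Cong_le_one (val p) (inv_mem hc) i j⟩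
  · rw [if_neg hc]
    refine ⟨(ha p i j).trans ?_, (hb p i j).trans ?_⟩
    · rw [WithZero.exp_le_exp]; push_cast; omega
    · rw [WithZero.exp_le_exp]; push_cast; omega

/-- Package M. -/
theorem pkg_M : S_Conj := by
  intro P L _ val inf Φ hΦ h
  obtain ⟨⟨n, hn⟩, ⟨m, hm⟩, hinf⟩ := hΦ
  obtain ⟨e, he⟩ := GA_bound val h
  refine ⟨⟨n + 2 • e, ?_⟩, ⟨m + 2 • e, ?_⟩, ?_⟩
  · intro u hu Y
    show Φ (cj val h (cj val u Y)) = Φ (cj val h Y)
    have hw : h⁻¹ * u * h ∈ U val n := by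
      intro p
      have key : ∀ w : G2 (L p), w ∈ Cong (val p) ((n + 2 • e) p) →
          ∀ i j, val p ((((h : ∀ p, G2 (L p)) p)⁻¹ * w * (h : ∀ p, G2 (L p)) p : G2 (L p)) i j -
            (1 : M2 (L p)) i j) ≤ WithZero.exp (-(n p : ℤ)) := by
        intro w hw i j
        have h1 : (((((h : ∀ p, G2 (L p)) p)⁻¹ * w * (h : ∀ p, G2 (L p)) p : G2 (L p)) : M2 (L p)) -
            (1 : M2 (L p))) = (((((h : ∀ p, G2 (L p)) p)⁻¹ : G2 (L p)) : M2 (L p)) * ((w : M2 (L p)) - 1)) *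
            (((h : ∀ p, G2 (L p)) p) : M2 (L p)) := by
          rw [Matrix.GeneralLinearGroup.coe_mul, Matrix.GeneralLinearGroup.coe_mul, Matrix.mul_sub,
            Matrix.sub_mul, Matrix.mul_one, coe_inv_mul]
        have h2 := congrFun (congrFun h1 i) j
        rw [Matrix.sub_apply] at h2
        rw [h2]
        have h3 := mul_bound (val p) (A := ((((h : ∀ p, G2 (L p)) p)⁻¹ : G2 (L p)) : M2 (L p)))
          (B := (w : M2 (L p)) - 1) (a := WithZero.exp (e p : ℤ))
          (b := WithZero.exp (-(((n + 2 • e) p : ℕ) : ℤ))) (fun i j => (he p i j).2)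
          (fun i j => by rw [Matrix.sub_apply]; exact (hw i j).1)
        have h4 := mul_bound (val p) h3 (B := (((h : ∀ p, G2 (L p)) p) : M2 (L p)))
          (b := WithZero.exp (e p : ℤ)) (fun i j => (he p i j).1) i j
        refine h4.trans ?_
        rw [← WithZero.exp_add, ← WithZero.exp_add, WithZero.exp_le_exp]
        simp only [Finsupp.add_apply, Finsupp.smul_apply, smul_eq_mul]
        push_cast
        omega
      intro i j
      refine ⟨key _ (hu p) i j, ?_⟩
      have h5 := key _ (inv_mem (hu p)) i j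
      have h6 : (((h⁻¹ * u * h : GA val) : ∀ p, G2 (L p)) p)⁻¹ =
          ((h : ∀ p, G2 (L p)) p)⁻¹ * ((u : ∀ p, G2 (L p)) p)⁻¹ * (h : ∀ p, G2 (L p)) p := by
        show (((h : ∀ p, G2 (L p)) p)⁻¹ * ((u : ∀ p, G2 (L p)) p) * (h : ∀ p, G2 (L p)) p)⁻¹ = _
        group
      rw [h6]
      exact h5
    have h7 : cj val h (cj val u Y) = cj val (h⁻¹ * u * h) (cj val h Y) := by
      rw [cj_cj, cj_cj]
      congr 1
      group
    rw [h7]
    exact hn _ hw _
  · intro Y hY p hp i j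
    have h1 := hm _ hY p hp
    have h2 : Y p = (((h : ∀ p, G2 (L p)) p : M2 (L p)) * (cj val h Y p)) *
        ((((h : ∀ p, G2 (L p)) p)⁻¹ : G2 (L p)) : M2 (L p)) := by
      unfold cj
      calc Y p = (((h : ∀ p, G2 (L p)) p : M2 (L p)) * ((((h : ∀ p, G2 (L p)) p)⁻¹ : G2 (L p)) : M2 (L p))) *
            Y p * (((h : ∀ p, G2 (L p)) p : M2 (L p)) * ((((h : ∀ p, G2 (L p)) p)⁻¹ : G2 (L p)) : M2 (L p))) := by
            rw [coe_mul_inv, Matrix.one_mul, Matrix.mul_one]
        _ = _ := by simp only [Matrix.mul_assoc]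
    rw [h2]
    have h3 := mul_bound (val p) (A := ((h : ∀ p, G2 (L p)) p : M2 (L p))) (a := WithZero.exp (e p : ℤ))
      (fun i j => (he p i j).1) h1
    have h4 := mul_bound (val p) h3 (B := ((((h : ∀ p, G2 (L p)) p)⁻¹ : G2 (L p)) : M2 (L p)))
      (b := WithZero.exp (e p : ℤ)) (fun i j => (he p i j).2) i j
    refine h4.trans ?_
    rw [← WithZero.exp_add, ← WithZero.exp_add, WithZero.exp_le_exp]
    simp only [Finsupp.add_apply, Finsupp.smul_apply, smul_eq_mul]
    push_cast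
    omega
  · intro Y Y' hYY
    apply hinf
    intro p hp
    unfold cj
    rw [hYY p hp]

end

end Pool.Agent.U283.LL
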