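import Pool.Agent.U283.LL.Spec3
import Pool.Agent.U283.LL.PkgJ

/-!
# Project LL, package Q1: values of the translates near the cusp
-/

set_option autoImplicit false

open scoped WithZero Matrix
open Matrix

namespace Pool.Agent.U283.LL

noncomputable section

namespace PkgQ1

section loc

variable {F : Type} [Field F]

lemma coe_mul_inv (γ : G2 F) : (γ : M2 F) * ((γ⁻¹ : G2 F) : M2 F) = 1 := by
  rw [← Matrix.GeneralLinearGroup.coe_mul, mul_inv_cancel]; rfl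

lemma coe_inv_mul (γ : G2 F) : ((γ⁻¹ : G2 F) : M2 F) * (γ : M2 F) = 1 := by
  rw [← Matrix.GeneralLinearGroup.coe_mul, inv_mul_cancel]; rfl

lemma trace_conj (γ : G2 F) (Y : M2 F) :
    (((γ⁻¹ : G2 F) : M2 F) * Y * (γ : M2 F)).trace = Y.trace := by
  rw [Matrix.trace_mul_comm, ← Matrix.mul_assoc, coe_mul_inv, Matrix.one_mul]

lemma det_conj (γ : G2 F) (Y : M2 F) :
    (((γ⁻¹ : G2 F) : M2 F) * Y * (γ : M2 F)).det = Y.det := by
  rw [Matrix.det_mul, Matrix.det_mul, mul_comm, ← mul_assoc, ← Matrix.det_mul, coe_mul_inv,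
    Matrix.det_one, one_mul]

/-- The idempotent `(1 -y; 0 0)`. -/
def A (y : F) : M2 F := !![1, -y; 0, 0]

/-- The idempotent `(0 y; 0 1)`. -/
def B (y : F) : M2 F := !![0, y; 0, 1]

lemma B_eq (y : F) : B y = 1 - A y := by
  ext i j
  fin_cases i <;> fin_cases j <;> simp [A, B]

lemma trace_A (y : F) : (A y).trace = 1 := by simp [A, Matrix.trace_fin_two]

lemma det_A (y : F) : (A y).det = 0 := by simp [A, Matrix.det_fin_two]

lemma trace_B (y : F) : (B y).trace = 1 := by simp [B, Matrix.trace_fin_two]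

lemma det_B (y : F) : (B y).det = 0 := by simp [B, Matrix.det_fin_two]

lemma ev_A0 (y : F) : ev 0 (A y) = vec 1 0 := by
  have h : ∃ i, (A y - Matrix.scalar (Fin 2) (0 : F)) i 0 ≠ 0 := ⟨0, by simp [A]⟩
  rw [ev, if_pos h]
  funext i
  fin_cases i <;> simp [A, vec]

lemma ev_A1 (y : F) : ev 1 (A y) = (-1 : F) • vec y 1 := by
  have h : ¬ ∃ i, (A y - Matrix.scalar (Fin 2) (1 : F)) i 0 ≠ 0 := by
    rintro ⟨i, hi⟩
    fin_cases i <;> simp [A] at hi
  rw [ev, if_neg h]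
  funext i
  fin_cases i <;> simp [A, vec]

lemma ev_B0 (y : F) : ev 0 (B y) = vec y 1 := by
  have h : ¬ ∃ i, (B y - Matrix.scalar (Fin 2) (0 : F)) i 0 ≠ 0 := by
    rintro ⟨i, hi⟩
    fin_cases i <;> simp [B] at hi
  rw [ev, if_neg h]
  funext i
  fin_cases i <;> simp [B, vec]

lemma ev_B1 (y : F) : ev 1 (B y) = (-1 : F) • vec 1 0 := by
  have h : ∃ i, (B y - Matrix.scalar (Fin 2) (1 : F)) i 0 ≠ 0 := ⟨0, by simp [B]⟩
  rw [ev, if_pos h]
  funext i
  fin_cases i <;> simp [B, vec]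

/-- values at the eigenvectors of a conjugate -/
lemma f_ev_conj (v : Valuation F ℤᵐ⁰) {f : (Fin 2 → F) → ℂ} (hf : PF v f) (γ : G2 F) {Y : M2 F}
    {α β : F} (hab : α ≠ β) (ht : Y.trace = α + β) (hd : Y.det = α * β) :
    f (ev β (((γ⁻¹ : G2 F) : M2 F) * Y * (γ : M2 F))) = act γ f (ev β Y) := by
  obtain ⟨m, hm⟩ := hf
  obtain ⟨c, hc, h⟩ := ev_conj hab ht hd γ
  rw [act, h]
  exact (hm.2.1 c _ hc).symm

lemma homog (v : Valuation F ℤᵐ⁰) {f : (Fin 2 → F) → ℂ} (hf : PF v f) {c : F} (hc : c ≠ 0)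
    (x : Fin 2 → F) : f (c • x) = f x := by
  obtain ⟨m, hm⟩ := hf
  exact hm.2.1 c x hc

lemma int_one_sub (v : Valuation F ℤᵐ⁰) (γ : G2 F) (Y : M2 F) :
    (∀ i j, v ((((γ⁻¹ : G2 F) : M2 F) * (1 - Y) * (γ : M2 F)) i j) ≤ 1) ↔
      ∀ i j, v ((((γ⁻¹ : G2 F) : M2 F) * Y * (γ : M2 F)) i j) ≤ 1 := by
  have key : ∀ Y : M2 F, (∀ i j, v ((((γ⁻¹ : G2 F) : M2 F) * Y * (γ : M2 F)) i j) ≤ 1) →
      ∀ i j, v ((((γ⁻¹ : G2 F) : M2 F) * (1 - Y) * (γ : M2 F)) i j) ≤ 1 := by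
    intro Y h i j
    have h1 : ((γ⁻¹ : G2 F) : M2 F) * (1 - Y) * (γ : M2 F) =
        1 - ((γ⁻¹ : G2 F) : M2 F) * Y * (γ : M2 F) := by
      rw [Matrix.mul_sub, Matrix.sub_mul, Matrix.mul_one, coe_inv_mul]
    rw [h1, Matrix.sub_apply]
    refine v.map_sub_le ?_ (h i j)
    rw [Matrix.one_apply]
    split_ifs <;> simp
  constructor
  · intro h
    have := key (1 - Y) h
    rwa [sub_sub_cancel] at this
  · exact key Y

end loc

section glob

variable {P : Type} {L : P → Type} [∀ p, Field (L p)]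
  (val : ∀ p, Valuation (L p) ℤᵐ⁰) (inf : P)

open scoped Classical in
/-- values of `PhiE` at the conjugates of families of idempotents -/
lemma PhiE_cj (pp : P) {f₂ : (Fin 2 → L pp) → ℂ} (hf₂ : PF (val pp) f₂)
    (g : GA val) (Y : ∀ p, M2 (L p)) (ht : (Y pp).trace = 1) (hd : (Y pp).det = 0) :
    PhiE val inf pp f₂ (cj val g Y) =
      (act ((g : ∀ p, G2 (L p)) pp) f₂ (ev 0 (Y pp)) -
        act ((g : ∀ p, G2 (L p)) pp) f₂ (ev 1 (Y pp))) *
      (if ∀ p, p ≠ inf → p ≠ pp → ∀ i j, val p (cj val g Y p i j) ≤ 1 then 1 else 0) := by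
  have h1 : (cj val g Y pp).trace = 1 := (trace_conj _ _).trans ht
  have h2 : (cj val g Y pp).det = 0 := (det_conj _ _).trans hd
  unfold PhiE
  by_cases h : ∀ p, p ≠ inf → p ≠ pp → ∀ i j, val p (cj val g Y p i j) ≤ 1
  · rw [if_pos ⟨h1, h2, h⟩, if_pos h, mul_one]
    congr 1
    · exact f_ev_conj (val pp) hf₂ _ (α := 1) (β := 0) one_ne_zero (by rw [ht, add_zero])
        (by rw [hd, mul_zero])
    · exact f_ev_conj (val pp) hf₂ _ (α := 0) (β := 1) zero_ne_one (by rw [ht, zero_add])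
        (by rw [hd, zero_mul])
  · rw [if_neg (fun h' => h h'.2.2), if_neg h, mul_zero]

end glob

end PkgQ1

open PkgQ1 in
/-- **Package Q1.** -/
theorem pkg_Q1 : S_Asym → S_Phi → S_Conj → S_Q1 := by
  classical
  intro hA hP hC K _ P L _ val emb inf hG pp hpp T hT f₁ hf₁ f₂ hf₂ g
  have hSB : SB val inf (fun Y => PhiE val inf pp f₂ (cj val g Y)) :=
    hC P L val inf _ (hP P L val inf pp hpp f₂ hf₂) g
  obtain ⟨n₀, hn⟩ := hA K P L val emb inf hG T hT (act ((g : ∀ p, G2 (L p)) inf) f₁)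
    (PF_act _ _ hf₁) _ hSB
  refine ⟨n₀, fun n hn' => ?_⟩
  have h1 : phi0 val emb inf pp f₁ f₂ (aN val inf T n * g) =
      RT val g (theta val emb inf (1 : K) 0 1 0 f₁ (PhiE val inf pp f₂)) (aN val inf T n) := rfl
  rw [h1, RT_theta, hn n hn', cnt]
  have h2 : ∀ s : K → ℂ, (2 : ℂ) * ∑ᶠ y, s y = ∑ᶠ y, 2 * s y := by
    intro s
    simpa [smul_eq_mul] using smul_finsum (2 : ℂ) s
  rw [h2]
  refine finsum_congr fun y => ?_
  have hA' : PhiE val inf pp f₂ (cj val g fun p => !![1, -emb p y; 0, 0]) = _ :=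
    PhiE_cj val inf pp hf₂ g (fun p => A (emb p y)) (trace_A _) (det_A _)
  have hB' : PhiE val inf pp f₂ (cj val g fun p => !![0, emb p y; 0, 1]) = _ :=
    PhiE_cj val inf pp hf₂ g (fun p => B (emb p y)) (trace_B _) (det_B _)
  have hact : PF (val pp) (act ((g : ∀ p, G2 (L p)) pp) f₂) := PF_act _ _ hf₂
  have hiff : (∀ p, p ≠ inf → p ≠ pp → ∀ i j,
        val p (cj val g (fun p => B (emb p y)) p i j) ≤ 1) ↔
      (∀ p, p ≠ inf → p ≠ pp → ∀ i j, val p (cj val g (fun p => A (emb p y)) p i j) ≤ 1) := by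
    constructor
    · intro h p h1 h2
      have h3 := h p h1 h2
      simp only [cj] at h3
      rw [B_eq] at h3
      exact (int_one_sub (val p) _ _).1 h3
    · intro h p h1 h2
      have h3 := h p h1 h2
      simp only [cj]
      rw [B_eq]
      exact (int_one_sub (val p) _ _).2 h3
  show _ * (PhiE val inf pp f₂ (cj val g fun p => !![1, -emb p y; 0, 0]) -
    PhiE val inf pp f₂ (cj val g fun p => !![0, emb p y; 0, 1])) = _
  rw [hA', hB']
  simp only [hiff, ev_A0, ev_A1, ev_B0, ev_B1]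
  rw [homog (val pp) hact (by simp : (-1 : L pp) ≠ 0),
    homog (val pp) hact (by simp : (-1 : L pp) ≠ 0)]
  show _ = 2 * ((_ - _) * (_ - _) * (if (∀ p, p ≠ inf → p ≠ pp → ∀ i j,
        val p (cj val g (fun p => A (emb p y)) p i j) ≤ 1) then 1 else 0))
  ring

end

end Pool.Agent.U283.LL
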