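import Pool.Agent.U283.LL.Spec3

/-!
# Project LL, package Q2: the Hecke relation near the cusp
-/

set_option autoImplicit false

open scoped WithZero Matrix
open Matrix

namespace Pool.Agent.U283.LL

noncomputable section

/-- **Package Q2.** -/
theorem pkg_Q2 : S_Hecke → S_Q1 → S_Q2 := by
  intro hH hQ K _ P L _ val emb inf hG pp hpp T hT f₁ hf₁ f₂ hf₂ g p hp1 hp2 ϖ hϖ E hE
  have hP : ∀ h : GA val, ∀ᶠ n in Filter.atTop,
      phi0 val emb inf pp f₁ f₂ (aN val inf T n * h) =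
      2 * cnt val emb inf pp T (act ((h : ∀ p, G2 (L p)) inf) f₁)
        (act ((h : ∀ p, G2 (L p)) pp) f₂) h n := fun h =>
    Filter.eventually_atTop.2 (hQ K P L val emb inf hG pp hpp T hT f₁ hf₁ f₂ hf₂ h)
  have h1 : ∀ x : G2 (L p), ((g * loc val p x : GA val) : ∀ p, G2 (L p)) inf =
      (g : ∀ p, G2 (L p)) inf := fun x => by
    rw [GA_mul_apply, loc_ne val (Ne.symm hp1), mul_one]
  have h2 : ∀ x : G2 (L p), ((g * loc val p x : GA val) : ∀ p, G2 (L p)) pp =
      (g : ∀ p, G2 (L p)) pp := fun x => by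
    rw [GA_mul_apply, loc_ne val (Ne.symm hp2), mul_one]
  have hS := Filter.eventually_atTop.2 (hH K P L val emb inf hG pp hpp T hT
    (act ((g : ∀ p, G2 (L p)) inf) f₁) (PF_act _ _ hf₁)
    (act ((g : ∀ p, G2 (L p)) pp) f₂) (PF_act _ _ hf₂) g p hp1 hp2 ϖ hϖ E hE)
  have hA : ∀ᶠ n in Filter.atTop, ∀ c ∈ E,
      phi0 val emb inf pp f₁ f₂ (aN val inf T n * (g * loc val p (upper ϖ c 1))) =
      2 * cnt val emb inf pp T (act ((g : ∀ p, G2 (L p)) inf) f₁)
        (act ((g : ∀ p, G2 (L p)) pp) f₂) (g * loc val p (upper ϖ c 1)) n := by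
    rw [Filter.eventually_all_finset]
    intro c _
    have := hP (g * loc val p (upper ϖ c 1))
    rwa [h1, h2] at this
  have hB := hP (g * loc val p (upper 1 0 ϖ))
  rw [h1, h2] at hB
  refine Filter.eventually_atTop.1 ?_
  filter_upwards [hS, hA, hB, hP g] with n hs ha hb hc
  rw [Finset.sum_congr rfl ha, hb, hc, ← Finset.mul_sum, ← mul_add, hs]
  ring

end

end Pool.Agent.U283.LL
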