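import Pool.Agent.U283.LL.Spec3

/-!
# Project LL, package Q3: nonvanishing of the counts
-/

set_option autoImplicit false

open scoped WithZero Matrix
open Matrix

namespace Pool.Agent.U283.LL

noncomputable section

namespace PkgQ3

theorem PFm_ind1 {F : Type} [Field F] (v : Valuation F ℤᵐ⁰) : PFm v 1 (ind1 v) := by
  refine ⟨?_, ?_, ?_⟩
  · simp [ind1]
  · intro c x hc
    have hvc : 0 < v c := by
      rw [zero_lt_iff]
      exact (Valuation.ne_zero_iff v).2 hc
    unfold ind1
    simp only [Pi.smul_apply, smul_eq_mul, map_mul]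
    congr 1
    rw [eq_iff_iff]
    exact mul_lt_mul_iff_right₀ hvc
  · intro x y hx hxy
    have hN : 0 < nrm v x := by
      rw [zero_lt_iff]
      intro h
      apply hx
      have h0 : v (x 0) = 0 := le_antisymm ((le_max_left _ _).trans h.le) zero_le
      have h1 : v (x 1) = 0 := le_antisymm ((le_max_right _ _).trans h.le) zero_le
      funext i
      fin_cases i
      · exact (map_eq_zero v).1 h0
      · exact (map_eq_zero v).1 h1
    have hlt : WithZero.exp (-((1 : ℕ) : ℤ)) * nrm v x < nrm v x := by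
      have h1 : (WithZero.exp (-((1 : ℕ) : ℤ)) : ℤᵐ⁰) < 1 := by
        rw [← WithZero.exp_zero, WithZero.exp_lt_exp]
        simp
      calc _ < 1 * nrm v x := mul_lt_mul_of_pos_right h1 hN
        _ = _ := one_mul _
    have h0 : v (y 0 - x 0) < nrm v x := ((le_max_left _ _).trans hxy).trans_lt hlt
    have h1 : v (y 1 - x 1) < nrm v x := ((le_max_right _ _).trans hxy).trans_lt hlt
    have hadd : ∀ i, y i = (y i - x i) + x i := fun i => by ring
    unfold ind1
    congr 1
    rw [eq_iff_iff]
    rcases lt_or_ge (v (x 1)) (v (x 0)) with hc | hc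
    · have hn : nrm v x = v (x 0) := max_eq_left hc.le
      rw [hn] at h0 h1
      have h2 : v (y 0) = v (x 0) := by
        rw [hadd 0, add_comm]
        exact v.map_add_eq_of_lt_left h0
      have h3 : v (y 1) < v (x 0) := by
        rw [hadd 1]
        exact v.map_add_lt h1 hc
      rw [h2]
      exact ⟨fun _ => hc, fun _ => h3⟩
    · have hn : nrm v x = v (x 1) := max_eq_right hc
      rw [hn] at h0 h1
      have h2 : v (y 1) = v (x 1) := by
        rw [hadd 1, add_comm]
        exact v.map_add_eq_of_lt_left h1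
      have h3 : v (y 0) ≤ v (x 1) := by
        rw [hadd 0]
        exact v.map_add_le h0.le hc
      rw [h2]
      exact ⟨fun h => absurd h (not_lt.2 h3), fun h => absurd h (not_lt.2 hc)⟩

theorem ind1_vec {F : Type} [Field F] (v : Valuation F ℤᵐ⁰) :
    ind1 v (vec 1 0) = 1 ∧ ∀ z, ind1 v (vec z 1) = if v z ≤ 1 then 0 else 1 := by
  constructor
  · simp [ind1, vec]
  · intro z
    unfold ind1 vec
    simp only [Matrix.cons_val_zero, Matrix.cons_val_one, map_one]
    by_cases h : v z ≤ 1
    · rw [if_pos h, if_neg (not_lt.2 h)]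
    · rw [if_neg h, if_pos (not_le.1 h)]

end PkgQ3

open PkgQ3 in
/-- **Package Q3.** -/
theorem pkg_Q3 : S_Q3 := by
  classical
  refine ⟨fun F _ v _ => ⟨⟨1, PFm_ind1 v⟩, fun c h => ?_⟩, ?_⟩
  · have h1 := congrFun h (vec 1 0)
    have h2 := congrFun h (vec 0 1)
    rw [(ind1_vec v).1] at h1
    rw [(ind1_vec v).2, if_pos (by simp)] at h2
    have e1 : one1 F (vec 1 0) = 1 := by
      rw [one1, if_neg]
      intro h
      have := congrFun h 0
      simp [vec] at this
    have e2 : one1 F (vec 0 1) = 1 := by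
      rw [one1, if_neg]
      intro h
      have := congrFun h 1
      simp [vec] at this
    rw [Pi.smul_apply, e1, smul_eq_mul, mul_one] at h1
    rw [Pi.smul_apply, e2, smul_eq_mul, mul_one] at h2
    rw [← h1] at h2
    exact one_ne_zero h2.symm
  · intro K _ P L _ val emb inf hG pp hpp T hT n
    set S : Set K := {y | val inf (((T : L inf) ^ n)⁻¹ * emb inf y) ≤ 1 ∧
      ∀ q, q ≠ inf → val q (emb q y) ≤ 1} with hS
    have hSfin : S.Finite := by
      refine (hG.disc (Finsupp.single inf n)).subset ?_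
      rintro y ⟨h1, h2⟩ q
      by_cases hq : q = inf
      · subst hq
        rw [Finsupp.single_eq_same]
        rw [map_mul, map_inv₀, map_pow, hT, ← WithZero.exp_nsmul, ← WithZero.exp_neg] at h1
        have h3 : (WithZero.exp (n • (1 : ℤ)) : ℤᵐ⁰) * (WithZero.exp (-(n • (1 : ℤ))) *
            val q (emb q y)) ≤ WithZero.exp (n • (1 : ℤ)) * 1 := mul_le_mul' le_rfl h1
        rw [← mul_assoc, ← WithZero.exp_add, add_neg_cancel, WithZero.exp_zero, one_mul,
          mul_one] at h3
        simpa using h3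
      · rw [Finsupp.single_eq_of_ne (by exact hq)]
        simpa using h2 q hq
    have hterm : ∀ y : K, ((ind1 (val inf) (vec 1 0) -
        ind1 (val inf) (vec (((T : L inf) ^ n)⁻¹ * emb inf y) 1)) *
        (ind1 (val pp) (vec 1 0) - ind1 (val pp) (vec (emb pp y) 1)) *
        (if ∀ p, p ≠ inf → p ≠ pp → ∀ i j,
          val p ((((((1 : GA val) : ∀ p, G2 (L p)) p)⁻¹ : G2 (L p)) * !![1, -emb p y; 0, 0] *
            (((1 : GA val) : ∀ p, G2 (L p)) p : M2 (L p)) : M2 (L p)) i j) ≤ 1 then 1 else 0)) =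
        if y ∈ S then (1 : ℂ) else 0 := by
      intro y
      have hint : (∀ p, p ≠ inf → p ≠ pp → ∀ i j,
          val p ((((((1 : GA val) : ∀ p, G2 (L p)) p)⁻¹ : G2 (L p)) * !![1, -emb p y; 0, 0] *
            (((1 : GA val) : ∀ p, G2 (L p)) p : M2 (L p)) : M2 (L p)) i j) ≤ 1) ↔
          ∀ p, p ≠ inf → p ≠ pp → val p (emb p y) ≤ 1 := by
        have e1 : ∀ p, ((((((1 : GA val) : ∀ p, G2 (L p)) p)⁻¹ : G2 (L p)) *
            !![1, -emb p y; 0, 0] *
            (((1 : GA val) : ∀ p, G2 (L p)) p : M2 (L p)) : M2 (L p))) =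
            !![1, -emb p y; 0, 0] := by
          intro p
          have e2 : ((1 : GA val) : ∀ p, G2 (L p)) p = 1 := rfl
          rw [e2, inv_one, Units.val_one, Matrix.one_mul, Matrix.mul_one]
        constructor
        · intro h p hp1 hp2
          have := h p hp1 hp2 0 1
          rw [e1] at this
          simpa using this
        · intro h p hp1 hp2 i j
          rw [e1]
          have := h p hp1 hp2
          fin_cases i <;> fin_cases j <;> simp [this]
      have hS' : y ∈ S ↔ (val inf (((T : L inf) ^ n)⁻¹ * emb inf y) ≤ 1 ∧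
          val pp (emb pp y) ≤ 1) ∧ ∀ p, p ≠ inf → p ≠ pp → val p (emb p y) ≤ 1 := by
        constructor
        · rintro ⟨h1, h2⟩
          exact ⟨⟨h1, h2 pp hpp⟩, fun p hp _ => h2 p hp⟩
        · rintro ⟨⟨h1, h2⟩, h3⟩
          refine ⟨h1, fun q hq => ?_⟩
          by_cases hqp : q = pp
          · rw [hqp]; exact h2
          · exact h3 q hq hqp
      rw [(ind1_vec _).1, (ind1_vec _).1, (ind1_vec _).2, (ind1_vec _).2]
      by_cases h1 : val inf (((T : L inf) ^ n)⁻¹ * emb inf y) ≤ 1
      · by_cases h2 : val pp (emb pp y) ≤ 1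
        · by_cases h3 : ∀ p, p ≠ inf → p ≠ pp → val p (emb p y) ≤ 1
          · rw [if_pos h1, if_pos h2, if_pos (hint.2 h3), if_pos (hS'.2 ⟨⟨h1, h2⟩, h3⟩)]
            simp
          · rw [if_neg (fun h => h3 (hint.1 h)), if_neg (fun h => h3 (hS'.1 h).2), mul_zero]
        · rw [if_neg h2, if_neg (fun h => h2 (hS'.1 h).1.2)]
          simp
      · rw [if_neg h1, if_neg (fun h => h1 (hS'.1 h).1.1)]
        simp
    have h0 : (0 : K) ∈ S := by
      refine ⟨by simp, fun q _ => by simp⟩
    unfold cnt
    rw [finsum_congr hterm]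
    rw [finsum_eq_sum_of_support_subset (s := hSfin.toFinset) _ (by
      intro y hy
      rw [Function.mem_support] at hy
      rw [Set.Finite.coe_toFinset]
      by_contra h
      exact hy (if_neg h))]
    have h2 : ∑ y ∈ hSfin.toFinset, (if y ∈ S then (1 : ℂ) else 0) =
        (hSfin.toFinset.card : ℂ) := by
      rw [Finset.sum_congr rfl fun y hy => if_pos ((Set.Finite.mem_toFinset hSfin).1 hy)]
      simp
    rw [h2]
    have h3 : hSfin.toFinset.card ≠ 0 := by
      intro h
      rw [Finset.card_eq_zero] at h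
      have h4 : (0 : K) ∈ hSfin.toFinset := (Set.Finite.mem_toFinset hSfin).2 h0
      rw [h] at h4
      simp at h4
    exact_mod_cast h3

end

end Pool.Agent.U283.LL
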