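import Pool.Agent.U283.LL.Spec3
import Pool.Agent.U283.LL.PkgJ

/-!
# Project LL, package Q4: behaviour of `phi0` at the finite places
-/

set_option autoImplicit false

open scoped WithZero Matrix
open Matrix

namespace Pool.Agent.U283.LL

noncomputable section

namespace Q4

section loc

variable {F : Type} [Field F] (v : Valuation F ℤᵐ⁰)

lemma coe_inv_mul (γ : G2 F) : ((γ⁻¹ : G2 F) : M2 F) * (γ : M2 F) = 1 := by
  rw [← Matrix.GeneralLinearGroup.coe_mul, inv_mul_cancel]; rfl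

lemma coe_mul_inv (γ : G2 F) : (γ : M2 F) * ((γ⁻¹ : G2 F) : M2 F) = 1 := by
  rw [← Matrix.GeneralLinearGroup.coe_mul, mul_inv_cancel]; rfl

lemma trace_conj (γ : G2 F) (Y : M2 F) : (((γ⁻¹ : G2 F) : M2 F) * Y * (γ : M2 F)).trace = Y.trace := by
  rw [Matrix.trace_mul_comm, ← Matrix.mul_assoc, coe_mul_inv, Matrix.one_mul]

lemma det_conj (γ : G2 F) (Y : M2 F) : (((γ⁻¹ : G2 F) : M2 F) * Y * (γ : M2 F)).det = Y.det := by
  rw [Matrix.det_mul, Matrix.det_mul, mul_comm, ← mul_assoc, ← Matrix.det_mul, coe_mul_inv,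
    Matrix.det_one, one_mul]

lemma Cong_le_one {k : G2 F} (hk : k ∈ Cong v 0) (i j : Fin 2) : v ((k : M2 F) i j) ≤ 1 := by
  have h1 : (k : M2 F) i j = ((k : M2 F) i j - (1 : M2 F) i j) + (1 : M2 F) i j := by ring
  rw [h1]
  refine v.map_add_le ?_ ?_
  · have := (hk i j).1
    simpa using this
  · rw [Matrix.one_apply]
    split_ifs
    · simp
    · simp

lemma mul_le_one {A B : M2 F} (hA : ∀ i j, v (A i j) ≤ 1) (hB : ∀ i j, v (B i j) ≤ 1)
    (i j : Fin 2) : v ((A * B) i j) ≤ 1 := by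
  rw [Matrix.mul_apply]
  refine v.map_sum_le fun k _ => ?_
  rw [map_mul]
  exact mul_le_one' (hA i k) (hB k j)

lemma int_conj {γ : G2 F} (hγ : γ ∈ Cong v 0) {Y : M2 F} (hY : ∀ i j, v (Y i j) ≤ 1) (i j : Fin 2) :
    v ((((γ⁻¹ : G2 F) : M2 F) * Y * (γ : M2 F)) i j) ≤ 1 :=
  mul_le_one v (mul_le_one v (Cong_le_one v (inv_mem hγ)) hY) (Cong_le_one v hγ) i j

/-- conjugation by an element of `GL₂(O)` preserves integrality in both directions -/
lemma int_conj_iff {γ : G2 F} (hγ : γ ∈ Cong v 0) (Y : M2 F) :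
    (∀ i j, v ((((γ⁻¹ : G2 F) : M2 F) * Y * (γ : M2 F)) i j) ≤ 1) ↔ ∀ i j, v (Y i j) ≤ 1 := by
  refine ⟨fun h => ?_, fun h => int_conj v hγ h⟩
  have h1 := int_conj v (inv_mem hγ) h
  have h2 : (((γ⁻¹)⁻¹ : G2 F) : M2 F) * (((γ⁻¹ : G2 F) : M2 F) * Y * (γ : M2 F)) *
      ((γ⁻¹ : G2 F) : M2 F) = Y := by
    rw [inv_inv]
    calc (γ : M2 F) * (((γ⁻¹ : G2 F) : M2 F) * Y * (γ : M2 F)) * ((γ⁻¹ : G2 F) : M2 F)
        = ((γ : M2 F) * ((γ⁻¹ : G2 F) : M2 F)) * Y * ((γ : M2 F) * ((γ⁻¹ : G2 F) : M2 F)) := by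
          simp only [Matrix.mul_assoc]
      _ = Y := by rw [coe_mul_inv, Matrix.one_mul, Matrix.mul_one]
  intro i j
  have := h1 i j
  rwa [h2] at this

/-- scalar matrices act trivially by conjugation -/
lemma conj_scalar (ϖ : Fˣ) (Y : M2 F) :
    (((upper ϖ 0 ϖ)⁻¹ : G2 F) : M2 F) * Y * ((upper ϖ 0 ϖ : G2 F) : M2 F) = Y := by
  have h1 : ((upper ϖ 0 ϖ : G2 F) : M2 F) = Matrix.scalar (Fin 2) (ϖ : F) := by
    ext i j
    fin_cases i <;> fin_cases j <;> simp [upper, Matrix.scalar_apply]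
  have h2 : Y * ((upper ϖ 0 ϖ : G2 F) : M2 F) = ((upper ϖ 0 ϖ : G2 F) : M2 F) * Y := by
    rw [h1, scalar_comm']
  rw [Matrix.mul_assoc, h2, ← Matrix.mul_assoc, coe_inv_mul, Matrix.one_mul]

end loc

section glob

variable {K : Type} [Field K] {P : Type} {L : P → Type} [∀ p, Field (L p)]
  (val : ∀ p, Valuation (L p) ℤᵐ⁰) (emb : ∀ p, K →+* L p) (inf pp : P)

/-- `PhiE f₂` is invariant under conjugations at `p ≠ pp` which preserve integrality -/
lemma PhiE_loc {p : P} (hp : pp ≠ p) (k : G2 (L p))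
    (hk : ∀ Y : M2 (L p), (∀ i j, val p ((((k⁻¹ : G2 (L p)) : M2 (L p)) * Y * (k : M2 (L p))) i j) ≤ 1) ↔
      ∀ i j, val p (Y i j) ≤ 1) (f₂ : (Fin 2 → L pp) → ℂ) :
    (fun Y => PhiE val inf pp f₂ (cj val (loc val p k) Y)) = PhiE val inf pp f₂ := by
  funext Y
  unfold PhiE
  rw [cj_loc_ne val hp]
  have h1 : (∀ q, q ≠ inf → q ≠ pp → ∀ i j, val q (cj val (loc val p k) Y q i j) ≤ 1) ↔
      (∀ q, q ≠ inf → q ≠ pp → ∀ i j, val q (Y q i j) ≤ 1) := by
    refine forall_congr' fun q => forall_congr' fun _ => forall_congr' fun _ => ?_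
    by_cases hq : q = p
    · subst hq
      simp only [cj, loc_same]
      exact hk (Y q)
    · rw [cj_loc_ne val hq]
  rw [h1]

/-- conjugation at `pp` acts through `f₂` -/
lemma PhiE_pp (h : G2 (L pp)) {f₂ : (Fin 2 → L pp) → ℂ}
    (hf : ∀ (c : L pp) (x : Fin 2 → L pp), c ≠ 0 → f₂ (c • x) = f₂ x) :
    (fun Y => PhiE val inf pp f₂ (cj val (loc val pp h) Y)) = PhiE val inf pp (act h f₂) := by
  funext Y
  unfold PhiE
  have h0 : cj val (loc val pp h) Y pp =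
      ((h⁻¹ : G2 (L pp)) : M2 (L pp)) * Y pp * (h : M2 (L pp)) := by
    simp only [cj, loc_same]
  have h1 : (∀ q, q ≠ inf → q ≠ pp → ∀ i j, val q (cj val (loc val pp h) Y q i j) ≤ 1) ↔
      (∀ q, q ≠ inf → q ≠ pp → ∀ i j, val q (Y q i j) ≤ 1) := by
    refine forall_congr' fun q => forall_congr' fun _ => forall_congr' fun hq => ?_
    rw [cj_loc_ne val hq]
  rw [h0, h1, trace_conj, det_conj]
  by_cases hc : (Y pp).trace = 1 ∧ (Y pp).det = 0 ∧
      ∀ q, q ≠ inf → q ≠ pp → ∀ i j, val q (Y q i j) ≤ 1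
  · rw [if_pos hc, if_pos hc]
    obtain ⟨c0, hc0, e0⟩ := ev_conj (α := (1 : L pp)) (β := 0) (Y := Y pp) one_ne_zero
      (by rw [hc.1, add_zero]) (by rw [hc.2.1, mul_zero]) h
    obtain ⟨c1, hc1, e1⟩ := ev_conj (α := (0 : L pp)) (β := 1) (Y := Y pp) zero_ne_one
      (by rw [hc.1, zero_add]) (by rw [hc.2.1, zero_mul]) h
    have a0 : act h f₂ (ev 0 (Y pp)) =
        f₂ (ev 0 (((h⁻¹ : G2 (L pp)) : M2 (L pp)) * Y pp * (h : M2 (L pp)))) := by
      unfold act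
      rw [e0]
      exact hf c0 _ hc0
    have a1 : act h f₂ (ev 1 (Y pp)) =
        f₂ (ev 1 (((h⁻¹ : G2 (L pp)) : M2 (L pp)) * Y pp * (h : M2 (L pp)))) := by
      unfold act
      rw [e1]
      exact hf c1 _ hc1
    rw [a0, a1]
  · rw [if_neg hc, if_neg hc]

/-- `PhiE f₂` is additive in `f₂` -/
lemma PhiE_sum {ι : Type} (s : Finset ι) (f : ι → (Fin 2 → L pp) → ℂ) (Y : ∀ p, M2 (L p)) :
    PhiE val inf pp (∑ i ∈ s, f i) Y = ∑ i ∈ s, PhiE val inf pp (f i) Y := by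
  unfold PhiE
  split_ifs
  · rw [Finset.sum_apply, Finset.sum_apply, Finset.sum_sub_distrib]
  · rw [Finset.sum_const_zero]

/-- `PhiE` vanishes on the constants -/
lemma PhiE_one1 (c : ℂ) : PhiE val inf pp (c • one1 (L pp)) = 0 := by
  funext Y
  unfold PhiE
  split_ifs with hc
  · have hs : ∀ γ : L pp, Y pp ≠ Matrix.scalar (Fin 2) γ := fun γ =>
      not_scalar (α := (1 : L pp)) (β := 0) one_ne_zero (by rw [hc.1, add_zero])
        (by rw [hc.2.1, mul_zero])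
    have e0 := ev_ne_zero (Y pp) (hs 0)
    have e1 := ev_ne_zero (Y pp) (hs 1)
    simp [one1, e0, e1]
  · rfl

/-- the series is additive in `Φ` -/
lemma theta_sum (hC : S_Fin) (hM : S_Conj) (hG : Good val emb inf) {τ ν : K} {α β : L inf}
    (hne : α ≠ β) (h1 : α + β = emb inf τ) (h2 : α * β = emb inf ν)
    {f : (Fin 2 → L inf) → ℂ} (hf : PF (val inf) f) {ι : Type} (s : Finset ι)
    (Φ : ι → (∀ p, M2 (L p)) → ℂ) (hΦ : ∀ i ∈ s, SB val inf (Φ i)) :
    theta val emb inf τ ν α β f (fun Y => ∑ i ∈ s, Φ i Y) =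
      ∑ i ∈ s, theta val emb inf τ ν α β f (Φ i) := by
  funext g
  rw [Finset.sum_apply]
  unfold theta
  rw [← finsum_sum_comm]
  · refine finsum_congr fun X => ?_
    unfold term
    rw [Finset.mul_sum]
  · intro i hi
    exact hC K P L val emb inf hG τ ν α β hne h1 h2 (act ((g : ∀ p, G2 (L p)) inf) f)
      (PF_act _ _ hf) (fun Y => Φ i (cj val g Y)) (hM P L val inf (Φ i) (hΦ i hi) g)

end glob

end Q4

/-- Package Q4. -/
theorem pkg_Q4 (hC : S_Fin) (hI : S_Phi) (hM : S_Conj) : S_Q4 := by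
  intro K _ P L _ val emb inf hG pp hpp f₁ hf₁ f₂ hf₂
  have hinf : ∀ p, p ≠ inf → ∀ k : G2 (L p),
      act (((loc val p k : GA val) : ∀ p, G2 (L p)) inf) f₁ = f₁ := by
    intro p hp k
    rw [loc_ne val (Ne.symm hp), act_one]
  have hpart2 : ∀ h : G2 (L pp), RT val (loc val pp h) (phi0 val emb inf pp f₁ f₂) =
      phi0 val emb inf pp f₁ (act h f₂) := by
    intro h
    obtain ⟨m, hm⟩ := hf₂
    unfold phi0
    rw [RT_theta, hinf pp hpp h, Q4.PhiE_pp val inf pp h hm.2.1]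
  refine ⟨fun p hp hp' => ⟨fun k hk => ?_, fun ϖ => ?_⟩, hpart2, fun T c hT => ?_⟩
  · unfold phi0
    rw [RT_theta, hinf p hp k, Q4.PhiE_loc val inf pp (Ne.symm hp') k
      (fun Y => Q4.int_conj_iff (val p) hk Y)]
  · unfold phi0
    rw [RT_theta, hinf p hp _, Q4.PhiE_loc val inf pp (Ne.symm hp') (upper ϖ 0 ϖ)
      (fun Y => by rw [Q4.conj_scalar])]
  · have h1 : ∑ k ∈ T, RT val (loc val pp k) (phi0 val emb inf pp f₁ f₂) =
        ∑ k ∈ T, theta val emb inf (1 : K) 0 1 0 f₁ (PhiE val inf pp (act k f₂)) := by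
      refine Finset.sum_congr rfl fun k _ => ?_
      rw [hpart2 k]
      rfl
    rw [h1, ← Q4.theta_sum val emb inf hC hM hG one_ne_zero (by rw [map_one, add_zero])
      (by rw [map_zero, mul_zero]) hf₁ T (fun k => PhiE val inf pp (act k f₂))
      (fun k _ => hI P L val inf pp hpp _ (PF_act _ _ hf₂))]
    have h2 : (fun Y => ∑ k ∈ T, PhiE val inf pp (act k f₂) Y) = (0 : (∀ p, M2 (L p)) → ℂ) := by
      funext Y
      rw [← Q4.PhiE_sum, hT, Q4.PhiE_one1]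
    rw [h2]
    funext g
    unfold theta
    have h3 : ∀ X : SX K (1 : K) 0, term val emb inf 1 0 f₁ (0 : (∀ p, M2 (L p)) → ℂ) g X = 0 := by
      intro X
      unfold term
      simp
    simp only [h3, finsum_zero, Pi.zero_apply]

end

end Pool.Agent.U283.LL
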