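import Pool.Agent.U283.LL.Spec2

/-!
# Project LL, package ST: the Steinberg representation
-/

set_option autoImplicit false

open scoped WithZero Matrix
open Matrix

namespace Pool.Agent.U283.LL

namespace ST

noncomputable section

variable {F : Type} [Field F] {v : Valuation F ℤᵐ⁰}

theorem exists_exp (x : ℤᵐ⁰) : ∃ N : ℕ, x ≤ WithZero.exp (N : ℤ) := by
  rcases eq_or_ne x 0 with rfl | hx
  · exact ⟨0, zero_le⟩
  · obtain ⟨k, rfl⟩ : ∃ k : ℤ, x = WithZero.exp k := ⟨WithZero.log x, (WithZero.exp_log hx).symm⟩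
    refine ⟨k.toNat, ?_⟩
    rw [WithZero.exp_le_exp]
    exact Int.self_le_toNat k

theorem mono {m m' : ℕ} (h : m ≤ m') {f : (Fin 2 → F) → ℂ} (hf : PFm v m f) : PFm v m' f := by
  refine ⟨hf.1, hf.2.1, fun x y hx hxy => hf.2.2 x y hx (hxy.trans ?_)⟩
  refine mul_le_mul' ?_ le_rfl
  rw [WithZero.exp_le_exp]; omega

theorem nrm_pos {x : Fin 2 → F} (hx : x ≠ 0) : 0 < nrm v x := by
  by_contra h
  have h0 : nrm v x = 0 := le_antisymm (not_lt.mp h) zero_le
  apply hx
  unfold nrm at h0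
  have h1 : v (x 0) = 0 := le_antisymm (h0 ▸ le_max_left _ _) zero_le
  have h2 : v (x 1) = 0 := le_antisymm (h0 ▸ le_max_right _ _) zero_le
  funext i
  fin_cases i
  · exact (map_eq_zero v).mp h1
  · exact (map_eq_zero v).mp h2

theorem nrm_mulVec {A : M2 F} {C : ℤᵐ⁰} (hA : ∀ i j, v (A i j) ≤ C) (x : Fin 2 → F) :
    nrm v (A *ᵥ x) ≤ C * nrm v x := by
  unfold nrm
  have key : ∀ i, v ((A *ᵥ x) i) ≤ C * max (v (x 0)) (v (x 1)) := by
    intro i
    simp only [Matrix.mulVec, dotProduct, Fin.sum_univ_two]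
    refine v.map_add_le ?_ ?_
    · rw [map_mul]; exact mul_le_mul' (hA _ _) (le_max_left _ _)
    · rw [map_mul]; exact mul_le_mul' (hA _ _) (le_max_right _ _)
  exact max_le (key 0) (key 1)

theorem exists_bound (A : M2 F) : ∃ N : ℕ, ∀ i j, v (A i j) ≤ WithZero.exp (N : ℤ) := by
  have h : ∀ i j, ∃ N : ℕ, v (A i j) ≤ WithZero.exp (N : ℤ) := fun i j => exists_exp _
  choose N hN using h
  refine ⟨∑ i, ∑ j, N i j, fun i j => (hN i j).trans ?_⟩
  rw [WithZero.exp_le_exp]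
  have h1 : N i j ≤ ∑ j, N i j := Finset.single_le_sum (fun _ _ => Nat.zero_le _) (Finset.mem_univ j)
  have h2 : ∑ j, N i j ≤ ∑ i, ∑ j, N i j :=
    Finset.single_le_sum (f := fun i => ∑ j, N i j) (fun _ _ => Nat.zero_le _) (Finset.mem_univ i)
  exact_mod_cast h1.trans h2

theorem inv_mul_self (g : G2 F) (x : Fin 2 → F) :
    (g : M2 F) *ᵥ (((g⁻¹ : G2 F) : M2 F) *ᵥ x) = x := by
  rw [Matrix.mulVec_mulVec, ← Matrix.GeneralLinearGroup.coe_mul, mul_inv_cancel]
  simp

theorem act_PF (g : G2 F) {f : (Fin 2 → F) → ℂ} (hf : PF v f) : PF v (act g f) := by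
  obtain ⟨m, hf⟩ := hf
  obtain ⟨N1, h1⟩ := exists_bound (v := v) ((g⁻¹ : G2 F) : M2 F)
  obtain ⟨N2, h2⟩ := exists_bound (v := v) (g : M2 F)
  refine ⟨m + N1 + N2, ?_, ?_, ?_⟩
  · simp [act, hf.1]
  · intro c x hc
    show f _ = f _
    rw [Matrix.mulVec_smul]
    exact hf.2.1 c _ hc
  · intro x y hx hxy
    show f _ = f _
    refine hf.2.2 _ _ ?_ ?_
    · intro h0
      apply hx
      rw [← inv_mul_self g x, h0, Matrix.mulVec_zero]
    · rw [← Matrix.mulVec_sub]
      calc nrm v (((g⁻¹ : G2 F) : M2 F) *ᵥ (y - x))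
          ≤ WithZero.exp (N1 : ℤ) * nrm v (y - x) := nrm_mulVec h1 _
        _ ≤ WithZero.exp (N1 : ℤ) * (WithZero.exp (-((m + N1 + N2 : ℕ) : ℤ)) * nrm v x) :=
            mul_le_mul' le_rfl hxy
        _ ≤ WithZero.exp (N1 : ℤ) * (WithZero.exp (-((m + N1 + N2 : ℕ) : ℤ)) *
              (WithZero.exp (N2 : ℤ) * nrm v (((g⁻¹ : G2 F) : M2 F) *ᵥ x))) := by
            refine mul_le_mul' le_rfl (mul_le_mul' le_rfl ?_)
            have := nrm_mulVec h2 (((g⁻¹ : G2 F) : M2 F) *ᵥ x)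
            rwa [inv_mul_self] at this
        _ = WithZero.exp (-(m : ℤ)) * nrm v (((g⁻¹ : G2 F) : M2 F) *ᵥ x) := by
            rw [← mul_assoc, ← mul_assoc, ← WithZero.exp_add, ← WithZero.exp_add]
            congr 2
            push_cast; ring

theorem one1_PF : PF v (one1 F) := by
  refine ⟨1, by simp [one1], ?_, ?_⟩
  · intro c x hc
    have h : c • x = 0 ↔ x = 0 := by simp [hc]
    unfold one1
    by_cases hx : x = 0
    · rw [if_pos hx, if_pos (h.mpr hx)]
    · rw [if_neg hx, if_neg (fun h' => hx (h.mp h'))]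
  · intro x y hx hxy
    have hy : y ≠ 0 := by
      rintro rfl
      rw [zero_sub] at hxy
      have h1 : nrm v (-x) = nrm v x := by simp [nrm, Valuation.map_neg]
      rw [h1] at hxy
      have h2 := nrm_pos (v := v) hx
      have h3 : (WithZero.exp (-((1 : ℕ) : ℤ)) : ℤᵐ⁰) < 1 := by
        rw [← WithZero.exp_zero, WithZero.exp_lt_exp]; norm_num
      have h4 : WithZero.exp (-((1 : ℕ) : ℤ)) * nrm v x < 1 * nrm v x :=
        mul_lt_mul_of_pos_right h3 h2
      rw [one_mul] at h4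
      exact absurd hxy (not_le.mpr h4)
    simp [one1, hx, hy]

theorem act_one1 (g : G2 F) : act g (one1 F) = one1 F := by
  funext x
  have : ((g⁻¹ : G2 F) : M2 F) *ᵥ x = 0 ↔ x = 0 := by
    constructor
    · intro h
      rw [← inv_mul_self g x, h, Matrix.mulVec_zero]
    · rintro rfl; simp
  unfold act one1
  by_cases hx : x = 0
  · rw [if_pos hx, if_pos (this.mpr hx)]
  · rw [if_neg hx, if_neg (fun h' => hx (this.mp h'))]

/-- the representation on all functions -/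
def R0 (F : Type) [Field F] : Representation ℂ (G2 F) ((Fin 2 → F) → ℂ) where
  toFun g :=
    { toFun := fun f => act g f
      map_add' := fun _ _ => rfl
      map_smul' := fun _ _ => rfl }
  map_one' := by
    refine LinearMap.ext fun f => funext fun x => ?_
    show f (((1 : G2 F)⁻¹ : G2 F) *ᵥ x) = f x
    simp
  map_mul' g h := by
    refine LinearMap.ext fun f => funext fun x => ?_
    show f _ = f _
    rw [_root_.mul_inv_rev, Matrix.GeneralLinearGroup.coe_mul, ← Matrix.mulVec_mulVec]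

/-- the space of locally constant functions on the projective line -/
def Psub (v : Valuation F ℤᵐ⁰) : Submodule ℂ ((Fin 2 → F) → ℂ) where
  carrier := {f | PF v f}
  zero_mem' := ⟨0, rfl, fun _ _ _ => rfl, fun _ _ _ _ => rfl⟩
  add_mem' := by
    rintro f g ⟨m, hf⟩ ⟨n, hg⟩
    have hf' := mono (le_max_left m n) hf
    have hg' := mono (le_max_right m n) hg
    refine ⟨max m n, ?_, ?_, ?_⟩
    · simp [hf'.1, hg'.1]
    · intro c x hc
      simp [hf'.2.1 c x hc, hg'.2.1 c x hc]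
    · intro x y hx hxy
      simp [hf'.2.2 x y hx hxy, hg'.2.2 x y hx hxy]
  smul_mem' := by
    rintro c f ⟨m, hf⟩
    refine ⟨m, ?_, ?_, ?_⟩
    · simp [hf.1]
    · intro c x hc
      simp [hf.2.1 c x hc]
    · intro x y hx hxy
      simp [hf.2.2 x y hx hxy]

theorem mem_Psub {f : (Fin 2 → F) → ℂ} : f ∈ Psub v ↔ PF v f := Iff.rfl

/-- the representation on locally constant functions -/
def R1 (v : Valuation F ℤᵐ⁰) : Representation ℂ (G2 F) (Psub v) :=
  (R0 F).subrepresentation (Psub v) fun g _ hf => act_PF g hf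

/-- the constants -/
def Z1 (v : Valuation F ℤᵐ⁰) : Submodule ℂ (Psub v) :=
  Submodule.span ℂ {⟨one1 F, one1_PF⟩}

theorem mem_Z1 {f : Psub v} : f ∈ Z1 v ↔ ∃ c : ℂ, (f : (Fin 2 → F) → ℂ) = c • one1 F := by
  unfold Z1
  rw [Submodule.mem_span_singleton]
  constructor
  · rintro ⟨c, rfl⟩
    exact ⟨c, rfl⟩
  · rintro ⟨c, hc⟩
    exact ⟨c, Subtype.ext hc.symm⟩

theorem Z1_le (g : G2 F) : Z1 v ≤ (Z1 v).comap (R1 v g) := by
  intro f hf
  rw [Submodule.mem_comap, mem_Z1]
  obtain ⟨c, hc⟩ := mem_Z1.mp hf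
  refine ⟨c, ?_⟩
  show act g (f : (Fin 2 → F) → ℂ) = _
  rw [hc]
  have := act_one1 g
  calc act g (c • one1 F) = c • act g (one1 F) := rfl
    _ = _ := by rw [this]

/-- the Steinberg representation -/
def R2 (v : Valuation F ℤᵐ⁰) : Representation ℂ (G2 F) (Psub v ⧸ Z1 v) :=
  (R1 v).quotient (Z1 v) Z1_le

/-- the Steinberg representation as an object -/
def St (v : Valuation F ℤᵐ⁰) : CRep (G2 F) where
  V := Psub v ⧸ Z1 v
  ρ := R2 v

open scoped Classical in
/-- the class of a function -/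
def Q (v : Valuation F ℤᵐ⁰) (f : (Fin 2 → F) → ℂ) : (St v).V :=
  if h : PF v f then (Z1 v).mkQ ⟨f, h⟩ else 0

theorem Q_eq {f : (Fin 2 → F) → ℂ} (h : PF v f) : Q v f = (Z1 v).mkQ ⟨f, h⟩ := dif_pos h

theorem Q_add {f g : (Fin 2 → F) → ℂ} (hf : PF v f) (hg : PF v g) :
    Q v (f + g) = Q v f + Q v g := by
  have hfg : PF v (f + g) := (Psub v).add_mem hf hg
  rw [Q_eq hf, Q_eq hg, Q_eq hfg]
  exact map_add (Z1 v).mkQ ⟨f, hf⟩ ⟨g, hg⟩

theorem Q_smul (c : ℂ) {f : (Fin 2 → F) → ℂ} (hf : PF v f) : Q v (c • f) = c • Q v f := by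
  have hcf : PF v (c • f) := (Psub v).smul_mem c hf
  rw [Q_eq hf, Q_eq hcf]
  exact map_smul (Z1 v).mkQ c ⟨f, hf⟩

theorem Q_act (g : G2 F) {f : (Fin 2 → F) → ℂ} (hf : PF v f) :
    Q v (act g f) = (St v).ρ g (Q v f) := by
  rw [Q_eq hf, Q_eq (act_PF g hf)]
  rfl

theorem Q_surj (x : (St v).V) : ∃ f, PF v f ∧ Q v f = x := by
  obtain ⟨f, hf⟩ := (Z1 v).mkQ_surjective x
  exact ⟨f.1, f.2, by rw [Q_eq f.2]; exact hf⟩

theorem Q_zero {f : (Fin 2 → F) → ℂ} (hf : PF v f) : Q v f = 0 ↔ ∃ c : ℂ, f = c • one1 F := by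
  rw [Q_eq hf]
  have h1 : (Z1 v).mkQ ⟨f, hf⟩ = 0 ↔ (⟨f, hf⟩ : Psub v) ∈ Z1 v := Submodule.Quotient.mk_eq_zero _
  exact h1.trans mem_Z1

theorem act_fix {m : ℕ} {f : (Fin 2 → F) → ℂ} (hf : PFm v m f) {u : G2 F} (hu : u ∈ Cong v m) :
    act u f = f := by
  funext x
  show f _ = f x
  rcases eq_or_ne x 0 with rfl | hx
  · simp
  · refine hf.2.2 x _ hx ?_
    have h1 : ((u⁻¹ : G2 F) : M2 F) *ᵥ x - x = (((u⁻¹ : G2 F) : M2 F) - 1) *ᵥ x := by
      rw [Matrix.sub_mulVec, Matrix.one_mulVec]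
    rw [h1]
    exact nrm_mulVec (fun i j => (hu i j).2) x

/-- a non-constant function -/
theorem exists_nonconst : ∃ f, PF v f ∧ Q v f ≠ 0 := by
  classical
  let f : (Fin 2 → F) → ℂ := fun x => if v (x 1) < v (x 0) then 1 else 0
  have hf : PF v f := by
    refine ⟨1, by simp [f], ?_, ?_⟩
    · intro c x hc
      have hvc : 0 < v c := (Valuation.pos_iff v).mpr hc
      have : v ((c • x) 1) < v ((c • x) 0) ↔ v (x 1) < v (x 0) := by
        simp only [Pi.smul_apply, smul_eq_mul, map_mul]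
        exact mul_lt_mul_iff_right₀ hvc
      simp only [f, this]
    · intro x y hx hxy
      have h2 := nrm_pos (v := v) hx
      have h3 : (WithZero.exp (-((1 : ℕ) : ℤ)) : ℤᵐ⁰) < 1 := by
        rw [← WithZero.exp_zero, WithZero.exp_lt_exp]; norm_num
      have h4 : WithZero.exp (-((1 : ℕ) : ℤ)) * nrm v x < 1 * nrm v x :=
        mul_lt_mul_of_pos_right h3 h2
      rw [one_mul] at h4
      have h5 : nrm v (y - x) < nrm v x := lt_of_le_of_lt hxy h4
      have h50 : v (y 0 - x 0) < nrm v x := lt_of_le_of_lt (le_max_left _ _) h5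
      have h51 : v (y 1 - x 1) < nrm v x := lt_of_le_of_lt (le_max_right _ _) h5
      have key : v (y 1) < v (y 0) ↔ v (x 1) < v (x 0) := by
        have e0 : y 0 = x 0 + (y 0 - x 0) := by ring
        have e1 : y 1 = x 1 + (y 1 - x 1) := by ring
        rcases lt_trichotomy (v (x 1)) (v (x 0)) with h | h | h
        · have hn : nrm v x = v (x 0) := max_eq_left h.le
          rw [hn] at h50 h51
          have h6 : v (y 0) = v (x 0) := by
            rw [e0]; exact Valuation.map_add_eq_of_lt_left v h50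
          have h7 : v (y 1) < v (x 0) := by
            rw [e1]; exact Valuation.map_add_lt v h h51
          simp [h6, h7, h]
        · have hn : nrm v x = v (x 0) := by unfold nrm; rw [h]; exact max_self _
          rw [hn] at h50 h51
          have h6 : v (y 0) = v (x 0) := by
            rw [e0]; exact Valuation.map_add_eq_of_lt_left v h50
          have h7 : v (y 1) = v (x 1) := by
            rw [e1]; rw [← h] at h51; exact Valuation.map_add_eq_of_lt_left v h51
          rw [h6, h7]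
        · have hn : nrm v x = v (x 1) := max_eq_right h.le
          rw [hn] at h50 h51
          have h6 : v (y 1) = v (x 1) := by
            rw [e1]; exact Valuation.map_add_eq_of_lt_left v h51
          have h7 : v (y 0) < v (x 1) := by
            rw [e0]; exact Valuation.map_add_lt v h h50
          rw [h6]
          constructor
          · intro h8; exact absurd (h8.trans h7) (lt_irrefl _)
          · intro h8; exact absurd (h8.trans h) (lt_irrefl _)
      simp only [f, key]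
  refine ⟨f, hf, fun h0 => ?_⟩
  obtain ⟨c, hc⟩ := (Q_zero hf).mp h0
  have h1 := congrFun hc ![1, 0]
  have h2 := congrFun hc ![0, 1]
  have e1 : f ![1, 0] = 1 := by simp [f]
  have e2 : f ![0, 1] = 0 := by simp [f]
  have n1 : (![1, 0] : Fin 2 → F) ≠ 0 := fun h => by simpa using congrFun h 0
  have n2 : (![0, 1] : Fin 2 → F) ≠ 0 := fun h => by simpa using congrFun h 1
  rw [e1] at h1
  rw [e2] at h2
  simp only [Pi.smul_apply, one1, n1, n2, if_false, smul_eq_mul, mul_one] at h1 h2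
  rw [← h1] at h2
  exact zero_ne_one h2

theorem irred (hI : S_Irr) (hL : LocalHyp v) : Irred (St v) := by
  refine ⟨?_, ?_⟩
  · obtain ⟨f, _, hf⟩ := exists_nonconst (v := v)
    exact ⟨⟨Q v f, 0, hf⟩⟩
  · intro W hW
    let W' : Submodule ℂ ((Fin 2 → F) → ℂ) := (W.comap (Z1 v).mkQ).map (Psub v).subtype
    have hmem : ∀ f, f ∈ W' ↔ PF v f ∧ Q v f ∈ W := by
      intro f
      constructor
      · rintro ⟨g, hg, rfl⟩
        refine ⟨g.2, ?_⟩
        show Q v g.1 ∈ W
        rw [Q_eq g.2]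
        exact hg
      · rintro ⟨h1, h2⟩
        rw [Q_eq h1] at h2
        exact ⟨⟨f, h1⟩, h2, rfl⟩
    have h := hI F v hL W' (fun f hf => ((hmem f).mp hf).1)
      (fun g f hf => by
        obtain ⟨h1, h2⟩ := (hmem f).mp hf
        refine (hmem _).mpr ⟨act_PF g h1, ?_⟩
        rw [Q_act g h1]
        exact hW g _ h2)
      ((hmem _).mpr ⟨one1_PF, by
        rw [(Q_zero one1_PF).mpr ⟨1, by simp⟩]; exact W.zero_mem⟩)
    rcases h with h | h
    · left
      rw [Submodule.eq_bot_iff]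
      intro x hx
      obtain ⟨f, hf, rfl⟩ := Q_surj x
      exact (Q_zero hf).mpr (h f ((hmem f).mpr ⟨hf, hx⟩))
    · right
      rw [Submodule.eq_top_iff']
      intro x
      obtain ⟨f, hf, rfl⟩ := Q_surj x
      exact ((hmem f).mp (h f hf)).2

theorem smooth : Smooth v (St v) := by
  intro x
  obtain ⟨f, ⟨m, hf⟩, rfl⟩ := Q_surj x
  refine ⟨m, fun g hg => ?_⟩
  rw [← Q_act g ⟨m, hf⟩, act_fix hf hg]

theorem Q_sum (T : Finset (G2 F)) {f : (Fin 2 → F) → ℂ} (hf : PF v f) :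
    PF v (∑ k ∈ T, act k f) ∧ Q v (∑ k ∈ T, act k f) = ∑ k ∈ T, Q v (act k f) := by
  classical
  induction T using Finset.induction_on with
  | empty =>
    simp only [Finset.sum_empty]
    have h0 : PF v (0 : (Fin 2 → F) → ℂ) := (Psub v).zero_mem
    exact ⟨h0, (Q_zero h0).mpr ⟨0, by simp⟩⟩
  | insert a s ha ih =>
    rw [Finset.sum_insert ha, Finset.sum_insert ha, Q_add (act_PF a hf) ih.1, ih.2]
    exact ⟨(Psub v).add_mem (act_PF a hf) ih.1, rfl⟩

theorem not_unram (hA : S_Avg) (hL : LocalHyp v) : ¬ Unram v (St v) := by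
  rintro ⟨x, hx0, hx⟩
  obtain ⟨f, ⟨m, hf⟩, rfl⟩ := Q_surj x
  obtain ⟨T, hT, hTC, hTf⟩ := hA F v hL m
  obtain ⟨c, hc⟩ := hTf f hf
  have h1 := (Q_sum T (v := v) ⟨m, hf⟩)
  have h2 : Q v (∑ k ∈ T, act k f) = 0 := (Q_zero h1.1).mpr ⟨c, hc⟩
  have h3 : ∑ k ∈ T, Q v (act k f) = (T.card : ℂ) • Q v f := by
    rw [Finset.sum_congr rfl (fun k hk => by rw [Q_act k ⟨m, hf⟩, hx k (hTC k hk)]),
      Finset.sum_const, ← Nat.cast_smul_eq_nsmul ℂ]
  rw [h1.2, h3, smul_eq_zero] at h2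
  rcases h2 with h2 | h2
  · have : T.card = 0 := by exact_mod_cast h2
    exact (Finset.card_pos.mpr hT).ne' this
  · exact hx0 h2

end

end ST

theorem pkg_ST (hI : S_Irr) (hA : S_Avg) : S_St := by
  intro F _ v hL
  exact ⟨⟨ST.St v, ST.irred hI hL, ST.smooth⟩, ST.Q v, fun f g hf hg => ST.Q_add hf hg,
    fun c f hf => ST.Q_smul c hf, fun g f hf => ST.Q_act g hf, fun x => ST.Q_surj x,
    fun f hf => ST.Q_zero hf, ST.not_unram hA hL⟩

end Pool.Agent.U283.LL
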