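import Pool.Agent.U283.LL.Spec3

/-!
# Package TR: the trivial representation is isobaric
-/

set_option autoImplicit false

open scoped WithZero Matrix
open Matrix

namespace Pool.Agent.U283.LL

noncomputable section

lemma triv_irred (G : Type) [Group G] : Irred (trivRep G) := by
  refine ⟨inferInstanceAs (Nontrivial ℂ), fun W _ => ?_⟩
  exact eq_bot_or_eq_top (show Submodule ℂ ℂ from W)

/-- The trivial representation as an irreducible smooth representation. -/
def trivIrr {F : Type} [Field F] (v : Valuation F ℤᵐ⁰) : IrrRep v where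
  rep := trivRep (G2 F)
  irr := triv_irred _
  smooth := fun _ => ⟨0, fun _ _ => rfl⟩

/-- The trivial Hecke character. -/
def trivHecke {K : Type} [Field K] {P : Type} {L : P → Type} [∀ p, Field (L p)]
    (val : ∀ p, Valuation (L p) ℤᵐ⁰) (emb : ∀ p, K →+* L p) : HeckeChar val emb where
  χ := fun _ => 1
  smooth := fun _ => ⟨0, fun _ _ _ => rfl⟩
  unram := by
    have : {p | ∃ u : (L p)ˣ, val p (u : L p) = 1 ∧ (1 : (L p)ˣ →* ℂˣ) u ≠ 1} = ∅ := by
      ext p
      simp
    rw [this]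
    exact Set.finite_empty
  glob := fun x => by
    simp

lemma triv_component {P : Type} {L : P → Type} [∀ p, Field (L p)]
    (val : ∀ p, Valuation (L p) ℤᵐ⁰) (p : P) :
    Component val p (trivRep (GA val)) (trivRep (G2 (L p))) :=
  ⟨(LinearMap.id : ℂ →ₗ[ℂ] ℂ), fun _ _ h => h, fun _ _ => rfl⟩

lemma triv_langlands {F : Type} [Field F] (v : Valuation F ℤᵐ⁰) :
    IsLanglands v 1 1 (trivRep (G2 F)) := by
  refine ⟨⟨(LinearMap.pi fun _ => LinearMap.id : ℂ →ₗ[ℂ] (G2 F → ℂ)), ?_, ?_, ?_⟩, Or.inr ?_⟩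
  · intro x y h
    exact congrFun h 1
  · intro x
    refine ⟨fun a b d g => ?_, 0, fun k _ g => rfl⟩
    have h : ∀ y : ℂ, y = ((1 : Fˣ →* ℂˣ) a : ℂ) * ((1 : Fˣ →* ℂˣ) d : ℂ) * y := by
      intro y
      simp
    exact h x
  · intro g x
    rfl
  · exact Module.finrank_self ℂ

theorem pkg_TR : S_Tr := by
  intro K _ P L _ val emb
  refine ⟨Or.inr ⟨triv_irred _, fun x => ⟨0, fun _ _ => rfl⟩, trivHecke val emb,
    trivHecke val emb, fun p => ⟨trivIrr (val p), triv_component val p,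
      triv_langlands (val p)⟩⟩, fun p => ⟨trivIrr (val p), rfl, triv_component val p, ?_⟩, ?_⟩
  · have h : ∃ x : ℂ, x ≠ 0 ∧ ∀ k ∈ Cong (val p) 0, (trivRep (G2 (L p))).ρ k x = x :=
      ⟨1, one_ne_zero, fun _ _ => rfl⟩
    exact h
  · intro p a ha
    obtain ⟨hn, hW⟩ := a.irr
    obtain ⟨x, hx⟩ := exists_ne (0 : a.rep.V)
    have hs : Submodule.span ℂ {x} = ⊤ := by
      rcases hW (Submodule.span ℂ {x}) (fun g w hw => by rw [ha]; exact hw) with h | h
      · exact absurd (Submodule.span_singleton_eq_bot.1 h) hx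
      · exact h
    let e : a.rep.V ≃ₗ[ℂ] ℂ :=
      (LinearEquiv.ofTop (Submodule.span ℂ {x}) hs).symm.trans
        (LinearEquiv.toSpanNonzeroSingleton ℂ a.rep.V x hx).symm
    exact ⟨e.toLinearMap, e.injective, fun g y => by
      rw [ha]
      rfl⟩

end

end Pool.Agent.U283.LL
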