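import Pool.Agent.U283.LL.Spec2

/-!
# Project LL, package Z: irreducible quotients
-/

set_option autoImplicit false

namespace Pool.Agent.U283.LL

noncomputable section

/-- The representation on the quotient by an invariant subspace. -/
def quotRep {G : Type} [Group G] (r : CRep G) (M : Submodule ℂ r.V)
    (hM : ∀ g, ∀ w ∈ M, r.ρ g w ∈ M) : CRep G where
  V := r.V ⧸ M
  ρ :=
    { toFun := fun g => M.mapQ M (r.ρ g) (fun w hw => hM g w hw)
      map_one' := by
        apply LinearMap.ext
        intro x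
        obtain ⟨y, rfl⟩ := M.mkQ_surjective x
        simp
      map_mul' := by
        intro g h
        apply LinearMap.ext
        intro x
        obtain ⟨y, rfl⟩ := M.mkQ_surjective x
        simp }

/-- Package Z: irreducible quotients. -/
theorem pkg_Z : S_Zorn := by
  intro G _ r Z hZ x0 hx0 hgen
  -- Zorn
  obtain ⟨M, hZM, hM⟩ := zorn_le_nonempty₀
    {M : Submodule ℂ r.V | (∀ g, ∀ w ∈ M, r.ρ g w ∈ M) ∧ x0 ∉ M} (by
      intro c hc hchain y hy
      have hne : c.Nonempty := ⟨y, hy⟩
      have hdir : DirectedOn (· ≤ ·) c := hchain.directedOn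
      refine ⟨sSup c, ⟨?_, ?_⟩, fun z hz => le_sSup hz⟩
      · intro g w hw
        rw [Submodule.mem_sSup_of_directed hne hdir] at hw ⊢
        obtain ⟨N, hN, hwN⟩ := hw
        exact ⟨N, hN, (hc hN).1 g w hwN⟩
      · intro hx
        rw [Submodule.mem_sSup_of_directed hne hdir] at hx
        obtain ⟨N, hN, hxN⟩ := hx
        exact (hc hN).2 hxN) Z ⟨hZ, hx0⟩
  obtain ⟨⟨hMinv, hMx⟩, hmax⟩ := hM
  refine ⟨quotRep r M hMinv, M.mkQ, M.mkQ_surjective, fun g x => rfl, ⟨?_, ?_⟩, ?_, ?_⟩
  · -- nontrivial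
    refine ⟨⟨M.mkQ x0, 0, ?_⟩⟩
    intro h
    exact hMx ((Submodule.Quotient.mk_eq_zero M).1 h)
  · intro W hW
    have hW' : ∀ g, ∀ w ∈ W.comap M.mkQ, r.ρ g w ∈ W.comap M.mkQ := by
      intro g w hw
      exact hW g _ hw
    by_cases hx : x0 ∈ W.comap M.mkQ
    · right
      have htop := hgen _ hW' hx
      rw [eq_top_iff]
      intro y _
      obtain ⟨z, rfl⟩ := M.mkQ_surjective y
      have : z ∈ W.comap M.mkQ := by rw [htop]; trivial
      exact this
    · left
      have hle : M ≤ W.comap M.mkQ := by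
        intro w hw
        have : M.mkQ w = 0 := (Submodule.Quotient.mk_eq_zero M).2 hw
        rw [Submodule.mem_comap, this]
        exact W.zero_mem
      have hle2 : W.comap M.mkQ ≤ M := hmax ⟨hW', hx⟩ hle
      rw [eq_bot_iff]
      intro y hy
      obtain ⟨z, rfl⟩ := M.mkQ_surjective y
      exact (Submodule.Quotient.mk_eq_zero M).2 (hle2 hy)
  · intro z hz
    exact (Submodule.Quotient.mk_eq_zero M).2 (hZM hz)
  · intro h
    exact hMx ((Submodule.Quotient.mk_eq_zero M).1 h)

end

end Pool.Agent.U283.LL
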