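import Pool.Agent.U283.LL.Fin
import Pool.Agent.U283.LL.PkgA
import Pool.Agent.U283.LL.PkgB
import Pool.Agent.U283.LL.PkgC
import Pool.Agent.U283.LL.PkgD
import Pool.Agent.U283.LL.PkgD2
import Pool.Agent.U283.LL.PkgE
import Pool.Agent.U283.LL.PkgF
import Pool.Agent.U283.LL.PkgG
import Pool.Agent.U283.LL.PkgH
import Pool.Agent.U283.LL.PkgI
import Pool.Agent.U283.LL.PkgJ
import Pool.Agent.U283.LL.PkgK
import Pool.Agent.U283.LL.PkgM
import Pool.Agent.U283.LL.PkgN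
import Pool.Agent.U283.LL.PkgQ1
import Pool.Agent.U283.LL.PkgQ2
import Pool.Agent.U283.LL.PkgQ3
import Pool.Agent.U283.LL.PkgQ4
import Pool.Agent.U283.LL.PkgST
import Pool.Agent.U283.LL.PkgTR
import Pool.Agent.U283.LL.PkgZ

/-!
# Project LL: assembly
-/

set_option autoImplicit false

namespace Pool.Agent.U283.LL

/-- **The counterexample** over `𝔽₂(t)`. -/
theorem main : ∃ (π₁ σ₁ π₂ : CRep (GA val0)) (a b : IrrRep (val0 none)),
      IsAutomorphic val0 emb0 π₁ ∧ IsLifting val0 emb0 π₁ σ₁ ∧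
      (∀ p, p ≠ none → p ≠ some (Polynomial.idealX (ZMod 2)) → ∀ g x,
        π₁.ρ (loc val0 p g) x = x) ∧
      (Module.finrank ℂ σ₁.V = 1 ∧ ∀ g x, σ₁.ρ g x = x) ∧
      Component val0 none π₁ a.rep ∧ Component val0 none σ₁ b.rep ∧
      IsAutomorphic val0 emb0 π₂ ∧ IsCuspidal val0 emb0 π₂ ∧ IsLifting val0 emb0 π₂ π₂ ∧
      Component val0 none π₂ a.rep ∧ ¬ Iso b.rep a.rep :=
  exists_pair val0 emb0 none pkg_A pkg_B pkg_C pkg_M pkg_J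
    (pkg_N pkg_A pkg_C pkg_M) (pkg_D2 (pkg_D pkg_C) pkg_J pkg_M) pkg_Z (pkg_ST pkg_A pkg_B)
    pkg_I pkg_K (pkg_Q1 (pkg_E pkg_C) pkg_I pkg_M)
    (pkg_Q2 pkg_F (pkg_Q1 (pkg_E pkg_C) pkg_I pkg_M)) pkg_Q3 (pkg_Q4 pkg_C pkg_I pkg_M)
    pkg_TR pkg_G (pp := some (Polynomial.idealX (ZMod 2))) (by simp) pkg_H

end Pool.Agent.U283.LL
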