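import Pool.Agent.U283.LL.Spec3

/-!
# Project LL: construction of the representations
-/

set_option autoImplicit false

open scoped WithZero Matrix
open Matrix

namespace Pool.Agent.U283.LL

noncomputable section

variable {K : Type} [Field K] {P : Type} {L : P → Type} [∀ p, Field (L p)]
  (val : ∀ p, Valuation (L p) ℤᵐ⁰) (emb : ∀ p, K →+* L p) (inf : P)

/-- the span of the right translates -/
def Vspan (φ : GA val → ℂ) : Submodule ℂ (GA val → ℂ) :=
  Submodule.span ℂ (Set.range fun g : GA val => RT val g φ)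

/-- right translation as a linear map -/
def RTl (g : GA val) : (GA val → ℂ) →ₗ[ℂ] (GA val → ℂ) where
  toFun := RT val g
  map_add' := RT_add val g
  map_smul' c φ := RT_smul val g c φ

lemma Vspan_inv (φ : GA val → ℂ) : RTinv val (Vspan val φ) := by
  intro g
  have h : Vspan val φ ≤ (Vspan val φ).comap (RTl val g) := by
    refine Submodule.span_le.2 ?_
    rintro _ ⟨h, rfl⟩
    change RT val g (RT val h φ) ∈ Vspan val φ
    rw [RT_RT]
    exact Submodule.subset_span ⟨g * h, rfl⟩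
  exact fun ψ hψ => h hψ

lemma mem_Vspan (φ : GA val → ℂ) : φ ∈ Vspan val φ :=
  Submodule.subset_span ⟨1, RT_one val φ⟩

lemma RT_mem_Vspan (φ : GA val → ℂ) (g : GA val) : RT val g φ ∈ Vspan val φ :=
  Submodule.subset_span ⟨g, rfl⟩

lemma exists_sum_of_mem {φ ψ : GA val → ℂ} (h : ψ ∈ Vspan val φ) :
    ∃ (s : Finset (GA val)) (c : GA val → ℂ), ψ = ∑ g ∈ s, c g • RT val g φ := by
  classical
  obtain ⟨c, hc⟩ := (Finsupp.mem_span_range_iff_exists_finsupp).1 h
  exact ⟨c.support, c, hc.symm⟩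

/-- the representation on an invariant space -/
def repOf (W : Submodule ℂ (GA val → ℂ)) (hW : RTinv val W) : CRep (GA val) where
  V := W
  ρ :=
    { toFun := fun g =>
        { toFun := fun φ => ⟨RT val g φ.1, hW g φ.1 φ.2⟩
          map_add' := fun φ ψ => rfl
          map_smul' := fun c φ => rfl }
      map_one' := by
        ext1 φ
        exact Subtype.ext (RT_one val φ.1)
      map_mul' := fun g h => by
        ext1 φ
        exact Subtype.ext (RT_RT val g h φ.1).symm }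

/-- the levels of a finite sum -/
lemma U_mono {n n' : P →₀ ℕ} (h : ∀ p, n p ≤ n' p) {u : GA val} (hu : u ∈ U val n') :
    u ∈ U val n := by
  intro p i j
  have hle : (WithZero.exp (-(n' p : ℤ)) : ℤᵐ⁰) ≤ WithZero.exp (-(n p : ℤ)) := by
    rw [WithZero.exp_le_exp]
    have := h p
    omega
  exact ⟨(hu p i j).1.trans hle, (hu p i j).2.trans hle⟩

lemma Cong_mono' {F : Type} [Field F] (v : Valuation F ℤᵐ⁰) {n n' : ℕ} (h : n ≤ n') {u : G2 F}
    (hu : u ∈ Cong v n') : u ∈ Cong v n := by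
  intro i j
  have hle : (WithZero.exp (-(n' : ℤ)) : ℤᵐ⁰) ≤ WithZero.exp (-(n : ℤ)) := by
    rw [WithZero.exp_le_exp]
    omega
  exact ⟨(hu i j).1.trans hle, (hu i j).2.trans hle⟩

lemma theta_smooth (τ ν : K) (α β : L inf) {f : (Fin 2 → L inf) → ℂ} (hf : PF (val inf) f)
    {Φ : (∀ p, M2 (L p)) → ℂ} (hΦ : SB val inf Φ) :
    ∃ n : P →₀ ℕ, ∀ u ∈ U val n,
      RT val u (theta val emb inf τ ν α β f Φ) = theta val emb inf τ ν α β f Φ := by
  classical
  obtain ⟨m, hm⟩ := hf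
  obtain ⟨⟨n, hn⟩, -, -⟩ := hΦ
  refine ⟨n + Finsupp.single inf m, fun u hu => ?_⟩
  rw [RT_theta]
  have h1 : act ((u : ∀ p, G2 (L p)) inf) f = f :=
    act_cong (val inf) hm (Cong_mono' (val inf) (by simp) (hu inf))
  have h2 : (fun Y => Φ (cj val u Y)) = Φ := funext fun Y =>
    hn u (U_mono val (fun p => by simp) hu) Y
  rw [h1, h2]

lemma sum_smooth {ι : Type} (s : Finset ι) (φ : ι → GA val → ℂ)
    (h : ∀ i ∈ s, ∃ n : P →₀ ℕ, ∀ u ∈ U val n, RT val u (φ i) = φ i) :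
    ∃ n : P →₀ ℕ, ∀ u ∈ U val n, RT val u (∑ i ∈ s, φ i) = ∑ i ∈ s, φ i := by
  classical
  induction s using Finset.induction_on with
  | empty => exact ⟨0, fun u _ => by simp [RT, funext_iff]⟩
  | insert a s ha ih =>
    obtain ⟨n, hn⟩ := h a (Finset.mem_insert_self _ _)
    obtain ⟨n', hn'⟩ := ih fun i hi => h i (Finset.mem_insert_of_mem hi)
    refine ⟨n + n', fun u hu => ?_⟩
    rw [Finset.sum_insert ha, RT_add, hn u (U_mono val (fun p => by simp) hu),
      hn' u (U_mono val (fun p => by simp) hu)]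

/-- finite sums of series are automorphic forms -/
lemma sum_autForm (hJ : S_Left) (hN : S_Len) (hG : Good val emb inf)
    {τ ν : K} {α β : L inf} (hne : α ≠ β) (h1 : α + β = emb inf τ) (h2 : α * β = emb inf ν)
    {ι : Type} (s : Finset ι) (f : ι → (Fin 2 → L inf) → ℂ) (Φ : ι → (∀ p, M2 (L p)) → ℂ)
    (hf : ∀ i ∈ s, PF (val inf) (f i)) (hΦ : ∀ i ∈ s, SB val inf (Φ i)) :
    AutForm val emb (∑ i ∈ s, theta val emb inf τ ν α β (f i) (Φ i)) := by
  refine ⟨?_, ?_, inf, hN K P L val emb inf hG τ ν α β hne h1 h2 ι s f Φ hf hΦ⟩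
  · intro γ g g' hg
    rw [Finset.sum_apply, Finset.sum_apply]
    exact Finset.sum_congr rfl fun i hi =>
      hJ K P L val emb inf τ ν α β hne h1 h2 (f i) (hf i hi) (Φ i) γ g g' hg
  · obtain ⟨n, hn⟩ := sum_smooth val s (fun i => theta val emb inf τ ν α β (f i) (Φ i))
      fun i hi => theta_smooth val emb inf τ ν α β (hf i hi) (hΦ i hi)
    exact ⟨n, fun u hu g => congrFun (hn u hu) g⟩

/-- elements of the span as sums of series -/
lemma exists_theta_sum (hM : S_Conj) (τ ν : K) (α β : L inf) {f : (Fin 2 → L inf) → ℂ}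
    (hf : PF (val inf) f) {Φ : (∀ p, M2 (L p)) → ℂ} (hΦ : SB val inf Φ) {ψ : GA val → ℂ}
    (h : ψ ∈ Vspan val (theta val emb inf τ ν α β f Φ)) :
    ∃ (s : Finset (GA val)) (f' : GA val → (Fin 2 → L inf) → ℂ)
      (Φ' : GA val → (∀ p, M2 (L p)) → ℂ), (∀ i ∈ s, PF (val inf) (f' i)) ∧
      (∀ i ∈ s, SB val inf (Φ' i)) ∧ ψ = ∑ i ∈ s, theta val emb inf τ ν α β (f' i) (Φ' i) := by
  obtain ⟨s, c, rfl⟩ := exists_sum_of_mem val h
  refine ⟨s, fun g => c g • act ((g : ∀ p, G2 (L p)) inf) f, fun g Y => Φ (cj val g Y),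
    fun g _ => PF_smul _ _ (PF_act _ _ hf), fun g _ => hM P L val inf Φ hΦ g, ?_⟩
  refine Finset.sum_congr rfl fun g _ => ?_
  rw [RT_theta, theta_smul]

/-- all `theta f' Φ` are in the span -/
lemma theta_mem_Vspan (hA : S_Irr) (hC : S_Fin) (hM : S_Conj) (hG : Good val emb inf)
    {τ ν : K} {α β : L inf} (hne : α ≠ β) (h1 : α + β = emb inf τ) (h2 : α * β = emb inf ν)
    {f : (Fin 2 → L inf) → ℂ} (hf : PF (val inf) f) {Φ : (∀ p, M2 (L p)) → ℂ}
    (hΦ : SB val inf Φ) (h0 : theta val emb inf τ ν α β f Φ ≠ 0)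
    {f' : (Fin 2 → L inf) → ℂ} (hf' : PF (val inf) f') :
    theta val emb inf τ ν α β f' Φ ∈ Vspan val (theta val emb inf τ ν α β f Φ) := by
  let W : Submodule ℂ ((Fin 2 → L inf) → ℂ) :=
    { carrier := {f' | PF (val inf) f' ∧ theta val emb inf τ ν α β f' Φ ∈
        Vspan val (theta val emb inf τ ν α β f Φ)}
      zero_mem' := by
        refine ⟨PF_zero _, ?_⟩
        have := theta_smul val emb inf (τ := τ) (ν := ν) (α := α) (β := β) 0 f Φ
        rw [zero_smul, zero_smul] at this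
        rw [this]
        exact Submodule.zero_mem _
      add_mem' := by
        rintro a b ⟨ha, ha'⟩ ⟨hb, hb'⟩
        refine ⟨PF_add _ ha hb, ?_⟩
        rw [theta_add val emb inf hC hM hG hne h1 h2 ha hb hΦ]
        exact Submodule.add_mem _ ha' hb'
      smul_mem' := by
        rintro c a ⟨ha, ha'⟩
        refine ⟨PF_smul _ c ha, ?_⟩
        rw [theta_smul]
        exact Submodule.smul_mem _ c ha' }
  have h3 := hA (L inf) (val inf) (hG.loc inf) W (fun _ h => h.1) (fun g a ha =>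
    ⟨PF_act _ g ha.1, by
      rw [← RT_theta_inf val emb inf τ ν α β a hΦ g]
      exact Vspan_inv val _ _ _ ha.2⟩)
    ⟨PF_one1 _, by rw [theta_one1 val emb inf hne h1 h2]; exact Submodule.zero_mem _⟩
  rcases h3 with h3 | h3
  · exfalso
    obtain ⟨c, hc⟩ := h3 f ⟨hf, mem_Vspan val _⟩
    apply h0
    rw [hc, theta_smul, theta_one1 val emb inf hne h1 h2, smul_zero]
  · exact (h3 f' hf').2

/-- **The construction**: an irreducible quotient of the span of the translates of a series. -/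
theorem construct (hA : S_Irr) (hC : S_Fin) (hM : S_Conj) (hJ : S_Left) (hN : S_Len)
    (hD : S_Cusp2) (hZn : S_Zorn) (hG : Good val emb inf)
    {τ ν : K} {α β : L inf} (hne : α ≠ β) (h1 : α + β = emb inf τ) (h2 : α * β = emb inf ν)
    {f : (Fin 2 → L inf) → ℂ} (hf : PF (val inf) f) {Φ : (∀ p, M2 (L p)) → ℂ}
    (hΦ : SB val inf Φ) (Z : Submodule ℂ (GA val → ℂ)) (hZ : RTinv val Z)
    (h0 : theta val emb inf τ ν α β f Φ ∉ Z)
    (a : IrrRep (val inf)) (Q : ((Fin 2 → L inf) → ℂ) → a.rep.V)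
    (hQ1 : ∀ f g, PF (val inf) f → PF (val inf) g → Q (f + g) = Q f + Q g)
    (hQ2 : ∀ (c : ℂ) f, PF (val inf) f → Q (c • f) = c • Q f)
    (hQ3 : ∀ g f, PF (val inf) f → Q (act g f) = a.rep.ρ g (Q f))
    (hQ4 : ∀ x, ∃ f, PF (val inf) f ∧ Q f = x)
    (hQ5 : ∀ f, PF (val inf) f → (Q f = 0 ↔ ∃ c : ℂ, f = c • one1 (L inf))) :
    ∃ (π : CRep (GA val)) (T : Vspan val (theta val emb inf τ ν α β f Φ) →ₗ[ℂ] π.V),
      Function.Surjective T ∧
      (∀ g ψ, T ⟨RT val g ψ.1, Vspan_inv val _ g ψ.1 ψ.2⟩ = π.ρ g (T ψ)) ∧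
      (∀ ψ, ψ.1 ∈ Z → T ψ = 0) ∧ T ⟨_, mem_Vspan val _⟩ ≠ 0 ∧
      IsAutomorphic val emb π ∧ ((∀ X : SX K τ ν, X.1 1 0 ≠ 0) → IsCuspidal val emb π) ∧
      Component val inf π a.rep := by
  set φ := theta val emb inf τ ν α β f Φ with hφ
  have hφ0 : φ ≠ 0 := fun h => h0 (h ▸ Submodule.zero_mem _)
  have hgen : ∀ W : Submodule ℂ (Vspan val φ), (∀ (g : GA val) (w : Vspan val φ), w ∈ W →
      (⟨RT val g w.1, Vspan_inv val φ g w.1 w.2⟩ : Vspan val φ) ∈ W) →
      (⟨φ, mem_Vspan val φ⟩ : Vspan val φ) ∈ W → W = ⊤ := by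
    intro W hW h
    rw [eq_top_iff]
    rintro ψ -
    obtain ⟨s, c, hs⟩ := exists_sum_of_mem val ψ.2
    have : ψ = ∑ g ∈ s, c g • (⟨RT val g φ, RT_mem_Vspan val φ g⟩ : Vspan val φ) := by
      apply Subtype.ext
      rw [hs, AddSubmonoidClass.coe_finsetSum]
      rfl
    rw [this]
    refine Submodule.sum_mem _ fun g _ => Submodule.smul_mem _ _ ?_
    exact hW g _ h
  have hex : ∃ (π : CRep (GA val)) (T : Vspan val φ →ₗ[ℂ] π.V), Function.Surjective T ∧
      (∀ (g : GA val) (ψ : Vspan val φ), T ⟨RT val g ψ.1, Vspan_inv val φ g ψ.1 ψ.2⟩ =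
        π.ρ g (T ψ)) ∧ Irred π ∧ (∀ ψ : Vspan val φ, ψ.1 ∈ Z → T ψ = 0) ∧
      T ⟨φ, mem_Vspan val φ⟩ ≠ 0 :=
    hZn (GA val) (repOf val (Vspan val φ)
      (Vspan_inv val φ)) (Z.comap (Vspan val φ).subtype) (fun g w hw => hZ g w.1 hw)
      ⟨φ, mem_Vspan val φ⟩ (fun h => h0 h) hgen
  obtain ⟨π, T, hT1, hT2, hT3, hT4, hT5⟩ := hex
  refine ⟨π, T, hT1, fun g ψ => hT2 g ψ, fun ψ hψ => hT4 ψ hψ, hT5, ?_, ?_, ?_⟩
  · refine ⟨hT3, Vspan val φ, Vspan_inv val φ, ?_, T, hT1, fun g ψ => hT2 g ψ⟩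
    intro ψ hψ
    obtain ⟨s, f', Φ', hf', hΦ', rfl⟩ := exists_theta_sum val emb inf hM τ ν α β hf hΦ hψ
    exact sum_autForm val emb inf hJ hN hG hne h1 h2 s f' Φ' hf' hΦ'
  · intro hX
    refine ⟨hT3, Vspan val φ, Vspan_inv val φ, ?_, T, hT1, fun g ψ => hT2 g ψ⟩
    intro ψ hψ
    obtain ⟨s, f', Φ', hf', hΦ', rfl⟩ := exists_theta_sum val emb inf hM τ ν α β hf hΦ hψ
    exact ⟨sum_autForm val emb inf hJ hN hG hne h1 h2 s f' Φ' hf' hΦ',
      hD K P L val emb inf hG τ ν α β hne h1 h2 hX _ s f' Φ' hf' hΦ'⟩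
  · have hmem : ∀ f', PF (val inf) f' → theta val emb inf τ ν α β f' Φ ∈ Vspan val φ :=
      fun f' hf' => theta_mem_Vspan val emb inf hA hC hM hG hne h1 h2 hf hΦ hφ0 hf'
    choose q hq1 hq2 using hQ4
    -- well defined
    have hwd : ∀ f₁ f₂, ∀ (k1 : PF (val inf) f₁) (k2 : PF (val inf) f₂), Q f₁ = Q f₂ →
        T ⟨_, hmem f₁ k1⟩ = T ⟨_, hmem f₂ k2⟩ := by
      intro f₁ f₂ k1 k2 h12
      have k3 : PF (val inf) (f₁ + (-1 : ℂ) • f₂) := PF_add _ k1 (PF_smul _ _ k2)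
      have h3 : Q (f₁ + (-1 : ℂ) • f₂) = 0 := by
        rw [hQ1 _ _ k1 (PF_smul _ _ k2), hQ2 _ _ k2, h12]
        simp
      obtain ⟨c, hc⟩ := (hQ5 _ k3).1 h3
      have h4 : f₁ = f₂ + c • one1 (L inf) := by
        rw [← hc]
        simp
      have h5 : theta val emb inf τ ν α β f₁ Φ = theta val emb inf τ ν α β f₂ Φ := by
        rw [h4, theta_add val emb inf hC hM hG hne h1 h2 k2 (PF_smul _ _ (PF_one1 _)) hΦ,
          theta_smul, theta_one1 val emb inf hne h1 h2, smul_zero, add_zero]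
      congr 1
      exact Subtype.ext h5
    let S : a.rep.V →ₗ[ℂ] π.V :=
      { toFun := fun x => T ⟨_, hmem (q x) (hq1 x)⟩
        map_add' := by
          intro x y
          rw [hwd (q (x + y)) (q x + q y) (hq1 _) (PF_add _ (hq1 x) (hq1 y))
            (by rw [hQ1 _ _ (hq1 x) (hq1 y), hq2, hq2, hq2]), ← map_add]
          congr 1
          exact Subtype.ext (theta_add val emb inf hC hM hG hne h1 h2 (hq1 x) (hq1 y) hΦ)
        map_smul' := by
          intro c x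
          rw [hwd (q (c • x)) (c • q x) (hq1 _) (PF_smul _ c (hq1 x))
            (by rw [hQ2 _ _ (hq1 x), hq2, hq2]), RingHom.id_apply, ← map_smul]
          congr 1
          exact Subtype.ext (theta_smul val emb inf c (q x) Φ) }
    have hS : ∀ g x, S (a.rep.ρ g x) = π.ρ (loc val inf g) (S x) := by
      intro g x
      change T ⟨_, hmem (q (a.rep.ρ g x)) (hq1 _)⟩ = π.ρ (loc val inf g) (T ⟨_, hmem (q x) (hq1 x)⟩)
      rw [hwd (q (a.rep.ρ g x)) (act g (q x)) (hq1 _) (PF_act _ g (hq1 x))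
        (by rw [hQ3 _ _ (hq1 x), hq2, hq2])]
      refine Eq.trans ?_ (hT2 (loc val inf g) ⟨_, hmem (q x) (hq1 x)⟩)
      congr 1
      exact Subtype.ext (RT_theta_inf val emb inf τ ν α β (q x) hΦ g).symm
    refine ⟨S, ?_, hS⟩
    rw [← LinearMap.ker_eq_bot]
    rcases a.irr.2 (LinearMap.ker S) (fun g w hw => by
      rw [LinearMap.mem_ker] at hw ⊢
      rw [hS, hw, map_zero]) with h | h
    · exact h
    · exfalso
      have h3 : S (Q f) = 0 := by
        have : Q f ∈ LinearMap.ker S := by rw [h]; trivial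
        exact this
      apply hT5
      have h4 : S (Q f) = T ⟨_, hmem f hf⟩ := hwd (q (Q f)) f (hq1 _) hf (hq2 _)
      rw [h4] at h3
      exact h3

end

end Pool.Agent.U283.LL
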