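import Mathlib

/-!
# Project LL (MP_5ae62c_nt): definitions

Local liftings compatible with global functorial liftings.  `G = GL₂`, `ρ` = the identity of
`GL₂(ℂ)`, `K = 𝔽₂(t)`, the distinguished place is `∞`.
-/

set_option autoImplicit false

open scoped WithZero Matrix
open Matrix

namespace Pool.Agent.U283.LL

noncomputable section

/-- `GL₂(F)`. -/
abbrev G2 (F : Type) [Field F] := GL (Fin 2) F

/-- `2 × 2` matrices. -/
abbrev M2 (F : Type) := Matrix (Fin 2) (Fin 2) F

/-! ### Representations -/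

/-- A complex representation of a group `G`. -/
structure CRep (G : Type) [Group G] where
  /-- the space -/
  V : Type
  [ac : AddCommGroup V]
  [md : Module ℂ V]
  /-- the action -/
  ρ : Representation ℂ G V

attribute [instance] CRep.ac CRep.md

/-- Irreducible: nonzero and without proper nonzero invariant subspace. -/
def Irred {G : Type} [Group G] (r : CRep G) : Prop :=
  Nontrivial r.V ∧ ∀ W : Submodule ℂ r.V, (∀ g, ∀ w ∈ W, r.ρ g w ∈ W) → W = ⊥ ∨ W = ⊤

/-- Isomorphism of representations. -/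
def Iso {G : Type} [Group G] (r s : CRep G) : Prop :=
  ∃ e : r.V ≃ₗ[ℂ] s.V, ∀ g x, e (r.ρ g x) = s.ρ g (e x)

/-! ### Local definitions -/

section loc

variable {F : Type} [Field F] (v : Valuation F ℤᵐ⁰)

/-- The congruence subgroup of level `n` of `GL₂(F)`: the matrices `g` such that `g - 1` and
`g⁻¹ - 1` have all entries in the `n`-th power of the maximal ideal.  For `n = 0` this is
`GL₂(O)`. -/
def Cong (n : ℕ) : Subgroup (G2 F) where
  carrier := {g | ∀ i j, v ((g : M2 F) i j - (1 : M2 F) i j) ≤ WithZero.exp (-(n : ℤ)) ∧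
    v (((g⁻¹ : G2 F) : M2 F) i j - (1 : M2 F) i j) ≤ WithZero.exp (-(n : ℤ))}
  one_mem' := by
    intro i j
    simp
  mul_mem' := by
    have key : ∀ a b : M2 F, (∀ i j, v (a i j - (1 : M2 F) i j) ≤ WithZero.exp (-(n : ℤ))) →
        (∀ i j, v (b i j - (1 : M2 F) i j) ≤ WithZero.exp (-(n : ℤ))) →
        ∀ i j, v ((a * b) i j - (1 : M2 F) i j) ≤ WithZero.exp (-(n : ℤ)) := by
      intro a b ha hb i j
      have hle : (WithZero.exp (-(n : ℤ)) : ℤᵐ⁰) ≤ 1 := by
        rw [← WithZero.exp_zero, WithZero.exp_le_exp]; omega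
      have h1 : (a * b) i j - (1 : M2 F) i j
          = ((a - 1) * (b - 1)) i j + ((a i j - (1 : M2 F) i j) + (b i j - (1 : M2 F) i j)) := by
        have : a * b - 1 = (a - 1) * (b - 1) + ((a - 1) + (b - 1)) := by noncomm_ring
        have h2 := congrFun (congrFun this i) j
        simpa [Matrix.sub_apply, Matrix.add_apply] using h2
      rw [h1]
      refine v.map_add_le ?_ (v.map_add_le (ha i j) (hb i j))
      rw [Matrix.mul_apply]
      refine v.map_sum_le fun k _ => ?_
      rw [map_mul]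
      have h3 := ha i k
      have h4 := hb k j
      rw [← Matrix.sub_apply] at h3 h4
      calc v ((a - 1) i k) * v ((b - 1) k j) ≤ WithZero.exp (-(n : ℤ)) * 1 :=
            mul_le_mul' h3 (h4.trans hle)
        _ = _ := mul_one _
    intro g h hg hh i j
    refine ⟨?_, ?_⟩
    · have := key (g : M2 F) (h : M2 F) (fun i j => (hg i j).1) (fun i j => (hh i j).1) i j
      simpa using this
    · have := key ((h⁻¹ : G2 F) : M2 F) ((g⁻¹ : G2 F) : M2 F) (fun i j => (hh i j).2)
        (fun i j => (hg i j).2) i j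
      rw [_root_.mul_inv_rev]
      simpa using this
  inv_mem' := by
    intro g hg i j
    exact ⟨(hg i j).2, by simpa using (hg i j).1⟩

/-- Smooth representation of `GL₂(F)`: every vector is fixed by a congruence subgroup. -/
def Smooth (r : CRep (G2 F)) : Prop :=
  ∀ x : r.V, ∃ n : ℕ, ∀ g ∈ Cong v n, r.ρ g x = x

/-- `Irr(GL₂(F))`: the irreducible smooth representations. -/
structure IrrRep where
  /-- the representation -/
  rep : CRep (G2 F)
  irr : Irred rep
  smooth : Smooth v rep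

/-- The matrix `(a b; 0 d)` with `a, d ≠ 0`. -/
def upper (a : Fˣ) (b : F) (d : Fˣ) : G2 F :=
  Matrix.GeneralLinearGroup.mkOfDetNeZero !![(a : F), b; 0, (d : F)] (by simp)

/-- The (unnormalised) principal series: the smooth functions `φ` on `GL₂(F)` with
`φ((a b; 0 d) g) = μ₁(a) μ₂(d) φ(g)`. -/
def PSspace (μ₁ μ₂ : Fˣ →* ℂˣ) : Submodule ℂ (G2 F → ℂ) where
  carrier := {φ | (∀ a b d g, φ (upper a b d * g) = μ₁ a * μ₂ d * φ g) ∧
    ∃ n : ℕ, ∀ k ∈ Cong v n, ∀ g, φ (g * k) = φ g}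
  zero_mem' := by
    constructor
    · intro a b d g; simp
    · exact ⟨0, by intros; rfl⟩
  add_mem' := by
    rintro φ ψ ⟨h1, n, h2⟩ ⟨h3, m, h4⟩
    refine ⟨fun a b d g => by simp only [Pi.add_apply, h1, h3]; ring, max n m, ?_⟩
    intro k hk g
    have hmono : ∀ {n' m' : ℕ}, n' ≤ m' → ∀ k ∈ Cong v m', k ∈ Cong v n' := by
      intro n' m' hnm k hk i j
      have hle : (WithZero.exp (-(m' : ℤ)) : ℤᵐ⁰) ≤ WithZero.exp (-(n' : ℤ)) := by
        rw [WithZero.exp_le_exp]; omega
      exact ⟨(hk i j).1.trans hle, (hk i j).2.trans hle⟩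
    simp only [Pi.add_apply, h2 k (hmono (le_max_left _ _) k hk),
      h4 k (hmono (le_max_right _ _) k hk)]
  smul_mem' := by
    rintro c φ ⟨h1, n, h2⟩
    refine ⟨fun a b d g => by simp only [Pi.smul_apply, h1, smul_eq_mul]; ring, n, ?_⟩
    intro k hk g
    simp only [Pi.smul_apply, h2 k hk]

/-- An invariant subspace of the principal series (under right translation). -/
def PSinvariant (μ₁ μ₂ : Fˣ →* ℂˣ) (W : Submodule ℂ (G2 F → ℂ)) : Prop :=
  W ≤ PSspace v μ₁ μ₂ ∧ ∀ h : G2 F, ∀ φ ∈ W, (fun g => φ (g * h)) ∈ W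

/-- The principal series is irreducible. -/
def PSirred (μ₁ μ₂ : Fˣ →* ℂˣ) : Prop :=
  ∀ W, PSinvariant v μ₁ μ₂ W → W = ⊥ ∨ W = PSspace v μ₁ μ₂

/-- `a` is the irreducible subrepresentation of the principal series `(μ₁, μ₂)`; if the principal
series is reducible, `a` is asked to be one-dimensional.  With `μ₁ = χ₂|·|^{1/2}` and
`μ₂ = χ₁|·|^{-1/2}` this is the component `χ₁ ⊞ χ₂` (the Langlands quotient). -/
def IsLanglands (μ₁ μ₂ : Fˣ →* ℂˣ) (a : CRep (G2 F)) : Prop :=
  (∃ T : a.V →ₗ[ℂ] (G2 F → ℂ), Function.Injective T ∧ (∀ x, T x ∈ PSspace v μ₁ μ₂) ∧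
    ∀ g x, T (a.ρ g x) = fun h => T x (h * g)) ∧
  (PSirred v μ₁ μ₂ ∨ Module.finrank ℂ a.V = 1)

end loc

/-! ### Global definitions -/

section glob

variable {K : Type} [Field K] {P : Type} {L : P → Type} [∀ p, Field (L p)]
  (val : ∀ p, Valuation (L p) ℤᵐ⁰) (emb : ∀ p, K →+* L p)

/-- `GL₂(𝔸)`: the restricted product of the `GL₂(K_p)` with respect to the `GL₂(O_p)`. -/
def GA : Subgroup (∀ p, G2 (L p)) where
  carrier := {g | {p | g p ∉ Cong (val p) 0}.Finite}
  one_mem' := by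
    have : {p | (1 : ∀ p, G2 (L p)) p ∉ Cong (val p) 0} = ∅ := by
      ext p; simp [one_mem]
    show Set.Finite _
    rw [this]; exact Set.finite_empty
  mul_mem' := by
    intro g h hg hh
    refine (hg.union hh).subset ?_
    intro p hp
    by_contra hc
    simp only [Set.mem_union, Set.mem_ofPred_eq, not_or, not_not] at hc
    exact hp (mul_mem hc.1 hc.2)
  inv_mem' := by
    intro g hg
    refine Set.Finite.subset hg ?_
    intro p hp hc
    exact hp (inv_mem hc)

/-- The adeles: the restricted product of the `K_p` with respect to the `O_p`. -/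
def Adele : AddSubgroup (∀ p, L p) where
  carrier := {x | {p | ¬ val p (x p) ≤ 1}.Finite}
  zero_mem' := by
    have : {p | ¬ val p ((0 : ∀ p, L p) p) ≤ 1} = ∅ := by ext p; simp
    show Set.Finite _
    rw [this]; exact Set.finite_empty
  add_mem' := by
    intro x y hx hy
    refine (Set.Finite.union hx hy).subset ?_
    intro p hp
    by_contra hc
    simp only [Set.mem_union, Set.mem_ofPred_eq, not_or, not_not] at hc
    exact hp ((val p).map_add_le hc.1 hc.2)
  neg_mem' := by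
    intro x hx
    refine Set.Finite.subset hx ?_
    intro p hp
    simpa using hp

/-- The congruence subgroup `∏ Cong_p(n p)` of `GL₂(𝔸)`. -/
def U (n : P →₀ ℕ) : Subgroup (GA val) where
  carrier := {g | ∀ p, (g : ∀ p, G2 (L p)) p ∈ Cong (val p) (n p)}
  one_mem' := fun p => one_mem _
  mul_mem' := fun hg hh p => mul_mem (hg p) (hh p)
  inv_mem' := fun hg p => inv_mem (hg p)

open scoped Classical in
/-- The inclusion `GL₂(K_p) → GL₂(𝔸)`. -/
def loc (p : P) : G2 (L p) →* GA val where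
  toFun g := ⟨Pi.mulSingle (M := fun q => G2 (L q)) p g, by
    refine (Set.finite_singleton p).subset ?_
    intro q hq
    by_contra hne
    have : Pi.mulSingle (M := fun q => G2 (L q)) p g q = 1 :=
      Pi.mulSingle_eq_of_ne (M := fun q => G2 (L q)) (by simpa using hne) g
    exact hq (by rw [this]; exact one_mem _)⟩
  map_one' := by
    apply Subtype.ext; exact Pi.mulSingle_one (M := fun q => G2 (L q)) p
  map_mul' g h := by
    apply Subtype.ext; exact Pi.mulSingle_mul (f := fun q => G2 (L q)) p g h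

/-- The matrix `(1 x; 0 1)`. -/
def uL {F : Type} [Field F] (x : F) : G2 F :=
  Matrix.GeneralLinearGroup.mkOfDetNeZero !![1, x; 0, 1] (by simp)

/-- The matrix `(1 x; 0 1)` for an adele `x`. -/
def uni (x : Adele val) : GA val :=
  ⟨fun p => uL ((x : ∀ p, L p) p), by
    refine Set.Finite.subset x.2 ?_
    intro p hp hx
    apply hp
    have hinv : ((uL ((x : ∀ p, L p) p))⁻¹ : G2 (L p)) = uL (-(x : ∀ p, L p) p) := by
      rw [inv_eq_iff_mul_eq_one]
      ext i j
      fin_cases i <;> fin_cases j <;> simp [uL, Matrix.mul_apply, Fin.sum_univ_two]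
    intro i j
    rw [hinv]
    fin_cases i <;> fin_cases j <;> simp [uL, hx]⟩

/-- Right translation of functions on `GL₂(𝔸)`. -/
def RT (g : GA val) (φ : GA val → ℂ) : GA val → ℂ := fun h => φ (h * g)

/-- `W` is a space of functions invariant under right translation. -/
def RTinv (W : Submodule ℂ (GA val → ℂ)) : Prop := ∀ g, ∀ φ ∈ W, RT val g φ ∈ W

/-- `φ` is invariant under left translation by `GL₂(K)`. -/
def LeftInv (φ : GA val → ℂ) : Prop :=
  ∀ γ : G2 K, ∀ g g' : GA val, (∀ p, (g' : ∀ p, G2 (L p)) p =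
    Matrix.GeneralLinearGroup.map (emb p) γ * (g : ∀ p, G2 (L p)) p) → φ g' = φ g

/-- For the place `p`, the right translates of `φ` by `GL₂(K_p)` span a representation of finite
length (equivalently an admissible one): strictly increasing chains of invariant subspaces of it
have bounded length. -/
def FinLen (p : P) (φ : GA val → ℂ) : Prop :=
  ∃ N : ℕ, ∀ (k : ℕ) (W : Fin (k + 1) → Submodule ℂ (GA val → ℂ)), StrictMono W →
    (∀ i, (∀ g : G2 (L p), ∀ ψ ∈ W i, RT val (loc val p g) ψ ∈ W i) ∧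
      W i ≤ Submodule.span ℂ (Set.range fun g : G2 (L p) => RT val (loc val p g) φ)) → k ≤ N

/-- Automorphic forms on `GL₂(𝔸)` (Borel–Jacquet, function fields). -/
def AutForm (φ : GA val → ℂ) : Prop :=
  LeftInv val emb φ ∧ (∃ n : P →₀ ℕ, ∀ u ∈ U val n, ∀ g, φ (g * u) = φ g) ∧
  ∃ p, FinLen val p φ

/-- The constant term of `φ` vanishes: for every `g` the sum of `φ((1 x; 0 1) g)` over the finite
set `𝔸 / (K + W)` is zero, `W = ∏ 𝔪_p^{n p}` being an open subgroup of `𝔸` under which the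
summand is invariant. -/
def ConstTermZero (φ : GA val → ℂ) : Prop :=
  ∀ g : GA val, ∃ (n : P →₀ ℕ) (E : Finset (Adele val)),
    (∀ x w : Adele val, (∀ p, val p ((w : ∀ p, L p) p) ≤ WithZero.exp (-(n p : ℤ))) →
      φ (uni val (x + w) * g) = φ (uni val x * g)) ∧
    (∀ x : Adele val, ∃! e, e ∈ E ∧ ∃ k : K, ∀ p,
      val p ((x : ∀ p, L p) p - (e : ∀ p, L p) p - emb p k) ≤ WithZero.exp (-(n p : ℤ))) ∧
    ∑ e ∈ E, φ (uni val e * g) = 0

/-- `π` is a quotient of an invariant space `W` of functions which all have the property `Q`. -/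
def QuotOf (Q : (GA val → ℂ) → Prop) (π : CRep (GA val)) : Prop :=
  ∃ (W : Submodule ℂ (GA val → ℂ)) (hW : RTinv val W), (∀ φ ∈ W, Q φ) ∧
    ∃ T : W →ₗ[ℂ] π.V, Function.Surjective T ∧
      ∀ (g : GA val) (φ : W), T ⟨RT val g φ.1, hW g φ.1 φ.2⟩ = π.ρ g (T φ)

/-- Automorphic representation: irreducible subquotient of the space of automorphic forms. -/
def IsAutomorphic (π : CRep (GA val)) : Prop :=
  Irred π ∧ QuotOf val (AutForm val emb) π

/-- Cuspidal automorphic representation: irreducible subquotient of the space of cusp forms. -/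
def IsCuspidal (π : CRep (GA val)) : Prop :=
  Irred π ∧ QuotOf val (fun φ => AutForm val emb φ ∧ ConstTermZero val emb φ) π

/-- `a` is the component of `π` at the place `p`. -/
def Component (p : P) (π : CRep (GA val)) (a : CRep (G2 (L p))) : Prop :=
  ∃ T : a.V →ₗ[ℂ] π.V, Function.Injective T ∧ ∀ g x, T (a.ρ g x) = π.ρ (loc val p g) (T x)

/-- Hecke characters (quasi-characters of the idele class group), by their local components. -/
structure HeckeChar where
  /-- the local components -/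
  χ : ∀ p, (L p)ˣ →* ℂˣ
  smooth : ∀ p, ∃ n : ℕ, ∀ u : (L p)ˣ, val p ((u : L p) - 1) ≤ WithZero.exp (-(n : ℤ)) →
    val p (u : L p) = 1 → χ p u = 1
  unram : {p | ∃ u : (L p)ˣ, val p (u : L p) = 1 ∧ χ p u ≠ 1}.Finite
  glob : ∀ x : Kˣ, ∏ᶠ p, χ p (Units.map (emb p).toMonoidHom x) = 1

/-- Isobaric automorphic representations of `GL₂(𝔸)`: the cuspidal ones and the `χ₁ ⊞ χ₂` for
Hecke characters `χ₁, χ₂`. -/
def IsIsobaric (π : CRep (GA val)) : Prop :=
  IsCuspidal val emb π ∨
  (Irred π ∧ (∀ x : π.V, ∃ n : P →₀ ℕ, ∀ u ∈ U val n, π.ρ u x = x) ∧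
    ∃ μ₁ μ₂ : HeckeChar val emb, ∀ p, ∃ a : IrrRep (val p), Component val p π a.rep ∧
      IsLanglands (val p) (μ₁.χ p) (μ₂.χ p) a.rep)

/-- The representation `a` of `GL₂(K_p)` is unramified: it has a nonzero `GL₂(O_p)`-fixed vector. -/
def Unram {F : Type} [Field F] (v : Valuation F ℤᵐ⁰) (a : CRep (G2 F)) : Prop :=
  ∃ x : a.V, x ≠ 0 ∧ ∀ k ∈ Cong v 0, a.ρ k x = x

/-- `σ` is a global lifting of `π` for `ρ = id`: it is isobaric, and at every place where the
component of `π` is unramified, `σ` has the same component. -/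
def IsLifting (π σ : CRep (GA val)) : Prop :=
  IsIsobaric val emb σ ∧ ∀ p, ∀ a : IrrRep (val p), Unram (val p) a.rep →
    Component val p π a.rep → Component val p σ a.rep

/-- `l` is a local lifting at the place `p` which is compatible with the global liftings. -/
def Compatible (p : P) (l : IrrRep (val p) → IrrRep (val p)) : Prop :=
  (∀ a b, Iso a.rep b.rep → Iso (l a).rep (l b).rep) ∧
  ∀ π σ : CRep (GA val), IsAutomorphic val emb π → IsLifting val emb π σ →
    ∀ a b : IrrRep (val p), Component val p π a.rep → Component val p σ b.rep →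
      Iso b.rep (l a).rep

end glob

/-! ### The global field `𝔽₂(t)` -/

section field

open IsDedekindDomain Polynomial

/-- The field `K = 𝔽₂(t)`. -/
abbrev K0 := RatFunc (ZMod 2)

/-- The places of `𝔽₂(t)`: `none` is the place `∞`, the others are the primes of `𝔽₂[t]`. -/
abbrev P0 := Option (HeightOneSpectrum (Polynomial (ZMod 2)))

instance : DecidableEq (RatFunc (ZMod 2)) := Classical.decEq _

/-- The completions. -/
def L0 : P0 → Type
  | none => RatFunc.CompletionAtInfty (ZMod 2)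
  | some v => v.adicCompletion (RatFunc (ZMod 2))

instance : ∀ p, Field (L0 p)
  | none => (inferInstance : Field (RatFunc.CompletionAtInfty (ZMod 2)))
  | some v => (inferInstance : Field (v.adicCompletion (RatFunc (ZMod 2))))

/-- The valuations. -/
def val0 : ∀ p, Valuation (L0 p) ℤᵐ⁰
  | none => (Valued.v : Valuation (RatFunc.CompletionAtInfty (ZMod 2)) ℤᵐ⁰)
  | some v => (Valued.v : Valuation (v.adicCompletion (RatFunc (ZMod 2))) ℤᵐ⁰)

/-- The inclusions `K → K_p`. -/
def emb0 : ∀ p, K0 →+* L0 p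
  | none => algebraMap (RatFunc (ZMod 2)) (RatFunc.CompletionAtInfty (ZMod 2))
  | some v => algebraMap (RatFunc (ZMod 2)) (v.adicCompletion (RatFunc (ZMod 2)))

end field

/-! ### Machinery (not used in the statement) -/

section mach

/-- `E` is a set of representatives of `O / 𝔪ⁿ`. -/
def IsReps {F : Type} [Field F] (v : Valuation F ℤᵐ⁰) (n : ℕ) (E : Finset F) : Prop :=
  (∀ e ∈ E, v e ≤ 1) ∧ ∀ x, v x ≤ 1 → ∃! e, e ∈ E ∧ v (x - e) ≤ WithZero.exp (-(n : ℤ))

/-- Hypotheses on a local field. -/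
structure LocalHyp {F : Type} [Field F] (v : Valuation F ℤᵐ⁰) : Prop where
  unif : ∃ ϖ : F, v ϖ = WithZero.exp (-1 : ℤ)
  reps : ∀ n : ℕ, ∃ E : Finset F, IsReps v n E

/-- The norm of a vector. -/
def nrm {F : Type} [Field F] (v : Valuation F ℤᵐ⁰) (x : Fin 2 → F) : ℤᵐ⁰ := max (v (x 0)) (v (x 1))

/-- The homogeneous functions on `F² ∖ 0` (extended by `0` at `0`) which are locally constant
of level `m`. -/
def PFm {F : Type} [Field F] (v : Valuation F ℤᵐ⁰) (m : ℕ) (f : (Fin 2 → F) → ℂ) : Prop :=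
  f 0 = 0 ∧ (∀ (c : F) (x), c ≠ 0 → f (c • x) = f x) ∧
  ∀ x y, x ≠ 0 → nrm v (y - x) ≤ WithZero.exp (-(m : ℤ)) * nrm v x → f y = f x

/-- `f ∈ C^∞(P¹(F))`. -/
def PF {F : Type} [Field F] (v : Valuation F ℤᵐ⁰) (f : (Fin 2 → F) → ℂ) : Prop := ∃ m, PFm v m f

open scoped Classical in
/-- The constant function. -/
def one1 (F : Type) [Field F] : (Fin 2 → F) → ℂ := fun x => if x = 0 then 0 else 1

/-- The action of `GL₂(F)` on functions. -/
def act {F : Type} [Field F] (g : G2 F) (f : (Fin 2 → F) → ℂ) : (Fin 2 → F) → ℂ :=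
  fun x => f (((g⁻¹ : G2 F) : M2 F) *ᵥ x)

/-- The vector `(x, y)`. -/
def vec {F : Type} (x y : F) : Fin 2 → F := ![x, y]

open scoped Classical in
/-- A nonzero column of `Y - β`: an eigenvector of `Y` for the other eigenvalue. -/
def ev {F : Type} [Field F] (β : F) (Y : M2 F) : Fin 2 → F :=
  if (∃ i, (Y - Matrix.scalar (Fin 2) β) i 0 ≠ 0) then fun i => (Y - Matrix.scalar (Fin 2) β) i 0
  else fun i => (Y - Matrix.scalar (Fin 2) β) i 1

variable {K : Type} [Field K] {P : Type} {L : P → Type} [∀ p, Field (L p)]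
  (val : ∀ p, Valuation (L p) ℤᵐ⁰) (emb : ∀ p, K →+* L p) (inf : P)

/-- The properties of the global field which are used; `inf` is the distinguished place. -/
structure Good : Prop where
  loc : ∀ p, LocalHyp (val p)
  fin : ∀ x : K, {p | ¬ val p (emb p x) ≤ 1}.Finite
  disc : ∀ m : P →₀ ℕ, {x : K | ∀ p, val p (emb p x) ≤ WithZero.exp (m p : ℤ)}.Finite
  sa : ∀ n : P →₀ ℕ, ∃ c : ℕ, ∀ x : Adele val, ∃ k : K,
    (∀ p, p ≠ inf → val p ((x : ∀ p, L p) p - emb p k) ≤ WithZero.exp (-(n p : ℤ))) ∧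
    val inf ((x : ∀ p, L p) inf - emb inf k) ≤ WithZero.exp (c : ℤ)

/-- The matrices over `K` with trace `τ` and determinant `ν`. -/
def SX (K : Type) [Field K] (τ ν : K) : Type := {X : M2 K // X.trace = τ ∧ X.det = ν}

/-- The matrix `X` at the place `p`. -/
def atp (p : P) (X : M2 K) : M2 (L p) := X.map (emb p)

/-- Conjugation of a family of matrices by an element of `GL₂(𝔸)`: `g⁻¹ Y g`. -/
def cj (g : GA val) (Y : ∀ p, M2 (L p)) : ∀ p, M2 (L p) := fun p =>
  (((g : ∀ p, G2 (L p)) p)⁻¹ : G2 (L p)) * Y p * ((g : ∀ p, G2 (L p)) p : M2 (L p))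

/-- Schwartz functions on `M₂` of the finite adeles: smooth, with bounded support, independent of
the component at `inf`. -/
def SB (Φ : (∀ p, M2 (L p)) → ℂ) : Prop :=
  (∃ n : P →₀ ℕ, ∀ u ∈ U val n, ∀ Y, Φ (cj val u Y) = Φ Y) ∧
  (∃ m : P →₀ ℕ, ∀ Y, Φ Y ≠ 0 → ∀ p, p ≠ inf → ∀ i j, val p (Y p i j) ≤ WithZero.exp (m p : ℤ)) ∧
  ∀ Y Y', (∀ p, p ≠ inf → Y p = Y' p) → Φ Y = Φ Y'

/-- The summand of the theta-type series. -/
def term {τ ν : K} (α β : L inf) (f : (Fin 2 → L inf) → ℂ) (Φ : (∀ p, M2 (L p)) → ℂ)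
    (g : GA val) (X : SX K τ ν) : ℂ :=
  (act ((g : ∀ p, G2 (L p)) inf) f (ev β (atp emb inf X.1)) -
    act ((g : ∀ p, G2 (L p)) inf) f (ev α (atp emb inf X.1))) *
    Φ (cj val g fun p => atp emb p X.1)

/-- The theta-type series `∑_X (f(g⁻¹ℓ_α(X)) - f(g⁻¹ℓ_β(X))) Φ(g⁻¹Xg)`. -/
def theta (τ ν : K) (α β : L inf) (f : (Fin 2 → L inf) → ℂ) (Φ : (∀ p, M2 (L p)) → ℂ)
    (g : GA val) : ℂ := ∑ᶠ X : SX K τ ν, term val emb inf α β f Φ g X

open scoped Classical in
/-- The Schwartz function attached to a function `f₂` on `P¹(K_pp)`: idempotents of rank one at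
`pp`, integral at the other finite places. -/
def PhiE (pp : P) (f₂ : (Fin 2 → L pp) → ℂ) (Y : ∀ p, M2 (L p)) : ℂ :=
  if (Y pp).trace = 1 ∧ (Y pp).det = 0 ∧ ∀ p, p ≠ inf → p ≠ pp → ∀ i j, val p (Y p i j) ≤ 1
  then f₂ (ev 0 (Y pp)) - f₂ (ev 1 (Y pp)) else 0

/-- The element `(Tⁿ 0; 0 1)` at the place `inf`. -/
def aN (T : (L inf)ˣ) (n : ℕ) : GA val := loc val inf (upper (T ^ n) 0 1)

open scoped Classical in
/-- The count which gives the values of `theta f₁ (PhiE f₂)` near the cusp. -/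
def cnt (pp : P) (T : (L inf)ˣ) (f₁ : (Fin 2 → L inf) → ℂ) (f₂ : (Fin 2 → L pp) → ℂ)
    (g : GA val) (n : ℕ) : ℂ :=
  ∑ᶠ y : K, (f₁ (vec 1 0) - f₁ (vec (((T : L inf) ^ n)⁻¹ * emb inf y) 1)) *
    (f₂ (vec 1 0) - f₂ (vec (emb pp y) 1)) *
    (if ∀ p, p ≠ inf → p ≠ pp → ∀ i j,
      val p (((((g : ∀ p, G2 (L p)) p)⁻¹ : G2 (L p)) * !![1, -emb p y; 0, 0] *
        ((g : ∀ p, G2 (L p)) p : M2 (L p)) : M2 (L p)) i j) ≤ 1 then 1 else 0)

end mach

end

end Pool.Agent.U283.LL
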