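import Pool.Agent.U283.LL.Constr

/-!
# Project LL: the contradiction
-/

set_option autoImplicit false

open scoped WithZero Matrix
open Matrix

namespace Pool.Agent.U283.LL

noncomputable section

variable {K : Type} [Field K] {P : Type} {L : P → Type} [∀ p, Field (L p)]
  (val : ∀ p, Valuation (L p) ℤᵐ⁰) (emb : ∀ p, K →+* L p) (inf : P)

lemma loc_comm (p : P) (g : GA val) : ∃ c : GA val,
    (g = loc val p ((g : ∀ p, G2 (L p)) p) * c ∧ ∀ h', c * loc val p h' = loc val p h' * c) ∧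
    ((c : ∀ p, G2 (L p)) p = 1 ∧ ∀ q, q ≠ p → (c : ∀ p, G2 (L p)) q = (g : ∀ p, G2 (L p)) q) := by
  have hc : (((loc val p ((g : ∀ p, G2 (L p)) p))⁻¹ * g : GA val) : ∀ p, G2 (L p)) p = 1 := by
    rw [GA_mul_apply, GA_inv_apply, loc_same, inv_mul_cancel]
  refine ⟨(loc val p ((g : ∀ p, G2 (L p)) p))⁻¹ * g, ⟨by group, fun h' => ?_⟩, hc, ?_⟩
  · generalize (loc val p ((g : ∀ p, G2 (L p)) p))⁻¹ * g = c at hc ⊢
    refine GA_ext val fun q => ?_
    rw [GA_mul_apply, GA_mul_apply]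
    rcases eq_or_ne q p with rfl | hq
    · rw [hc, one_mul, mul_one]
    · rw [loc_ne val hq, one_mul, mul_one]
  · intro q hq
    rw [GA_mul_apply, GA_inv_apply, loc_ne val hq, inv_one, one_mul]

/-- no unramified component at a place where averaging kills everything -/
lemma noFix {φ : GA val → ℂ} {π : CRep (GA val)} (T : Vspan val φ →ₗ[ℂ] π.V)
    (hT1 : Function.Surjective T)
    (hT2 : ∀ (g : GA val) (ψ : Vspan val φ), T ⟨RT val g ψ.1, Vspan_inv val φ g ψ.1 ψ.2⟩ =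
        π.ρ g (T ψ)) (p : P)
    (hav : ∀ s : Finset (GA val), ∃ Tm : Finset (G2 (L p)), Tm.Nonempty ∧
      (∀ k ∈ Tm, k ∈ Cong (val p) 0) ∧
      ∀ g ∈ s, ∑ k ∈ Tm, RT val (loc val p k) (RT val g φ) = 0)
    (a : IrrRep (val p)) (ha : Component val p π a.rep) : ¬ Unram (val p) a.rep := by
  rintro ⟨x, hx0, hx⟩
  obtain ⟨S, hS1, hS2⟩ := ha
  obtain ⟨ψ, hψ⟩ := hT1 (S x)
  obtain ⟨s, c, hs⟩ := exists_sum_of_mem val ψ.2
  obtain ⟨Tm, hTm, hTk, hTs⟩ := hav s
  have h1 : ∀ k ∈ Tm, T ⟨RT val (loc val p k) ψ.1, Vspan_inv val φ _ ψ.1 ψ.2⟩ = S x := by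
    intro k hk
    rw [hT2, hψ, ← hS2, hx k (hTk k hk)]
  have h2 : ∑ k ∈ Tm, T ⟨RT val (loc val p k) ψ.1, Vspan_inv val φ _ ψ.1 ψ.2⟩ =
      (Tm.card : ℂ) • S x := by
    rw [Finset.sum_congr rfl h1, Finset.sum_const, ← Nat.cast_smul_eq_nsmul ℂ]
  have h3 : ∑ k ∈ Tm, T ⟨RT val (loc val p k) ψ.1, Vspan_inv val φ _ ψ.1 ψ.2⟩ = 0 := by
    rw [← map_sum]
    have : (∑ k ∈ Tm, (⟨RT val (loc val p k) ψ.1, Vspan_inv val φ _ ψ.1 ψ.2⟩ :
        Vspan val φ)) = 0 := by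
      apply Subtype.ext
      rw [AddSubmonoidClass.coe_finsetSum]
      have h4 : ∀ k, RT val (loc val p k) ψ.1 =
          ∑ g ∈ s, c g • RT val (loc val p k) (RT val g φ) := by
        intro k
        rw [hs, RT_sum]
        rfl
      change ∑ k ∈ Tm, RT val (loc val p k) ψ.1 = 0
      simp only [h4]
      rw [Finset.sum_comm]
      refine Finset.sum_eq_zero fun g hg => ?_
      rw [← Finset.smul_sum, hTs g hg, smul_zero]
    rw [this, map_zero]
  rw [h2] at h3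
  have h5 : (Tm.card : ℂ) ≠ 0 := by
    rw [Nat.cast_ne_zero]
    exact Finset.card_ne_zero.2 hTm
  have h6 : S x = 0 := by
    rcases smul_eq_zero.1 h3 with h | h
    · exact absurd h h5
    · exact h
  exact hx0 (hS1 (by rw [h6, map_zero]))

/-- the series is additive over finite sums in `f` -/
lemma theta_sum (hC : S_Fin) (hM : S_Conj) (hG : Good val emb inf) {τ ν : K} {α β : L inf}
    (hne : α ≠ β) (h1 : α + β = emb inf τ) (h2 : α * β = emb inf ν) {ι : Type} (s : Finset ι)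
    (f : ι → (Fin 2 → L inf) → ℂ) (hf : ∀ i ∈ s, PF (val inf) (f i))
    {Φ : (∀ p, M2 (L p)) → ℂ} (hΦ : SB val inf Φ) :
    theta val emb inf τ ν α β (∑ i ∈ s, f i) Φ =
      ∑ i ∈ s, theta val emb inf τ ν α β (f i) Φ := by
  classical
  induction s using Finset.induction_on with
  | empty =>
    have := theta_smul val emb inf (τ := τ) (ν := ν) (α := α) (β := β) 0 0 Φ
    rw [zero_smul, zero_smul] at this
    simpa using this
  | insert a s ha ih =>
    rw [Finset.sum_insert ha, Finset.sum_insert ha,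
      theta_add val emb inf hC hM hG hne h1 h2 (hf a (Finset.mem_insert_self _ _))
        (PF_sum _ _ fun i hi => hf i (Finset.mem_insert_of_mem hi)) hΦ,
      ih fun i hi => hf i (Finset.mem_insert_of_mem hi)]

/-- a common level -/
lemma exists_level {F : Type} [Field F] (v : Valuation F ℤᵐ⁰) {ι : Type} (s : Finset ι)
    (f : ι → (Fin 2 → F) → ℂ) (hf : ∀ i ∈ s, PF v (f i)) : ∃ m, ∀ i ∈ s, PFm v m (f i) := by
  classical
  induction s using Finset.induction_on with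
  | empty => exact ⟨0, by simp⟩
  | insert a s ha ih =>
    obtain ⟨m, hm⟩ := ih fun i hi => hf i (Finset.mem_insert_of_mem hi)
    obtain ⟨m', hm'⟩ := hf a (Finset.mem_insert_self _ _)
    refine ⟨max m m', fun i hi => ?_⟩
    rcases Finset.mem_insert.1 hi with rfl | hi
    · exact PFm_mono v (le_max_right _ _) hm'
    · exact PFm_mono v (le_max_left _ _) (hm i hi)

/-- averaging at `inf` -/
lemma avg_inf (hB : S_Avg) (hC : S_Fin) (hM : S_Conj) (hG : Good val emb inf) {τ ν : K}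
    {α β : L inf}
    (hne : α ≠ β) (h1 : α + β = emb inf τ) (h2 : α * β = emb inf ν)
    {f : (Fin 2 → L inf) → ℂ} (hf : PF (val inf) f)
    {Φ : (∀ p, M2 (L p)) → ℂ} (hΦ : SB val inf Φ) (s : Finset (GA val)) :
    ∃ Tm : Finset (G2 (L inf)), Tm.Nonempty ∧ (∀ k ∈ Tm, k ∈ Cong (val inf) 0) ∧
      ∀ g ∈ s, ∑ k ∈ Tm, RT val (loc val inf k)
        (RT val g (theta val emb inf τ ν α β f Φ)) = 0 := by
  obtain ⟨m, hm⟩ := exists_level (val inf) s (fun g => act ((g : ∀ p, G2 (L p)) inf) f)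
    fun g _ => PF_act _ _ hf
  obtain ⟨Tm, hT1, hT2, hT3⟩ := hB (L inf) (val inf) (hG.loc inf) m
  refine ⟨Tm, hT1, hT2, fun g hg => ?_⟩
  obtain ⟨c, hc⟩ := hT3 _ (hm g hg)
  have hΦ' := hM P L val inf Φ hΦ g
  have h3 : ∀ k, RT val (loc val inf k) (RT val g (theta val emb inf τ ν α β f Φ)) =
      theta val emb inf τ ν α β (act k (act ((g : ∀ p, G2 (L p)) inf) f))
        (fun Y => Φ (cj val g Y)) := by
    intro k
    rw [RT_theta val emb inf τ ν α β f Φ g, RT_theta_inf val emb inf τ ν α β _ hΦ']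
  simp only [h3]
  rw [← theta_sum val emb inf hC hM hG hne h1 h2 Tm _
    (fun k _ => PF_act _ _ (PF_act _ _ hf)) hΦ', hc, theta_smul,
    theta_one1 val emb inf hne h1 h2, smul_zero]

/-- averaging at `pp` -/
lemma avg_pp (hB : S_Avg) (hQ4 : S_Q4) (hG : Good val emb inf) {pp : P} (hpp : pp ≠ inf)
    {f₁ : (Fin 2 → L inf) → ℂ} (hf₁ : PF (val inf) f₁)
    {f₂ : (Fin 2 → L pp) → ℂ} (hf₂ : PF (val pp) f₂) (s : Finset (GA val)) :
    ∃ Tm : Finset (G2 (L pp)), Tm.Nonempty ∧ (∀ k ∈ Tm, k ∈ Cong (val pp) 0) ∧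
      ∀ g ∈ s, ∑ k ∈ Tm, RT val (loc val pp k)
        (RT val g (phi0 val emb inf pp f₁ f₂)) = 0 := by
  obtain ⟨m, hm⟩ := exists_level (val pp) s (fun g => act ((g : ∀ p, G2 (L p)) pp) f₂)
    fun g _ => PF_act _ _ hf₂
  obtain ⟨Tm, hT1, hT2, hT3⟩ := hB (L pp) (val pp) (hG.loc pp) m
  refine ⟨Tm, hT1, hT2, fun g hg => ?_⟩
  obtain ⟨c, hc⟩ := hT3 _ (hm g hg)
  obtain ⟨u, ⟨hu1, hu2⟩, hu3, hu4⟩ := loc_comm val pp g
  have hg' : g = u * loc val pp ((g : ∀ p, G2 (L p)) pp) := by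
    rw [hu2]
    exact hu1
  have h4 := (hQ4 K P L val emb inf hG pp hpp f₁ hf₁ f₂ hf₂).2.1 ((g : ∀ p, G2 (L p)) pp)
  have h3 : ∀ k, RT val (loc val pp k) (RT val g (phi0 val emb inf pp f₁ f₂)) =
      RT val u (RT val (loc val pp k)
        (phi0 val emb inf pp f₁ (act ((g : ∀ p, G2 (L p)) pp) f₂))) := by
    intro k
    rw [← h4, RT_RT, RT_RT, RT_RT]
    congr 1
    conv_lhs => rw [hg']
    rw [← mul_assoc, hu2]
  simp only [h3]
  rw [← RT_sum, (hQ4 K P L val emb inf hG pp hpp f₁ hf₁ _ (PF_act _ _ hf₂)).2.2 Tm c hc]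
  rfl

/-- the functions which vanish near the cusp -/
def Zsub (T : (L inf)ˣ) : Submodule ℂ (GA val → ℂ) where
  carrier := {ψ | ∀ g : GA val, ∃ n₀ : ℕ, ∀ n ≥ n₀, ψ (aN val inf T n * g) = 0}
  zero_mem' := fun g => ⟨0, fun _ _ => rfl⟩
  add_mem' := by
    intro φ ψ hφ hψ g
    obtain ⟨n, hn⟩ := hφ g
    obtain ⟨m, hm⟩ := hψ g
    refine ⟨max n m, fun k hk => ?_⟩
    rw [Pi.add_apply, hn k ((le_max_left _ _).trans hk), hm k ((le_max_right _ _).trans hk),
      add_zero]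
  smul_mem' := by
    intro c φ hφ g
    obtain ⟨n, hn⟩ := hφ g
    refine ⟨n, fun k hk => ?_⟩
    rw [Pi.smul_apply, hn k hk, smul_zero]

lemma Zsub_inv (T : (L inf)ˣ) : RTinv val (Zsub val inf T) := by
  intro h φ hφ g
  obtain ⟨n, hn⟩ := hφ (g * h)
  refine ⟨n, fun k hk => ?_⟩
  rw [RT, mul_assoc]
  exact hn k hk

/-- trivial action of `GL₂(K_p)` -/
lemma triv_action (hK : S_Triv) (hG : Good val emb inf) {π : CRep (GA val)} (hπ : Irred π) (p : P)
    (hsm : ∀ x : π.V, ∃ n : ℕ, ∀ k ∈ Cong (val p) n, π.ρ (loc val p k) x = x)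
    (w : π.V) (hw0 : w ≠ 0) (hw : ∀ k ∈ Cong (val p) 0, π.ρ (loc val p k) w = w)
    (hHecke : ∀ (ϖ : (L p)ˣ), val p (ϖ : L p) = WithZero.exp (-1 : ℤ) →
      ∀ E : Finset (L p), IsReps (val p) 1 E →
      ∑ c ∈ E, π.ρ (loc val p (upper ϖ c 1)) w + π.ρ (loc val p (upper 1 0 ϖ)) w =
        ((E.card : ℂ) + 1) • w)
    (hcen : ∀ ϖ : (L p)ˣ, π.ρ (loc val p (upper ϖ 0 ϖ)) w = w) :
    ∀ h x, π.ρ (loc val p h) x = x := by
  obtain ⟨ϖ, hϖ⟩ := (hG.loc p).unif
  have hϖ0 : ϖ ≠ 0 := by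
    rintro rfl
    rw [map_zero] at hϖ
    exact WithZero.exp_ne_zero hϖ.symm
  obtain ⟨E, hE⟩ := (hG.loc p).reps 1
  have hfix := hK (L p) (val p) (hG.loc p) (GA val) π hπ (loc val p)
    (fun g => by
      obtain ⟨c, hc, -⟩ := loc_comm val p g
      exact ⟨_, c, hc⟩) hsm (Units.mk0 ϖ hϖ0) hϖ E hE w hw
    (hHecke (Units.mk0 ϖ hϖ0) hϖ E hE) (hcen _)
  let W : Submodule ℂ π.V :=
    { carrier := {x | ∀ h, π.ρ (loc val p h) x = x}
      zero_mem' := fun h => map_zero _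
      add_mem' := fun {x y} hx hy h => by rw [map_add, hx, hy]
      smul_mem' := fun c x hx h => by rw [map_smul, hx] }
  have hW := hπ.2 W (by
    intro g x hx h
    obtain ⟨c, ⟨hc1, hc2⟩, -⟩ := loc_comm val p g
    have e1 : ∀ h' : G2 (L p), π.ρ (loc val p h' * c) x = π.ρ c x := by
      intro h'
      rw [← hc2, map_mul, Module.End.mul_apply, hx h']
    have e2 : π.ρ g x = π.ρ c x := by
      rw [hc1]; exact e1 _
    rw [e2, ← Module.End.mul_apply, ← map_mul, e1])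
  rcases hW with hW | hW
  · exfalso
    have : w ∈ W := hfix
    rw [hW] at this
    exact hw0 this
  · intro h x
    have : x ∈ W := by rw [hW]; trivial
    exact this h

/-- **The counterexample**: an automorphic representation `π₁` which is trivial at all places
except two and has a Steinberg component at `inf`, its lifting (the trivial representation), and a
cuspidal representation `π₂` with the same component at `inf`. -/
theorem exists_pair (hA : S_Irr) (hB : S_Avg) (hC : S_Fin) (hM : S_Conj) (hJ : S_Left)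
    (hN : S_Len) (hD : S_Cusp2) (hZn : S_Zorn) (hSt : S_St) (hI : S_Phi) (hK : S_Triv)
    (hQ1 : S_Q1) (hQ2 : S_Q2) (hQ3 : S_Q3) (hQ4 : S_Q4) (hTr : S_Tr)
    (hG : Good val emb inf) {pp : P} (hpp : pp ≠ inf)
    (hData : ∃ (τ ν : K) (α β : L inf) (f : (Fin 2 → L inf) → ℂ)
      (Φ : (∀ p, M2 (L p)) → ℂ),
      α ≠ β ∧ α + β = emb inf τ ∧ α * β = emb inf ν ∧ (∀ X : SX K τ ν, X.1 1 0 ≠ 0) ∧
      PF (val inf) f ∧ SB val inf Φ ∧ theta val emb inf τ ν α β f Φ 1 ≠ 0) :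
    ∃ (π₁ σ₁ π₂ : CRep (GA val)) (a b : IrrRep (val inf)),
      IsAutomorphic val emb π₁ ∧ IsLifting val emb π₁ σ₁ ∧
      (∀ p, p ≠ inf → p ≠ pp → ∀ g x, π₁.ρ (loc val p g) x = x) ∧
      (Module.finrank ℂ σ₁.V = 1 ∧ ∀ g x, σ₁.ρ g x = x) ∧
      Component val inf π₁ a.rep ∧ Component val inf σ₁ b.rep ∧
      IsAutomorphic val emb π₂ ∧ IsCuspidal val emb π₂ ∧ IsLifting val emb π₂ π₂ ∧
      Component val inf π₂ a.rep ∧ ¬ Iso b.rep a.rep := by
  obtain ⟨a, Q, q1, q2, q3, q4, q5, q6⟩ := hSt (L inf) (val inf) (hG.loc inf)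
  -- the cuspidal representation
  have hcusp : ∃ π : CRep (GA val), IsAutomorphic val emb π ∧ IsCuspidal val emb π ∧
      Component val inf π a.rep := by
    obtain ⟨τ, ν, α, β, f, Φ, hne, h1, h2, hX, hf, hΦ, h0⟩ := hData
    obtain ⟨π, T, -, -, -, -, k1, k2, k3⟩ := construct val emb inf hA hC hM hJ hN hD hZn hG
      hne h1 h2 hf hΦ ⊥ (fun g φ hφ => by
        rw [Submodule.mem_bot] at hφ ⊢
        rw [hφ]; rfl)
      (fun h => h0 (by rw [(Submodule.mem_bot ℂ).1 h]; rfl)) a Q q1 q2 q3 q4 q5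
    exact ⟨π, k1, k2 hX, k3⟩
  obtain ⟨π₂, c1, c2, c3⟩ := hcusp
  -- the non-isobaric representation
  obtain ⟨ϖ, hϖ⟩ := (hG.loc inf).unif
  have hϖ0 : ϖ ≠ 0 := by
    rintro rfl
    rw [map_zero] at hϖ
    exact WithZero.exp_ne_zero hϖ.symm
  have hT : val inf (((Units.mk0 ϖ hϖ0)⁻¹ : (L inf)ˣ) : L inf) = WithZero.exp (1 : ℤ) := by
    rw [Units.val_inv_eq_inv_val, map_inv₀, Units.val_mk0, hϖ, ← WithZero.exp_neg, neg_neg]
  generalize hTT : (Units.mk0 ϖ hϖ0)⁻¹ = Tu at hT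
  have hf₁ := (hQ3.1 (L inf) (val inf) (hG.loc inf)).1
  have hf₂ := (hQ3.1 (L pp) (val pp) (hG.loc pp)).1
  have hPhi := hI P L val inf pp hpp _ hf₂
  have hne : (1 : L inf) ≠ 0 := one_ne_zero
  have h1 : (1 : L inf) + 0 = emb inf 1 := by rw [map_one, add_zero]
  have h2 : (1 : L inf) * 0 = emb inf 0 := by rw [map_zero, mul_zero]
  have h0 : phi0 val emb inf pp (ind1 (val inf)) (ind1 (val pp)) ∉ Zsub val inf Tu := by
    intro h
    obtain ⟨n, hn⟩ := h 1
    obtain ⟨m, hm⟩ := hQ1 K P L val emb inf hG pp hpp Tu hT _ hf₁ _ hf₂ 1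
    have e1 := hn _ (le_max_left n m)
    rw [hm _ (le_max_right n m)] at e1
    simp only [GA_one_apply, act_one] at e1
    have e2 := hQ3.2 K P L val emb inf hG pp hpp Tu hT (max n m)
    rcases mul_eq_zero.1 e1 with e | e
    · norm_num at e
    · exact e2 e
  obtain ⟨φ, hφ'⟩ : ∃ φ, phi0 val emb inf pp (ind1 (val inf)) (ind1 (val pp)) = φ := ⟨_, rfl⟩
  have hφ : theta val emb inf (1 : K) 0 1 0 (ind1 (val inf))
    (PhiE val inf pp (ind1 (val pp))) = φ := hφ'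
  have hcon : ∃ (π : CRep (GA val)) (T : Vspan val φ →ₗ[ℂ] π.V),
      Function.Surjective T ∧
      (∀ g ψ, T ⟨RT val g ψ.1, Vspan_inv val _ g ψ.1 ψ.2⟩ = π.ρ g (T ψ)) ∧
      (∀ ψ, ψ.1 ∈ Zsub val inf Tu → T ψ = 0) ∧ T ⟨_, mem_Vspan val _⟩ ≠ 0 ∧
      IsAutomorphic val emb π ∧
      ((∀ X : SX K (1 : K) 0, X.1 1 0 ≠ 0) → IsCuspidal val emb π) ∧
      Component val inf π a.rep := by
    subst hφ'
    exact construct val emb inf hA hC hM hJ hN hD hZn hG
      hne h1 h2 hf₁ hPhi (Zsub val inf Tu) (Zsub_inv val inf Tu) h0 a Q q1 q2 q3 q4 q5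
  have hts := fun (ψ : GA val → ℂ) => exists_theta_sum val emb inf hM (1 : K) 0 1 0 hf₁ hPhi
    (ψ := ψ)
  have hai := avg_inf val emb inf hB hC hM hG hne h1 h2 hf₁ hPhi
  have hap := avg_pp val emb inf hB hQ4 hG hpp hf₁ hf₂
  simp only [hφ] at hts hai
  simp only [hφ'] at hap
  obtain ⟨π, T, t1, t2, t3, t4, t5, -, t6⟩ := hcon
  -- the action at the other places
  have htriv : ∀ p, p ≠ inf → p ≠ pp → ∀ h x, π.ρ (loc val p h) x = x := by
    intro p hp hp'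
    have q41 := (hQ4 K P L val emb inf hG pp hpp _ hf₁ _ hf₂).1 p hp hp'
    rw [hφ'] at q41
    refine triv_action val emb inf hK hG t5.1 p ?_ (T ⟨φ, mem_Vspan val φ⟩) t4 ?_ ?_ ?_
    · intro x
      obtain ⟨ψ, rfl⟩ := t1 x
      obtain ⟨s, f', Φ', hf', hΦ', hs⟩ := hts _ ψ.2
      obtain ⟨n, hn⟩ := sum_smooth val s (fun i => theta val emb inf (1 : K) 0 1 0 (f' i) (Φ' i))
        fun i hi => theta_smooth val emb inf _ _ _ _ (hf' i hi) (hΦ' i hi)
      refine ⟨n p, fun k hk => ?_⟩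
      rw [← t2]
      congr 1
      apply Subtype.ext
      change RT val (loc val p k) ψ.1 = ψ.1
      rw [hs]
      refine hn _ fun q => ?_
      rcases eq_or_ne q p with rfl | hq
      · rw [loc_same]; exact hk
      · rw [loc_ne val hq]; exact one_mem _
    · intro k hk
      rw [← t2]
      congr 1
      exact Subtype.ext (q41.1 k hk)
    · intro ϖ' hϖ' E hE
      have hmem : ∑ c ∈ E, RT val (loc val p (upper ϖ' c 1)) φ +
          RT val (loc val p (upper 1 0 ϖ')) φ - ((E.card : ℂ) + 1) • φ ∈ Zsub val inf Tu := by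
        intro g
        obtain ⟨n, hn⟩ := hQ2 K P L val emb inf hG pp hpp Tu hT _ hf₁ _ hf₂ g p hp hp' ϖ' hϖ' E hE
        refine ⟨n, fun k hk => ?_⟩
        have := hn k hk
        rw [hφ'] at this
        rw [Pi.sub_apply, Pi.add_apply, Finset.sum_apply, Pi.smul_apply, smul_eq_mul, ← this]
        simp only [RT, mul_assoc, sub_self]
      have hv : ∀ h : G2 (L p), RT val (loc val p h) φ ∈ Vspan val φ := fun h =>
        RT_mem_Vspan val φ _
      have h5 := t3 (∑ c ∈ E, (⟨RT val (loc val p (upper ϖ' c 1)) φ, hv _⟩ : Vspan val φ) +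
        ⟨RT val (loc val p (upper 1 0 ϖ')) φ, hv _⟩ -
        ((E.card : ℂ) + 1) • (⟨φ, mem_Vspan val φ⟩ : Vspan val φ)) (by
          convert hmem using 1
          rw [AddSubgroupClass.coe_sub, Submodule.coe_add, AddSubmonoidClass.coe_finsetSum]
          rfl)
      rw [map_sub, map_add, map_sum, map_smul, sub_eq_zero] at h5
      rw [← h5]
      congr 1
      · refine Finset.sum_congr rfl fun c _ => ?_
        rw [← t2]
      · rw [← t2]
    · intro ϖ'
      rw [← t2]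
      congr 1
      exact Subtype.ext (q41.2 ϖ')
  have hlift : IsLifting val emb π (trivRep (GA val)) := by
    obtain ⟨r1, -, r3⟩ := hTr K P L val emb
    refine ⟨r1, fun p b hb hc => ?_⟩
    rcases eq_or_ne p inf with rfl | hp
    · exact absurd hb (noFix val T t1 t2 p hai b hc)
    rcases eq_or_ne p pp with rfl | hp'
    · exact absurd hb (noFix val T t1 t2 p hap b hc)
    refine r3 p b fun g x => ?_
    obtain ⟨S, hS1, hS2⟩ := hc
    exact hS1 (by rw [hS2, htriv p hp hp'])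
  obtain ⟨b, -, hb2, hb3⟩ := (hTr K P L val emb).2.1 inf
  refine ⟨π, trivRep (GA val), π₂, a, b, t5, hlift, htriv,
    ⟨Module.finrank_self ℂ, fun g x => rfl⟩, t6, hb2, c1, c2,
    ⟨Or.inl c2, fun _ _ _ h => h⟩, c3, ?_⟩
  -- `b` is unramified and `a` is not
  rintro ⟨e, he⟩
  obtain ⟨x, hx0, hx⟩ := hb3
  apply q6
  refine ⟨e x, fun h => hx0 ?_, fun k hk => ?_⟩
  · simpa using h
  · rw [← he, hx k hk]

/-- There is no compatible local lifting. -/
theorem no_compatible_of_pair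
    (h : ∃ (π₁ σ₁ π₂ : CRep (GA val)) (a b : IrrRep (val inf)),
      IsAutomorphic val emb π₁ ∧ IsLifting val emb π₁ σ₁ ∧
      Component val inf π₁ a.rep ∧ Component val inf σ₁ b.rep ∧
      IsAutomorphic val emb π₂ ∧ IsLifting val emb π₂ π₂ ∧
      Component val inf π₂ a.rep ∧ ¬ Iso b.rep a.rep) :
    ¬ ∃ l : IrrRep (val inf) → IrrRep (val inf), Compatible val emb inf l := by
  rintro ⟨l, -, hl⟩
  obtain ⟨π₁, σ₁, π₂, a, b, h1, h2, h3, h4, h5, h6, h7, h8⟩ := h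
  obtain ⟨e1, he1⟩ := hl π₁ σ₁ h1 h2 a b h3 h4
  obtain ⟨e2, he2⟩ := hl π₂ π₂ h5 h6 a a h7 h7
  exact h8 ⟨e1.trans e2.symm, fun g x => by
    apply e2.injective
    rw [LinearEquiv.trans_apply, LinearEquiv.trans_apply, he2, LinearEquiv.apply_symm_apply,
      LinearEquiv.apply_symm_apply, he1]⟩

end

end Pool.Agent.U283.LL
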