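import Pool.Agent.U283.LL.Spec

/-!
# Project LL, package F, local part

The indicator functions of integrality of `x⁻¹ (1 -y; 0 0) x` and the neighbours in the tree.
-/

set_option autoImplicit false

open scoped WithZero Matrix
open Matrix

namespace Pool.Agent.U283.LL

noncomputable section

section locF

variable {F : Type} [Field F] (v : Valuation F ℤᵐ⁰)

/-- A matrix with integral entries. -/
def Intg (M : M2 F) : Prop := ∀ i j, v (M i j) ≤ 1

/-- Integrality of `x⁻¹ (1 -y; 0 0) x`. -/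
def IN (x : G2 F) (y : F) : Prop :=
  ∀ i j, v ((((x⁻¹ : G2 F) : M2 F) * !![1, -y; 0, 0] * (x : M2 F) : M2 F) i j) ≤ 1

lemma Intg.mul {M N : M2 F} (hM : Intg v M) (hN : Intg v N) : Intg v (M * N) := by
  intro i j
  rw [Matrix.mul_apply]
  refine v.map_sum_le fun k _ => ?_
  rw [map_mul]
  exact mul_le_one' (hM i k) (hN k j)

lemma one_entry_le (i j : Fin 2) : v ((1 : M2 F) i j) ≤ 1 := by
  by_cases h : i = j
  · subst h; simp
  · simp [Matrix.one_apply_ne h]

lemma exp_neg_zero_eq : (WithZero.exp (-((0 : ℕ) : ℤ)) : ℤᵐ⁰) = 1 := by simp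

lemma Intg.of_cong {k : G2 F} (hk : k ∈ Cong v 0) : Intg v (k : M2 F) := by
  intro i j
  have h := (hk i j).1
  rw [exp_neg_zero_eq] at h
  have e : (k : M2 F) i j = ((k : M2 F) i j - (1 : M2 F) i j) + (1 : M2 F) i j := by ring
  rw [e]
  exact v.map_add_le h (one_entry_le v i j)

lemma Intg.of_cong_inv {k : G2 F} (hk : k ∈ Cong v 0) : Intg v ((k⁻¹ : G2 F) : M2 F) :=
  Intg.of_cong v (inv_mem hk)

lemma mem_cong_of_intg {k : G2 F} (h1 : Intg v (k : M2 F)) (h2 : Intg v ((k⁻¹ : G2 F) : M2 F)) :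
    k ∈ Cong v 0 := by
  intro i j
  rw [exp_neg_zero_eq]
  exact ⟨v.map_sub_le (h1 i j) (one_entry_le v i j), v.map_sub_le (h2 i j) (one_entry_le v i j)⟩

lemma inv_entries (k : G2 F) : ((k⁻¹ : G2 F) : M2 F) =
    ((k : M2 F).det)⁻¹ • !![(k : M2 F) 1 1, -(k : M2 F) 0 1; -(k : M2 F) 1 0, (k : M2 F) 0 0] := by
  rw [Matrix.coe_units_inv, Matrix.inv_def, Ring.inverse_eq_inv', Matrix.adjugate_fin_two]

lemma mem_cong_of_det {k : G2 F} (h1 : Intg v (k : M2 F)) (h2 : v ((k : M2 F).det) = 1) :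
    k ∈ Cong v 0 := by
  refine mem_cong_of_intg v h1 ?_
  intro i j
  rw [inv_entries, Matrix.smul_apply, smul_eq_mul, map_mul, map_inv₀, h2, inv_one, one_mul]
  fin_cases i <;> fin_cases j <;> simp [h1 1 1, h1 0 1, h1 1 0, h1 0 0]

/-- Right multiplication by `GL₂(O)` does not change integrality. -/
lemma IN_mul_cong (x : G2 F) {k : G2 F} (hk : k ∈ Cong v 0) (y : F) :
    IN v (x * k) y ↔ IN v x y := by
  have key : ∀ (x : G2 F) (k : G2 F), k ∈ Cong v 0 → IN v x y → IN v (x * k) y := by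
    intro x k hk h
    have h' : Intg v (((x⁻¹ : G2 F) : M2 F) * !![1, -y; 0, 0] * (x : M2 F)) := h
    have e : (((x * k)⁻¹ : G2 F) : M2 F) * !![1, -y; 0, 0] * ((x * k : G2 F) : M2 F) =
        ((k⁻¹ : G2 F) : M2 F) * (((x⁻¹ : G2 F) : M2 F) * !![1, -y; 0, 0] * (x : M2 F)) *
          (k : M2 F) := by
      rw [_root_.mul_inv_rev]
      simp only [Units.val_mul, Matrix.mul_assoc]
    intro i j
    rw [e]
    exact ((Intg.of_cong_inv v hk).mul v h' |>.mul v (Intg.of_cong v hk)) i j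
  refine ⟨fun h => ?_, key x k hk⟩
  have := key (x * k) k⁻¹ (inv_mem hk) h
  simpa using this

lemma upper_val (a : Fˣ) (b : F) (d : Fˣ) : (upper a b d : M2 F) = !![(a : F), b; 0, (d : F)] := rfl

lemma upper_inv_val (a : Fˣ) (b : F) (d : Fˣ) : (((upper a b d)⁻¹ : G2 F) : M2 F) =
    !![(a : F)⁻¹, -b * (a : F)⁻¹ * (d : F)⁻¹; 0, (d : F)⁻¹] := by
  rw [inv_entries, upper_val]
  have ha := a.ne_zero
  have hd := d.ne_zero
  ext i j
  fin_cases i <;> fin_cases j <;> simp [Matrix.det_fin_two] <;> field_simp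

/-- The affine change of variable. -/
lemma IN_upper_mul (a : Fˣ) (b : F) (d : Fˣ) (h : G2 F) (y : F) :
    IN v (upper a b d * h) y ↔ IN v h (((d : F) * y - b) * (a : F)⁻¹) := by
  have ha := a.ne_zero
  have hd := d.ne_zero
  have e0 : (((upper a b d)⁻¹ : G2 F) : M2 F) * !![1, -y; 0, 0] * (upper a b d : M2 F) =
      !![1, -(((d : F) * y - b) * (a : F)⁻¹); 0, 0] := by
    rw [upper_inv_val, upper_val]
    ext i j
    fin_cases i <;> fin_cases j <;> simp [Matrix.mul_apply, Fin.sum_univ_two] <;>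
      field_simp <;> ring
  have e : (((upper a b d * h)⁻¹ : G2 F) : M2 F) * !![1, -y; 0, 0] *
      ((upper a b d * h : G2 F) : M2 F) =
        ((h⁻¹ : G2 F) : M2 F) * !![1, -(((d : F) * y - b) * (a : F)⁻¹); 0, 0] * (h : M2 F) := by
    rw [← e0, _root_.mul_inv_rev]
    simp only [Units.val_mul, Matrix.mul_assoc]
  unfold IN
  rw [e]

lemma IN_one (y : F) : IN v 1 y ↔ v y ≤ 1 := by
  unfold IN
  constructor
  · intro h
    have := h 0 1
    simpa [Matrix.mul_apply, Fin.sum_univ_two] using this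
  · intro h i j
    fin_cases i <;> fin_cases j <;> simp [Matrix.mul_apply, Fin.sum_univ_two, h]

lemma IN_upper (a : Fˣ) (b : F) (d : Fˣ) (y : F) :
    IN v (upper a b d) y ↔ v (((d : F) * y - b) * (a : F)⁻¹) ≤ 1 := by
  rw [← IN_one, ← IN_upper_mul, mul_one]

/-- Iwasawa decomposition. -/
lemma iwasawa (x : G2 F) : ∃ (a : Fˣ) (b : F) (d : Fˣ) (k : G2 F), k ∈ Cong v 0 ∧
    x = upper a b d * k := by
  -- it suffices to find `k ∈ GL₂(O)` with `(x k) 1 0 = 0`
  have key : ∀ (x k : G2 F), k ∈ Cong v 0 → ((x * k : G2 F) : M2 F) 1 0 = 0 →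
      ∃ (a : Fˣ) (b : F) (d : Fˣ) (k : G2 F), k ∈ Cong v 0 ∧ x = upper a b d * k := by
    intro x k hk h0
    have hdet : ((x * k : G2 F) : M2 F).det ≠ 0 := by
      have := (Matrix.isUnit_iff_isUnit_det _).1 (x * k).isUnit
      exact this.ne_zero
    rw [Matrix.det_fin_two, h0, mul_zero, sub_zero] at hdet
    refine ⟨Units.mk0 _ (left_ne_zero_of_mul hdet), ((x * k : G2 F) : M2 F) 0 1,
      Units.mk0 _ (right_ne_zero_of_mul hdet), k⁻¹, inv_mem hk, ?_⟩
    rw [eq_mul_inv_iff_mul_eq]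
    apply Units.ext
    rw [upper_val]
    ext i j
    fin_cases i <;> fin_cases j <;> simp
    simpa using h0
  -- lower triangular unipotent
  have low : ∀ c : F, v c ≤ 1 → ∃ k : G2 F, k ∈ Cong v 0 ∧ (k : M2 F) = !![1, 0; c, 1] := by
    intro c hc
    refine ⟨Matrix.GeneralLinearGroup.mkOfDetNeZero !![1, 0; c, 1] (by simp), ?_, rfl⟩
    apply mem_cong_of_det
    · intro i j
      fin_cases i <;> fin_cases j <;> simp [Matrix.GeneralLinearGroup.mkOfDetNeZero, hc]
    · show v (Matrix.det !![1, 0; c, 1]) = 1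
      simp [Matrix.det_fin_two]
  have sw : ∃ k : G2 F, k ∈ Cong v 0 ∧ (k : M2 F) = !![0, 1; 1, 0] := by
    refine ⟨Matrix.GeneralLinearGroup.mkOfDetNeZero !![0, 1; 1, 0] (by simp), ?_, rfl⟩
    apply mem_cong_of_det
    · intro i j
      fin_cases i <;> fin_cases j <;> simp [Matrix.GeneralLinearGroup.mkOfDetNeZero]
    · show v (Matrix.det !![0, 1; 1, 0]) = 1
      simp [Matrix.det_fin_two]
  have hrow : ¬ ((x : M2 F) 1 0 = 0 ∧ (x : M2 F) 1 1 = 0) := by
    rintro ⟨h1, h2⟩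
    have := ((Matrix.isUnit_iff_isUnit_det _).1 x.isUnit).ne_zero
    rw [Matrix.det_fin_two, h1, h2] at this
    simp at this
  rcases le_total (v ((x : M2 F) 1 0)) (v ((x : M2 F) 1 1)) with h | h
  · have h11 : (x : M2 F) 1 1 ≠ 0 := by
      intro h0
      rw [h0, map_zero, le_zero_iff, map_eq_zero] at h
      exact hrow ⟨h, h0⟩
    obtain ⟨k, hk, hke⟩ := low (-(x : M2 F) 1 0 * ((x : M2 F) 1 1)⁻¹) (by
      rw [map_mul, Valuation.map_neg, map_inv₀, ← div_eq_mul_inv]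
      exact div_le_one_of_le₀ h zero_le)
    refine key x k hk ?_
    rw [Units.val_mul, Matrix.mul_apply, Fin.sum_univ_two, hke]
    simp
    field_simp
    ring
  · have h10 : (x : M2 F) 1 0 ≠ 0 := by
      intro h0
      rw [h0, map_zero, le_zero_iff, map_eq_zero] at h
      exact hrow ⟨h0, h⟩
    obtain ⟨k, hk, hke⟩ := low (-(x : M2 F) 1 1 * ((x : M2 F) 1 0)⁻¹) (by
      rw [map_mul, Valuation.map_neg, map_inv₀, ← div_eq_mul_inv]
      exact div_le_one_of_le₀ h zero_le)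
    obtain ⟨w, hw, hwe⟩ := sw
    refine key x (w * k) (mul_mem hw hk) ?_
    rw [Units.val_mul, Units.val_mul, hke, hwe]
    simp [Matrix.mul_apply, Fin.sum_univ_two]
    field_simp
    ring

/-- The representatives of the neighbours. -/
def nb (ϖ : Fˣ) : Option F → G2 F
  | none => upper 1 0 ϖ
  | some c => upper ϖ c 1

lemma lt_one_iff_le_exp {F : Type} [Field F] (v : Valuation F ℤᵐ⁰) (x : F) :
    v x < 1 ↔ v x ≤ WithZero.exp (-1 : ℤ) := by
  by_cases h : v x = 0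
  · rw [h]; simp
  · obtain ⟨n, hn⟩ : ∃ n : ℤ, v x = WithZero.exp n := by
      exact ⟨WithZero.log (v x), (WithZero.exp_log h).symm⟩
    rw [hn, ← WithZero.exp_zero, WithZero.exp_lt_exp, WithZero.exp_le_exp]
    omega

variable {v}

lemma det_nb (ϖ : Fˣ) (j : Option F) : ((nb ϖ j : G2 F) : M2 F).det = ϖ := by
  cases j <;> simp [nb, upper_val, Matrix.det_fin_two]

lemma intg_nb {ϖ : Fˣ} (hϖ : v (ϖ : F) = WithZero.exp (-1 : ℤ)) {j : Option F}
    (hj : ∀ c, j = some c → v c ≤ 1) : Intg v ((nb ϖ j : G2 F) : M2 F) := by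
  have h1 : v (ϖ : F) ≤ 1 := by
    rw [hϖ, ← WithZero.exp_zero, WithZero.exp_le_exp]; omega
  cases j with
  | none => intro i j; fin_cases i <;> fin_cases j <;> simp [nb, upper_val, h1]
  | some c => 
    have := hj c rfl
    intro i j; fin_cases i <;> fin_cases j <;> simp [nb, upper_val, h1, this]

lemma div_unif_le {ϖ : Fˣ} (hϖ : v (ϖ : F) = WithZero.exp (-1 : ℤ)) (x : F) :
    v (x * (ϖ : F)⁻¹) ≤ 1 ↔ v x ≤ WithZero.exp (-1 : ℤ) := by
  rw [map_mul, map_inv₀, ← div_eq_mul_inv, div_le_one₀ (by rw [hϖ]; exact WithZero.exp_pos), hϖ]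

/-- Existence of the representative. -/
lemma exists_nb {ϖ : Fˣ} (hϖ : v (ϖ : F) = WithZero.exp (-1 : ℤ)) {E : Finset F}
    (hE : IsReps v 1 E) (h : G2 F) (hh : Intg v (h : M2 F))
    (hdet : v ((h : M2 F).det) = WithZero.exp (-1 : ℤ)) :
    ∃ j ∈ Finset.insertNone E, (nb ϖ j)⁻¹ * h ∈ Cong v 0 := by
  have hdd : ∀ j, v ((((nb ϖ j)⁻¹ * h : G2 F) : M2 F).det) = 1 := by
    intro j
    rw [Units.val_mul, Matrix.det_mul, map_mul, hdet]
    have : (((nb ϖ j)⁻¹ : G2 F) : M2 F).det = (ϖ : F)⁻¹ := by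
      rw [Matrix.coe_units_inv, Matrix.det_nonsing_inv, det_nb, Ring.inverse_eq_inv']
    rw [this, map_inv₀, hϖ]
    exact inv_mul_cancel₀ WithZero.exp_ne_zero
  rw [Matrix.det_fin_two] at hdet
  by_cases hA : v ((h : M2 F) 1 0) < 1 ∧ v ((h : M2 F) 1 1) < 1
  · obtain ⟨h1, h2⟩ := hA
    rw [lt_one_iff_le_exp] at h1 h2
    refine ⟨none, by simp, mem_cong_of_det v ?_ (hdd _)⟩
    rw [Units.val_mul]
    show Intg v ((((upper 1 0 ϖ)⁻¹ : G2 F) : M2 F) * (h : M2 F))
    rw [upper_inv_val]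
    intro i j
    fin_cases i <;> fin_cases j <;> simp [Matrix.mul_apply, Fin.sum_univ_two]
    · exact hh 0 0
    · exact hh 0 1
    · rw [← map_inv₀, ← map_mul, mul_comm, div_unif_le hϖ]; exact h1
    · rw [← map_inv₀, ← map_mul, mul_comm, div_unif_le hϖ]; exact h2
  · -- some entry of the second row is a unit
    suffices hs : ∃ c ∈ E, v ((h : M2 F) 0 0 - c * (h : M2 F) 1 0) ≤ WithZero.exp (-1 : ℤ) ∧
        v ((h : M2 F) 0 1 - c * (h : M2 F) 1 1) ≤ WithZero.exp (-1 : ℤ) by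
      obtain ⟨c, hc, h1, h2⟩ := hs
      refine ⟨some c, by simpa using hc, mem_cong_of_det v ?_ (hdd _)⟩
      rw [Units.val_mul]
      show Intg v ((((upper ϖ c 1)⁻¹ : G2 F) : M2 F) * (h : M2 F))
      rw [upper_inv_val]
      intro i j
      fin_cases i <;> fin_cases j <;> simp [Matrix.mul_apply, Fin.sum_univ_two]
      · have e : (ϖ : F)⁻¹ * (h : M2 F) 0 0 + -(c * (ϖ : F)⁻¹ * (h : M2 F) 1 0) =
          ((h : M2 F) 0 0 - c * (h : M2 F) 1 0) * (ϖ : F)⁻¹ := by ring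
        rw [e, div_unif_le hϖ]; exact h1
      · have e : (ϖ : F)⁻¹ * (h : M2 F) 0 1 + -(c * (ϖ : F)⁻¹ * (h : M2 F) 1 1) =
          ((h : M2 F) 0 1 - c * (h : M2 F) 1 1) * (ϖ : F)⁻¹ := by ring
        rw [e, div_unif_le hϖ]; exact h2
      · exact hh 1 0
      · exact hh 1 1
    have unit_cancel : ∀ a u : F, v u = 1 → v (a * u) ≤ WithZero.exp (-1 : ℤ) →
        v a ≤ WithZero.exp (-1 : ℤ) := by
      intro a u hu h
      rwa [map_mul, hu, mul_one] at h
    have hdet' : v ((h : M2 F) 0 0 * (h : M2 F) 1 1 - (h : M2 F) 0 1 * (h : M2 F) 1 0) ≤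
        WithZero.exp (-1 : ℤ) := hdet.le
    by_cases h11 : v ((h : M2 F) 1 1) < 1
    · have h10 : v ((h : M2 F) 1 0) = 1 := by
        apply le_antisymm (hh 1 0)
        by_contra hc
        exact hA ⟨not_le.1 hc, h11⟩
      have h10' : (h : M2 F) 1 0 ≠ 0 := by
        intro h0; rw [h0, map_zero] at h10; exact zero_ne_one h10
      obtain ⟨c, ⟨hc, hcv⟩, -⟩ := hE.2 ((h : M2 F) 0 0 * ((h : M2 F) 1 0)⁻¹) (by
        rw [map_mul, map_inv₀, h10, inv_one, mul_one]; exact hh 0 0)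
      have hcv' : v ((h : M2 F) 0 0 - c * (h : M2 F) 1 0) ≤ WithZero.exp (-1 : ℤ) := by
        have e : (h : M2 F) 0 0 - c * (h : M2 F) 1 0 =
          ((h : M2 F) 0 0 * ((h : M2 F) 1 0)⁻¹ - c) * (h : M2 F) 1 0 := by field_simp
        rw [e, map_mul, h10, mul_one]
        simpa using hcv
      refine ⟨c, hc, hcv', unit_cancel _ _ h10 ?_⟩
      have e : ((h : M2 F) 0 1 - c * (h : M2 F) 1 1) * (h : M2 F) 1 0 =
        -((h : M2 F) 0 0 * (h : M2 F) 1 1 - (h : M2 F) 0 1 * (h : M2 F) 1 0) +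
          ((h : M2 F) 0 0 - c * (h : M2 F) 1 0) * (h : M2 F) 1 1 := by ring
      rw [e]
      refine v.map_add_le (by rw [Valuation.map_neg]; exact hdet') ?_
      rw [map_mul]
      exact (mul_le_mul' hcv' (hh 1 1)).trans (by rw [mul_one])
    · have h11' : v ((h : M2 F) 1 1) = 1 := le_antisymm (hh 1 1) (not_lt.1 h11)
      have h11n : (h : M2 F) 1 1 ≠ 0 := by
        intro h0; rw [h0, map_zero] at h11'; exact zero_ne_one h11'
      obtain ⟨c, ⟨hc, hcv⟩, -⟩ := hE.2 ((h : M2 F) 0 1 * ((h : M2 F) 1 1)⁻¹) (by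
        rw [map_mul, map_inv₀, h11', inv_one, mul_one]; exact hh 0 1)
      have hcv' : v ((h : M2 F) 0 1 - c * (h : M2 F) 1 1) ≤ WithZero.exp (-1 : ℤ) := by
        have e : (h : M2 F) 0 1 - c * (h : M2 F) 1 1 =
          ((h : M2 F) 0 1 * ((h : M2 F) 1 1)⁻¹ - c) * (h : M2 F) 1 1 := by field_simp
        rw [e, map_mul, h11', mul_one]
        simpa using hcv
      refine ⟨c, hc, unit_cancel _ _ h11' ?_, hcv'⟩
      have e : ((h : M2 F) 0 0 - c * (h : M2 F) 1 0) * (h : M2 F) 1 1 =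
        ((h : M2 F) 0 0 * (h : M2 F) 1 1 - (h : M2 F) 0 1 * (h : M2 F) 1 0) +
          ((h : M2 F) 0 1 - c * (h : M2 F) 1 1) * (h : M2 F) 1 0 := by ring
      rw [e]
      refine v.map_add_le hdet' ?_
      rw [map_mul]
      exact (mul_le_mul' hcv' (hh 1 0)).trans (by rw [mul_one])

/-- Uniqueness of the representative. -/
lemma unique_nb {ϖ : Fˣ} (hϖ : v (ϖ : F) = WithZero.exp (-1 : ℤ)) {E : Finset F}
    (hE : IsReps v 1 E) {j j' : Option F} (hj : j ∈ Finset.insertNone E)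
    (hj' : j' ∈ Finset.insertNone E) (h : (nb ϖ j)⁻¹ * nb ϖ j' ∈ Cong v 0) : j = j' := by
  have hI := Intg.of_cong v h
  rw [Units.val_mul] at hI
  have hbig : ¬ v ((ϖ : F)⁻¹) ≤ 1 := by
    rw [map_inv₀, hϖ, ← WithZero.exp_neg, ← WithZero.exp_zero, WithZero.exp_le_exp]
    omega
  rcases j with _ | c <;> rcases j' with _ | c'
  · rfl
  · exfalso
    have h1 := hI 1 1
    simp only [nb, upper_inv_val, upper_val] at h1
    apply hbig
    simpa [Matrix.mul_apply, Fin.sum_univ_two] using h1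
  · exfalso
    have h1 := hI 0 0
    simp only [nb, upper_inv_val, upper_val] at h1
    apply hbig
    simpa [Matrix.mul_apply, Fin.sum_univ_two] using h1
  · have h1 := hI 0 1
    simp only [nb, upper_inv_val, upper_val] at h1
    have h2 : v ((c' - c) * (ϖ : F)⁻¹) ≤ 1 := by
      have e : (c' - c) * (ϖ : F)⁻¹ = (!![(ϖ : F)⁻¹, -c * (ϖ : F)⁻¹ * ((1 : Fˣ) : F)⁻¹; 0,
          ((1 : Fˣ) : F)⁻¹] * !![(ϖ : F), c'; 0, ((1 : Fˣ) : F)]) 0 1 := by
        simp [Matrix.mul_apply, Fin.sum_univ_two]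
        ring
      rw [e]; exact h1
    rw [div_unif_le hϖ] at h2
    have hc : c ∈ E := by simpa using hj
    have hc' : c' ∈ E := by simpa using hj'
    have := hE.2 c' (hE.1 c' hc')
    congr 1
    refine this.unique ⟨hc, by simpa using h2⟩ ⟨hc', by simp⟩

/-- The neighbours are permuted by `GL₂(O)`. -/
lemma sum_nb {ϖ : Fˣ} (hϖ : v (ϖ : F) = WithZero.exp (-1 : ℤ)) {E : Finset F}
    (hE : IsReps v 1 E) (f : G2 F → ℂ) (hf : ∀ h, ∀ k ∈ Cong v 0, f (h * k) = f h)
    {k : G2 F} (hk : k ∈ Cong v 0) :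
    ∑ j ∈ Finset.insertNone E, f (k * nb ϖ j) = ∑ j ∈ Finset.insertNone E, f (nb ϖ j) := by
  classical
  have ex : ∀ k ∈ Cong v 0, ∀ j ∈ Finset.insertNone E, ∃ j' ∈ Finset.insertNone E,
      (nb ϖ j')⁻¹ * (k * nb ϖ j) ∈ Cong v 0 := by
    intro k hk j hj
    refine exists_nb hϖ hE _ ?_ ?_
    · rw [Units.val_mul]
      refine (Intg.of_cong v hk).mul v (intg_nb hϖ ?_)
      rintro c rfl
      exact hE.1 c (by simpa using hj)
    · rw [Units.val_mul, Matrix.det_mul, det_nb, map_mul, hϖ]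
      have h1 : v (((k : G2 F) : M2 F).det) = 1 := by
        have a1 : ∀ k ∈ Cong v 0, v (((k : G2 F) : M2 F).det) ≤ 1 := by
          intro k hk
          have := Intg.of_cong v hk
          rw [Matrix.det_fin_two]
          refine v.map_sub_le ?_ ?_ <;> rw [map_mul] <;> exact mul_le_one' (this _ _) (this _ _)
        have e : (((k : G2 F) : M2 F).det) * (((k⁻¹ : G2 F) : M2 F).det) = 1 := by
          rw [← Matrix.det_mul, ← Units.val_mul, mul_inv_cancel]; simp
        have e' := congrArg v e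
        rw [map_mul, map_one] at e'
        apply le_antisymm (a1 k hk)
        by_contra hc
        rw [not_le] at hc
        have := a1 _ (inv_mem hk)
        have hlt : v (((k : G2 F) : M2 F).det) * v (((k⁻¹ : G2 F) : M2 F).det) < 1 :=
          (mul_le_of_le_one_right' this).trans_lt hc
        rw [e'] at hlt
        exact lt_irrefl _ hlt
      rw [h1, one_mul]
  have uq : ∀ k : G2 F, ∀ j ∈ Finset.insertNone E, ∀ j' ∈ Finset.insertNone E,
      ∀ j'' ∈ Finset.insertNone E, (nb ϖ j')⁻¹ * (k * nb ϖ j) ∈ Cong v 0 →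
      (nb ϖ j'')⁻¹ * (k * nb ϖ j) ∈ Cong v 0 → j' = j'' := by
    intro k j hj j' hj' j'' hj'' h1 h2
    refine unique_nb hϖ hE hj' hj'' ?_
    have := mul_mem h1 (inv_mem h2)
    convert this using 1
    group
  choose! σ hσ hσc using ex
  refine Finset.sum_bij' (fun j _ => σ k j) (fun j _ => σ k⁻¹ j) (fun j hj => hσ k hk j hj)
    (fun j hj => hσ k⁻¹ (inv_mem hk) j hj) ?_ ?_ ?_
  · intro j hj
    have h1 := hσc k hk j hj
    have h2 := hσc k⁻¹ (inv_mem hk) (σ k j) (hσ k hk j hj)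
    refine uq k⁻¹ (σ k j) (hσ k hk j hj) _ (hσ _ (inv_mem hk) _ (hσ k hk j hj)) j hj h2 ?_
    have := inv_mem h1
    convert this using 1
    group
  · intro j hj
    have h1 := hσc k⁻¹ (inv_mem hk) j hj
    have h2 := hσc k hk (σ k⁻¹ j) (hσ k⁻¹ (inv_mem hk) j hj)
    refine uq k (σ k⁻¹ j) (hσ k⁻¹ (inv_mem hk) j hj) _ (hσ _ hk _ (hσ k⁻¹ (inv_mem hk) j hj)) j hj
      h2 ?_
    have := inv_mem h1
    convert this using 1
    group
  · intro j hj
    have h1 := hσc k hk j hj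
    rw [← hf (nb ϖ (σ k j)) _ h1]
    congr 1
    group

open scoped Classical in
/-- The local identity. -/
lemma local_identity {ϖ : Fˣ} (hϖ : v (ϖ : F) = WithZero.exp (-1 : ℤ)) {E : Finset F}
    (hE : IsReps v 1 E) (x : G2 F) : ∃ s t : F, s ≠ 0 ∧
      (∀ y, IN v x y ↔ v (s * y - t) ≤ 1) ∧
      ∀ y, (∑ c ∈ E, if IN v (x * upper ϖ c 1) y then (1 : ℂ) else 0) +
          (if IN v (x * upper 1 0 ϖ) y then 1 else 0) =
        (if v (s * y - t) ≤ 1 then 1 else 0) + (if v ((ϖ : F) * (s * y - t)) ≤ 1 then 1 else 0) := by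
  obtain ⟨a, b, d, k, hk, rfl⟩ := iwasawa v x
  have ha := a.ne_zero
  have e0 : ∀ y : F, ((d : F) * y - b) * (a : F)⁻¹ = (d * (a : F)⁻¹) * y - b * (a : F)⁻¹ := by
    intro y; ring
  refine ⟨d * (a : F)⁻¹, b * (a : F)⁻¹, mul_ne_zero d.ne_zero (inv_ne_zero ha), ?_, ?_⟩
  · intro y
    rw [IN_mul_cong v _ hk, IN_upper, e0]
  · intro y
    set y' := (d * (a : F)⁻¹) * y - b * (a : F)⁻¹ with hy'
    have h1 : ∀ j, IN v (upper a b d * k * nb ϖ j) y ↔ IN v (k * nb ϖ j) y' := by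
      intro j
      rw [_root_.mul_assoc, IN_upper_mul, e0]
    have h2 := sum_nb hϖ hE (fun h => if IN v h y' then (1 : ℂ) else 0)
      (fun h k hk => by simp only [IN_mul_cong v h hk]) hk
    rw [Finset.sum_insertNone, Finset.sum_insertNone] at h2
    have h3 : (∑ c ∈ E, if IN v (upper a b d * k * upper ϖ c 1) y then (1 : ℂ) else 0) +
          (if IN v (upper a b d * k * upper 1 0 ϖ) y then 1 else 0) =
        (if IN v (k * nb ϖ none) y' then (1 : ℂ) else 0) +
          ∑ c ∈ E, if IN v (k * nb ϖ (some c)) y' then (1 : ℂ) else 0 := by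
      rw [add_comm]
      congr 1
      · exact if_congr (h1 none) rfl rfl
      · exact Finset.sum_congr rfl fun c _ => if_congr (h1 (some c)) rfl rfl
    rw [h3, h2, add_comm]
    congr 1
    · have h4 : ∀ c, IN v (nb ϖ (some c)) y' ↔ v (y' - c) ≤ WithZero.exp (-1 : ℤ) := by
        intro c
        show IN v (upper ϖ c 1) y' ↔ _
        rw [IN_upper, ← div_unif_le hϖ]
        simp
      simp only [h4]
      by_cases hy : v y' ≤ 1
      · rw [if_pos hy]
        obtain ⟨c, ⟨hc, hcv⟩, hu⟩ := hE.2 y' hy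
        rw [Finset.sum_eq_single c, if_pos (by simpa using hcv)]
        · intro c' hc' hne
          rw [if_neg]
          intro h
          exact hne (hu c' ⟨hc', by simpa using h⟩)
        · intro h; exact absurd hc h
      · rw [if_neg hy]
        refine Finset.sum_eq_zero fun c hc => ?_
        rw [if_neg]
        intro h
        apply hy
        have : y' = (y' - c) + c := by ring
        rw [this]
        refine v.map_add_le (h.trans ?_) (hE.1 c hc)
        rw [← WithZero.exp_zero, WithZero.exp_le_exp]; omega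
    · refine if_congr ?_ rfl rfl
      show IN v (upper 1 0 ϖ) y' ↔ _
      rw [IN_upper]
      simp

end locF

end

end Pool.Agent.U283.LL
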