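import Pool.Agent.U283.LL.Spec

/-!
# Project LL, packages G3 and G4: density (helper723)
-/

set_option autoImplicit false

open scoped WithZero Polynomial
open UniformSpace

namespace Pool.Agent.U283.LL.GD

noncomputable section

/-- a valued field is dense in its completion -/
lemma dens {K Γ : Type} [Field K] [LinearOrderedCommGroupWithZero Γ] [hv : Valued K Γ]
    (y : Completion K) (a : K) (ha : a ≠ 0) :
    ∃ x : K, Valued.v (y - (x : Completion K)) < hv.v a := by
  have ha' : (a : Completion K) ≠ 0 := by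
    intro h
    exact ha (Completion.coe_injective K (by rw [h, Completion.coe_zero]))
  let r := Valued.v.restrict (a : Completion K)
  have ho : IsOpen {z : Completion K | Valued.v.restrict z < r} := Valued.isOpen_ball _ r
  have ho2 : IsOpen {z : Completion K | Valued.v.restrict (y - z) < r} :=
    ho.preimage (continuous_const.sub continuous_id)
  have hne : ({z : Completion K | Valued.v.restrict (y - z) < r}).Nonempty := by
    refine ⟨y, ?_⟩
    show Valued.v.restrict (y - y) < r
    rw [sub_self, map_zero]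
    exact zero_lt_iff.2 ((Valuation.ne_zero_iff _).2 ha')
  obtain ⟨x, hx⟩ := Completion.denseRange_coe.exists_mem_open ho2 hne
  refine ⟨x, ?_⟩
  have h1 : Valued.v.restrict (y - (x : Completion K)) < Valued.v.restrict (a : Completion K) := hx
  rw [Valuation.restrict_lt_iff] at h1
  rwa [Valued.valuedCompletion_apply] at h1

lemma val_none (x : K0) : val0 none (emb0 none x) = RatFunc.inftyValuation (ZMod 2) x :=
  @Valued.valuedCompletion_apply K0 _ ℤᵐ⁰ _ (RatFunc.inftyValued (ZMod 2)) x

lemma val_some (v : IsDedekindDomain.HeightOneSpectrum (ZMod 2)[X]) (x : K0) :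
    val0 (some v) (emb0 (some v) x) = v.valuation K0 x :=
  IsDedekindDomain.HeightOneSpectrum.adicCompletion.valued_coe K0 v x

lemma dens_none (y : L0 none) (n : ℕ) :
    ∃ x : K0, val0 none (y - emb0 none x) ≤ WithZero.exp (-(n : ℤ)) := by
  have h0 : (RatFunc.X⁻¹ : K0) ^ n ≠ 0 := pow_ne_zero _ (inv_ne_zero RatFunc.X_ne_zero)
  obtain ⟨x, hx⟩ := @dens K0 ℤᵐ⁰ _ _ (RatFunc.inftyValued (ZMod 2)) y _ h0
  refine ⟨x, hx.le.trans ?_⟩
  show RatFunc.inftyValuation (ZMod 2) _ ≤ _
  rw [map_pow, map_inv₀, RatFunc.inftyValuation.X, ← WithZero.exp_neg, ← WithZero.exp_nsmul]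
  simp

lemma dens_some (v : IsDedekindDomain.HeightOneSpectrum (ZMod 2)[X]) (y : L0 (some v)) (n : ℕ) :
    ∃ x : K0, val0 (some v) (y - emb0 (some v) x) ≤ WithZero.exp (-(n : ℤ)) := by
  obtain ⟨π, hπ⟩ := v.valuation_exists_uniformizer K0
  have h0 : π ^ n ≠ 0 := by
    refine pow_ne_zero _ fun h => ?_
    rw [h, map_zero] at hπ
    exact WithZero.exp_ne_zero hπ.symm
  obtain ⟨x, hx⟩ := @dens (WithVal (v.valuation K0)) ℤᵐ⁰ _ _ _
    (IsDedekindDomain.HeightOneSpectrum.adicCompletion.toCompletion y)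
    (WithVal.toVal (v.valuation K0) (π ^ n)) (by simpa using h0)
  refine ⟨WithVal.ofVal x, hx.le.trans ?_⟩
  show v.valuation K0 (π ^ n) ≤ _
  rw [map_pow, hπ, ← WithZero.exp_nsmul]
  simp

end

end Pool.Agent.U283.LL.GD
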