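import Pool.Agent.U283.LL.Spec

/-!
# Project LL, package G1: finiteness properties of `𝔽₂(t)`
-/

set_option autoImplicit false

open scoped WithZero Matrix
open Matrix IsDedekindDomain Polynomial

namespace Pool.Agent.U283.LL

noncomputable section

theorem val0_some_emb0 (v : HeightOneSpectrum (Polynomial (ZMod 2))) (x : K0) :
    val0 (some v) (emb0 (some v) x) = v.valuation K0 x :=
  HeightOneSpectrum.valuedAdicCompletion_eq_valuation' v x

theorem val0_none_emb0 (x : K0) :
    val0 none (emb0 none x) = RatFunc.inftyValuation (ZMod 2) x := by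
  let _ := RatFunc.inftyValued (ZMod 2)
  exact Valued.valuedCompletion_apply (K := RatFunc (ZMod 2)) x

theorem g_fin : ∀ x : K0, {p | ¬ val0 p (emb0 p x) ≤ 1}.Finite := by
  intro x
  refine Set.Finite.subset ((((HeightOneSpectrum.Support.finite
    (Polynomial (ZMod 2)) x).image some).union (Set.finite_singleton none))) ?_
  intro p hp
  rcases p with _ | v
  · right; rfl
  · left
    refine ⟨v, ?_, rfl⟩
    have h : ¬ val0 (some v) (emb0 (some v) x) ≤ 1 := hp
    rw [val0_some_emb0] at h
    exact not_le.mp h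

/-- polynomials of bounded degree over `𝔽₂` form a finite set -/
theorem poly_finite (N : ℕ) : {r : Polynomial (ZMod 2) | r.natDegree ≤ N}.Finite := by
  have h : Finite (Polynomial.degreeLT (ZMod 2) (N + 1)) :=
    Finite.of_equiv _ (Polynomial.degreeLTEquiv (ZMod 2) (N + 1)).symm.toEquiv
  refine Set.Finite.subset (s := ((Polynomial.degreeLT (ZMod 2) (N + 1) :
    Submodule (ZMod 2) (Polynomial (ZMod 2))) : Set (Polynomial (ZMod 2)))) ?_ ?_
  · exact Set.toFinite _
  · intro r hr
    have hr' : r.natDegree ≤ N := hr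
    show r ∈ Polynomial.degreeLT (ZMod 2) (N + 1)
    rw [Polynomial.mem_degreeLT]
    exact lt_of_le_of_lt Polynomial.degree_le_natDegree (by exact_mod_cast Nat.lt_succ_of_le hr')

theorem inftyVal_poly {r : Polynomial (ZMod 2)} (hr : r ≠ 0) :
    RatFunc.inftyValuation (ZMod 2) (algebraMap (Polynomial (ZMod 2)) K0 r)
      = WithZero.exp (r.natDegree : ℤ) :=
  RatFunc.inftyValuation.polynomial (ZMod 2) hr

open scoped Classical in
/-- a nonzero polynomial with `v`-valuation at most `exp (- m v)` at all `v` -/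
theorem exists_den (m : P0 →₀ ℕ) : ∃ D : Polynomial (ZMod 2), D ≠ 0 ∧
    ∀ v : HeightOneSpectrum (Polynomial (ZMod 2)),
      v.intValuation D ≤ WithZero.exp (-(m (some v) : ℤ)) := by
  have hu : ∀ v : HeightOneSpectrum (Polynomial (ZMod 2)), ∃ π : Polynomial (ZMod 2),
    v.intValuation π = WithZero.exp (-1 : ℤ) := fun v => v.intValuation_exists_uniformizer
  choose π hπ using hu
  have hπ0 : ∀ v, π v ≠ 0 := by
    intro v h
    have := hπ v
    rw [h, map_zero] at this
    exact WithZero.exp_ne_zero this.symm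
  let g : P0 → Polynomial (ZMod 2) := fun p => match p with
    | none => 1
    | some v => π v ^ m (some v)
  have hg0 : ∀ p, g p ≠ 0 := by
    intro p
    rcases p with _ | v
    · exact one_ne_zero
    · exact pow_ne_zero _ (hπ0 v)
  refine ⟨∏ p ∈ m.support, g p, Finset.prod_ne_zero_iff.mpr fun p _ => hg0 p, ?_⟩
  intro v
  by_cases hv : some v ∈ m.support
  · rw [map_prod, ← Finset.mul_prod_erase _ _ hv]
    have h1 : v.intValuation (g (some v)) = WithZero.exp (-(m (some v) : ℤ)) := by
      show v.intValuation (π v ^ m (some v)) = _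
      rw [map_pow, hπ, ← WithZero.exp_nsmul]
      congr 1
      simp
    rw [h1]
    have h2 : ∏ x ∈ m.support.erase (some v), v.intValuation (g x) ≤ 1 :=
      Finset.prod_le_one' fun i _ => v.intValuation_le_one _
    calc _ ≤ WithZero.exp (-(m (some v) : ℤ)) * 1 := mul_le_mul' le_rfl h2
      _ = _ := mul_one _
  · have : m (some v) = 0 := by simpa using hv
    rw [this]
    have h3 := v.intValuation_le_one (∏ p ∈ m.support, g p)
    simpa only [Nat.cast_zero, neg_zero, WithZero.exp_zero] using h3

theorem g_disc : ∀ m : P0 →₀ ℕ,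
    {x : K0 | ∀ p, val0 p (emb0 p x) ≤ WithZero.exp (m p : ℤ)}.Finite := by
  intro m
  obtain ⟨D, hD0, hD⟩ := exists_den m
  have hD0' : algebraMap (Polynomial (ZMod 2)) K0 D ≠ 0 := by
    simpa using hD0
  refine Set.Finite.subset ((poly_finite (D.natDegree + m none)).image
    (fun r => algebraMap (Polynomial (ZMod 2)) K0 r / algebraMap (Polynomial (ZMod 2)) K0 D)) ?_
  intro x hx
  have hx' : ∀ p, val0 p (emb0 p x) ≤ WithZero.exp (m p : ℤ) := hx
  have hint : ∀ v : HeightOneSpectrum (Polynomial (ZMod 2)),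
      v.valuation K0 (algebraMap (Polynomial (ZMod 2)) K0 D * x) ≤ 1 := by
    intro v
    have h1 := hx' (some v)
    rw [val0_some_emb0] at h1
    rw [map_mul, HeightOneSpectrum.valuation_of_algebraMap]
    calc _ ≤ WithZero.exp (-(m (some v) : ℤ)) * WithZero.exp (m (some v) : ℤ) :=
          mul_le_mul' (hD v) h1
      _ = 1 := by rw [← WithZero.exp_add]; simp
  obtain ⟨r, hr⟩ := HeightOneSpectrum.mem_integers_of_valuation_le_one K0 _ hint
  refine ⟨r, ?_, ?_⟩
  · show r.natDegree ≤ _
    by_cases hr0 : r = 0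
    · rw [hr0]; simp
    have h1 := hx' none
    rw [val0_none_emb0] at h1
    have h2 : RatFunc.inftyValuation (ZMod 2) (algebraMap (Polynomial (ZMod 2)) K0 r) =
        RatFunc.inftyValuation (ZMod 2) (algebraMap (Polynomial (ZMod 2)) K0 D) *
          RatFunc.inftyValuation (ZMod 2) x := by
      rw [← map_mul, hr]
    rw [inftyVal_poly hr0, inftyVal_poly hD0] at h2
    have h3 : WithZero.exp (r.natDegree : ℤ) ≤ WithZero.exp (D.natDegree : ℤ) *
        WithZero.exp (m none : ℤ) := by
      rw [h2]; exact mul_le_mul' le_rfl h1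
    rw [← WithZero.exp_add, WithZero.exp_le_exp] at h3
    exact_mod_cast h3
  · show algebraMap (Polynomial (ZMod 2)) K0 r / algebraMap (Polynomial (ZMod 2)) K0 D = x
    rw [hr]
    field_simp

end

end Pool.Agent.U283.LL
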