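import Pool.Agent.U283.LL.PkgG0

/-!
# Project LL, package G3: the place at infinity of `𝔽₂(t)` is a local field (helper723)
-/

set_option autoImplicit false

open scoped WithZero Polynomial
open UniformSpace

namespace Pool.Agent.U283.LL

noncomputable section

namespace GD

/-- representatives from a finite set of approximations -/
lemma reps_of_fin {F : Type} [Field F] (v : Valuation F ℤᵐ⁰) (n : ℕ) (S : Set F) (hS : S.Finite)
    (h1 : ∀ s ∈ S, v s ≤ 1) (h2 : ∀ x, v x ≤ 1 → ∃ s ∈ S, v (x - s) ≤ WithZero.exp (-(n : ℤ))) :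
    ∃ E : Finset F, IsReps v n E := by
  classical
  have hle : (WithZero.exp (-(n : ℤ)) : ℤᵐ⁰) ≤ 1 := by
    rw [← WithZero.exp_zero, WithZero.exp_le_exp]; omega
  let st : Setoid F :=
    { r := fun x y => v (x - y) ≤ WithZero.exp (-(n : ℤ))
      iseqv := ⟨fun x => by simp, fun {x y} h => by rwa [Valuation.map_sub_swap],
        fun {x y z} h h' => by
          have : x - z = (x - y) + (y - z) := by ring
          rw [this]
          exact v.map_add_le h h'⟩ }
  have hout : ∀ x : F, v ((Quotient.mk st x).out - x) ≤ WithZero.exp (-(n : ℤ)) := fun x =>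
    Quotient.mk_out (s := st) x
  refine ⟨hS.toFinset.image fun s => (Quotient.mk st s).out, ?_, ?_⟩
  · intro e he
    rw [Finset.mem_image] at he
    obtain ⟨s, hs, rfl⟩ := he
    have : (Quotient.mk st s).out = ((Quotient.mk st s).out - s) + s := by ring
    rw [this]
    exact v.map_add_le ((hout s).trans hle) (h1 s (by simpa using hs))
  · intro x hx
    obtain ⟨s, hs, hxs⟩ := h2 x hx
    refine ⟨(Quotient.mk st s).out, ⟨Finset.mem_image.2 ⟨s, by simpa using hs, rfl⟩, ?_⟩, ?_⟩
    · have : x - (Quotient.mk st s).out = (x - s) - ((Quotient.mk st s).out - s) := by ring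
      rw [this]
      exact v.map_sub_le hxs (hout s)
    · rintro e ⟨he, hxe⟩
      rw [Finset.mem_image] at he
      obtain ⟨s', hs', rfl⟩ := he
      have h3 : (Quotient.mk st s') = Quotient.mk st s := by
        apply Quotient.sound
        show v (s' - s) ≤ _
        have : s' - s = (x - s) - (x - (Quotient.mk st s').out) - ((Quotient.mk st s').out - s') := by
          ring
        rw [this]
        exact v.map_sub_le (v.map_sub_le hxs hxe) (hout s')
      rw [h3]

/-- the polynomial part -/
lemma poly_part (y : K0) : ∃ r : (ZMod 2)[X],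
    RatFunc.inftyValuation (ZMod 2) (y - algebraMap _ K0 r) ≤ WithZero.exp (-1 : ℤ) := by
  classical
  refine ⟨y.num / y.denom, ?_⟩
  have hd : y.denom ≠ 0 := RatFunc.denom_ne_zero y
  have hd' : algebraMap (ZMod 2)[X] K0 y.denom ≠ 0 := RatFunc.algebraMap_ne_zero hd
  have h1 : y - algebraMap _ K0 (y.num / y.denom) =
      algebraMap _ K0 (y.num % y.denom) / algebraMap _ K0 y.denom := by
    rw [eq_div_iff hd', sub_mul]
    nth_rw 1 [← RatFunc.num_div_denom y]
    rw [div_mul_cancel₀ _ hd', ← map_mul, ← map_sub]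
    congr 1
    have := EuclideanDomain.div_add_mod y.num y.denom
    linear_combination -this
  rw [h1, map_div₀]
  by_cases h0 : y.num % y.denom = 0
  · rw [h0, map_zero, map_zero, zero_div]; exact zero_le
  · have e1 : RatFunc.inftyValuation (ZMod 2) (algebraMap _ K0 (y.num % y.denom)) = _ :=
      RatFunc.inftyValuation.polynomial (ZMod 2) h0
    have e2 : RatFunc.inftyValuation (ZMod 2) (algebraMap _ K0 y.denom) = _ :=
      RatFunc.inftyValuation.polynomial (ZMod 2) hd
    rw [e1, e2, ← WithZero.exp_sub, WithZero.exp_le_exp]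
    have h3 : (y.num % y.denom).natDegree < y.denom.natDegree := by
      have h4 := EuclideanDomain.mod_lt y.num hd
      exact Polynomial.natDegree_lt_natDegree h0 h4
    omega

lemma fin_deg (n : ℕ) : {p : (ZMod 2)[X] | p.degree < n}.Finite := by
  have : Finite (Polynomial.degreeLT (ZMod 2) n) :=
    Finite.of_equiv _ (Polynomial.degreeLTEquiv (ZMod 2) n).toEquiv.symm
  have h2 : {p : (ZMod 2)[X] | p.degree < n} = (Polynomial.degreeLT (ZMod 2) n : Set (ZMod 2)[X]) := by
    ext p; simp [Polynomial.mem_degreeLT]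
  rw [h2]
  exact Set.toFinite _

end GD

open GD in
theorem g_loc_none : LocalHyp (val0 none) := by
  classical
  refine ⟨⟨emb0 none RatFunc.X⁻¹, ?_⟩, fun n => ?_⟩
  · rw [val_none, map_inv₀, RatFunc.inftyValuation.X, ← WithZero.exp_neg]
  have hX : ∀ m : ℕ, RatFunc.inftyValuation (ZMod 2) ((RatFunc.X : K0) ^ m) =
      WithZero.exp (m : ℤ) := by
    intro m
    rw [map_pow, RatFunc.inftyValuation.X, ← WithZero.exp_nsmul]; simp
  have hXne : ∀ m : ℕ, (RatFunc.X : K0) ^ m ≠ 0 := fun m => pow_ne_zero _ RatFunc.X_ne_zero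
  refine reps_of_fin _ n
    ((fun p : (ZMod 2)[X] => emb0 none (algebraMap _ K0 p / RatFunc.X ^ n)) ''
      {p : (ZMod 2)[X] | p.degree < (n + 1 : ℕ)}) ((fin_deg (n + 1)).image _) ?_ ?_
  · rintro _ ⟨p, hp, rfl⟩
    show val0 none (emb0 none _) ≤ 1
    rw [val_none, map_div₀, hX]
    by_cases h0 : p = 0
    · rw [h0]; simp
    · have e1 : RatFunc.inftyValuation (ZMod 2) (algebraMap _ K0 p) = _ :=
        RatFunc.inftyValuation.polynomial (ZMod 2) h0
      rw [e1, ← WithZero.exp_sub, ← WithZero.exp_zero, WithZero.exp_le_exp]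
      have h3 : p.natDegree < n + 1 := (Polynomial.natDegree_lt_iff_degree_lt h0).2 hp
      omega
  · intro x hx
    obtain ⟨y, hy⟩ := dens_none x n
    obtain ⟨r, hr⟩ := poly_part (y * RatFunc.X ^ n)
    have hle : (WithZero.exp (-(n : ℤ)) : ℤᵐ⁰) ≤ 1 := by
      rw [← WithZero.exp_zero, WithZero.exp_le_exp]; omega
    -- the valuation of y
    have hy1 : RatFunc.inftyValuation (ZMod 2) y ≤ 1 := by
      rw [← val_none]
      have : emb0 none y = x - (x - emb0 none y) := by ring
      rw [this]
      exact (val0 none).map_sub_le hx (hy.trans hle)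
    have hr1 : RatFunc.inftyValuation (ZMod 2) (algebraMap _ K0 r) ≤ WithZero.exp (n : ℤ) := by
      have : algebraMap _ K0 r = y * RatFunc.X ^ n - (y * RatFunc.X ^ n - algebraMap _ K0 r) := by
        ring
      rw [this]
      refine (RatFunc.inftyValuation (ZMod 2)).map_sub_le ?_ (hr.trans ?_)
      · rw [map_mul, hX]
        calc _ ≤ 1 * WithZero.exp (n : ℤ) := mul_le_mul' hy1 le_rfl
          _ = _ := one_mul _
      · rw [WithZero.exp_le_exp]; omega
    refine ⟨_, ⟨r, ?_, rfl⟩, ?_⟩
    · show r.degree < (n + 1 : ℕ)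
      by_cases h0 : r = 0
      · rw [h0, Polynomial.degree_zero]; exact WithBot.bot_lt_coe _
      · have e1 : RatFunc.inftyValuation (ZMod 2) (algebraMap _ K0 r) = _ :=
          RatFunc.inftyValuation.polynomial (ZMod 2) h0
        rw [e1, WithZero.exp_le_exp] at hr1
        exact (Polynomial.natDegree_lt_iff_degree_lt h0).1 (by omega)
    · have e : x - emb0 none (algebraMap _ K0 r / RatFunc.X ^ n) =
          (x - emb0 none y) + emb0 none (y - algebraMap _ K0 r / RatFunc.X ^ n) := by
        rw [map_sub]; ring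
      show val0 none (x - emb0 none (algebraMap _ K0 r / RatFunc.X ^ n)) ≤ _
      rw [e]
      refine (val0 none).map_add_le hy ?_
      rw [val_none]
      have e2 : y - algebraMap _ K0 r / RatFunc.X ^ n =
          (y * RatFunc.X ^ n - algebraMap _ K0 r) / RatFunc.X ^ n := by
        rw [sub_div, mul_div_cancel_right₀ _ (hXne n)]
      rw [e2, map_div₀, hX, div_le_iff₀ (by simp), ← WithZero.exp_add]
      refine hr.trans ?_
      rw [WithZero.exp_le_exp]; omega

end

end Pool.Agent.U283.LL
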