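import Pool.Agent.U283.LL.Spec

/-!
# Project LL, package H: the root of `a² + a = u²` in the completion at infinity
-/

set_option autoImplicit false
set_option maxHeartbeats 200000
set_option synthInstance.maxHeartbeats 40000

open scoped WithZero Matrix Topology
open Matrix Polynomial IsDedekindDomain Filter

namespace Pool.Agent.U283.LL.PkgH

noncomputable section

theorem val0_none (x : K0) : val0 none (emb0 none x) = RatFunc.inftyValuation (ZMod 2) x := by
  letI := RatFunc.inftyValued (ZMod 2)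
  exact Valued.extensionValuation_apply_coe x

theorem val0_some (v : HeightOneSpectrum (Polynomial (ZMod 2))) (x : K0) :
    val0 (some v) (emb0 (some v) x) = v.valuation K0 x :=
  HeightOneSpectrum.valuedAdicCompletion_eq_valuation' v x

theorem nonarch (E : Type) [Field E] [Valued E ℤᵐ⁰] : NonarchimedeanRing E where
  is_nonarchimedean U hU := by
    obtain ⟨γ, hγ⟩ := Valued.mem_nhds_zero.1 hU
    refine ⟨⟨Valuation.ltAddSubgroup Valued.v.restrict γ, ?_⟩, ?_⟩
    · have h := Valued.isOpen_ball E γ.val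
      exact h
    · exact hγ

theorem exists_root {E : Type} [Field E] [Valued E ℤᵐ⁰] [CompleteSpace E] (h2 : (2 : E) = 0)
    (u : E) (hu : Valued.v u < 1) : ∃ a : E, a ^ 2 + a = u ∧ Valued.v a < 1 := by
  have := nonarch E
  have hp : Tendsto (fun n : ℕ => u ^ n) atTop (𝓝 0) := Valued.tendsto_zero_pow_of_v_lt_one hu
  have hp2 : Tendsto (fun i : ℕ => u ^ 2 ^ i) atTop (𝓝 0) :=
    hp.comp (tendsto_pow_atTop_atTop_of_one_lt one_lt_two)
  have hs : Summable (fun i : ℕ => u ^ 2 ^ i) :=
    NonarchimedeanAddGroup.summable_of_tendsto_cofinite_zero (by rwa [Nat.cofinite_eq_atTop])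
  have hsq : ∀ x y : E, (x + y) ^ 2 = x ^ 2 + y ^ 2 := by
    intro x y
    linear_combination (x * y) * h2
  let φ : E →+ E := ⟨⟨fun x => x ^ 2, by simp⟩, hsq⟩
  have hφ : Continuous φ := continuous_pow 2
  have h1 : φ (∑' i, u ^ 2 ^ i) = ∑' i, u ^ 2 ^ (i + 1) := by
    rw [(hs.hasSum.map φ hφ).tsum_eq.symm]
    refine tsum_congr fun i => ?_
    show (u ^ 2 ^ i) ^ 2 = _
    rw [← pow_mul, pow_succ]
  have h3 := hs.tsum_eq_zero_add
  rw [← h1] at h3
  refine ⟨∑' i, u ^ 2 ^ i, ?_, ?_⟩
  · have h4 : φ (∑' i, u ^ 2 ^ i) = (∑' i, u ^ 2 ^ i) ^ 2 := rfl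
    rw [h4] at h3
    rw [pow_zero, pow_one] at h3
    linear_combination h3 + ((∑' i, u ^ 2 ^ i) ^ 2) * h2
  · have hc : IsClosed {x : E | Valued.v x < 1} := by
      have := Valued.isClosed_ball E 1
      simpa only [Valuation.restrict_lt_one_iff] using this
    have hmem : ∀ s : Finset ℕ, ∑ i ∈ s, u ^ 2 ^ i ∈ {x : E | Valued.v x < 1} := by
      intro s
      refine Valuation.map_sum_lt (Valued.v : Valuation E ℤᵐ⁰) (g := 1) one_ne_zero fun i _ => ?_
      rw [map_pow]
      exact pow_lt_one₀ zero_le' hu (by positivity)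
    exact hc.mem_of_tendsto hs.hasSum (Eventually.of_forall hmem)

instance : CompleteSpace (RatFunc.CompletionAtInfty (ZMod 2)) := by
  letI := RatFunc.inftyValued (ZMod 2)
  exact inferInstanceAs (CompleteSpace (UniformSpace.Completion (RatFunc (ZMod 2))))

theorem two0 (p : P0) : (2 : L0 p) = 0 := by
  have : (2 : K0) = 0 := by
    have := CharP.cast_eq_zero (RatFunc (ZMod 2)) 2
    exact_mod_cast this
  rw [← map_ofNat (emb0 p) 2, this, map_zero]

theorem exists_alpha (u : L0 none) (hu : val0 none u < 1) :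
    ∃ a : L0 none, a ^ 2 + a = u ∧ val0 none a < 1 :=
  exists_root (E := RatFunc.CompletionAtInfty (ZMod 2)) (two0 none) u hu

end

end Pool.Agent.U283.LL.PkgH
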