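import Pool.Agent.U283.LL.PkgHa

/-!
# Project LL, package H: the local lemma and the lemmas over `𝔽₂(t)`
-/

set_option autoImplicit false
set_option maxHeartbeats 400000

open scoped WithZero Matrix Topology
open Matrix Polynomial IsDedekindDomain Filter

namespace Pool.Agent.U283.LL.PkgH

noncomputable section

section loc

variable {F : Type} [Field F] (v : Valuation F ℤᵐ⁰)

theorem one_le_of_lt {x : ℤᵐ⁰} (h : 1 < x) : 1 ≤ WithZero.exp (-1 : ℤ) * x := by
  have hx : x ≠ 0 := (zero_lt_one.trans h).ne'
  obtain ⟨n, rfl⟩ : ∃ n : ℤ, x = WithZero.exp n := ⟨WithZero.log x, (WithZero.exp_log hx).symm⟩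
  rw [← WithZero.exp_zero, WithZero.exp_lt_exp] at h
  rw [← WithZero.exp_add, ← WithZero.exp_zero, WithZero.exp_le_exp]
  omega

/-- the column `j` of `Y - β` -/
def cl (β : F) (Y : M2 F) (j : Fin 2) : Fin 2 → F := fun i => (Y - Matrix.scalar (Fin 2) β) i j

theorem cl_apply (β : F) (Y : M2 F) (j i : Fin 2) :
    cl β Y j i = Y i j - if i = j then β else 0 := by
  simp only [cl, Matrix.sub_apply, Matrix.scalar_apply, Matrix.diagonal_apply]

theorem ev_cl (f : (Fin 2 → F) → ℂ) (hf : ∀ (c : F) (x), c ≠ 0 → f (c • x) = f x) (β : F) (Y : M2 F)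
    (hdet : (Y 0 0 - β) * (Y 1 1 - β) = Y 0 1 * Y 1 0) (j : Fin 2) (hj : cl β Y j ≠ 0) :
    f (ev β Y) = f (cl β Y j) := by
  by_cases h0 : ∃ i, (Y - Matrix.scalar (Fin 2) β) i 0 ≠ 0
  · have e : ev β Y = cl β Y 0 := by
      unfold ev
      rw [if_pos h0]
      rfl
    rw [e]
    fin_cases j
    · rfl
    · show f (cl β Y 0) = f (cl β Y 1)
      have h00 : cl β Y 0 0 = Y 0 0 - β := by rw [cl_apply]; simp
      have h01 : cl β Y 0 1 = Y 1 0 := by rw [cl_apply]; simp
      have h10 : cl β Y 1 0 = Y 0 1 := by rw [cl_apply]; simp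
      have h11 : cl β Y 1 1 = Y 1 1 - β := by rw [cl_apply]; simp
      have hd : cl β Y 0 0 * cl β Y 1 1 = cl β Y 0 1 * cl β Y 1 0 := by
        rw [h00, h01, h10, h11, hdet]; ring
      have hj' : cl β Y 1 ≠ 0 := hj
      have h0' : cl β Y 0 ≠ 0 := by
        obtain ⟨i, hi⟩ := h0
        intro h
        exact hi (congrFun h i)
      -- `x = cl 0`, `y = cl 1`, both nonzero and dependent
      have key : ∀ x y : Fin 2 → F, x ≠ 0 → y ≠ 0 → x 0 * y 1 = x 1 * y 0 →
          ∃ c : F, c ≠ 0 ∧ x = c • y := by
        intro x y hx hy h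
        by_cases hy0 : y 0 = 0
        · have hy1 : y 1 ≠ 0 := by
            intro h1
            apply hy
            funext i
            fin_cases i
            · exact hy0
            · exact h1
          have hx0 : x 0 = 0 := by
            rw [hy0, mul_zero] at h
            rcases mul_eq_zero.1 h with h | h
            · exact h
            · exact absurd h hy1
          have hx1 : x 1 ≠ 0 := by
            intro h1
            apply hx
            funext i
            fin_cases i
            · exact hx0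
            · exact h1
          refine ⟨x 1 / y 1, div_ne_zero hx1 hy1, ?_⟩
          funext i
          fin_cases i
          · simp [hx0, hy0]
          · simp [hy1]
        · have hx0 : x 0 ≠ 0 := by
            intro h1
            rw [h1, zero_mul] at h
            have hx1 : x 1 = 0 := by
              rcases mul_eq_zero.1 h.symm with h | h
              · exact h
              · exact absurd h hy0
            apply hx
            funext i
            fin_cases i
            · exact h1
            · exact hx1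
          refine ⟨x 0 / y 0, div_ne_zero hx0 hy0, ?_⟩
          funext i
          fin_cases i
          · simp [hy0]
          · simp only [Fin.mk_one, Pi.smul_apply, smul_eq_mul]
            rw [div_mul_eq_mul_div, h, mul_div_assoc, div_self hy0, mul_one]
      obtain ⟨c, hc, e2⟩ := key _ _ h0' hj' hd
      rw [e2, hf c _ hc]
  · have e : ev β Y = cl β Y 1 := by
      unfold ev
      rw [if_neg h0]
      rfl
    rw [e]
    fin_cases j
    · exfalso
      apply hj
      funext i
      by_contra hi
      exact h0 ⟨i, hi⟩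
    · rfl

/-- If the entries of `Y` are not integral then `f` does not separate the eigenlines. -/
theorem ev_eq (f : (Fin 2 → F) → ℂ) (hf : PFm v 1 f) (α β : F) (Y : M2 F)
    (htr : Y 0 0 + Y 1 1 = α + β) (hdet : Y 0 0 * Y 1 1 - Y 0 1 * Y 1 0 = α * β)
    (hα : v α ≤ 1) (hβ : v β ≤ 1) (i j : Fin 2) (hij : 1 < v (Y i j)) :
    f (ev β Y) = f (ev α Y) := by
  have hdα : (Y 0 0 - α) * (Y 1 1 - α) = Y 0 1 * Y 1 0 := by
    linear_combination hdet - α * htr
  have hdβ : (Y 0 0 - β) * (Y 1 1 - β) = Y 0 1 * Y 1 0 := by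
    linear_combination hdet - β * htr
  have big : ∀ γ : F, v γ ≤ 1 → 1 < v (cl γ Y j i) := by
    intro γ hγ
    rw [cl_apply]
    have h1 : v (if i = j then γ else 0) < v (Y i j) := by
      split_ifs
      · exact hγ.trans_lt hij
      · rw [map_zero]
        exact zero_lt_one.trans hij
    rw [Valuation.map_sub_eq_of_lt_left v h1]
    exact hij
  have ne : ∀ γ : F, v γ ≤ 1 → cl γ Y j ≠ 0 := by
    intro γ hγ h
    have := big γ hγ
    rw [h, Pi.zero_apply, map_zero] at this
    exact absurd this (not_lt.2 zero_le')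
  rw [ev_cl f hf.2.1 β Y hdβ j (ne β hβ), ev_cl f hf.2.1 α Y hdα j (ne α hα)]
  symm
  refine hf.2.2 _ _ (ne β hβ) ?_
  have h1 : 1 < nrm v (cl β Y j) := by
    refine (big β hβ).trans_le ?_
    fin_cases i
    · exact le_max_left _ _
    · exact le_max_right _ _
  refine le_trans ?_ (one_le_of_lt (x := nrm v (cl β Y j)) h1)
  have h2 : ∀ k, v ((cl α Y j - cl β Y j) k) ≤ 1 := by
    intro k
    rw [Pi.sub_apply, cl_apply, cl_apply]
    have : Y k j - (if k = j then α else 0) - (Y k j - if k = j then β else 0) =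
        if k = j then β - α else 0 := by
      split_ifs <;> ring
    rw [this]
    split_ifs
    · exact v.map_sub_le hβ hα
    · rw [map_zero]
      exact zero_le'
  exact max_le (h2 0) (h2 1)

/-- the entries of `A` have valuation at most `r` -/
def NB (r : ℤᵐ⁰) (A : M2 F) : Prop := ∀ i j, v (A i j) ≤ r

theorem NB.mul {r s : ℤᵐ⁰} {A B : M2 F} (hA : NB v r A) (hB : NB v s B) : NB v (r * s) (A * B) := by
  intro i j
  rw [Matrix.mul_apply]
  refine v.map_sum_le fun k _ => ?_
  rw [map_mul]
  exact mul_le_mul' (hA i k) (hB k j)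

theorem NB.add {r : ℤᵐ⁰} {A B : M2 F} (hA : NB v r A) (hB : NB v r B) : NB v r (A + B) :=
  fun i j => v.map_add_le (hA i j) (hB i j)

theorem NB.mono {r s : ℤᵐ⁰} {A : M2 F} (hA : NB v r A) (h : r ≤ s) : NB v s A :=
  fun i j => (hA i j).trans h

theorem NB.of_cong {n : ℕ} {g : G2 F} (hg : g ∈ Cong v n) :
    NB v (WithZero.exp (-(n : ℤ))) ((g : M2 F) - 1) ∧
      NB v (WithZero.exp (-(n : ℤ))) (((g⁻¹ : G2 F) : M2 F) - 1) :=
  ⟨fun i j => (hg i j).1, fun i j => (hg i j).2⟩

theorem NB.one_cong {n : ℕ} {g : G2 F} (hg : g ∈ Cong v n) : NB v 1 (g : M2 F) := by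
  have h1 : (g : M2 F) = ((g : M2 F) - 1) + 1 := by abel
  rw [h1]
  refine NB.add v ((NB.of_cong v hg).1.mono v ?_) ?_
  · rw [← WithZero.exp_zero, WithZero.exp_le_exp]
    omega
  · intro i j
    rw [Matrix.one_apply]
    split_ifs <;> simp

theorem conj_close {n : ℕ} {g : G2 F} (hg : g ∈ Cong v n) {A X : M2 F} {c d : ℤᵐ⁰}
    (hA : NB v c (A - X)) (hX : NB v d X) (hc : c ≤ d) (hd : WithZero.exp (-(n : ℤ)) * d ≤ c) :
    NB v c (((g⁻¹ : G2 F) : M2 F) * A * (g : M2 F) - X) := by
  have hA2 : NB v d A := by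
    have : A = (A - X) + X := by abel
    rw [this]
    exact NB.add v (hA.mono v hc) hX
  have e : ((g⁻¹ : G2 F) : M2 F) * A * (g : M2 F) - X =
      ((((g⁻¹ : G2 F) : M2 F) - 1) * A * (g : M2 F) + A * ((g : M2 F) - 1)) + (A - X) := by
    noncomm_ring
  rw [e]
  refine NB.add v (NB.add v ?_ ?_) hA
  · have h1 := ((NB.of_cong v hg).2.mul v hA2).mul v (NB.one_cong v hg)
    exact h1.mono v (by rwa [mul_one])
  · have h1 := hA2.mul v (NB.of_cong v hg).1
    exact h1.mono v (by rwa [mul_comm])

/-- the test function at infinity -/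
def f0 (x : Fin 2 → F) : ℂ := open scoped Classical in if x 1 ≠ 0 ∧ v (x 0) ≤ v (x 1) then 1 else 0

theorem f0_PFm : PFm v 1 (f0 v) := by
  refine ⟨?_, ?_, ?_⟩
  · unfold f0
    rw [if_neg]
    rintro ⟨h, -⟩
    exact h rfl
  · intro c x hc
    unfold f0
    have hvc : 0 < v c := zero_lt_iff.2 ((Valuation.ne_zero_iff v).2 hc)
    have h1 : ((c • x) 1 ≠ 0 ∧ v ((c • x) 0) ≤ v ((c • x) 1)) ↔ (x 1 ≠ 0 ∧ v (x 0) ≤ v (x 1)) := by
      rw [Pi.smul_apply, Pi.smul_apply, smul_eq_mul, smul_eq_mul, map_mul, map_mul,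
        mul_le_mul_iff_of_pos_left hvc]
      refine and_congr_left fun _ => not_congr ?_
      rw [mul_eq_zero]
      exact ⟨fun h => h.resolve_left hc, Or.inr⟩
    by_cases h : x 1 ≠ 0 ∧ v (x 0) ≤ v (x 1)
    · rw [if_pos h, if_pos (h1.2 h)]
    · rw [if_neg h, if_neg (fun h' => h (h1.1 h'))]
  · intro x y hx hxy
    have hlt : ∀ k, v (y k - x k) < nrm v x := by
      intro k
      have hn : 0 < nrm v x := by
        have : ∃ k, x k ≠ 0 := by
          by_contra hne
          push Not at hne
          exact hx (funext hne)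
        obtain ⟨k, hk⟩ := this
        have h1 : 0 < v (x k) := zero_lt_iff.2 ((Valuation.ne_zero_iff v).2 hk)
        refine h1.trans_le ?_
        fin_cases k
        · exact le_max_left _ _
        · exact le_max_right _ _
      have h1 : v (y k - x k) ≤ nrm v (y - x) := by
        fin_cases k
        · exact le_max_left _ _
        · exact le_max_right _ _
      refine (h1.trans hxy).trans_lt ?_
      have h2 : (WithZero.exp (-((1 : ℕ) : ℤ)) : ℤᵐ⁰) < 1 := by
        rw [← WithZero.exp_zero, WithZero.exp_lt_exp]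
        norm_num
      exact mul_lt_of_lt_one_left hn h2
    have eq_of : ∀ k, v (x k) = nrm v x → v (y k) = nrm v x := by
      intro k hk
      have h1 : y k = x k + (y k - x k) := by ring
      rw [h1, Valuation.map_add_eq_of_lt_left v (by rw [hk]; exact hlt k), hk]
    have lt_of : ∀ k, v (x k) < nrm v x → v (y k) < nrm v x := by
      intro k hk
      have h1 : y k = x k + (y k - x k) := by ring
      rw [h1]
      exact v.map_add_lt hk (hlt k)
    have le_of : ∀ k, v (y k) ≤ nrm v x := by
      intro k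
      have h1 : y k = x k + (y k - x k) := by ring
      rw [h1]
      refine v.map_add_le ?_ (hlt k).le
      fin_cases k
      · exact le_max_left _ _
      · exact le_max_right _ _
    unfold f0
    by_cases h : x 1 ≠ 0 ∧ v (x 0) ≤ v (x 1)
    · have h1 : v (x 1) = nrm v x := (max_eq_right h.2).symm
      have h2 := eq_of 1 h1
      have h3 : y 1 ≠ 0 := by
        rw [← Valuation.ne_zero_iff v, h2, ← h1]
        exact (Valuation.ne_zero_iff v).2 h.1
      rw [if_pos h, if_pos ⟨h3, by rw [h2]; exact le_of 0⟩]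
    · have h0 : v (x 1) < v (x 0) := by
        by_contra h'
        rw [not_lt] at h'
        apply h
        refine ⟨fun h1 => ?_, h'⟩
        rw [h1, map_zero] at h'
        have h0 : x 0 = 0 := (map_eq_zero v).1 (le_antisymm h' zero_le')
        apply hx
        funext k
        fin_cases k
        · exact h0
        · exact h1
      have h1 : v (x 0) = nrm v x := (max_eq_left h0.le).symm
      have h2 := eq_of 0 h1
      have h3 := lt_of 1 (by rw [← h1]; exact h0)
      rw [if_neg h, if_neg]
      rintro ⟨-, h4⟩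
      rw [h2] at h4
      exact absurd h3 (not_lt.2 h4)

end loc

end

end Pool.Agent.U283.LL.PkgH
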