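import Pool.Agent.U283.LL.PkgHb

/-!
# Project LL, package H: the lemmas over `𝔽₂(t)`
-/

set_option autoImplicit false
set_option maxHeartbeats 400000

open scoped WithZero Matrix Topology
open Matrix Polynomial IsDedekindDomain Filter

namespace Pool.Agent.U283.LL.PkgH

noncomputable section

theorem neg_eq (x : K0) : -x = x := by
  have h : (2 : K0) = 0 := by
    have := CharP.cast_eq_zero (RatFunc (ZMod 2)) 2
    exact_mod_cast this
  linear_combination (-x) * h

/-- `1/t` -/
def u0 : K0 := (RatFunc.X : K0)⁻¹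

theorem u0_mul : u0 * (RatFunc.X : K0) = 1 := inv_mul_cancel₀ RatFunc.X_ne_zero

theorem u0_ne : u0 ≠ 0 := inv_ne_zero RatFunc.X_ne_zero

theorem noroot (a : K0) : a ^ 2 + a ≠ u0 ^ 2 := by
  intro h
  have h2 : (2 : K0) = 0 := by
    have := CharP.cast_eq_zero (RatFunc (ZMod 2)) 2
    exact_mod_cast this
  -- `b = a t` satisfies `b² + t b + 1 = 0`
  have hb : (a * RatFunc.X) ^ 2 + RatFunc.X * (a * RatFunc.X) = 1 := by
    have h1 : (a * RatFunc.X) ^ 2 + RatFunc.X * (a * RatFunc.X) = (a ^ 2 + a) * (RatFunc.X : K0) ^ 2 := by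
      ring
    rw [h1, h, ← mul_pow, u0_mul, one_pow]
  have hint : IsIntegral (Polynomial (ZMod 2)) (a * RatFunc.X : K0) := by
    refine ⟨X ^ 2 + C X * X - 1, ?_, ?_⟩
    · have : (X ^ 2 + C X * X - 1 : Polynomial (Polynomial (ZMod 2))) =
        X ^ 2 + (C X * X - 1) := by ring
      rw [this]
      refine monic_X_pow_add ?_
      refine lt_of_le_of_lt (degree_sub_le _ _) ?_
      refine max_lt ?_ ?_
      · exact lt_of_le_of_lt (degree_C_mul_X_le _) (by norm_num)
      · rw [degree_one]; norm_num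
    · rw [← Polynomial.aeval_def]
      simp only [map_sub, map_add, map_mul, map_pow, aeval_X, aeval_C, map_one,
        RatFunc.algebraMap_X]
      rw [hb, sub_self]
  obtain ⟨q, hq⟩ := (IsIntegrallyClosed.isIntegral_iff (R := Polynomial (ZMod 2)) (K := K0)).1 hint
  have h3 : q * (q + X) = 1 := by
    apply RatFunc.algebraMap_injective (ZMod 2)
    rw [map_mul, map_add, RatFunc.algebraMap_X, hq, map_one, ← hb]
    ring
  have hu1 : IsUnit q := IsUnit.of_mul_eq_one _ h3
  have hu2 : IsUnit (q + X) := IsUnit.of_mul_eq_one _ (by rw [mul_comm]; exact h3)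
  have e : (X : Polynomial (ZMod 2)) = (q + X) - q := by ring
  have h4 := natDegree_sub_le (q + X) q
  rw [← e, natDegree_X, natDegree_eq_zero_of_isUnit hu1, natDegree_eq_zero_of_isUnit hu2] at h4
  simp at h4

theorem small (z : K0) (h : ∀ v : HeightOneSpectrum (Polynomial (ZMod 2)),
    v.valuation K0 z ≤ v.valuation K0 RatFunc.X)
    (hi : RatFunc.inftyValuation (ZMod 2) z ≤ 1) : z = 0 := by
  obtain ⟨r, hr⟩ := HeightOneSpectrum.mem_integers_of_valuation_le_one K0 (z / RatFunc.X) (by
    intro v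
    rw [map_div₀]
    exact div_le_one_of_le₀ (h v) zero_le')
  have hz : z = algebraMap (Polynomial (ZMod 2)) K0 r * RatFunc.X := by
    rw [hr, div_mul_cancel₀ _ RatFunc.X_ne_zero]
  by_cases h0 : r = 0
  · rw [hz, h0, map_zero, zero_mul]
  exfalso
  rw [hz, map_mul, RatFunc.inftyValuation.X, RatFunc.inftyValuation_apply,
    RatFunc.inftyValuation.polynomial _ h0, ← WithZero.exp_add, ← WithZero.exp_zero,
    WithZero.exp_le_exp] at hi
  omega

/-- the place `t` -/
abbrev pt : P0 := some (Polynomial.idealX (ZMod 2))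

theorem val_t_other (v : HeightOneSpectrum (Polynomial (ZMod 2))) (hv : v ≠ Polynomial.idealX (ZMod 2)) :
    v.valuation K0 RatFunc.X = 1 := by
  rw [← RatFunc.algebraMap_X, HeightOneSpectrum.valuation_eq_one_iff_notMem]
  intro hX
  apply hv
  have h1 : (Polynomial.idealX (ZMod 2)).asIdeal ≤ v.asIdeal := by
    rw [Polynomial.idealX_span, Ideal.span_singleton_le_iff_mem]
    exact hX
  have h2 := ((Polynomial.idealX (ZMod 2)).isMaximal.eq_of_le v.isPrime.ne_top h1)
  exact HeightOneSpectrum.ext h2.symm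

theorem val_t : (Polynomial.idealX (ZMod 2)).valuation K0 RatFunc.X = WithZero.exp (-1 : ℤ) :=
  Polynomial.valuation_X_eq_neg_one (ZMod 2)

end

end Pool.Agent.U283.LL.PkgH
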