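import Pool.Agent.U283.LL.Rep

/-!
# Project LL, package N: finite length
-/

set_option autoImplicit false

open scoped WithZero Matrix
open Matrix

namespace Pool.Agent.U283.LL

noncomputable section

namespace PkgN

/-! ### Chains of invariant subspaces of a finite sum of simple ones -/

section chain

variable {V : Type} [AddCommGroup V] [Module ℂ V] {G : Type} (R : G → V →ₗ[ℂ] V)

/-- The subspace `W` is invariant. -/
def Inv (W : Submodule ℂ V) : Prop := ∀ g, ∀ w ∈ W, R g w ∈ W

/-- The subspace is invariant and has no invariant subspaces except zero and itself. -/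
def Simp (S : Submodule ℂ V) : Prop := Inv R S ∧ ∀ W, Inv R W → W ≤ S → W = ⊥ ∨ W = S

variable {R}

theorem Inv.inf {A B : Submodule ℂ V} (hA : Inv R A) (hB : Inv R B) : Inv R (A ⊓ B) :=
  fun g w hw => ⟨hA g w hw.1, hB g w hw.2⟩

theorem Inv.sup {A B : Submodule ℂ V} (hA : Inv R A) (hB : Inv R B) : Inv R (A ⊔ B) := by
  intro g w hw
  obtain ⟨a, ha, b, hb, rfl⟩ := Submodule.mem_sup.1 hw
  rw [map_add]
  exact Submodule.add_mem_sup (hA g a ha) (hB g b hb)

theorem inv_bot : Inv R (⊥ : Submodule ℂ V) := by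
  intro g w hw
  rw [Submodule.mem_bot] at hw ⊢
  rw [hw, map_zero]

theorem between {A S U : Submodule ℂ V} (hS : Simp R S) (hU : Inv R U)
    (h1 : A ≤ U) (h2 : U ≤ A ⊔ S) : U = A ∨ U = A ⊔ S := by
  have h3 : (A ⊔ S) ⊓ U = A ⊔ S ⊓ U := sup_inf_assoc_of_le S h1
  rw [inf_eq_right.2 h2] at h3
  rcases hS.2 (S ⊓ U) (hS.1.inf hU) inf_le_left with h | h
  · left; rw [h3, h, sup_bot_eq]
  · right; rw [h3, h]

/-- the sum of a list of subspaces -/
def tot (l : List (Submodule ℂ V)) : Submodule ℂ V := l.foldr (· ⊔ ·) ⊥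

theorem inv_tot (l : List (Submodule ℂ V)) (hl : ∀ S ∈ l, Simp R S) : Inv R (tot l) := by
  induction l with
  | nil => exact inv_bot
  | cons S l ih =>
    exact (hl S (List.mem_cons_self ..)).1.sup (ih fun T hT => hl T (List.mem_cons_of_mem _ hT))

theorem chain_le (l : List (Submodule ℂ V)) (hl : ∀ S ∈ l, Simp R S) :
    ∀ (n : ℕ) (W : Fin (n + 1) → Submodule ℂ V), StrictMono W →
      (∀ i, Inv R (W i) ∧ W i ≤ tot l) → n ≤ l.length := by
  induction l with
  | nil =>
    intro n W hW h
    by_contra hn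
    have hn' : 0 < n := Nat.pos_of_ne_zero (by simpa using hn)
    have h1 : W 0 < W (Fin.last n) := hW (by
      rw [Fin.lt_def]; simpa using hn')
    have h2 : W (Fin.last n) ≤ ⊥ := (h _).2
    exact absurd (lt_of_lt_of_le h1 h2) not_lt_bot
  | cons S l ih =>
    intro n W hW h
    have hS := hl S (List.mem_cons_self ..)
    have hl' : ∀ T ∈ l, Simp R T := fun T hT => hl T (List.mem_cons_of_mem _ hT)
    set A := tot l with hAdef
    have hA : Inv R A := inv_tot l hl'
    have htot : tot (S :: l) = A ⊔ S := by rw [sup_comm]; rfl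
    by_cases hex : ∃ i, ¬ W i ≤ A
    · -- the least index
      obtain ⟨j, hj, hjmin⟩ : ∃ j, ¬ W j ≤ A ∧ ∀ i, i < j → W i ≤ A := by
        classical
        obtain ⟨j, hj1, hj2⟩ := WellFounded.has_min (wellFounded_lt (α := Fin (n + 1)))
          {i | ¬ W i ≤ A} hex
        exact ⟨j, hj1, fun i hi => by
          by_contra hc
          exact hj2 i hc hi⟩
      have hsup : ∀ i, j ≤ i → W i ⊔ A = A ⊔ S := by
        intro i hi
        have h1 : ¬ W i ≤ A := fun hc => hj ((hW.monotone hi).trans hc)
        rcases between hS ((h i).1.sup hA) (le_sup_right : A ≤ W i ⊔ A)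
          (sup_le ((h i).2.trans_eq htot) le_sup_left) with h2 | h2
        · exact absurd (le_sup_left.trans_eq h2) h1
        · exact h2
      rcases n with _ | n
      · exact Nat.zero_le _
      · have key : StrictMono fun i : Fin (n + 1) => W (j.succAbove i) ⊓ A := by
          intro a b hab
          have hab' : j.succAbove a < j.succAbove b := Fin.strictMono_succAbove j hab
          have hstep : ∀ x y, j ≤ x → x < y → W x ⊓ A < W y ⊓ A := by
            intro x y hx hxy
            refine inf_lt_inf_of_lt_of_sup_le_sup (hW hxy) ?_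
            rw [hsup x hx, hsup y (hx.trans hxy.le)]
          rcases lt_or_ge (j.succAbove b) j with hb | hb
          · have ha : j.succAbove a < j := hab'.trans hb
            show W (j.succAbove a) ⊓ A < W (j.succAbove b) ⊓ A
            rw [inf_eq_left.2 (hjmin _ ha), inf_eq_left.2 (hjmin _ hb)]
            exact hW hab'
          · rcases lt_or_ge (j.succAbove a) j with ha | ha
            · have hb' : j < j.succAbove b := lt_of_le_of_ne hb (Fin.succAbove_ne j b).symm
              refine lt_of_le_of_lt ?_ (hstep j _ le_rfl hb')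
              exact inf_le_inf_right A (hW.monotone ha.le)
            · exact hstep _ _ ha hab'
        have := ih hl' n (fun i => W (j.succAbove i) ⊓ A) key
          (fun i => ⟨(h _).1.inf hA, inf_le_right⟩)
        simpa using this
    · push Not at hex
      have := ih hl' n W hW (fun i => ⟨(h i).1, hex i⟩)
      exact this.trans (by simp)

end chain

section glob

variable {K : Type} [Field K] {P : Type} {L : P → Type} [∀ p, Field (L p)]
  (val : ∀ p, Valuation (L p) ℤᵐ⁰) (emb : ∀ p, K →+* L p) (inf : P)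

/-- Right translation by an element of `GL₂(K_inf)` as a linear map. -/
def RL (g : G2 (L inf)) : (GA val → ℂ) →ₗ[ℂ] (GA val → ℂ) where
  toFun φ := RT val (loc val inf g) φ
  map_add' _ _ := rfl
  map_smul' _ _ := rfl

/-- The space of the series with a given Schwartz function. -/
def Sp (hC : S_Fin) (hM : S_Conj) (hG : Good val emb inf) {τ ν : K} {α β : L inf}
    (hne : α ≠ β) (h1 : α + β = emb inf τ) (h2 : α * β = emb inf ν)
    {Φ : (∀ p, M2 (L p)) → ℂ} (hΦ : SB val inf Φ) : Submodule ℂ (GA val → ℂ) where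
  carrier := {φ | ∃ f, PF (val inf) f ∧ φ = theta val emb inf τ ν α β f Φ}
  zero_mem' := ⟨0, PF_zero _, by
    have := theta_smul val emb inf (τ := τ) (ν := ν) (α := α) (β := β) 0 0 Φ
    rw [zero_smul, zero_smul] at this
    exact this.symm⟩
  add_mem' := by
    rintro _ _ ⟨f, hf, rfl⟩ ⟨f', hf', rfl⟩
    exact ⟨f + f', PF_add _ hf hf', (theta_add val emb inf hC hM hG hne h1 h2 hf hf' hΦ).symm⟩
  smul_mem' := by
    rintro c _ ⟨f, hf, rfl⟩
    exact ⟨c • f, PF_smul _ c hf, (theta_smul val emb inf c f Φ).symm⟩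

theorem simp_Sp (hA : S_Irr) (hC : S_Fin) (hM : S_Conj) (hG : Good val emb inf) {τ ν : K}
    {α β : L inf} (hne : α ≠ β) (h1 : α + β = emb inf τ) (h2 : α * β = emb inf ν)
    {Φ : (∀ p, M2 (L p)) → ℂ} (hΦ : SB val inf Φ) :
    Simp (RL val inf) (Sp val emb inf hC hM hG hne h1 h2 hΦ) := by
  refine ⟨?_, ?_⟩
  · rintro g _ ⟨f, hf, rfl⟩
    exact ⟨act g f, PF_act _ g hf, RT_theta_inf val emb inf τ ν α β f hΦ g⟩
  · intro W hW hle
    -- the functions `f` whose series is in `W`
    let U : Submodule ℂ ((Fin 2 → L inf) → ℂ) :=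
      { carrier := {f | PF (val inf) f ∧ theta val emb inf τ ν α β f Φ ∈ W}
        zero_mem' := ⟨PF_zero _, by
          have := theta_smul val emb inf (τ := τ) (ν := ν) (α := α) (β := β) 0 0 Φ
          rw [zero_smul, zero_smul] at this
          rw [this]
          exact W.zero_mem⟩
        add_mem' := by
          rintro f f' ⟨hf, hw⟩ ⟨hf', hw'⟩
          refine ⟨PF_add _ hf hf', ?_⟩
          rw [theta_add val emb inf hC hM hG hne h1 h2 hf hf' hΦ]
          exact W.add_mem hw hw'
        smul_mem' := by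
          rintro c f ⟨hf, hw⟩
          refine ⟨PF_smul _ c hf, ?_⟩
          rw [theta_smul]
          exact W.smul_mem c hw }
    have hU := hA (L inf) (val inf) (hG.loc inf) U (fun f hf => hf.1)
      (by
        rintro g f ⟨hf, hw⟩
        refine ⟨PF_act _ g hf, ?_⟩
        rw [← RT_theta_inf val emb inf τ ν α β f hΦ g]
        exact hW g _ hw)
      ⟨PF_one1 _, by
        rw [theta_one1 val emb inf hne h1 h2 Φ]
        exact W.zero_mem⟩
    rcases hU with h | h
    · left
      rw [eq_bot_iff]
      intro φ hφ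
      obtain ⟨f, hf, rfl⟩ := hle hφ
      obtain ⟨c, hc⟩ := h f ⟨hf, hφ⟩
      rw [Submodule.mem_bot, hc, theta_smul, theta_one1 val emb inf hne h1 h2 Φ, smul_zero]
    · right
      refine le_antisymm hle ?_
      rintro _ ⟨f, hf, rfl⟩
      exact (h f hf).2

end glob

end PkgN

open PkgN in
/-- Package N: finite length. -/
theorem pkg_N : S_Irr → S_Fin → S_Conj → S_Len := by
  classical
  intro hA hC hM K _ P L _ val emb inf hG τ ν α β hne h1 h2 ι s f Φ hf hΦ
  -- the list of the simple spaces
  let l : List (Submodule ℂ (GA val → ℂ)) := s.attach.toList.map fun i =>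
    Sp val emb inf hC hM hG hne h1 h2 (hΦ i.1 i.2)
  have hl : ∀ S ∈ l, Simp (RL val inf) S := by
    intro S hS
    obtain ⟨i, -, rfl⟩ := List.mem_map.1 hS
    exact simp_Sp val emb inf hA hC hM hG hne h1 h2 _
  have hle : ∀ S ∈ l, S ≤ tot l := by
    have gen : ∀ (m : List (Submodule ℂ (GA val → ℂ))), ∀ S ∈ m, S ≤ tot m := by
      intro m
      induction m with
      | nil => intro S hS; simp at hS
      | cons T m ih =>
        intro S hS
        rcases List.mem_cons.1 hS with rfl | hS
        · exact le_sup_left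
        · exact (ih S hS).trans le_sup_right
    exact gen l
  have hmem : (∑ i ∈ s, theta val emb inf τ ν α β (f i) (Φ i)) ∈ tot l := by
    refine Submodule.sum_mem _ fun i hi => ?_
    refine hle (Sp val emb inf hC hM hG hne h1 h2 (hΦ i hi)) ?_ ⟨f i, hf i hi, rfl⟩
    exact List.mem_map.2 ⟨⟨i, hi⟩, by simp, rfl⟩
  refine ⟨l.length, fun k W hW h => ?_⟩
  refine chain_le (R := RL val inf) l hl k W hW fun i => ⟨fun g w hw => (h i).1 g w hw, ?_⟩
  refine (h i).2.trans (Submodule.span_le.2 ?_)
  rintro _ ⟨g, rfl⟩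
  exact inv_tot l hl g _ hmem

end

end Pool.Agent.U283.LL
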