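import Pool.Agent.U283.LL.Spec2

/-!
# Project LL: equivariance of the series
-/

set_option autoImplicit false

open scoped WithZero Matrix
open Matrix

namespace Pool.Agent.U283.LL

noncomputable section

section loc

variable {F : Type} [Field F] (v : Valuation F ℤᵐ⁰)

lemma act_mul (g h : G2 F) (f : (Fin 2 → F) → ℂ) : act (g * h) f = act g (act h f) := by
  funext x
  simp only [act]
  rw [_root_.mul_inv_rev, Units.val_mul, Matrix.mulVec_mulVec]

lemma act_one (f : (Fin 2 → F) → ℂ) : act (1 : G2 F) f = f := by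
  funext x
  simp [act]

lemma act_add (g : G2 F) (f f' : (Fin 2 → F) → ℂ) : act g (f + f') = act g f + act g f' := rfl

lemma act_smul (g : G2 F) (c : ℂ) (f : (Fin 2 → F) → ℂ) : act g (c • f) = c • act g f := rfl

lemma act_zero (g : G2 F) : act g (0 : (Fin 2 → F) → ℂ) = 0 := rfl

lemma act_sum {ι : Type} (s : Finset ι) (g : G2 F) (f : ι → (Fin 2 → F) → ℂ) :
    act g (∑ i ∈ s, f i) = ∑ i ∈ s, act g (f i) := by
  funext x
  simp only [act, Finset.sum_apply]

lemma mulVec_eq_zero_iff' (g : G2 F) (x : Fin 2 → F) : (g : M2 F) *ᵥ x = 0 ↔ x = 0 := by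
  constructor
  · intro h
    have : ((g⁻¹ : G2 F) : M2 F) *ᵥ ((g : M2 F) *ᵥ x) = 0 := by rw [h, Matrix.mulVec_zero]
    rwa [Matrix.mulVec_mulVec, ← Units.val_mul, inv_mul_cancel, Units.val_one,
      Matrix.one_mulVec] at this
  · rintro rfl
    exact Matrix.mulVec_zero _

lemma act_one1 (g : G2 F) : act g (one1 F) = one1 F := by
  funext x
  by_cases h : x = 0
  · simp [act, one1, h]
  · have h' : ((g⁻¹ : G2 F) : M2 F) *ᵥ x ≠ 0 := fun h0 => h ((mulVec_eq_zero_iff' _ _).1 h0)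
    simp only [act, one1, if_neg h, if_neg h']

lemma nrm_le_iff (x : Fin 2 → F) (c : ℤᵐ⁰) : nrm v x ≤ c ↔ ∀ i, v (x i) ≤ c := by
  rw [nrm, max_le_iff, Fin.forall_fin_two]

lemma le_nrm (x : Fin 2 → F) (i : Fin 2) : v (x i) ≤ nrm v x := (nrm_le_iff v x _).1 le_rfl i

lemma nrm_zero : nrm v (0 : Fin 2 → F) = 0 := by simp [nrm]

lemma nrm_ne_zero {x : Fin 2 → F} (hx : x ≠ 0) : nrm v x ≠ 0 := by
  intro h
  apply hx
  funext i
  have := le_nrm v x i
  rw [h] at this
  have h0 : v (x i) = 0 := le_antisymm this zero_le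
  simpa using h0

/-- bound of a matrix -/
lemma exists_bound (g : M2 F) : ∃ c : ℕ, ∀ i j, v (g i j) ≤ WithZero.exp (c : ℤ) := by
  have key : ∀ y : ℤᵐ⁰, ∃ c : ℕ, y ≤ WithZero.exp (c : ℤ) := by
    intro y
    rcases eq_or_ne y 0 with rfl | hy
    · exact ⟨0, zero_le⟩
    · refine ⟨(WithZero.log y).toNat, ?_⟩
      rw [← WithZero.log_le_iff_le_exp hy]
      exact Int.self_le_toNat _
  choose c hc using fun i j => key (v (g i j))
  refine ⟨∑ i, ∑ j, c i j, fun i j => (hc i j).trans ?_⟩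
  rw [WithZero.exp_le_exp]
  norm_cast
  exact (Finset.single_le_sum (f := fun j => c i j) (fun _ _ => Nat.zero_le _)
    (Finset.mem_univ j)).trans
    (Finset.single_le_sum (f := fun i => ∑ j, c i j) (fun _ _ => Nat.zero_le _)
    (Finset.mem_univ i))

lemma nrm_mulVec {g : M2 F} {c : ℕ} (hg : ∀ i j, v (g i j) ≤ WithZero.exp (c : ℤ))
    (x : Fin 2 → F) : nrm v (g *ᵥ x) ≤ WithZero.exp (c : ℤ) * nrm v x := by
  rw [nrm_le_iff]
  intro i
  rw [Matrix.mulVec, dotProduct]
  refine v.map_sum_le fun j _ => ?_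
  rw [map_mul]
  exact mul_le_mul' (hg i j) (le_nrm v x j)

lemma PFm_mono {m m' : ℕ} (h : m ≤ m') {f : (Fin 2 → F) → ℂ} (hf : PFm v m f) :
    PFm v m' f := by
  refine ⟨hf.1, hf.2.1, fun x y hx hxy => hf.2.2 x y hx (hxy.trans ?_)⟩
  refine mul_le_mul' ?_ le_rfl
  rw [WithZero.exp_le_exp]
  omega

lemma PF_add {f f' : (Fin 2 → F) → ℂ} (hf : PF v f) (hf' : PF v f') : PF v (f + f') := by
  obtain ⟨m, hm⟩ := hf
  obtain ⟨m', hm'⟩ := hf'
  have h1 := PFm_mono v (le_max_left m m') hm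
  have h2 := PFm_mono v (le_max_right m m') hm'
  refine ⟨max m m', ?_, fun c x hc => ?_, fun x y hx hxy => ?_⟩
  · simp [h1.1, h2.1]
  · simp only [Pi.add_apply, h1.2.1 c x hc, h2.2.1 c x hc]
  · simp only [Pi.add_apply, h1.2.2 x y hx hxy, h2.2.2 x y hx hxy]

lemma PF_smul (c : ℂ) {f : (Fin 2 → F) → ℂ} (hf : PF v f) : PF v (c • f) := by
  obtain ⟨m, hm⟩ := hf
  refine ⟨m, ?_, fun a x ha => ?_, fun x y hx hxy => ?_⟩
  · simp [hm.1]
  · simp only [Pi.smul_apply, hm.2.1 a x ha]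
  · simp only [Pi.smul_apply, hm.2.2 x y hx hxy]

lemma PF_zero : PF v (0 : (Fin 2 → F) → ℂ) :=
  ⟨0, rfl, fun _ _ _ => rfl, fun _ _ _ _ => rfl⟩

lemma PF_sum {ι : Type} (s : Finset ι) {f : ι → (Fin 2 → F) → ℂ} (hf : ∀ i ∈ s, PF v (f i)) :
    PF v (∑ i ∈ s, f i) := by
  classical
  induction s using Finset.induction_on with
  | empty => simpa using PF_zero v
  | insert a s ha ih =>
    rw [Finset.sum_insert ha]
    exact PF_add v (hf a (Finset.mem_insert_self _ _))
      (ih fun i hi => hf i (Finset.mem_insert_of_mem hi))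

lemma exp_mul_exp' (a b : ℤ) : (WithZero.exp a : ℤᵐ⁰) * WithZero.exp b = WithZero.exp (a + b) :=
  (WithZero.exp_add a b).symm

lemma exp_le_one {a : ℤ} (h : a ≤ 0) : (WithZero.exp a : ℤᵐ⁰) ≤ 1 := by
  rw [← WithZero.exp_zero, WithZero.exp_le_exp]; exact h

lemma PFm_one1 : PFm v 1 (one1 F) := by
  refine ⟨by simp [one1], fun c x hc => ?_, fun x y hx hxy => ?_⟩
  · by_cases h : x = 0
    · simp [one1, h]
    · have h' : c • x ≠ 0 := smul_ne_zero hc h
      simp only [one1, if_neg h, if_neg h']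
  · have hy : y ≠ 0 := by
      rintro rfl
      rw [zero_sub] at hxy
      have h1 : nrm v (-x) = nrm v x := by simp [nrm]
      rw [h1] at hxy
      have h2 : (WithZero.exp (-((1 : ℕ) : ℤ)) : ℤᵐ⁰) * nrm v x < 1 * nrm v x := by
        have h3 : (0 : ℤᵐ⁰) < nrm v x := zero_lt_iff.2 (nrm_ne_zero v hx)
        refine mul_lt_mul_of_pos_right ?_ h3
        rw [← WithZero.exp_zero, WithZero.exp_lt_exp]; norm_num
      rw [one_mul] at h2
      exact absurd hxy (not_le.2 h2)
    simp [one1, hx, hy]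

lemma PF_one1 : PF v (one1 F) := ⟨1, PFm_one1 v⟩

lemma PF_act (g : G2 F) {f : (Fin 2 → F) → ℂ} (hf : PF v f) : PF v (act g f) := by
  obtain ⟨m, hm⟩ := hf
  obtain ⟨c, hc⟩ := exists_bound v ((g⁻¹ : G2 F) : M2 F)
  obtain ⟨d, hd⟩ := exists_bound v (g : M2 F)
  refine ⟨m + c + d, ?_, fun a x ha => ?_, fun x y hx hxy => ?_⟩
  · simp [act, hm.1]
  · simp only [act, Matrix.mulVec_smul]
    exact hm.2.1 a _ ha
  · simp only [act]
    refine hm.2.2 _ _ (fun h => hx ((mulVec_eq_zero_iff' _ _).1 h)) ?_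
    rw [← Matrix.mulVec_sub]
    have h1 := nrm_mulVec v hc (y - x)
    have h2 := nrm_mulVec v hd (((g⁻¹ : G2 F) : M2 F) *ᵥ x)
    rw [Matrix.mulVec_mulVec, ← Units.val_mul, mul_inv_cancel, Units.val_one,
      Matrix.one_mulVec] at h2
    calc nrm v (((g⁻¹ : G2 F) : M2 F) *ᵥ (y - x)) ≤ WithZero.exp (c : ℤ) * nrm v (y - x) := h1
      _ ≤ WithZero.exp (c : ℤ) * (WithZero.exp (-((m + c + d : ℕ) : ℤ)) * nrm v x) := by gcongr
      _ ≤ WithZero.exp (c : ℤ) * (WithZero.exp (-((m + c + d : ℕ) : ℤ)) *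
          (WithZero.exp (d : ℤ) * nrm v (((g⁻¹ : G2 F) : M2 F) *ᵥ x))) := by gcongr
      _ = (WithZero.exp (c : ℤ) * (WithZero.exp (-((m + c + d : ℕ) : ℤ)) *
          WithZero.exp (d : ℤ))) * nrm v (((g⁻¹ : G2 F) : M2 F) *ᵥ x) := by
          simp only [mul_assoc]
      _ = WithZero.exp (-(m : ℤ)) * nrm v (((g⁻¹ : G2 F) : M2 F) *ᵥ x) := by
          rw [exp_mul_exp', exp_mul_exp']
          congr 2
          push_cast
          ring

/-- elements of `Cong v m` fix functions of level `m` -/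
lemma act_cong {m : ℕ} {f : (Fin 2 → F) → ℂ} (hf : PFm v m f) {u : G2 F} (hu : u ∈ Cong v m) :
    act u f = f := by
  funext x
  rcases eq_or_ne x 0 with rfl | hx
  · simp [act]
  · simp only [act]
    refine hf.2.2 x _ hx ?_
    have h1 : ((u⁻¹ : G2 F) : M2 F) *ᵥ x - x = (((u⁻¹ : G2 F) : M2 F) - 1) *ᵥ x := by
      rw [Matrix.sub_mulVec, Matrix.one_mulVec]
    rw [h1, nrm_le_iff]
    intro i
    rw [Matrix.mulVec, dotProduct]
    refine v.map_sum_le fun j _ => ?_
    rw [map_mul]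
    exact mul_le_mul' (hu i j).2 (le_nrm v x j)

end loc

section glob

variable {K : Type} [Field K] {P : Type} {L : P → Type} [∀ p, Field (L p)]
  (val : ∀ p, Valuation (L p) ℤᵐ⁰) (emb : ∀ p, K →+* L p) (inf : P)

lemma GA_mul_apply (g h : GA val) (p : P) : ((g * h : GA val) : ∀ p, G2 (L p)) p =
    (g : ∀ p, G2 (L p)) p * (h : ∀ p, G2 (L p)) p := rfl

lemma GA_one_apply (p : P) : ((1 : GA val) : ∀ p, G2 (L p)) p = 1 := rfl

lemma GA_inv_apply (g : GA val) (p : P) : ((g⁻¹ : GA val) : ∀ p, G2 (L p)) p =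
    ((g : ∀ p, G2 (L p)) p)⁻¹ := rfl

lemma GA_ext {g h : GA val} (H : ∀ p, (g : ∀ p, G2 (L p)) p = (h : ∀ p, G2 (L p)) p) : g = h :=
  Subtype.ext (funext H)

lemma loc_same (p : P) (g : G2 (L p)) : ((loc val p g : GA val) : ∀ p, G2 (L p)) p = g := by
  classical
  exact Pi.mulSingle_eq_same (M := fun q => G2 (L q)) p g

lemma loc_ne {p q : P} (h : q ≠ p) (g : G2 (L p)) :
    ((loc val p g : GA val) : ∀ p, G2 (L p)) q = 1 := by
  classical
  exact Pi.mulSingle_eq_of_ne (M := fun q => G2 (L q)) h g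

lemma cj_mul (g h : GA val) (Y : ∀ p, M2 (L p)) : cj val (g * h) Y = cj val h (cj val g Y) := by
  funext p
  simp only [cj, GA_mul_apply, _root_.mul_inv_rev, Units.val_mul, Matrix.mul_assoc]

lemma cj_one_rep (Y : ∀ p, M2 (L p)) : cj val (1 : GA val) Y = Y := by
  funext p
  simp only [cj, GA_one_apply, inv_one, Units.val_one, Matrix.one_mul, Matrix.mul_one]

variable {inf} in
lemma cj_loc_ne {p q : P} (h : q ≠ p) (g : G2 (L p)) (Y : ∀ p, M2 (L p)) :
    cj val (loc val p g) Y q = Y q := by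
  simp only [cj, loc_ne val h, inv_one, Units.val_one, Matrix.one_mul, Matrix.mul_one]

lemma RT_RT (g h : GA val) (φ : GA val → ℂ) : RT val g (RT val h φ) = RT val (g * h) φ := by
  funext x
  simp only [RT, mul_assoc]

lemma RT_one (φ : GA val → ℂ) : RT val 1 φ = φ := by
  funext x
  simp only [RT, mul_one]

lemma RT_add (g : GA val) (φ ψ : GA val → ℂ) : RT val g (φ + ψ) = RT val g φ + RT val g ψ := rfl

lemma RT_smul (g : GA val) (c : ℂ) (φ : GA val → ℂ) : RT val g (c • φ) = c • RT val g φ := rfl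

lemma RT_sum {ι : Type} (s : Finset ι) (g : GA val) (φ : ι → GA val → ℂ) :
    RT val g (∑ i ∈ s, φ i) = ∑ i ∈ s, RT val g (φ i) := by
  funext x
  simp only [RT, Finset.sum_apply]

/-- **Equivariance** of the series. -/
theorem RT_theta (τ ν : K) (α β : L inf) (f : (Fin 2 → L inf) → ℂ)
    (Φ : (∀ p, M2 (L p)) → ℂ) (h : GA val) :
    RT val h (theta val emb inf τ ν α β f Φ) =
      theta val emb inf τ ν α β (act ((h : ∀ p, G2 (L p)) inf) f) (fun Y => Φ (cj val h Y)) := by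
  funext g
  simp only [RT, theta, term, GA_mul_apply, act_mul, cj_mul]

/-- A Schwartz function does not change under conjugation at `inf`. -/
lemma SB_loc_inf {Φ : (∀ p, M2 (L p)) → ℂ} (hΦ : SB val inf Φ) (g : G2 (L inf)) :
    (fun Y => Φ (cj val (loc val inf g) Y)) = Φ := by
  funext Y
  exact hΦ.2.2 _ _ fun p hp => cj_loc_ne val hp g Y

theorem RT_theta_inf (τ ν : K) (α β : L inf) (f : (Fin 2 → L inf) → ℂ)
    {Φ : (∀ p, M2 (L p)) → ℂ} (hΦ : SB val inf Φ) (g : G2 (L inf)) :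
    RT val (loc val inf g) (theta val emb inf τ ν α β f Φ) =
      theta val emb inf τ ν α β (act g f) Φ := by
  rw [RT_theta, SB_loc_inf val inf hΦ, loc_same]

/-- Conjugation of `SB` functions is functorial. -/
lemma SB_cj_mul (Φ : (∀ p, M2 (L p)) → ℂ) (g h : GA val) :
    (fun Y => (fun Y' => Φ (cj val h Y')) (cj val g Y)) = fun Y => Φ (cj val (g * h) Y) := by
  funext Y
  rw [cj_mul]

lemma ev_ne_zero {F : Type} [Field F] {β : F} (Y : M2 F) (h : Y ≠ Matrix.scalar (Fin 2) β) :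
    ev β Y ≠ 0 := by
  rw [ev]
  split_ifs with h1
  · obtain ⟨i, hi⟩ := h1
    exact fun h0 => hi (congrFun h0 i)
  · intro h0
    apply h
    push Not at h1
    rw [← sub_eq_zero]
    ext i j
    fin_cases j
    · exact h1 i
    · exact congrFun h0 i

/-- `X` is not scalar when its characteristic polynomial has distinct roots. -/
lemma not_scalar {F : Type} [Field F] {α β γ : F} (hne : α ≠ β) {Y : M2 F}
    (h1 : Y.trace = α + β) (h2 : Y.det = α * β) : Y ≠ Matrix.scalar (Fin 2) γ := by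
  rintro rfl
  have h3 : γ + γ = α + β := by
    rw [← h1]; simp [Matrix.trace, two_mul]
  have h4 : γ * γ = α * β := by
    rw [← h2]; simp [pow_two]
  have h5 : (α - γ) * (β - γ) = 0 := by
    linear_combination -h4 + γ * h3
  rcases mul_eq_zero.1 h5 with h6 | h6
  · apply hne
    linear_combination 2 * h6 + h3
  · apply hne
    linear_combination -2 * h6 - h3

lemma atp_trace {τ ν : K} (X : SX K τ ν) (p : P) : (atp emb p X.1).trace = emb p τ := by
  have h := congrArg (emb p) X.2.1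
  refine Eq.trans ?_ h
  simp [atp, Matrix.trace_fin_two]

lemma atp_det {τ ν : K} (X : SX K τ ν) (p : P) : (atp emb p X.1).det = emb p ν := by
  have h := congrArg (emb p) X.2.2
  refine Eq.trans ?_ h
  simp [atp, Matrix.det_fin_two]

/-- The series is linear in `f`. -/
theorem theta_add (hC : S_Fin) (hM : S_Conj) (hG : Good val emb inf) {τ ν : K} {α β : L inf}
    (hne : α ≠ β) (h1 : α + β = emb inf τ) (h2 : α * β = emb inf ν)
    {f f' : (Fin 2 → L inf) → ℂ} (hf : PF (val inf) f) (hf' : PF (val inf) f')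
    {Φ : (∀ p, M2 (L p)) → ℂ} (hΦ : SB val inf Φ) :
    theta val emb inf τ ν α β (f + f') Φ =
      theta val emb inf τ ν α β f Φ + theta val emb inf τ ν α β f' Φ := by
  funext g
  have e : ∀ {f : (Fin 2 → L inf) → ℂ}, PF (val inf) f →
      (Function.support fun X : SX K τ ν => term val emb inf α β f Φ g X).Finite := fun {f} hf =>
    hC K P L val emb inf hG τ ν α β hne h1 h2 (act ((g : ∀ p, G2 (L p)) inf) f)
      (PF_act _ _ hf) (fun Y => Φ (cj val g Y)) (hM P L val inf Φ hΦ g)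
  simp only [theta, Pi.add_apply]
  rw [← finsum_add_distrib (e hf) (e hf')]
  refine finsum_congr fun X => ?_
  simp only [term, act_add, Pi.add_apply]
  ring

theorem theta_smul {τ ν : K} {α β : L inf} (c : ℂ) (f : (Fin 2 → L inf) → ℂ)
    (Φ : (∀ p, M2 (L p)) → ℂ) :
    theta val emb inf τ ν α β (c • f) Φ = c • theta val emb inf τ ν α β f Φ := by
  funext g
  have h : ∀ X : SX K τ ν, term val emb inf α β (c • f) Φ g X =
      c • term val emb inf α β f Φ g X := by
    intro X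
    simp only [term, act_smul, Pi.smul_apply, smul_eq_mul]
    ring
  simp only [theta, Pi.smul_apply, h]
  exact (smul_finsum c _).symm

theorem theta_one1 {τ ν : K} {α β : L inf}
    (hne : α ≠ β) (h1 : α + β = emb inf τ) (h2 : α * β = emb inf ν)
    (Φ : (∀ p, M2 (L p)) → ℂ) :
    theta val emb inf τ ν α β (one1 (L inf)) Φ = 0 := by
  funext g
  simp only [theta, Pi.zero_apply]
  have : ∀ X : SX K τ ν, term val emb inf α β (one1 (L inf)) Φ g X = 0 := by
    intro X
    simp only [term, act_one1]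
    have hs : ∀ γ, atp emb inf X.1 ≠ Matrix.scalar (Fin 2) γ := fun γ =>
      not_scalar hne (by rw [atp_trace, h1]) (by rw [atp_det, h2])
    have e1 := ev_ne_zero _ (hs α)
    have e2 := ev_ne_zero _ (hs β)
    simp [one1, e1, e2]
  simp only [this, finsum_zero]

end glob

end

end Pool.Agent.U283.LL
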