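import Pool.Agent.U283.LL.Defs

/-!
# Project LL: the packages

Each `S_X : Prop` below is one package.  All of them are true (paper proofs in table `ideas`).
-/

set_option autoImplicit false

open scoped WithZero Matrix
open Matrix

namespace Pool.Agent.U283.LL

noncomputable section

/-- Package A: irreducibility of the Steinberg representation, as a statement on functions on
`P¹(F)`. -/
def S_Irr : Prop := ∀ (F : Type) [Field F] (v : Valuation F ℤᵐ⁰), LocalHyp v →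
  ∀ W : Submodule ℂ ((Fin 2 → F) → ℂ), (∀ f ∈ W, PF v f) → (∀ g, ∀ f ∈ W, act g f ∈ W) →
    one1 F ∈ W → (∀ f ∈ W, ∃ c : ℂ, f = c • one1 F) ∨ ∀ f, PF v f → f ∈ W

/-- Package B: averaging over representatives of `GL₂(O) / Cong m`. -/
def S_Avg : Prop := ∀ (F : Type) [Field F] (v : Valuation F ℤᵐ⁰), LocalHyp v →
  ∀ m : ℕ, ∃ T : Finset (G2 F), T.Nonempty ∧ (∀ k ∈ T, k ∈ Cong v 0) ∧
    ∀ f, PFm v m f → ∃ c : ℂ, ∑ k ∈ T, act k f = c • one1 F

/-- Package C: local finiteness of the series. -/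
def S_Fin : Prop := ∀ (K : Type) [Field K] (P : Type) (L : P → Type) [∀ p, Field (L p)]
  (val : ∀ p, Valuation (L p) ℤᵐ⁰) (emb : ∀ p, K →+* L p) (inf : P), Good val emb inf →
  ∀ (τ ν : K) (α β : L inf), α ≠ β → α + β = emb inf τ → α * β = emb inf ν →
  ∀ f, PF (val inf) f → ∀ Φ, SB val inf Φ →
    {X : SX K τ ν | (f (ev β (atp emb inf X.1)) - f (ev α (atp emb inf X.1))) *
      Φ (fun p => atp emb p X.1) ≠ 0}.Finite

/-- Package D: the constant term vanishes when no matrix `X` is upper triangular. -/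
def S_Cusp : Prop := ∀ (K : Type) [Field K] (P : Type) (L : P → Type) [∀ p, Field (L p)]
  (val : ∀ p, Valuation (L p) ℤᵐ⁰) (emb : ∀ p, K →+* L p) (inf : P), Good val emb inf →
  ∀ (τ ν : K) (α β : L inf), α ≠ β → α + β = emb inf τ → α * β = emb inf ν →
  (∀ X : SX K τ ν, X.1 1 0 ≠ 0) →
  ∀ f, PF (val inf) f → ∀ Φ, SB val inf Φ →
    ∃ (n : P →₀ ℕ) (E : Finset (Adele val)),
    (∀ x w : Adele val, (∀ p, val p ((w : ∀ p, L p) p) ≤ WithZero.exp (-(n p : ℤ))) →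
      theta val emb inf τ ν α β f Φ (uni val (x + w)) =
        theta val emb inf τ ν α β f Φ (uni val x)) ∧
    (∀ x : Adele val, ∃! e, e ∈ E ∧ ∃ k : K, ∀ p,
      val p ((x : ∀ p, L p) p - (e : ∀ p, L p) p - emb p k) ≤ WithZero.exp (-(n p : ℤ))) ∧
    ∑ e ∈ E, theta val emb inf τ ν α β f Φ (uni val e) = 0

/-- Package E: the series for idempotents near the cusp. -/
def S_Asym : Prop := ∀ (K : Type) [Field K] (P : Type) (L : P → Type) [∀ p, Field (L p)]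
  (val : ∀ p, Valuation (L p) ℤᵐ⁰) (emb : ∀ p, K →+* L p) (inf : P), Good val emb inf →
  ∀ (T : (L inf)ˣ), val inf (T : L inf) = WithZero.exp (1 : ℤ) →
  ∀ f, PF (val inf) f → ∀ Φ, SB val inf Φ →
    ∃ n₀ : ℕ, ∀ n ≥ n₀, theta val emb inf (1 : K) 0 1 0 f Φ (aN val inf T n) =
      ∑ᶠ y : K, (f (vec 1 0) - f (vec (((T : L inf) ^ n)⁻¹ * emb inf y) 1)) *
        (Φ (fun p => !![1, -emb p y; 0, 0]) - Φ (fun p => !![0, emb p y; 0, 1]))

/-- Package F: the Hecke relation for the counts. -/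
def S_Hecke : Prop := ∀ (K : Type) [Field K] (P : Type) (L : P → Type) [∀ p, Field (L p)]
  (val : ∀ p, Valuation (L p) ℤᵐ⁰) (emb : ∀ p, K →+* L p) (inf : P), Good val emb inf →
  ∀ pp, pp ≠ inf → ∀ (T : (L inf)ˣ), val inf (T : L inf) = WithZero.exp (1 : ℤ) →
  ∀ f₁, PF (val inf) f₁ → ∀ f₂, PF (val pp) f₂ → ∀ g : GA val,
  ∀ p, p ≠ inf → p ≠ pp → ∀ (ϖ : (L p)ˣ), val p (ϖ : L p) = WithZero.exp (-1 : ℤ) →
  ∀ E : Finset (L p), IsReps (val p) 1 E →
    ∃ n₀ : ℕ, ∀ n ≥ n₀,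
      ∑ c ∈ E, cnt val emb inf pp T f₁ f₂ (g * loc val p (upper ϖ c 1)) n +
        cnt val emb inf pp T f₁ f₂ (g * loc val p (upper 1 0 ϖ)) n =
      ((E.card : ℂ) + 1) * cnt val emb inf pp T f₁ f₂ g n

/-- Package G: the properties of the global field `𝔽₂(t)`. -/
def S_Good : Prop := Good val0 emb0 none

/-- Package H: data for a nonzero cusp form. -/
def S_Data : Prop := ∃ (τ ν : K0) (α β : L0 none) (f : (Fin 2 → L0 none) → ℂ)
    (Φ : (∀ p, M2 (L0 p)) → ℂ),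
  α ≠ β ∧ α + β = emb0 none τ ∧ α * β = emb0 none ν ∧ (∀ X : SX K0 τ ν, X.1 1 0 ≠ 0) ∧
  PF (val0 none) f ∧ SB val0 none Φ ∧ theta val0 emb0 none τ ν α β f Φ 1 ≠ 0

/-- Package I: `PhiE f₂` is a Schwartz function. -/
def S_Phi : Prop := ∀ (P : Type) (L : P → Type) [∀ p, Field (L p)]
  (val : ∀ p, Valuation (L p) ℤᵐ⁰) (inf : P) (pp : P), pp ≠ inf →
  ∀ f₂, PF (val pp) f₂ → SB val inf (PhiE val inf pp f₂)

/-- Package J: left invariance under `GL₂(K)`. -/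
def S_Left : Prop := ∀ (K : Type) [Field K] (P : Type) (L : P → Type) [∀ p, Field (L p)]
  (val : ∀ p, Valuation (L p) ℤᵐ⁰) (emb : ∀ p, K →+* L p) (inf : P),
  ∀ (τ ν : K) (α β : L inf), α ≠ β → α + β = emb inf τ → α * β = emb inf ν →
  ∀ f, PF (val inf) f → ∀ Φ, LeftInv val emb (theta val emb inf τ ν α β f Φ)

/-- Package M: conjugates of Schwartz functions are Schwartz functions. -/
def S_Conj : Prop := ∀ (P : Type) (L : P → Type) [∀ p, Field (L p)]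
  (val : ∀ p, Valuation (L p) ℤᵐ⁰) (inf : P), ∀ Φ, SB val inf Φ → ∀ h : GA val,
    SB val inf (fun Y => Φ (cj val h Y))

/-- Package K: in an irreducible representation `π` of a group `G` which is generated by the image
of `GL₂(F)` and its centraliser, a `GL₂(O)`-fixed vector with the Hecke eigenvalues of the trivial
representation is fixed by `GL₂(F)`. -/
def S_Triv : Prop := ∀ (F : Type) [Field F] (v : Valuation F ℤᵐ⁰), LocalHyp v →
  ∀ (G : Type) [Group G] (π : CRep G), Irred π → ∀ (ι : G2 F →* G),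
  (∀ g : G, ∃ (h : G2 F) (c : G), g = ι h * c ∧ ∀ h', c * ι h' = ι h' * c) →
  (∀ x : π.V, ∃ n : ℕ, ∀ k ∈ Cong v n, π.ρ (ι k) x = x) →
  ∀ (ϖ : Fˣ), v (ϖ : F) = WithZero.exp (-1 : ℤ) → ∀ E : Finset F, IsReps v 1 E →
  ∀ w : π.V, (∀ k ∈ Cong v 0, π.ρ (ι k) w = w) →
  ∑ c ∈ E, π.ρ (ι (upper ϖ c 1)) w + π.ρ (ι (upper 1 0 ϖ)) w = ((E.card : ℂ) + 1) • w →
  π.ρ (ι (upper ϖ 0 ϖ)) w = w →
  ∀ h, π.ρ (ι h) w = w

end

end Pool.Agent.U283.LL
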