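import Pool.Agent.U283.LL.Spec

/-!
# Project LL: the packages of the assembly
-/

set_option autoImplicit false

open scoped WithZero Matrix
open Matrix

namespace Pool.Agent.U283.LL

noncomputable section

/-- Package N: finite sums of series have finite length at `inf`. -/
def S_Len : Prop := ∀ (K : Type) [Field K] (P : Type) (L : P → Type) [∀ p, Field (L p)]
  (val : ∀ p, Valuation (L p) ℤᵐ⁰) (emb : ∀ p, K →+* L p) (inf : P), Good val emb inf →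
  ∀ (τ ν : K) (α β : L inf), α ≠ β → α + β = emb inf τ → α * β = emb inf ν →
  ∀ (ι : Type) (s : Finset ι) (f : ι → (Fin 2 → L inf) → ℂ) (Φ : ι → (∀ p, M2 (L p)) → ℂ),
  (∀ i ∈ s, PF (val inf) (f i)) → (∀ i ∈ s, SB val inf (Φ i)) →
  FinLen val inf (∑ i ∈ s, theta val emb inf τ ν α β (f i) (Φ i))

/-- Package D2: finite sums of series have zero constant term when no matrix `X` is upper
triangular. -/
def S_Cusp2 : Prop := ∀ (K : Type) [Field K] (P : Type) (L : P → Type) [∀ p, Field (L p)]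
  (val : ∀ p, Valuation (L p) ℤᵐ⁰) (emb : ∀ p, K →+* L p) (inf : P), Good val emb inf →
  ∀ (τ ν : K) (α β : L inf), α ≠ β → α + β = emb inf τ → α * β = emb inf ν →
  (∀ X : SX K τ ν, X.1 1 0 ≠ 0) →
  ∀ (ι : Type) (s : Finset ι) (f : ι → (Fin 2 → L inf) → ℂ) (Φ : ι → (∀ p, M2 (L p)) → ℂ),
  (∀ i ∈ s, PF (val inf) (f i)) → (∀ i ∈ s, SB val inf (Φ i)) →
  ConstTermZero val emb (∑ i ∈ s, theta val emb inf τ ν α β (f i) (Φ i))

/-- Package Z: irreducible quotients. -/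
def S_Zorn : Prop := ∀ (G : Type) [Group G] (r : CRep G) (Z : Submodule ℂ r.V),
  (∀ g, ∀ w ∈ Z, r.ρ g w ∈ Z) → ∀ x0 : r.V, x0 ∉ Z →
  (∀ W : Submodule ℂ r.V, (∀ g, ∀ w ∈ W, r.ρ g w ∈ W) → x0 ∈ W → W = ⊤) →
  ∃ (π : CRep G) (T : r.V →ₗ[ℂ] π.V), Function.Surjective T ∧
    (∀ g x, T (r.ρ g x) = π.ρ g (T x)) ∧ Irred π ∧ (∀ z ∈ Z, T z = 0) ∧ T x0 ≠ 0

/-- Package ST: the Steinberg representation. -/
def S_St : Prop := ∀ (F : Type) [Field F] (v : Valuation F ℤᵐ⁰), LocalHyp v →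
  ∃ (a : IrrRep v) (Q : ((Fin 2 → F) → ℂ) → a.rep.V),
    (∀ f g, PF v f → PF v g → Q (f + g) = Q f + Q g) ∧
    (∀ (c : ℂ) f, PF v f → Q (c • f) = c • Q f) ∧
    (∀ g f, PF v f → Q (act g f) = a.rep.ρ g (Q f)) ∧
    (∀ x, ∃ f, PF v f ∧ Q f = x) ∧
    (∀ f, PF v f → (Q f = 0 ↔ ∃ c : ℂ, f = c • one1 F)) ∧
    ¬ Unram v a.rep

end

end Pool.Agent.U283.LL
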