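import Pool.Agent.U283.LL.Rep

/-!
# Project LL: the last packages of the assembly
-/

set_option autoImplicit false

open scoped WithZero Matrix
open Matrix

namespace Pool.Agent.U283.LL

noncomputable section

open scoped Classical in
/-- the indicator function of `{v x > v y}` -/
def ind1 {F : Type} [Field F] (v : Valuation F ℤᵐ⁰) : (Fin 2 → F) → ℂ :=
  fun x => if v (x 1) < v (x 0) then 1 else 0

/-- the series for idempotents -/
def phi0 {K : Type} [Field K] {P : Type} {L : P → Type} [∀ p, Field (L p)]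
    (val : ∀ p, Valuation (L p) ℤᵐ⁰) (emb : ∀ p, K →+* L p) (inf pp : P)
    (f₁ : (Fin 2 → L inf) → ℂ) (f₂ : (Fin 2 → L pp) → ℂ) : GA val → ℂ :=
  theta val emb inf (1 : K) 0 1 0 f₁ (PhiE val inf pp f₂)

/-- Package Q1: values of all translates near the cusp. -/
def S_Q1 : Prop := ∀ (K : Type) [Field K] (P : Type) (L : P → Type) [∀ p, Field (L p)]
  (val : ∀ p, Valuation (L p) ℤᵐ⁰) (emb : ∀ p, K →+* L p) (inf : P), Good val emb inf →
  ∀ pp, pp ≠ inf → ∀ (T : (L inf)ˣ), val inf (T : L inf) = WithZero.exp (1 : ℤ) →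
  ∀ f₁, PF (val inf) f₁ → ∀ f₂, PF (val pp) f₂ → ∀ g : GA val,
    ∃ n₀ : ℕ, ∀ n ≥ n₀, phi0 val emb inf pp f₁ f₂ (aN val inf T n * g) =
      2 * cnt val emb inf pp T (act ((g : ∀ p, G2 (L p)) inf) f₁)
        (act ((g : ∀ p, G2 (L p)) pp) f₂) g n

/-- Package Q2: the Hecke relation near the cusp. -/
def S_Q2 : Prop := ∀ (K : Type) [Field K] (P : Type) (L : P → Type) [∀ p, Field (L p)]
  (val : ∀ p, Valuation (L p) ℤᵐ⁰) (emb : ∀ p, K →+* L p) (inf : P), Good val emb inf →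
  ∀ pp, pp ≠ inf → ∀ (T : (L inf)ˣ), val inf (T : L inf) = WithZero.exp (1 : ℤ) →
  ∀ f₁, PF (val inf) f₁ → ∀ f₂, PF (val pp) f₂ → ∀ g : GA val,
  ∀ p, p ≠ inf → p ≠ pp → ∀ (ϖ : (L p)ˣ), val p (ϖ : L p) = WithZero.exp (-1 : ℤ) →
  ∀ E : Finset (L p), IsReps (val p) 1 E →
    ∃ n₀ : ℕ, ∀ n ≥ n₀,
      ∑ c ∈ E, phi0 val emb inf pp f₁ f₂ (aN val inf T n * (g * loc val p (upper ϖ c 1))) +
        phi0 val emb inf pp f₁ f₂ (aN val inf T n * (g * loc val p (upper 1 0 ϖ))) =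
      ((E.card : ℂ) + 1) * phi0 val emb inf pp f₁ f₂ (aN val inf T n * g)

/-- Package Q3: nonvanishing of the counts for the indicator functions. -/
def S_Q3 : Prop :=
  (∀ (F : Type) [Field F] (v : Valuation F ℤᵐ⁰), LocalHyp v → PF v (ind1 v) ∧
    ∀ c : ℂ, ind1 v ≠ c • one1 F) ∧
  ∀ (K : Type) [Field K] (P : Type) (L : P → Type) [∀ p, Field (L p)]
  (val : ∀ p, Valuation (L p) ℤᵐ⁰) (emb : ∀ p, K →+* L p) (inf : P), Good val emb inf →
  ∀ pp, pp ≠ inf → ∀ (T : (L inf)ˣ), val inf (T : L inf) = WithZero.exp (1 : ℤ) →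
    ∀ n, cnt val emb inf pp T (ind1 (val inf)) (ind1 (val pp)) 1 n ≠ 0

/-- Package Q4: behaviour of `phi0` at the finite places. -/
def S_Q4 : Prop := ∀ (K : Type) [Field K] (P : Type) (L : P → Type) [∀ p, Field (L p)]
  (val : ∀ p, Valuation (L p) ℤᵐ⁰) (emb : ∀ p, K →+* L p) (inf : P), Good val emb inf →
  ∀ pp, pp ≠ inf → ∀ f₁, PF (val inf) f₁ → ∀ f₂, PF (val pp) f₂ →
    (∀ p, p ≠ inf → p ≠ pp → (∀ k ∈ Cong (val p) 0,
      RT val (loc val p k) (phi0 val emb inf pp f₁ f₂) = phi0 val emb inf pp f₁ f₂) ∧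
      ∀ ϖ : (L p)ˣ, RT val (loc val p (upper ϖ 0 ϖ)) (phi0 val emb inf pp f₁ f₂) =
        phi0 val emb inf pp f₁ f₂) ∧
    (∀ h : G2 (L pp), RT val (loc val pp h) (phi0 val emb inf pp f₁ f₂) =
      phi0 val emb inf pp f₁ (act h f₂)) ∧
    (∀ (T : Finset (G2 (L pp))) (c : ℂ), ∑ k ∈ T, act k f₂ = c • one1 (L pp) →
      ∑ k ∈ T, RT val (loc val pp k) (phi0 val emb inf pp f₁ f₂) = 0)

/-- The trivial representation. -/
def trivRep (G : Type) [Group G] : CRep G where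
  V := ℂ
  ρ := Representation.trivial ℂ G ℂ

/-- Package TR: the trivial representation is isobaric. -/
def S_Tr : Prop := ∀ (K : Type) [Field K] (P : Type) (L : P → Type) [∀ p, Field (L p)]
  (val : ∀ p, Valuation (L p) ℤᵐ⁰) (emb : ∀ p, K →+* L p),
  IsIsobaric val emb (trivRep (GA val)) ∧
  (∀ p, ∃ b : IrrRep (val p), b.rep = trivRep (G2 (L p)) ∧
    Component val p (trivRep (GA val)) b.rep ∧ Unram (val p) b.rep) ∧
  ∀ p, ∀ a : IrrRep (val p), (∀ g x, a.rep.ρ g x = x) →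
    Component val p (trivRep (GA val)) a.rep

end

end Pool.Agent.U283.LL
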